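import Pool.Agent.Lib.MP_b6945b_al.Rl.GDefs
import Pool.Agent.Lib.MP_b6945b_al.St.FrLB
import Pool.Agent.Lib.MP_b6945b_al.RelDefs

set_option autoImplicit false

/-!
Free action on an invariant subgroup: from characters to idempotents, and to local subgroups.
-/

namespace Pool.Agent.Lib.MP_b6945b_al.St

open IsLocalRing
open MonoidAlgebra (single)

section ring

variable {R G : Type} [CommRing R] [IsLocalRing R] [Group G] [Fintype G] {p : ℕ}
  {e : MonoidAlgebra R G}

/-- Copy `FreeB.conj`; the subgroup is `T.map (MulAut.conj g)`. -/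
lemma RelB.conj {D : Subgroup G} (h : RelB e D) (he : ∀ b, e * b = b * e) (g : G) :
    RelB e (D.map (MulAut.conj g).toMonoidHom) := by
  intro j hj h0 hs hb
  have m1 : ∀ s ∈ (D : Set G), g * s * g⁻¹ ∈ ((D.map (MulAut.conj g).toMonoidHom : Subgroup G) :
      Set G) := fun s hs => ⟨s, hs, rfl⟩
  have m2 : ∀ s ∈ ((D.map (MulAut.conj g).toMonoidHom : Subgroup G) : Set G),
      g⁻¹ * s * g ∈ (D : Set G) := fun s hs => frpg_mem_conj.1 hs
  obtain ⟨T, hTD, hT0, hT⟩ := h (cjRep R G g⁻¹ j) (by rw [← cjRep_mul, hj])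
    (fun e0 => h0 (by rw [← frpg_cj_inv g j, e0, map_zero]))
    (frpg_supp_cj hs fun s hs => by rw [inv_inv]; exact m1 s hs) (by
      have h1 : e * cjRep R G g⁻¹ j - cjRep R G g⁻¹ j = cjRep R G g⁻¹ (e * j - j) := by
        rw [map_sub, cjRep_mul, fixedBy_top_iff.2 he _ trivial]
      rw [h1, frpg_brT_cj (S := ((D.map (MulAut.conj g).toMonoidHom : Subgroup G) : Set G)) g⁻¹
        (fun s hs => by rw [inv_inv]; exact m2 s hs) (fun s hs => by rw [inv_inv]; exact m1 s hs)]
      exact idem_inMax_map _ hb)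
  refine ⟨T.map (MulAut.conj g).toMonoidHom, Subgroup.map_mono hTD, fun e0 => hT0 ?_,
    fun n hn hz u hu => ?_⟩
  · exact (Subgroup.map_eq_bot_iff_of_injective _ (MulAut.conj g).injective).1 e0
  have hn' : g⁻¹ * n * g ∈ Subgroup.normalizer (D : Set G) := by
    refine Subgroup.mem_normalizer_iff.2 fun x => ?_
    have h1 := Subgroup.mem_normalizer_iff.1 hn (g * x * g⁻¹)
    rw [frpg_mem_conj, frpg_mem_conj] at h1
    rw [show g⁻¹ * n * g * x * (g⁻¹ * n * g)⁻¹ = g⁻¹ * (n * (g * x * g⁻¹) * n⁻¹) * g by group,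
      ← h1, show g⁻¹ * (g * x * g⁻¹) * g = x by group]
  have key := hT (g⁻¹ * n * g) hn' ?_ (g⁻¹ * u * g) (frpg_mem_conj.1 hu)
  · refine ⟨frpg_mem_conj.2 ?_, fun hnu => (key.2 ?_).imp (fun e1 => ?_) fun e1 d hd => ?_⟩
    · rw [show g⁻¹ * (n * u * n⁻¹) * g = g⁻¹ * n * g * (g⁻¹ * u * g) * (g⁻¹ * n * g)⁻¹ by group]
      exact key.1
    · calc g⁻¹ * n * g * (g⁻¹ * u * g) = g⁻¹ * (n * u) * g := by group
        _ = _ := by rw [hnu]; group
    · calc u = g * (g⁻¹ * u * g) * g⁻¹ := by group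
        _ = 1 := by rw [e1]; group
    · calc n * d = g * (g⁻¹ * n * g * (g⁻¹ * d * g)) * g⁻¹ := by group
        _ = d * n := by rw [e1 _ (m2 d hd)]; group
  · intro z hz1 hz2
    have h1 := frpg_nilR_cj g⁻¹ (hz (cjRep R G g z) (frpg_supp_cj hz1 m2)
      (frpg_fix_cj hz2 fun t ht s hs => ?_))
    · rwa [cjRep_mul, map_sub, frpg_inv_cj, frpg_cj_cj, frpg_cj_cj] at h1
    · calc s * (g⁻¹ * t * g) = g⁻¹ * (g * s * g⁻¹ * t) * g := by group
        _ = g⁻¹ * t * g * s := by rw [ht _ (m1 s hs)]; group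

/-- Copy `FreeB.local`; the subgroup is `T.comap L.subtype`. -/
lemma RelB.local (hp : p.Prime) (hpR : (p : R) ∈ maximalIdeal R) {L : Subgroup G} [Fintype L]
    {D : Subgroup L} (hD : IsPGroup p D) (h : RelB e (D.map L.subtype))
    (hC : Subgroup.centralizer ((D.map L.subtype : Subgroup G) : Set G) ≤ L)
    (he : ∀ b, e * b = b * e) {e' : MonoidAlgebra R L} (he' : ∀ b, e' * b = b * e')
    (hb : InMax R (brT R ((D.map L.subtype : Subgroup G) : Set G)
      (e * inc R L.subtype e' - inc R L.subtype e'))) : RelB e' D := by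
  intro j hj h0 hs hb'
  have hTL : D.map L.subtype ≤ L := Subgroup.map_subtype_le D
  have hs' : SuppCent ((D.map L.subtype : Subgroup G) : Set G) (inc R L.subtype j) := by
    refine frchar_supp_inc fun y hy s hs1 => ?_
    obtain ⟨t, ht, rfl⟩ := hs1
    exact congrArg Subtype.val (hs y hy t ht)
  have hbr : InMax R (brT R ((D.map L.subtype : Subgroup G) : Set G)
      (e * inc R L.subtype j - inc R L.subtype j)) := by
    have h1 := idem_inMax_map (inc R L.subtype).toLinearMap hb'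
    rw [AlgHom.toLinearMap_apply, ← frchar_brT_inc, map_sub, map_mul, map_sub, brT_mul_right hs',
      brT_of_suppCent hs'] at h1
    have h2 := brT_mul hp hpR (hD.map L.subtype) (frchar_fix_cent he _) (frchar_fix_inc he' hTL)
    rw [map_sub] at hb
    rw [map_sub, brT_mul_right hs', brT_of_suppCent hs']
    generalize brT R ((D.map L.subtype : Subgroup G) : Set G) e = E at *
    generalize brT R ((D.map L.subtype : Subgroup G) : Set G) (inc R L.subtype e') = A at *
    generalize brT R ((D.map L.subtype : Subgroup G) : Set G) (e * inc R L.subtype e') = X at *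
    generalize inc R L.subtype j = J at *
    have e1 : E * J - J = (X - A) * J - (X - E * A) * J + (A * J - J) - E * (A * J - J) := by
      noncomm_ring
    rw [e1]
    exact sub_mem (add_mem (sub_mem (idem_inMax_mul_right J hb) (idem_inMax_mul_right J h2)) h1)
      (idem_inMax_mul_left E h1)
  obtain ⟨T, hTD, hT0, hT⟩ := h (inc R L.subtype j) (by rw [← map_mul, hj])
    (fun e0 => h0 (by rw [← pull_inc (R := R) L.subtype_injective j, e0, map_zero])) hs' hbr
  refine ⟨T.comap L.subtype, fun u hu => ?_, fun e0 => hT0 ?_, fun n hn hz u hu => ?_⟩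
  · obtain ⟨t, ht, e1⟩ := hTD hu
    rwa [← L.subtype_injective e1]
  · refine eq_bot_iff.2 fun u hu => ?_
    have h1 : (⟨u, hTL (hTD hu)⟩ : L) ∈ T.comap L.subtype := hu
    rw [e0] at h1
    exact congrArg Subtype.val (Subgroup.mem_bot.1 h1)
  have key := hT n (Subgroup.le_normalizer_map L.subtype ⟨n, hn, rfl⟩) ?_ u hu
  · exact ⟨key.1, fun hnu => (key.2 (congrArg Subtype.val hnu)).imp (fun e1 => Subtype.ext e1)
      fun e1 d hd => Subtype.ext (e1 d ⟨d, hd, rfl⟩)⟩
  · intro z hz1 hz2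
    have h1 : inc R L.subtype (pull R L.subtype z) = z :=
      inc_pull L.subtype_injective (frchar_supp_range hC hz1)
    have h2 := (hz (pull R L.subtype z) (fun y hy s hs1 => ?_) fun c hc => ?_).map
      (inc R L.subtype)
    · rwa [map_mul, map_sub, frchar_inc_cj, h1] at h2
    · rw [coeff_pull] at hy
      exact Subtype.ext (hz1 _ hy s ⟨s, hs1, rfl⟩)
    · rw [← pull_cjRep, hz2]
      rintro _ ⟨t, ht, rfl⟩
      exact congrArg Subtype.val (hc t ht)

end ring

variable {G : Type} [Group G] [Fintype G] {V : ValuationSubring ℂ} {p : ℕ} [Fact p.Prime]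
  {I : IrrData G} {i : Fin I.n} {e : MonoidAlgebra V G}

/-- Copy `freeB_of_freeInertia`. -/
theorem relB_of_relInertia (hp : (p : ℂ) ∈ V.nonunits) {M : Ideal (integralClosure ℤ ℂ)}
    (hV : ∀ a : ℂ, IsIntegral ℤ a → (InIdeal M a ↔ a ∈ V.nonunits)) (he : IsBlockIdem I i e)
    {D : Subgroup G} (hD : IsPGroup p D) (h : RelInertia M (I.χ i) D) : RelB e D := by
  intro j hj h0 hs hb
  let _ : Fintype (Subgroup.centralizer (D : Set G)) := Fintype.ofFinite _
  obtain ⟨I'⟩ := exists_irrData (Subgroup.centralizer (D : Set G))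
  have hinj := (Subgroup.centralizer (D : Set G)).subtype_injective
  have hsup := frchar_supp_range le_rfl hs
  have hj0 := inc_pull hinj hsup
  obtain ⟨l, hl⟩ := exists_om_of_idem I' (j := pull V (Subgroup.centralizer (D : Set G)).subtype j)
    (by rw [← pull_mul_left hinj hsup, hj]) (fun e0 => h0 (by rw [← hj0, e0, map_zero]))
  have hind := indV_of_below hp he hD rfl hs hb hl
  obtain ⟨T, hTD, hT0, hT⟩ :=
    h (I'.χ l) ((isIrrChar_iff I').2 ⟨l, rfl⟩) ((kr1b_indTo_iff hV I i I' l).2 hind)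
  refine ⟨T, hTD, hT0, fun n hn hz u hu => (hT n hn (fun x => ?_) u hu).imp id
    fun e0 hnu => (e0 hnu).imp id fun e1 d hd => (e1 d hd).symm⟩
  have hσ : ∀ y : Subgroup.centralizer (D : Set G),
      n⁻¹ * y * n ∈ Subgroup.centralizer (D : Set G) := by
    intro y s hs1
    have h1 := y.2 _ ((Subgroup.mem_normalizer_iff.1 hn s).1 hs1)
    calc s * (n⁻¹ * y * n) = n⁻¹ * (n * s * n⁻¹ * y) * n := by group
      _ = n⁻¹ * y * n * s := by rw [h1]; group
  have hS : ∀ y : Subgroup.centralizer (D : Set G),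
      (∃ z : Subgroup.centralizer (D : Set G), IsConj x z ∧ (y : G) = n * z * n⁻¹) ↔
        IsConj x ⟨_, hσ y⟩ := by
    intro y
    constructor
    · rintro ⟨z, hz1, hz2⟩
      have h1 : (⟨_, hσ y⟩ : Subgroup.centralizer (D : Set G)) = z :=
        Subtype.ext (show n⁻¹ * y * n = z by rw [hz2]; group)
      rwa [h1]
    · intro h1
      exact ⟨_, h1, show (y : G) = n * (n⁻¹ * y * n) * n⁻¹ by group⟩
  have hS' : ∀ c y : Subgroup.centralizer (D : Set G),
      (∃ z : Subgroup.centralizer (D : Set G), IsConj x z ∧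
        ((c * y * c⁻¹ : Subgroup.centralizer (D : Set G)) : G) = n * z * n⁻¹) ↔
      ∃ z : Subgroup.centralizer (D : Set G), IsConj x z ∧ (y : G) = n * z * n⁻¹ := by
    intro c y
    rw [hS, hS, ← isConj_conj_iff x ⟨_, hσ c⟩ ⟨_, hσ y⟩]
    refine iff_of_eq (congrArg _ (Subtype.ext ?_))
    change n⁻¹ * (c * y * (c : G)⁻¹) * n = n⁻¹ * c * n * (n⁻¹ * y * n) * (n⁻¹ * c * n)⁻¹
    group
  rw [omega_eq, omega_eq, hV _ ((I'.om_ind_int l _ (isConj_conj_iff x)).sub
    (I'.om_ind_int l _ hS')), ← I'.om_sub]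
  obtain ⟨z, hz0⟩ := exists_cf (V := V) (ind_mem V (IsConj x))
  have hzc : ∀ b, z * b = b * z := isCF_cf_iff.1 (hz0 ▸ isCF_ind (isConj_conj_iff x))
  have hz1 : SuppCent (D : Set G) (inc V (Subgroup.centralizer (D : Set G)).subtype z) :=
    frchar_supp_inc fun y _ s hs1 => (y.2 s hs1).symm
  have h1 := hz _ hz1 (frchar_fix_inc hzc le_rfl)
  have hz2 : SuppCent (D : Set G) (inc V (Subgroup.centralizer (D : Set G)).subtype z -
      cjRep V G n (inc V (Subgroup.centralizer (D : Set G)).subtype z)) :=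
    mem_centAlg.1 (sub_mem (mem_centAlg.2 hz1) (mem_centAlg.2 (frpg_supp_cj hz1
      fun s hs1 => (Subgroup.mem_normalizer_iff''.1 hn s).1 hs1)))
  rw [← inc_pull hinj (frchar_supp_range le_rfl hz2), ← hj0, ← map_mul] at h1
  have h2 : cf (pull V (Subgroup.centralizer (D : Set G)).subtype
      (inc V (Subgroup.centralizer (D : Set G)).subtype z -
        cjRep V G n (inc V (Subgroup.centralizer (D : Set G)).subtype z))) = ind (IsConj x) -
      ind fun y : Subgroup.centralizer (D : Set G) =>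
        ∃ z : Subgroup.centralizer (D : Set G), IsConj x z ∧ (y : G) = n * z * n⁻¹ := by
    rw [map_sub, pull_inc hinj, frchar_cf_sub, hz0]
    refine congrArg _ (funext fun y => ?_)
    have h3 : cf (pull V (Subgroup.centralizer (D : Set G)).subtype
        (cjRep V G n (inc V (Subgroup.centralizer (D : Set G)).subtype z))) y =
        cf z ⟨_, hσ y⟩ := by
      rw [cf, cf, coeff_pull, coeff_cjRep, ← coeff_inc hinj z ⟨_, hσ y⟩]
      rfl
    rw [h3, hz0]
    by_cases h4 : IsConj x ⟨_, hσ y⟩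
    · rw [ind_pos h4, ind_pos]
      exact (hS y).2 h4
    · rw [ind_neg h4, ind_neg]
      exact fun h5 => h4 ((hS y).1 h5)
  rw [← h2]
  refine hl _ (isCF_cf_iff.1 ?_) (frchar_nil_of_inc h1)
  rw [h2]
  exact blkF_isCF_sub (isCF_ind (isConj_conj_iff x)) (isCF_ind hS')


variable {D P L : Subgroup G} [Fintype L] {I' : IrrData L} {i' : Fin I'.n}
  {e' : MonoidAlgebra V L} {D' : Subgroup L}

theorem RelB.of_indV (hp : (p : ℂ) ∈ V.nonunits) (hD : DefV V p I i D)
    (hc : ∀ x ∈ D, ∀ y ∈ D, x * y = y * x) (hP : IsPGroup p P) (hPL : P ≤ L)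
    (hL : L ≤ Subgroup.normalizer (P : Set G)) (hC : ∀ g, (∀ u ∈ P, u * g = g * u) → g ∈ L)
    (hi : IndV V I i I' i') (hD' : DefV V p I' i' D') (he : IsBlockIdem I i e)
    (he' : IsBlockIdem I' i' e') (h : RelB e D) : RelB e' D' := by
  obtain ⟨hPD, g, hg⟩ := local_conj hp hD hc hP hPL hL hC hi hD'
  have h1 := idem_inMax_map (brT V ((D'.map L.subtype : Subgroup G) : Set G))
    (IndV.below hp he hP hPL hL hC hi he')
  rw [brT_brT (SetLike.coe_subset_coe.2 hPD)] at h1
  refine RelB.local Fact.out (blkF_pmem hp) hD'.pD ?_ (fun u hu => hC u fun t ht => hu t (hPD ht))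
    he.isBlock.cent he'.isBlock.cent h1
  rw [hg]
  exact h.conj he.isBlock.cent g

end Pool.Agent.Lib.MP_b6945b_al.St
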