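import Pool.Agent.Lib.MP_b6945b_al.Rl.Defs
import Pool.Agent.Lib.MP_b6945b_al.St.Rat

set_option autoImplicit false

/-!
Balanced sums over product frames.
-/

namespace Pool.Agent.Lib.MP_b6945b_al.St

variable {R A Γ : Type} [CommRing R] [Ring A] [Algebra R A] [Group Γ] [Fintype Γ] {δ : Γ →* A}
  {S : Subring A} {s : A →ₗ[R] R} {ι : Type} [Fintype ι] {f f' : ι → A}

lemma relFr_of {U : Submodule R A} {x x' : ι → A} (hx : ∀ i, x i ∈ S) (hx' : ∀ i, x' i ∈ S)
    (h : IsFrame s U (pf δ x) (pf' δ x')) : RelFr δ S s U := by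
  let e := (Fintype.equivFin ι).symm
  refine ⟨_, fun k => x (e k), fun k => x' (e k), fun k => hx _, fun k => hx' _,
    fun t => h.mem (e t.1, t.2), fun t => h.mem' (e t.1, t.2), h.symm, fun y hy => ?_⟩
  rw [← h.repro y hy]
  conv_lhs => rw [h.repro y hy]
  exact Equiv.sum_comp (e.prodCongr (Equiv.refl Γ)) (fun t => s (y * pf' δ x' t) • pf δ x t)

lemma RelFr.bal {U : Submodule R A} (h : RelFr δ S s U) (hf : IsFrame s U f f') :
    ∃ (n : ℕ) (x x' : Fin n → A), (∀ i, x i ∈ S ∧ x i ∈ U) ∧ (∀ i, x' i ∈ S ∧ x' i ∈ U) ∧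
      (∀ (Q : Type) [AddCommGroup Q] [Module R Q] (F : A → A → Q), IsBilin R F →
        (∀ u, ∀ a ∈ U, ∀ b ∈ U, F (a * δ u) b = F a (δ u * b)) →
        ∑ i, F (f i) (f' i) = Fintype.card Γ • ∑ j, F (x j) (x' j)) ∧
      ∀ (Q : Type) [AddCommGroup Q] [Module R Q] (F : A → A → Q), IsBilin R F →
        (∀ u, ∀ a ∈ U, ∀ b ∈ U, F (δ u * a) b = F a (b * δ u)) →
        ∑ i, F (f i) (f' i) = Fintype.card Γ • ∑ j, F (x' j) (x j) := by
  obtain ⟨n, x, x', hx, hx', hp⟩ := h
  have m1 : ∀ i, x i ∈ U := fun i => by simpa [pf] using hp.mem (i, 1)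
  have m2 : ∀ i, x' i ∈ U := fun i => by simpa [pf'] using hp.mem' (i, 1)
  refine ⟨n, x, x', fun i => ⟨hx i, m1 i⟩, fun i => ⟨hx' i, m2 i⟩, fun Q _ _ F hF hb => ?_,
    fun Q _ _ F hF hb => ?_⟩
  · rw [hf.indep hp hF, Fintype.sum_prod_type, Finset.smul_sum]
    refine Finset.sum_congr rfl fun j _ => ?_
    have e : ∀ u : Γ, F (pf δ x (j, u)) (pf' δ x' (j, u)) = F (x j) (x' j) := fun u => by
      have h1 := hb u (x j) (m1 j) _ (hp.mem' (j, u))
      simp only [pf, pf'] at h1 ⊢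
      rw [h1, ← mul_assoc, ← map_mul, mul_inv_cancel, map_one, one_mul]
    simp only [e, Finset.sum_const, Finset.card_univ]
  · rw [hf.indep hp.swap hF, Fintype.sum_prod_type, Finset.smul_sum]
    refine Finset.sum_congr rfl fun j _ => ?_
    have e : ∀ u : Γ, F (pf' δ x' (j, u)) (pf δ x (j, u)) = F (x' j) (x j) := fun u => by
      have h1 := hb u⁻¹ (x' j) (m2 j) _ (hp.mem (j, u))
      simp only [pf, pf'] at h1 ⊢
      rw [h1, mul_assoc, ← map_mul, mul_inv_cancel, map_one, mul_one]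
    simp only [e, Finset.sum_const, Finset.card_univ]

/-- Membership form of the first balancing rule. -/
lemma RelFr.mem1 {U : Submodule R A} (h : RelFr δ S s U) (hf : IsFrame s U f f') {Q : Type}
    [AddCommGroup Q] [Module R Q] {F : A → A → Q} (hF : IsBilin R F)
    (hb : ∀ u, ∀ a ∈ U, ∀ b ∈ U, F (a * δ u) b = F a (δ u * b)) (W : AddSubgroup Q) (m : ℕ)
    (hW : ∀ a ∈ S, a ∈ U → ∀ b ∈ S, b ∈ U → (m * Fintype.card Γ) • F a b ∈ W) :
    m • ∑ i, F (f i) (f' i) ∈ W := by
  obtain ⟨n, x, x', hx, hx', h1, -⟩ := h.bal hf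
  rw [h1 Q F hF hb, smul_smul, Finset.smul_sum]
  exact W.sum_mem fun j _ => hW _ (hx j).1 (hx j).2 _ (hx' j).1 (hx' j).2

/-- Membership form of the second balancing rule. -/
lemma RelFr.mem2 {U : Submodule R A} (h : RelFr δ S s U) (hf : IsFrame s U f f') {Q : Type}
    [AddCommGroup Q] [Module R Q] {F : A → A → Q} (hF : IsBilin R F)
    (hb : ∀ u, ∀ a ∈ U, ∀ b ∈ U, F (δ u * a) b = F a (b * δ u)) (W : AddSubgroup Q) (m : ℕ)
    (hW : ∀ a ∈ S, a ∈ U → ∀ b ∈ S, b ∈ U → (m * Fintype.card Γ) • F a b ∈ W) :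
    m • ∑ i, F (f i) (f' i) ∈ W := by
  obtain ⟨n, x, x', hx, hx', -, h1⟩ := h.bal hf
  rw [h1 Q F hF hb, smul_smul, Finset.smul_sum]
  exact W.sum_mem fun j _ => hW _ (hx' j).1 (hx' j).2 _ (hx j).1 (hx j).2

lemma RelA.left {α : A →ₗ[R] A} (h : RelA δ S α) (u : Γ) (y : A) :
    α (δ u * y) = δ u * α y := by
  simpa using h.eqv u 1 y

lemma RelA.right {α : A →ₗ[R] A} (h : RelA δ S α) (u : Γ) (y : A) :
    α (y * δ u) = α y * δ u := by
  simpa using h.eqv 1 u y

/-- The relative trace of an element commuting with the group. -/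
lemma RelFr.trF_mem {U : Submodule R A} (h : RelFr δ S s U) (hf : IsFrame s U f f') {c : A}
    (hc : Fintype.card Γ • c ∈ S) (hcc : ∀ u, δ u * c = c * δ u) : trF f f' c ∈ S := by
  have := h.mem1 hf (F := fun a b => a * c * b) (by
      constructor <;> intros <;> simp [mul_add, add_mul])
    (fun u a _ b _ => by rw [mul_assoc a, hcc, ← mul_assoc, mul_assoc]) S.toAddSubgroup 1
    (fun a ha _ b hb _ => by
      rw [one_mul, ← smul_mul_assoc, ← mul_smul_comm]
      exact S.mul_mem (S.mul_mem ha hc) hb)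
  rwa [one_smul] at this

/-- The half trace `∑ α (z f') f`. -/
lemma RelFr.half_mem {U : Submodule R A} (h : RelFr δ S s U) (hf : IsFrame s U f f')
    {α : A →ₗ[R] A} (hα : RelA δ S α) {z : A} (hz : z ∈ S) :
    Fintype.card Γ • ∑ j, α (z * f' j) * f j ∈ S :=
  h.mem2 hf (F := fun a b => α (z * b) * a) (by
      constructor <;> intros <;> simp [mul_add, add_mul])
    (fun u a _ b _ => by rw [← mul_assoc, ← mul_assoc, hα.right]) S.toAddSubgroup _
    (fun a ha _ b hb _ => by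
      rw [← pow_two, ← smul_mul_assoc]
      exact S.mul_mem (hα.mem _ (S.mul_mem hz hb)) ha)

lemma half_left {α : A →ₗ[R] A} (hα : RelA δ S α) (z : A) (u : Γ) :
    ∑ j, α (δ u * z * f' j) * f j = δ u * ∑ j, α (z * f' j) * f j := by
  simp only [Finset.mul_sum, mul_assoc, hα.left]

lemma half_right {B : Subalgebra R A} (hf : IsFrame s B.toSubmodule f f') (α : A →ₗ[R] A) (z : A)
    {b : A} (hb : b ∈ B) :
    ∑ j, α (z * b * f' j) * f j = (∑ j, α (z * f' j) * f j) * b := by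
  have := hf.slideB_right (F := fun a c => α (z * c) * a) (by
    constructor <;> intros <;> simp [mul_add, add_mul]) hb
  simp only [Finset.sum_mul, mul_assoc] at this ⊢
  exact this.symm

lemma half_comm {B : Subalgebra R A} (hf : IsFrame s B.toSubmodule f f') {α : A →ₗ[R] A}
    (hα : RelA δ S α) (hδ : ∀ u, δ u ∈ B) {z : A} (hz : ∀ u, δ u * z = z * δ u) (u : Γ) :
    δ u * ∑ j, α (z * f' j) * f j = (∑ j, α (z * f' j) * f j) * δ u := by
  rw [← half_left hα, hz, half_right hf α z (hδ u)]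

/-- The two-sided trace of a relatively integral map is integral. -/
lemma RelFr.trB_mem {U : Submodule R A} (h : RelFr δ S s U) (hf : IsFrame s U f f')
    {α : A →ₗ[R] A} (hα : RelA δ S α) {y : A} (hy : y ∈ S) : trB f f' α y ∈ S := by
  have := h.mem1 hf (F := fun a b => a * ∑ j, α (b * y * f' j) * f j) (by
      constructor <;> intros <;>
        simp [mul_add, add_mul, Finset.sum_add_distrib, Finset.smul_sum, Finset.mul_sum])
    (fun u a _ b _ => by
      rw [mul_assoc a, ← half_left hα]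
      simp only [mul_assoc]) S.toAddSubgroup 1
    (fun a ha _ b hb _ => by
      rw [one_mul, ← mul_smul_comm]
      exact S.mul_mem ha (h.half_mem hf hα (S.mul_mem hb hy)))
  rw [one_smul] at this
  have h2 : ∑ i, f i * ∑ j, α (f' i * y * f' j) * f j ∈ S := this
  simpa only [trB, Finset.mul_sum, mul_assoc] using h2

/-- The element `∑ α β * β'` for a frame of the whole algebra. -/
lemma RelFr.cas_mem (h : RelFr δ S s ⊤) (hf : IsFrame s ⊤ f f') {α : A →ₗ[R] A}
    (hα : RelA δ S α) : Fintype.card Γ • ∑ j, α (f j) * f' j ∈ S :=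
  h.mem1 hf (F := fun a b => α a * b) (by
      constructor <;> intros <;> simp [mul_add, add_mul])
    (fun u a _ b _ => by rw [hα.right, mul_assoc]) S.toAddSubgroup _
    (fun a ha _ b hb _ => by
      rw [← pow_two, ← smul_mul_assoc]
      exact S.mul_mem (hα.mem _ ha) hb)

lemma cas_comm (hf : IsFrame s ⊤ f f') {α : A →ₗ[R] A} (hα : RelA δ S α) (u : Γ) :
    δ u * ∑ j, α (f j) * f' j = (∑ j, α (f j) * f' j) * δ u := by
  have := hf.slideA_left (F := fun a b => α a * b) (by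
    constructor <;> intros <;> simp [mul_add, add_mul]) (δ u)
  simp only [Finset.sum_mul, Finset.mul_sum, mul_assoc, hα.left] at this ⊢
  exact this

/-- A projective order has product frames for every form: take `x = f`, `x' = π f'`. -/
lemma LProj.relFr (h : LProj R δ S) (hf : IsFrame s ⊤ f f') (h1 : ∀ i, f i ∈ S)
    (h2 : ∀ i, f' i ∈ S) : RelFr δ S s ⊤ := by
  obtain ⟨π, hπ, e⟩ := h
  refine relFr_of h1 (fun i => hπ _ (h2 i)) (IsFrame.swap ⟨fun _ => trivial, fun _ => trivial,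
    hf.symm, fun y _ => ?_⟩)
  conv_rhs => rw [← e y, ← Equiv.sum_comp (Equiv.inv Γ)]
  rw [Fintype.sum_prod_type, Finset.sum_comm]
  refine Finset.sum_congr rfl fun u _ => ?_
  rw [Equiv.inv_apply, inv_inv]
  conv_rhs => rw [← hf.repro' (δ u * y) trivial, map_sum, Finset.mul_sum]
  refine Finset.sum_congr rfl fun i _ => ?_
  simp only [pf, pf']
  rw [map_smul, mul_smul_comm, ← mul_assoc y, hf.symm _ trivial (δ u) trivial, mul_assoc]

/-- Product frames give projectivity: `π w = ∑ s (w x) • x'`. -/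
lemma RelFr.lProj (h : RelFr δ S s ⊤) (hs : ∀ a ∈ S, ∀ b ∈ S, s a • b ∈ S) : LProj R δ S := by
  obtain ⟨n, x, x', hx, hx', hp⟩ := h
  refine ⟨∑ j, (s ∘ₗ LinearMap.mulRight R (x j)).smulRight (x' j), fun a ha => ?_, fun y => ?_⟩
  · rw [LinearMap.sum_apply]
    exact S.sum_mem fun j _ => hs _ (S.mul_mem ha (hx j)) _ (hx' j)
  · conv_rhs => rw [← hp.repro' y trivial, Fintype.sum_prod_type, Finset.sum_comm,
      ← Equiv.sum_comp (Equiv.inv Γ)]
    refine Finset.sum_congr rfl fun u _ => ?_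
    rw [LinearMap.sum_apply, Finset.mul_sum]
    refine Finset.sum_congr rfl fun j _ => ?_
    simp only [pf, pf', Equiv.inv_apply, inv_inv, LinearMap.smulRight_apply,
      LinearMap.comp_apply, LinearMap.mulRight_apply]
    rw [mul_smul_comm, ← mul_assoc y, hp.symm _ trivial (δ u⁻¹) trivial, mul_assoc]

end Pool.Agent.Lib.MP_b6945b_al.St
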