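import Pool.Agent.Lib.MP_b6945b_al.Rl.Bal
import Pool.Agent.Lib.MP_b6945b_al.St.Conj

set_option autoImplicit false

/-!
One step of the conjugation, relative version.
-/

namespace Pool.Agent.Lib.MP_b6945b_al.St

open PowerSeries

variable {K : Type} [Field K] {V : ValuationSubring K} {A : Type} [Ring A] [Algebra K A]
  {Γ : Type} [Group Γ] [Fintype Γ] {δ : Γ →* A} {O : Subring A} {s : A →ₗ[K] K}
  {B : Subalgebra K A} {ι : Type} [Fintype ι] {f f' : ι → A} {α : A →ₗ[K] A}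

/-- Conjugate of a linear lift. -/
noncomputable def rlconj1_cj (U : (A⟦X⟧)ˣ) (τ : A →ₗ[K] A⟦X⟧) : A →ₗ[K] A⟦X⟧ where
  toFun a := (U : A⟦X⟧) * τ a * (↑U⁻¹ : A⟦X⟧)
  map_add' x y := by rw [map_add, mul_add, add_mul]
  map_smul' r y := by rw [map_smul, mul_smul_comm, smul_mul_assoc, RingHom.id_apply]

lemma rlconj1_cj_apply (U : (A⟦X⟧)ˣ) (τ : A →ₗ[K] A⟦X⟧) (a : A) :
    rlconj1_cj U τ a = (U : A⟦X⟧) * τ a * (↑U⁻¹ : A⟦X⟧) := rfl

lemma rlconj1_inv (U : (A⟦X⟧)ˣ) {G : A⟦X⟧} (h : (U : A⟦X⟧) * G = G * (U : A⟦X⟧)) :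
    G * (↑U⁻¹ : A⟦X⟧) = (↑U⁻¹ : A⟦X⟧) * G := by
  rw [Units.eq_inv_mul_iff_mul_eq, ← mul_assoc, h, Units.mul_inv_cancel_right]

/-- `τ' a = U * τ a * U⁻¹`. -/
lemma Split.conj {T : Set A} {Λ : Subring A⟦X⟧} {τ : A →ₗ[K] A⟦X⟧} (h : Split T O Λ τ)
    (U : (A⟦X⟧)ˣ) (hU : coeff 0 (U : A⟦X⟧) = 1)
    (hc : ∀ t ∈ T, (U : A⟦X⟧) * C t = C t * (U : A⟦X⟧)) :
    ∃ τ' : A →ₗ[K] A⟦X⟧, Split T O (conjSub U Λ) τ' := by
  have hi : ∀ t ∈ T, (C t : A⟦X⟧) * (↑U⁻¹ : A⟦X⟧) = (↑U⁻¹ : A⟦X⟧) * C t := fun t ht =>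
    rlconj1_inv U (hc t ht)
  refine ⟨rlconj1_cj U τ, fun t ht => mem_conjSub.2 ⟨C t, h.C_mem t ht, ?_⟩,
    fun a ha => mem_conjSub.2 ⟨τ a, h.mem a ha, rfl⟩, fun a => ?_, fun t ht a => ?_,
    fun t ht a => ?_⟩
  · rw [hc t ht, Units.mul_inv_cancel_right]
  · have h1 : coeff 0 (↑U⁻¹ : A⟦X⟧) = 1 := by
      have := coeff_zero_mul' (A := A) (U : A⟦X⟧) (↑U⁻¹ : A⟦X⟧)
      rw [Units.mul_inv, hU, one_mul, coeff_zero_one] at this
      exact this.symm
    rw [rlconj1_cj_apply, coeff_zero_mul' (A := A), coeff_zero_mul' (A := A), hU, h1, h.zero,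
      one_mul, mul_one]
  · rw [rlconj1_cj_apply, rlconj1_cj_apply, h.left t ht, ← mul_assoc, hc t ht]
    simp only [mul_assoc]
  · rw [rlconj1_cj_apply, rlconj1_cj_apply, h.right t ht]
    simp only [mul_assoc, hi t ht]

/-- An equivariant linear lift of `B` whose coefficients up to `n` lie in `B`. -/
structure RSig (δ : Γ →* A) (B : Subalgebra K A) (O : Subring A) (Λ : Subring A⟦X⟧) (n : ℕ)
    (σ : A →ₗ[K] A⟦X⟧) : Prop where
  mem : ∀ b ∈ B, b ∈ O → σ b ∈ Λ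
  zero : ∀ b ∈ B, coeff 0 (σ b) = b
  low : ∀ b ∈ B, ∀ m ≤ n, coeff m (σ b) ∈ B
  eqv : ∀ u v, ∀ b ∈ B, σ (δ u * b * δ v) = C (δ u) * σ b * C (δ v)

/-- Copy `conj_inner` with the same `y`.  Its identities `e1`, `e2` for `b = δ u` show that `y`
commutes with `δ`.  In `e3` use `RelFr.mem1` for the outer sum and `RelFr.half_mem` for the inner
sum. -/
lemma rconj_inner (hH : Hig s B f f' α) (hδ : ∀ u, δ u ∈ B) (hR : RelFr δ O s B.toSubmodule)
    (hα : RelA δ O α) (D : A →ₗ[K] A) (hp : ∀ y, ∀ b ∈ B, s (D y * b) = 0)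
    (he : ∀ u v, ∀ b ∈ B, D (δ u * b * δ v) = δ u * D b * δ v)
    (hd : ∀ b ∈ B, b ∈ O → ∀ b' ∈ B, b' ∈ O → b * D b' + D b * b' - D (b * b') ∈ O) :
    ∃ y : A, (∀ u, δ u * y = y * δ u) ∧ ∀ b ∈ B, b ∈ O → D b - (b * y - y * b) ∈ O := by
  have hl : ∀ u, ∀ b ∈ B, D (δ u * b) = δ u * D b := fun u b hb => by
    simpa using he u 1 b hb
  have hr : ∀ u, ∀ b ∈ B, D (b * δ u) = D b * δ u := fun u b hb => by
    simpa using he 1 u b hb
  have e1 : ∀ b ∈ B, b * ∑ i, ∑ j, f i * α (D (f' i) * f' j) * f j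
      = ∑ i, ∑ j, f i * α (D (f' i * b) * f' j) * f j := by
    intro b hb
    have hb1 : IsBilin K (fun x x' : A => ∑ j, x * α (D x' * f' j) * f j) := by
      constructor <;> intros <;>
        simp [mul_add, add_mul, Finset.sum_add_distrib, Finset.smul_sum]
    have := hH.frame.slideB_left hb1 hb
    rw [← this]
    simp only [Finset.mul_sum, mul_assoc]
  have e2 : ∀ b ∈ B, (∑ i, ∑ j, f i * α (D (f' i) * f' j) * f j) * b
      = ∑ i, ∑ j, f i * α (D (f' i) * b * f' j) * f j := by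
    intro b hb
    rw [Finset.sum_mul]
    refine Finset.sum_congr rfl fun i _ => ?_
    have hb2 : IsBilin K (fun x x' : A => f i * α (D (f' i) * x') * x) := by
      constructor <;> intros <;> simp [mul_add, add_mul]
    have := hH.frame.slideB_right hb2 hb
    simp only [Finset.sum_mul, mul_assoc] at this ⊢
    exact this
  refine ⟨∑ i, ∑ j, f i * α (D (f' i) * f' j) * f j, fun u => ?_, fun b hb hbO => ?_⟩
  · rw [e1 _ (hδ u), e2 _ (hδ u)]
    refine Finset.sum_congr rfl fun i _ => ?_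
    rw [hr u _ (hH.frame.mem' i)]
  have e0 : D b = ∑ i, ∑ j, f i * α (f' i * D b * f' j) * f j := (hH.hig (D b) (hp b)).symm
  have e3 : D b - (b * ∑ i, ∑ j, f i * α (D (f' i) * f' j) * f j
        - (∑ i, ∑ j, f i * α (D (f' i) * f' j) * f j) * b)
      = ∑ i, ∑ j, f i * α ((f' i * D b + D (f' i) * b - D (f' i * b)) * f' j) * f j := by
    rw [e1 b hb, e2 b hb]
    simp only [sub_mul, add_mul, map_sub, map_add, mul_sub, mul_add, Finset.sum_sub_distrib,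
      Finset.sum_add_distrib]
    rw [← e0]
    abel
  rw [e3]
  have := hR.mem1 hH.frame
    (F := fun a c => a * ∑ j, α ((c * D b + D c * b - D (c * b)) * f' j) * f j) (by
      constructor <;> intros <;>
        simp [mul_add, add_mul, mul_sub, sub_mul, smul_sub, Finset.sum_add_distrib,
          Finset.sum_sub_distrib, Finset.smul_sum, Finset.mul_sum]
      all_goals abel)
    (fun u a _ c hc => by
      have e : δ u * c * D b + D (δ u * c) * b - D (δ u * c * b)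
          = δ u * (c * D b + D c * b - D (c * b)) := by
        rw [mul_assoc (δ u) c b, hl u c hc, hl u _ (B.mul_mem hc hb)]
        noncomm_ring
      rw [mul_assoc a, ← half_left hα, e]) O.toAddSubgroup 1
    (fun a ha _ c hc hcB => by
      rw [one_mul, ← mul_smul_comm]
      exact O.mul_mem ha (hR.half_mem hH.frame hα (hd c hcB hc b hb hbO)))
  rw [one_smul] at this
  have h2 : ∑ i, f i * ∑ j, α ((f' i * D b + D (f' i) * b - D (f' i * b)) * f' j) * f j ∈ O :=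
    this
  simpa only [Finset.mul_sum, mul_assoc] using h2

omit [Fintype Γ] in
lemma rlconj1_low {Λ : Subring A⟦X⟧} {g : A⟦X⟧} (hD : Deform V O s Λ g) (hH : Hig s B f f' α)
    (hf : ∀ i, f i ∈ O) (hf' : ∀ i, f' i ∈ O) {n : ℕ} {σ : A →ₗ[K] A⟦X⟧}
    (hσ : RSig δ B O Λ n σ) :
    ∀ k ≤ n, ∀ G ∈ Λ, coeff 0 G = 0 → (∀ m ≤ k, coeff m G ∈ B) →
      conjQ s f f' (coeff (k + 1) G) ∈ O := by
  have hdiv : ∀ G ∈ Λ, coeff 0 G = 0 → ∃ G' ∈ Λ, G = X * G' := by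
    intro G hG h
    obtain ⟨G', rfl⟩ := ord_iff_dvd.1 (ord_one_iff.2 h)
    exact ⟨G', hD.of_X_pow_mul 1 hG, by rw [pow_one]⟩
  intro k
  induction k with
  | zero =>
    intro _ G hG h _
    obtain ⟨G', hG', rfl⟩ := hdiv G hG h
    rw [coeff_succ_X_mul]
    exact conjQ_mem hD.symOrder hf hf' ((hD.const _).2 ⟨G', hG', rfl⟩)
  | succ k ih =>
    intro hk G hG h hGB
    obtain ⟨G', hG', rfl⟩ := hdiv G hG h
    have hG'B : ∀ m ≤ k, coeff m G' ∈ B := fun m hm => by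
      have := hGB (m + 1) (by omega)
      rwa [coeff_succ_X_mul] at this
    have hb : coeff 0 G' ∈ B := hG'B 0 (Nat.zero_le k)
    have hbO : coeff 0 G' ∈ O := (hD.const _).2 ⟨G', hG', rfl⟩
    have h1 := ih (by omega) (G' - σ (coeff 0 G'))
      (Λ.sub_mem hG' (hσ.mem _ hb hbO))
      (by rw [map_sub, hσ.zero _ hb, sub_self])
      (fun m hm => by
        rw [map_sub]
        exact B.sub_mem (hG'B m hm) (hσ.low _ hb m (by omega)))
    rw [map_sub, map_sub, conjQ_of_mem hH (hσ.low _ hb (k + 1) hk), sub_zero] at h1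
    rw [coeff_succ_X_mul]
    exact h1

/-- The obstruction map. -/
noncomputable def rlconj1_D (s : A →ₗ[K] K) (f f' : ι → A) (σ : A →ₗ[K] A⟦X⟧) (N : ℕ) :
    A →ₗ[K] A where
  toFun b := conjQ s f f' (coeff N (σ b))
  map_add' x y := by simp only [map_add]
  map_smul' r y := by simp only [map_smul, coeff_smul, RingHom.id_apply]

lemma rlconj1_D_apply (σ : A →ₗ[K] A⟦X⟧) (N : ℕ) (b : A) :
    rlconj1_D s f f' σ N b = conjQ s f f' (coeff N (σ b)) := rfl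

omit [Fintype Γ] in
lemma rlconj1_der {Λ : Subring A⟦X⟧} {g : A⟦X⟧} (hD : Deform V O s Λ g) (hH : Hig s B f f' α)
    (hf : ∀ i, f i ∈ O) (hf' : ∀ i, f' i ∈ O) {n : ℕ} {σ : A →ₗ[K] A⟦X⟧}
    (hσ : RSig δ B O Λ n σ) {b b' : A} (hb : b ∈ B) (hbO : b ∈ O) (hb' : b' ∈ B)
    (hbO' : b' ∈ O) :
    b * rlconj1_D s f f' σ (n + 1) b' + rlconj1_D s f f' σ (n + 1) b * b'
      - rlconj1_D s f f' σ (n + 1) (b * b') ∈ O := by
  have hbb := B.mul_mem hb hb'
  have h1 := rlconj1_low hD hH hf hf' hσ n le_rfl (σ b * σ b' - σ (b * b'))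
    (Λ.sub_mem (Λ.mul_mem (hσ.mem _ hb hbO) (hσ.mem _ hb' hbO'))
      (hσ.mem _ hbb (O.mul_mem hbO hbO')))
    (by
      rw [map_sub, coeff_zero_mul' (A := A), hσ.zero _ hb, hσ.zero _ hb', hσ.zero _ hbb, sub_self])
    (fun m hm => by
      rw [map_sub]
      exact B.sub_mem (conj_mul_low (hσ.low b hb) (hσ.low b' hb') m hm) (hσ.low _ hbb m hm))
  have h2 := conjQ_of_mem hH (conj_mul_top (hσ.low b hb) (hσ.low b' hb'))
  rw [hσ.zero _ hb, hσ.zero _ hb', map_sub, map_sub, conjQ_left hH _ hb,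
    conjQ_right hH _ hb', sub_sub, sub_eq_zero] at h2
  rw [map_sub, map_sub, h2] at h1
  exact h1

/-- The corrected lift before conjugation. -/
noncomputable def rlconj1_cor (σ τ : A →ₗ[K] A⟦X⟧) (D : A →ₗ[K] A) (y : A) (N : ℕ) :
    A →ₗ[K] A⟦X⟧ where
  toFun b := σ b - X ^ N * τ (D b - (b * y - y * b))
  map_add' x x' := by
    simp only [map_add, map_sub, add_mul, mul_add, mul_sub]
    abel
  map_smul' r x := by
    simp only [map_smul, map_sub, smul_mul_assoc, mul_smul_comm, mul_sub, smul_sub,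
      RingHom.id_apply]

lemma rlconj1_cor_apply (σ τ : A →ₗ[K] A⟦X⟧) (D : A →ₗ[K] A) (y : A) (N : ℕ) (b : A) :
    rlconj1_cor σ τ D y N b = σ b - X ^ N * τ (D b - (b * y - y * b)) := rfl

/-- Copy `conj_low`, `conj_der`, `conj_step` with `σ` in place of `conjS s f' F`.
`D b = conjQ (coeff (n + 1) (σ b))`, `e b = D b - (b y - y b)`, `U = 1 + X ^ (n + 1) * C y`,
`σ' b = U * (σ b - X ^ (n + 1) * τ (e b)) * U⁻¹`. -/
lemma rconj_step {Λ : Subring A⟦X⟧} {g : A⟦X⟧} (hD : Deform V O s Λ g) (hH : Hig s B f f' α)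
    (hf : ∀ i, f i ∈ O) (hf' : ∀ i, f' i ∈ O) (hδ : ∀ u, δ u ∈ B)
    (hR : RelFr δ O s B.toSubmodule) (hα : RelA δ O α) {τ : A →ₗ[K] A⟦X⟧}
    (hτ : Split (Set.range δ) O Λ τ) {n : ℕ} {σ : A →ₗ[K] A⟦X⟧} (hσ : RSig δ B O Λ n σ) :
    ∃ (U : (A⟦X⟧)ˣ) (σ' : A →ₗ[K] A⟦X⟧), Ord (n + 1) ((U : A⟦X⟧) - 1) ∧
      (∀ u, (U : A⟦X⟧) * C (δ u) = C (δ u) * (U : A⟦X⟧)) ∧ (∀ b, Ord (n + 1) (σ' b - σ b)) ∧
      RSig δ B O (conjSub U Λ) (n + 1) σ' := by
  have hDe : ∀ u v, ∀ b ∈ B, rlconj1_D s f f' σ (n + 1) (δ u * b * δ v)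
      = δ u * rlconj1_D s f f' σ (n + 1) b * δ v := fun u v b hb => by
    rw [rlconj1_D_apply, rlconj1_D_apply, hσ.eqv u v b hb, coeff_mul_C, coeff_C_mul,
      conjQ_right hH _ (hδ v), conjQ_left hH _ (hδ u)]
  obtain ⟨y, hyc, hy⟩ := rconj_inner hH hδ hR hα (rlconj1_D s f f' σ (n + 1))
    (fun y b hb => conjQ_perp hH _ hb) hDe
    (fun b hb hbO b' hb' hbO' => rlconj1_der hD hH hf hf' hσ hb hbO hb' hbO')
  have hT : Ord (n + 1) ((X : A⟦X⟧) ^ (n + 1) * C y) := ord_iff_dvd.2 ⟨_, rfl⟩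
  obtain ⟨U, hU⟩ := conj_unit K (1 + (X : A⟦X⟧) ^ (n + 1) * C y)
    (by rw [map_add, hT 0 (Nat.succ_pos n), add_zero, coeff_zero_one])
  have hXL : ∀ L : A⟦X⟧, Ord (n + 1) ((X : A⟦X⟧) ^ (n + 1) * L) := fun L => ord_iff_dvd.2 ⟨_, rfl⟩
  have hXm : ∀ (k : ℕ) (G : A⟦X⟧), G ∈ Λ → (X : A⟦X⟧) ^ k * G ∈ Λ := by
    intro k G hG
    induction k with
    | zero => simpa using hG
    | succ k ih =>
      rw [pow_succ', mul_assoc]
      exact hD.X_mul_mem ih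
  have a1 : Ord (n + 1) ((U : A⟦X⟧) - 1) := by
    rw [hU, add_sub_cancel_left]
    exact hT
  have hUc : ∀ u, (U : A⟦X⟧) * C (δ u) = C (δ u) * (U : A⟦X⟧) := fun u => by
    rw [hU, add_mul, mul_add, one_mul, mul_one, mul_assoc, ← map_mul, ← hyc, map_mul,
      ← mul_assoc, X_pow_mul, mul_assoc]
  set σ1 := rlconj1_cor σ τ (rlconj1_D s f f' σ (n + 1)) y (n + 1) with hσ1
  have a3 : ∀ b, Ord (n + 1) (σ1 b - σ b) := fun b => by
    rw [hσ1, rlconj1_cor_apply, sub_sub_cancel_left]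
    exact (hXL _).neg
  have b2 : ∀ b, Ord (n + 1) (rlconj1_cj U σ1 b - σ b) := by
    intro b
    have e : (U : A⟦X⟧) * σ1 b * (↑U⁻¹ : A⟦X⟧) - σ b
        = (((U : A⟦X⟧) - 1) * σ1 b - σ1 b * ((U : A⟦X⟧) - 1)) * (↑U⁻¹ : A⟦X⟧)
          + (σ1 b - σ b) := by
      have e1 : ((U : A⟦X⟧) - 1) * σ1 b - σ1 b * ((U : A⟦X⟧) - 1)
          = (U : A⟦X⟧) * σ1 b - σ1 b * (U : A⟦X⟧) := by noncomm_ring
      rw [e1, sub_mul, Units.mul_inv_cancel_right]
      abel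
    rw [rlconj1_cj_apply, e]
    exact (((a1.mul_right _).sub (a1.mul_left _)).mul_right _).add (a3 b)
  refine ⟨U, rlconj1_cj U σ1, a1, hUc, b2, fun b hb hbO => ?_, fun b hb => ?_,
    fun b hb m hm => ?_, fun u v b hb => ?_⟩
  · refine mem_conjSub.2 ⟨σ1 b, ?_, rfl⟩
    rw [hσ1, rlconj1_cor_apply]
    exact Λ.sub_mem (hσ.mem b hb hbO) (hXm _ _ (hτ.mem _ (hy b hb hbO)))
  · have := b2 b 0 (Nat.succ_pos n)
    rw [map_sub, sub_eq_zero] at this
    exact this.trans (hσ.zero b hb)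
  · have hF'0 : coeff 0 (σ1 b) = b := by
      have := a3 b 0 (Nat.succ_pos n)
      rw [map_sub, sub_eq_zero] at this
      exact this.trans (hσ.zero b hb)
    have hc1 : coeff (n + 1) ((X : A⟦X⟧) ^ (n + 1) * C y * σ1 b) = y * b := by
      have := coeff_X_pow_mul (C y * σ1 b) (n + 1) 0
      rw [zero_add, coeff_C_mul, hF'0] at this
      rw [mul_assoc, this]
    have hc2 : coeff (n + 1) (σ1 b * ((X : A⟦X⟧) ^ (n + 1) * C y)) = b * y := by
      have := coeff_X_pow_mul (σ1 b * C y) (n + 1) 0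
      rw [zero_add, coeff_mul_C, hF'0] at this
      rw [← mul_assoc, ← X_pow_mul, mul_assoc, this]
    have hc3 : ∀ L : A⟦X⟧, coeff (n + 1) ((X : A⟦X⟧) ^ (n + 1) * L) = coeff 0 L := fun L => by
      have := coeff_X_pow_mul L (n + 1) 0
      rwa [zero_add] at this
    have hlow : ∀ m < n + 1, coeff m (σ1 b) ∈ B := fun m hm => by
      have := a3 b m hm
      rw [map_sub, sub_eq_zero] at this
      rw [this]
      exact hσ.low b hb m (by omega)
    have htop : coeff (n + 1) (σ1 b) + y * b - b * y ∈ B := by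
      rw [hσ1, rlconj1_cor_apply, map_sub, hc3, hτ.zero, rlconj1_D_apply]
      have e : coeff (n + 1) (σ b) - (conjQ s f f' (coeff (n + 1) (σ b)) - (b * y - y * b))
          + y * b - b * y = coeff (n + 1) (σ b) - conjQ s f f' (coeff (n + 1) (σ b)) := by
        abel
      rw [e]
      exact conjQ_sub_mem hH _
    rw [rlconj1_cj_apply]
    generalize σ1 b = G at hc1 hc2 hlow htop ⊢
    generalize (X : A⟦X⟧) ^ (n + 1) * C y = T at hT hU hc1 hc2
    have hTT : Ord (n + 2) (G * (T * T) - T * (G * T)) :=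
      (((hT.mul hT).mul_left G).sub (hT.mul (hT.mul_left G))).mono (by omega)
    have e : (U : A⟦X⟧) * G * (↑U⁻¹ : A⟦X⟧)
        = (G + T * G - G * T) + (G * (T * T) - T * (G * T)) * (↑U⁻¹ : A⟦X⟧) := by
      have e1 : (U : A⟦X⟧) * G
          = (G + T * G - G * T) * (U : A⟦X⟧) + (G * (T * T) - T * (G * T)) := by
        rw [hU]
        noncomm_ring
      rw [e1, add_mul, Units.mul_inv_cancel_right]
    rw [e, map_add, (hTT.mul_right _) m (by omega), add_zero, map_sub, map_add]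
    rcases Nat.lt_or_eq_of_le hm with hlt | rfl
    · rw [(hT.mul_right G) m hlt, (hT.mul_left G) m hlt, add_zero, sub_zero]
      exact hlow m hlt
    · rw [hc1, hc2]
      exact htop
  · have e1 : σ1 (δ u * b * δ v) = C (δ u) * σ1 b * C (δ v) := by
      have e2 : δ u * rlconj1_D s f f' σ (n + 1) b * δ v
            - (δ u * b * δ v * y - y * (δ u * b * δ v))
          = δ u * (rlconj1_D s f f' σ (n + 1) b - (b * y - y * b)) * δ v := by
        rw [mul_assoc _ (δ v) y, hyc v, ← mul_assoc y, ← mul_assoc y, ← hyc u]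
        noncomm_ring
      rw [hσ1, rlconj1_cor_apply, rlconj1_cor_apply, hσ.eqv u v b hb, hDe u v b hb, e2,
        hτ.right _ ⟨v, rfl⟩, hτ.left _ ⟨u, rfl⟩, mul_sub, sub_mul]
      congr 1
      rw [← mul_assoc, ← mul_assoc, X_pow_mul, mul_assoc (C (δ u))]
    rw [rlconj1_cj_apply, rlconj1_cj_apply, e1, ← mul_assoc, ← mul_assoc, hUc u]
    simp only [mul_assoc, rlconj1_inv U (hUc v)]

end Pool.Agent.Lib.MP_b6945b_al.St
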