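import Pool.Agent.Lib.MP_b6945b_al.Rl.Conj1

set_option autoImplicit false

/-!
After conjugation the subalgebra deforms inside the constant family, relative version.
-/

namespace Pool.Agent.Lib.MP_b6945b_al.St

open PowerSeries

variable {K : Type} [Field K] {V : ValuationSubring K} {A : Type} [Ring A] [Algebra K A]
  {Γ : Type} [Group Γ] [Fintype Γ] {δ : Γ →* A} {O : Subring A} {s : A →ₗ[K] K}
  {B : Subalgebra K A} {ι : Type} [Fintype ι] {f f' : ι → A} {α : A →ₗ[K] A}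

omit [Algebra K A] in
lemma rlconj2_mul {U U' : (A⟦X⟧)ˣ} {Λ : Subring A⟦X⟧} {F : A⟦X⟧}
    (h : F ∈ conjSub U' (conjSub U Λ)) : F ∈ conjSub (U' * U) Λ := by
  obtain ⟨G, hG, rfl⟩ := mem_conjSub.1 h
  obtain ⟨G', hG', rfl⟩ := mem_conjSub.1 hG
  refine mem_conjSub.2 ⟨G', hG', ?_⟩
  simp only [mul_inv_rev, Units.val_mul, mul_assoc]

lemma rlconj2_closed {Λ : Subring A⟦X⟧} {g : A⟦X⟧} (hD : Deform V O s Λ g) {U : (A⟦X⟧)ˣ}
    {W : ℕ → (A⟦X⟧)ˣ} {L : A⟦X⟧} {F : ℕ → A⟦X⟧}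
    (hU : ∀ n, Ord n ((U : A⟦X⟧) - (W n : A⟦X⟧))) (hL : ∀ n, Ord n (L - F n))
    (hF : ∀ n, F n ∈ conjSub (W n) Λ) : L ∈ conjSub U Λ := by
  refine mem_conjSub.2 ⟨(↑U⁻¹ : A⟦X⟧) * L * (U : A⟦X⟧), ?_, ?_⟩
  · refine hD.closed _ fun n => ?_
    obtain ⟨G, hG, e⟩ := mem_conjSub.1 (hF n)
    refine ⟨G, hG, ?_⟩
    have h1 := hU n
    have h2 := hL n
    rw [← e] at h2
    generalize W n = W' at h1 h2
    have e2 : (↑U⁻¹ : A⟦X⟧) * L * (U : A⟦X⟧) - G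
        = (↑U⁻¹ : A⟦X⟧) * (L - (W' : A⟦X⟧) * G * (↑W'⁻¹ : A⟦X⟧)) * (U : A⟦X⟧)
          + (↑U⁻¹ : A⟦X⟧) * ((W' : A⟦X⟧) * G * (↑W'⁻¹ : A⟦X⟧)) * ((U : A⟦X⟧) - (W' : A⟦X⟧))
          - (↑U⁻¹ : A⟦X⟧) * ((U : A⟦X⟧) - (W' : A⟦X⟧)) * G := by
      simp only [mul_sub, sub_mul, mul_assoc, Units.inv_mul, mul_one, one_mul]
      abel
    rw [e2]
    exact (((h2.mul_left _).mul_right _).add (h1.mul_left _)).sub
      ((h1.mul_left _).mul_right _)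
  · simp only [mul_assoc, Units.mul_inv, mul_one, Units.mul_inv_cancel_left]

/-- Copy `exists_conj`: the state is `(U, σ)` with `U` commuting with the `C (δ u)` and
`RSig δ B O (conjSub U Λ) n σ`; start with `(1, τ)`; use `Split.conj`, `rconj_step` and
`conjSub U' (conjSub U Λ) = conjSub (U' * U) Λ`; take the limit of `σ n b` for each `b`. -/
theorem exists_conjR {Λ : Subring A⟦X⟧} {g : A⟦X⟧} (hD : Deform V O s Λ g) (hH : Hig s B f f' α)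
    (hf : ∀ i, f i ∈ O) (hf' : ∀ i, f' i ∈ O) (hδ : ∀ u, δ u ∈ B)
    (hR : RelFr δ O s B.toSubmodule) (hα : RelA δ O α) {τ : A →ₗ[K] A⟦X⟧}
    (hτ : Split (Set.range δ) O Λ τ) :
    ∃ U : (A⟦X⟧)ˣ, coeff 0 (U : A⟦X⟧) = 1 ∧
      (∀ u, (U : A⟦X⟧) * C (δ u) = C (δ u) * (U : A⟦X⟧)) ∧
      ∀ b ∈ B, b ∈ O → ∃ F ∈ conjSub U Λ, coeff 0 F = b ∧ F ∈ coefAlg B := by
  let St : ℕ → Type := fun n => {p : (A⟦X⟧)ˣ × (A →ₗ[K] A⟦X⟧) //
    coeff 0 (p.1 : A⟦X⟧) = 1 ∧ (∀ u, (p.1 : A⟦X⟧) * C (δ u) = C (δ u) * (p.1 : A⟦X⟧)) ∧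
      RSig δ B O (conjSub p.1 Λ) n p.2}
  have hstep : ∀ n (p : St n), ∃ p' : St (n + 1),
      Ord (n + 1) ((p'.1.1 : A⟦X⟧) - (p.1.1 : A⟦X⟧)) ∧ ∀ b, Ord (n + 1) (p'.1.2 b - p.1.2 b) := by
    rintro n ⟨⟨U, σ⟩, hU, hc, hσ⟩
    obtain ⟨τ', hτ'⟩ := hτ.conj U hU (by
      rintro _ ⟨u, rfl⟩
      exact hc u)
    obtain ⟨U', σ', a1, a2, a3, a4⟩ := rconj_step (hD.conj U hU) hH hf hf' hδ hR hα hτ' hσ
    have b1 : Ord (n + 1) (((U' * U : (A⟦X⟧)ˣ) : A⟦X⟧) - (U : A⟦X⟧)) := by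
      have := a1.mul_right (U : A⟦X⟧)
      rwa [sub_mul, one_mul, ← Units.val_mul] at this
    refine ⟨⟨(U' * U, σ'), ?_, fun u => ?_,
      ⟨fun b hb hbO => rlconj2_mul (a4.mem b hb hbO), a4.zero, a4.low, a4.eqv⟩⟩, b1, a3⟩
    · have := b1 0 (Nat.succ_pos n)
      rw [map_sub, sub_eq_zero] at this
      exact this.trans hU
    · have h1 : (U : A⟦X⟧) * C (δ u) = C (δ u) * (U : A⟦X⟧) := hc u
      change ((U' * U : (A⟦X⟧)ˣ) : A⟦X⟧) * C (δ u) = C (δ u) * ((U' * U : (A⟦X⟧)ˣ) : A⟦X⟧)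
      rw [Units.val_mul, mul_assoc, h1, ← mul_assoc, a2 u, mul_assoc]
  choose nxt hnxt using hstep
  let p0 : St 0 := ⟨(1, τ), by simp, fun u => by simp,
    ⟨fun b _ hbO => mem_conjSub.2 ⟨τ b, hτ.mem b hbO, by simp⟩, fun b _ => hτ.zero b,
      fun b hb m hm => by
        rw [Nat.le_zero.1 hm]
        change coeff 0 (τ b) ∈ B
        rw [hτ.zero]
        exact hb,
      fun u v b _ => by
        change τ (δ u * b * δ v) = C (δ u) * τ b * C (δ v)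
        rw [hτ.right _ ⟨v, rfl⟩, hτ.left _ ⟨u, rfl⟩]⟩⟩
  let p : ∀ n, St n := fun n => Nat.rec p0 nxt n
  have hp : ∀ n, p (n + 1) = nxt n (p n) := fun n => rfl
  obtain ⟨Ul, hUl⟩ := exists_lim (fun n => ((p n).1.1 : A⟦X⟧)) (fun n => by
    rw [hp]
    exact (hnxt n (p n)).1.mono (Nat.le_succ n))
  choose Fl hFl using fun b => exists_lim (fun n => (p n).1.2 b) (fun n => by
    rw [hp]
    exact ((hnxt n (p n)).2 b).mono (Nat.le_succ n))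
  have hUl0 : coeff 0 Ul = 1 := by
    have := hUl 1 0 Nat.one_pos
    rw [map_sub, sub_eq_zero] at this
    exact this.trans (p 1).2.1
  obtain ⟨U, rfl⟩ := conj_unit K Ul hUl0
  have hc : ∀ b m, coeff m (Fl b) = coeff m ((p (m + 1)).1.2 b) := fun b m => by
    have := hFl b (m + 1) m (Nat.lt_succ_self m)
    rwa [map_sub, sub_eq_zero] at this
  refine ⟨U, hUl0, fun u => ?_, fun b hb hbO => ⟨Fl b,
    rlconj2_closed hD (W := fun n => (p n).1.1) hUl (hFl b) fun n => (p n).2.2.2.mem b hb hbO,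
    (hc b 0).trans ((p 1).2.2.2.zero b hb), fun m => ?_⟩⟩
  · ext m
    have h1 := hUl (m + 1) m (Nat.lt_succ_self m)
    rw [map_sub, sub_eq_zero] at h1
    have h2 := congrArg (coeff m) ((p (m + 1)).2.2.1 u)
    rw [coeff_mul_C, coeff_C_mul] at h2 ⊢
    rw [h1]
    exact h2
  · rw [hc]
    exact (p (m + 1)).2.2.2.low b hb m (Nat.le_succ m)

end Pool.Agent.Lib.MP_b6945b_al.St
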