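import Pool.Agent.Lib.MP_b6945b_al.Rl.Bal
import Pool.Agent.Lib.MP_b6945b_al.St.Core

set_option autoImplicit false

/-!
Characters of the subalgebra on central elements, relative version.
-/

namespace Pool.Agent.Lib.MP_b6945b_al.St

variable {K : Type} [Field K] {V : ValuationSubring K} {A : Type} [Ring A] [Algebra K A]
  {Γ : Type} [Group Γ] [Fintype Γ] {δ : Γ →* A}

section aux

variable {O : Subring A} {s : A →ₗ[K] K} {B : Subalgebra K A} {ι : Type} [Fintype ι]
  {f f' : ι → A} {α : A →ₗ[K] A}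

lemma rlcore1_lam_trF (hO : SymOrder V O s) (hH : Hig s B f f' α) (hf : ∀ i, f i ∈ O)
    (hf' : ∀ i, f' i ∈ O) (hδ : ∀ u, δ u ∈ B) (hnd : RelNd V δ O B f f') {n : ℕ}
    {lam : Fin n → A →ₗ[K] K} (hl : Chars B s f f' lam) (i : Fin n) {y : A}
    (hy : Fintype.card Γ • y ∈ O) (hc : ∀ u, δ u * y = y * δ u) :
    lam i (trF f f' (prB s f f' y)) ∈ V.nonunits :=
  hl.nil hO i ⟨core_trF_memB hH.frame (prB_mem hH.frame y),
    fun _ hb => (trF_comm hH.frame _ hb).symm⟩
    (hnd _ (prB_mem hH.frame y) (by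
      rw [← map_nsmul]
      exact core_pr_memO hO hf hf' hy) fun u => by
      rw [← rat_pr_left hH.symm hH.frame y (hδ u), hc, rat_pr_right hH.symm hH.frame y (hδ u)])

lemma rlcore1_mu_mul (hO : SymOrder V O s) (hH : Hig s B f f' α) (hf : ∀ i, f i ∈ O)
    (hf' : ∀ i, f' i ∈ O) (hδ : ∀ u, δ u ∈ B) (hR : RelFr δ O s B.toSubmodule) (hα : RelA δ O α)
    (hnd : RelNd V δ O B f f') {n : ℕ}
    {lam : Fin n → A →ₗ[K] K} (hl : Chars B s f f' lam) (i : Fin n) {z z' : A} (hz : z ∈ O)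
    (hz' : z' ∈ O) (hc : ∀ b ∈ B, z * b = b * z) (hc' : ∀ b ∈ B, z' * b = b * z') :
    lam i (prB s f f' (z * z')) - lam i (prB s f f' z) * lam i (prB s f f' z') ∈ V.nonunits := by
  rw [hH.prB_mul hc hc', map_add, hl.mul i _ _ (core_bcent_pr hH hc) (core_bcent_pr hH hc'),
    add_sub_cancel_left]
  refine rlcore1_lam_trF hO hH hf hf' hδ hnd hl i ?_ fun u => ?_
  · rw [← smul_mul_assoc]
    exact O.mul_mem (hR.half_mem hH.frame hα (O.sub_mem hz (core_pr_memO hO hf hf' hz)))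
      (O.sub_mem hz' (core_pr_memO hO hf hf' hz'))
  · rw [← mul_assoc, half_comm hH.frame hα hδ
      (fun v => (rat_pr_comm hH.symm hH.frame hc _ (hδ v)).symm) u, mul_assoc,
      ← rat_pr_comm hH.symm hH.frame hc' _ (hδ u), mul_assoc]

end aux

/-- The characters of the subalgebra kill the projections of nilpotent central elements. -/
lemma chars_prB_nilR {O : Subring A} {s : A →ₗ[K] K} (hO : SymOrder V O s) {B : Subalgebra K A}
    {ι : Type} [Fintype ι] {f f' : ι → A} {α : A →ₗ[K] A} (hH : Hig s B f f' α)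
    (hf : ∀ i, f i ∈ O) (hf' : ∀ i, f' i ∈ O) (hδ : ∀ u, δ u ∈ B)
    (hR : RelFr δ O s B.toSubmodule) (hα : RelA δ O α) (hnd : RelNd V δ O B f f') {n : ℕ}
    {lam : Fin n → A →ₗ[K] K} (hl : Chars B s f f' lam) (i : Fin n) {z : A} (hz : z ∈ O)
    (hc : ∀ a, z * a = a * z) (hn : NilMod V O z) : lam i (prB s f f' z) ∈ V.nonunits := by
  have hmem : ∀ y ∈ O, (∀ a, y * a = a * y) → lam i (prB s f f' y) ∈ V := fun y hy hyc =>
    hl.mem hO i (core_bcent_pr hH fun b _ => hyc b) (core_pr_memO hO hf hf' hy)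
  have hpc : ∀ (k : ℕ) (a : A), z ^ k * a = a * z ^ k := fun k a =>
    (Commute.pow_left (hc a) k).eq
  have hpow : ∀ k : ℕ, lam i (prB s f f' (z ^ k)) - lam i (prB s f f' z) ^ k ∈ V.nonunits := by
    intro k
    induction k with
    | zero =>
      rw [pow_zero, pow_zero, prB_of_mem hH.frame B.one_mem, hl.one, sub_self]
      exact V.nonunits.zero_mem
    | succ k ih =>
      have h1 := rlcore1_mu_mul hO hH hf hf' hδ hR hα hnd hl i (O.pow_mem hz k) hz
        (fun b _ => hpc k b) (fun b _ => hc b)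
      have h2 := V.nonunits.add_mem h1 (core_nu_mul ih (hmem z hz hc))
      rw [pow_succ, pow_succ]
      convert h2 using 1
      ring
  obtain ⟨k, m, hm, y, hy, e⟩ := hn
  have h3 : lam i (prB s f f' (z ^ k)) ∈ V.nonunits := by
    rcases eq_or_ne m 0 with h0 | h0
    · rw [e, h0, zero_smul, map_zero, map_zero]
      exact V.nonunits.zero_mem
    · have ey : y = m⁻¹ • z ^ k := by rw [e, smul_smul, inv_mul_cancel₀ h0, one_smul]
      have hyc : ∀ a, y * a = a * y := fun a => by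
        rw [ey, smul_mul_assoc, mul_smul_comm, hpc]
      rw [e, map_smul, map_smul, smul_eq_mul]
      exact core_nu_mul hm (hmem y hy hyc)
  have h4 := V.nonunits.sub_mem h3 (hpow k)
  rw [sub_sub_cancel] at h4
  exact core_nu_pow h4

/-- The trace of the inverse Casimir element of the subalgebra is a unit of the order. -/
lemma exists_u_invR [IsAlgClosed K] {O : Subring A} {s : A →ₗ[K] K} (hO : SymOrder V O s)
    (hloc : LocalCentre V O) {B : Subalgebra K A}
    {ι : Type} [Fintype ι] {f f' : ι → A} {α : A →ₗ[K] A} (hH : Hig s B f f' α)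
    (hf : ∀ i, f i ∈ O) (hf' : ∀ i, f' i ∈ O) (hδ : ∀ u, δ u ∈ B)
    (hR : RelFr δ O s B.toSubmodule) (hRA : RelFr δ O s ⊤) (hα : RelA δ O α)
    (hnd : RelNd V δ O B f f') {w : A} (hw : w ∈ B)
    (hw1 : w * trF f f' 1 = 1) {κ : Type} [Fintype κ] {β β' : κ → A} (hβ : IsFrame s ⊤ β β') :
    ∃ u' ∈ O, u' * trF β β' w = 1 ∧ trF β β' w * u' = 1 := by
  rcases subsingleton_or_nontrivial A with hA | hA
  · exact ⟨1, O.one_mem, Subsingleton.elim _ _, Subsingleton.elim _ _⟩
  have := hO.finiteDimensional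
  have hcO := hRA.cas_mem hβ hα
  have hcc := cas_comm hβ hα
  have eu := hH.u_sub_one hβ hw hw1
  have huO : trF β β' w ∈ O := by
    rw [eq_add_of_sub_eq eu]
    exact O.add_mem (hR.trF_mem hH.frame hcO hcc) O.one_mem
  have huc : ∀ a, trF β β' w * a = a * trF β β' w := fun a => (trF_comm_top hβ w a).symm
  obtain ⟨v, hv, hn⟩ := hloc _ huO huc
  refine hO.exists_inv huO hv (fun hvn => ?_) hn
  obtain ⟨lam, hl⟩ := exists_chars hH.frame ⟨w, hw, (sep_comm hH.frame hw hw1).2⟩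
  have hpos : 0 < Module.finrank K (Subalgebra.center K B) := Module.finrank_pos
  have h1 := chars_prB_nilR hO hH hf hf' hδ hR hα hnd hl ⟨0, hpos⟩
    (O.sub_mem huO (hO.algebraMap_mem hv))
    (fun a => by rw [sub_mul, mul_sub, huc, Algebra.commutes]) hn
  rw [eq_add_of_sub_eq eu, map_sub, map_add, core_pr_trF hH.symm hH.frame,
    prB_of_mem hH.frame B.one_mem, prB_of_mem hH.frame (B.algebraMap_mem v), map_sub, map_add,
    hl.one, core_lam_alg hl] at h1
  have h2 := V.nonunits.add_mem (V.nonunits.sub_mem h1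
    (rlcore1_lam_trF hO hH hf hf' hδ hnd hl ⟨0, hpos⟩ hcO hcc)) hvn
  refine core_nu_one (V := V) ?_
  convert h2 using 1
  ring

end Pool.Agent.Lib.MP_b6945b_al.St
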