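import Pool.Agent.Lib.MP_b6945b_al.Rl.Bal
import Pool.Agent.Lib.MP_b6945b_al.St.Lift

set_option autoImplicit false

/-!
Lifting product frames and equivariant maps to the deformation.
-/

namespace Pool.Agent.Lib.MP_b6945b_al.St

open PowerSeries

variable {K : Type} [Field K] {V : ValuationSubring K} {A : Type} [Ring A] [Algebra K A]
  {Γ : Type} [Group Γ] [Fintype Γ] {δ : Γ →* A} {O : Subring A} {s : A →ₗ[K] K}
  {Λ : Subring A⟦X⟧} {g : A⟦X⟧}

/-- The projection attached to a product family commutes with the group on the right. -/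
lemma rllift_prB_right {R A Γ : Type} [CommRing R] [Ring A] [Algebra R A] [Group Γ] [Fintype Γ]
    (δ : Γ →* A) (s : A →ₗ[R] R) {ι : Type} [Fintype ι] (x x' : ι → A) (y : A) (v : Γ) :
    prB s (pf δ x) (pf' δ x') (y * δ v) = prB s (pf δ x) (pf' δ x') y * δ v := by
  rw [prB_apply, prB_apply, Finset.sum_mul,
    ← Equiv.sum_comp ((Equiv.refl ι).prodCongr (Equiv.mulRight v))]
  refine Finset.sum_congr rfl fun t _ => ?_
  have e : δ v * δ (t.2 * v)⁻¹ = δ t.2⁻¹ := by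
    rw [← map_mul, mul_inv_rev, mul_inv_cancel_left]
  change s (y * δ v * (δ (t.2 * v)⁻¹ * x' t.1)) • (x t.1 * δ (t.2 * v)) =
    (s (y * (δ t.2⁻¹ * x' t.1)) • (x t.1 * δ t.2)) * δ v
  rw [mul_assoc y, ← mul_assoc (δ v), e, smul_mul_assoc, map_mul δ t.2 v, mul_assoc (x t.1)]

omit [Fintype Γ] in
lemma rllift_cst_mem {B : Subalgebra K A} (hδ : ∀ u, δ u ∈ B) (u : Γ) :
    cst δ u ∈ coefAlg B := by
  refine mem_coefAlg.2 fun n => ?_
  rw [cst_apply, coeff_C]
  split_ifs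
  · exact hδ u
  · exact B.zero_mem

/-- Expansion of a series in a constant frame. -/
lemma rllift_expand {ι : Type} [Fintype ι] {β β' : ι → A} (h : IsFrame s ⊤ β β') (F : A⟦X⟧) :
    ∑ j, extF s (F * C (β' j)) • (C (β j) : A⟦X⟧) = F := by
  ext n
  rw [map_sum]
  conv_rhs => rw [← h.repro (coeff n F) trivial]
  refine Finset.sum_congr rfl fun j _ => ?_
  rw [ps_smul_def, coeff_mul_C, coeff_map, coeff_extF, coeff_mul_C, Algebra.smul_def]

/-- Maps linear over the scalar series that agree on constants agree. -/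
lemma rllift_ext {ι : Type} [Fintype ι] {β β' : ι → A} (h : IsFrame s ⊤ β β')
    {T T' : A⟦X⟧ →ₗ[K⟦X⟧] A⟦X⟧} (e : ∀ a, T (C a) = T' (C a)) (F : A⟦X⟧) : T F = T' F := by
  rw [← rllift_expand h F, map_sum, map_sum]
  exact Finset.sum_congr rfl fun j _ => by rw [map_smul, map_smul, e]

/-- Copy `exists_lift_frame` for the lifts `pf (cst δ) G`, `pf' (cst δ) G'` of the product frame;
`T (y * C (δ v)) = T y * C (δ v)` (reindex the group, `prB_bimod`), so the same holds for `T'`, and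
`T' (G j * C (δ u)) = T' (G j) * C (δ u)`. -/
lemma RelFr.lift (hD : Deform V O s Λ g) {B : Subalgebra K A} (hδ : ∀ u, δ u ∈ B)
    (hC : ∀ u, (C (δ u) : A⟦X⟧) ∈ Λ) (hR : RelFr δ O s B.toSubmodule)
    (hl : ∀ b ∈ B, b ∈ O → ∃ F ∈ Λ, coeff 0 F = b ∧ F ∈ coefAlg B) :
    RelFr (cst δ) Λ (st s g) (coefAlg B).toSubmodule := by
  obtain ⟨n, x, x', hx, hx', hp⟩ := hR
  have m1 : ∀ i, x i ∈ B := fun i => by simpa [pf] using hp.mem (i, 1)
  have m2 : ∀ i, x' i ∈ B := fun i => by simpa [pf'] using hp.mem' (i, 1)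
  choose G hG hG0 hGB using fun i => hl (x i) (m1 i) (hx i)
  choose G' hG' hG0' hGB' using fun i => hl (x' i) (m2 i) (hx' i)
  have p0 : ∀ t, coeff 0 (pf (cst δ) G t) = pf δ x t := fun t => by
    rw [pf, pf, coeff_zero_mul', hG0, cst_apply, coeff_zero_C]
  have p0' : ∀ t, coeff 0 (pf' (cst δ) G' t) = pf' δ x' t := fun t => by
    rw [pf', pf', coeff_zero_mul', hG0', cst_apply, coeff_zero_C]
  have pL : ∀ t, pf (cst δ) G t ∈ Λ := fun t => Λ.mul_mem (hG _) (hC _)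
  have pL' : ∀ t, pf' (cst δ) G' t ∈ Λ := fun t => Λ.mul_mem (hC _) (hG' _)
  have pB : ∀ t, pf (cst δ) G t ∈ coefAlg B := fun t =>
    (coefAlg B).mul_mem (hGB _) (rllift_cst_mem hδ _)
  have pB' : ∀ t, pf' (cst δ) G' t ∈ coefAlg B := fun t =>
    (coefAlg B).mul_mem (rllift_cst_mem hδ _) (hGB' _)
  let T : A⟦X⟧ →ₗ[K⟦X⟧] A⟦X⟧ := prB (st s g) (pf (cst δ) G) (pf' (cst δ) G') +
    (LinearMap.id - ext (prB s (pf δ x) (pf' δ x')))
  have hT : ∀ y, T y = prB (st s g) (pf (cst δ) G) (pf' (cst δ) G') y +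
      (y - ext (prB s (pf δ x) (pf' δ x')) y) := fun y => rfl
  have hTB : ∀ y ∈ coefAlg B, T y = prB (st s g) (pf (cst δ) G) (pf' (cst δ) G') y := by
    intro y hy
    have : ext (prB s (pf δ x) (pf' δ x')) y = y := by
      ext n
      rw [coeff_ext, prB_of_mem hp (mem_coefAlg.1 hy n)]
    rw [hT, this, sub_self, add_zero]
  have hTv : ∀ y v, T (y * cst δ v) = T y * cst δ v := by
    intro y v
    have : ext (prB s (pf δ x) (pf' δ x')) (y * cst δ v) =
        ext (prB s (pf δ x) (pf' δ x')) y * cst δ v := by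
      ext n
      rw [cst_apply, coeff_ext, coeff_mul_C, coeff_mul_C, coeff_ext, rllift_prB_right]
    rw [hT, hT, this, rllift_prB_right, add_mul, sub_mul]
  obtain ⟨T', h1, h2, -, h4⟩ := exists_neumann T fun y => by
    rw [hT, map_add, map_sub, lift_coeff_prB hD p0 p0', coeff_ext, add_sub_cancel]
  have hTv' : ∀ y v, T' (y * cst δ v) = T' y * cst δ v := by
    intro y v
    conv_lhs => rw [← h1 y, ← hTv, h2]
  have h5 := h4 (Λ.toAddSubgroup ⊓ (coefAlg B).toSubring.toAddSubgroup)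
    (hD.closed.inter (closed_coeff fun _ a => a ∈ B)) fun y hy => by
      rw [hTB y hy.2]
      refine ⟨lift_prB_mem hD pL pL' hy.1, ?_⟩
      change _ ∈ coefAlg B
      rw [prB_apply]
      exact (coefAlg B).sum_mem fun i _ => (coefAlg B).smul_mem (pB i) _
  have e : ∀ t, pf (cst δ) (fun i => T' (G i)) t = T' (pf (cst δ) G t) := fun t =>
    (hTv' _ _).symm
  refine ⟨n, fun i => T' (G i), G', fun i => (h5 _ ⟨hG i, hGB i⟩).1, hG', fun t => ?_, pB',
    fun x _ y _ => hD.st_symm x y, fun y hy => ?_⟩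
  · rw [e]
    exact (h5 _ ⟨pL t, pB t⟩).2
  · have := h2 y
    rw [hTB y hy, prB_apply, map_sum] at this
    simpa only [map_smul, e] using this

/-- The case `B = ⊤`. -/
lemma RelFr.lift_top (hD : Deform V O s Λ g) (hC : ∀ u, (C (δ u) : A⟦X⟧) ∈ Λ)
    (hR : RelFr δ O s ⊤) : RelFr (cst δ) Λ (st s g) ⊤ := by
  have h := RelFr.lift (B := ⊤) hD (fun _ => trivial) hC hR fun b _ hb =>
    let ⟨F, hF, e⟩ := (hD.const b).1 hb
    ⟨F, hF, e, fun _ => trivial⟩
  have e : (coefAlg (⊤ : Subalgebra K A)).toSubmodule = ⊤ :=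
    eq_top_iff.2 fun F _ n => trivial
  rwa [e] at h

/-- With a frame `β, β'` of `O` put `t F = ∑ extF s (F * C (β' j)) • τ (β j)`, so `t (C a) = τ a`;
maps linear over `K⟦X⟧` that agree on constants agree (`F = ∑ extF s (F * C (β' j)) • C (β j)`), so
`t` is equivariant.  `t` is the identity modulo `X` (`exists_neumann` gives `t'`), maps
`coefSub O` into `Λ`, and `t'` maps `Λ` into `coefSub O` (subtract `τ (coeff 0 G)`, divide by `X`
with `Deform.of_X_pow_mul`, induct on the coefficient).  Take `a = t ∘ ext α ∘ t'`. -/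
lemma Split.exists_lift_map (hD : Deform V O s Λ g) {τ : A →ₗ[K] A⟦X⟧}
    (hτ : Split (Set.range δ) O Λ τ) {α : A →ₗ[K] A} (hα : RelA δ O α) :
    ∃ a : A⟦X⟧ →ₗ[K⟦X⟧] A⟦X⟧, RelA (cst δ) Λ a ∧ ∀ F, coeff 0 (a F) = α (coeff 0 F) := by
  obtain ⟨n, β, β', hβ, hβ', hf⟩ := hD.symOrder.frame
  let t : A⟦X⟧ →ₗ[K⟦X⟧] A⟦X⟧ :=
    ∑ j, (extF s ∘ₗ LinearMap.mulRight K⟦X⟧ (C (β' j) : A⟦X⟧)).smulRight (τ (β j))
  have ht : ∀ F, t F = ∑ j, extF s (F * C (β' j)) • τ (β j) := fun F => by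
    rw [LinearMap.sum_apply]
    rfl
  have htC : ∀ a, t (C a) = τ a := fun a => by
    rw [ht]
    conv_rhs => rw [← hf.repro a trivial, map_sum]
    refine Finset.sum_congr rfl fun j _ => ?_
    have : extF s (C a * C (β' j) : A⟦X⟧) = C (s (a * β' j)) := by
      ext m
      rw [coeff_extF, ← map_mul, coeff_C, coeff_C]
      split_ifs
      · rfl
      · exact map_zero s
    rw [this, C_ps_smul, map_smul]
  have hte : ∀ u v F, t (cst δ u * F * cst δ v) = cst δ u * t F * cst δ v := fun u v F =>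
    rllift_ext hf
      (T := t ∘ₗ LinearMap.mulRight K⟦X⟧ (cst δ v) ∘ₗ LinearMap.mulLeft K⟦X⟧ (cst δ u))
      (T' := LinearMap.mulRight K⟦X⟧ (cst δ v) ∘ₗ LinearMap.mulLeft K⟦X⟧ (cst δ u) ∘ₗ t)
      (fun a => by
        change t (C (δ u) * C a * C (δ v)) = C (δ u) * t (C a) * C (δ v)
        rw [← map_mul, ← map_mul, htC, htC, hτ.right _ ⟨v, rfl⟩, hτ.left _ ⟨u, rfl⟩]) F
  have ht0 : ∀ F, coeff 0 (t F) = coeff 0 F := fun F => by
    rw [ht, map_sum]
    conv_rhs => rw [← hf.repro (coeff 0 F) trivial]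
    refine Finset.sum_congr rfl fun j _ => ?_
    rw [coeff_zero_ps_smul, coeff_extF, coeff_mul_C, hτ.zero]
  have htL : ∀ F ∈ coefSub O, t F ∈ Λ := fun F hF => by
    rw [ht]
    refine Λ.sum_mem fun j _ => hD.smul_mem _ (fun m => ?_) _ (hτ.mem _ (hβ j))
    rw [coeff_extF, coeff_mul_C]
    exact hD.symOrder.form_mem _ (O.mul_mem (hF m) (hβ' j))
  obtain ⟨t', h1, h2, h3, -⟩ := exists_neumann t ht0
  have hte' : ∀ u v F, t' (cst δ u * F * cst δ v) = cst δ u * t' F * cst δ v := fun u v F => by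
    conv_lhs => rw [← h1 F, ← hte, h2]
  have htO : ∀ m, ∀ G ∈ Λ, coeff m (t' G) ∈ O := by
    intro m
    induction m with
    | zero => exact fun G hG => by rw [h3]; exact (hD.const _).2 ⟨G, hG, rfl⟩
    | succ m ih =>
      intro G hG
      have ha : coeff 0 G ∈ O := (hD.const _).2 ⟨G, hG, rfl⟩
      obtain ⟨H, hH⟩ := ord_iff_dvd.1 (ord_one_iff.2
        (show coeff 0 (G - τ (coeff 0 G)) = 0 by rw [map_sub, hτ.zero, sub_self]))
      have hHL : H ∈ Λ := hD.of_X_pow_mul 1 (hH ▸ Λ.sub_mem hG (hτ.mem _ ha))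
      have e : t' G = C (coeff 0 G) + X * t' H := by
        rw [pow_one, ← X_ps_smul (S := K), sub_eq_iff_eq_add', ← htC] at hH
        conv_lhs => rw [hH, map_add, h2, map_smul, X_ps_smul]
      rw [e, map_add, coeff_succ_X_mul, coeff_C, if_neg m.succ_ne_zero, zero_add]
      exact ih H hHL
  refine ⟨t ∘ₗ ext α ∘ₗ t', ⟨fun u v y => ?_, fun y hy => ?_⟩, fun F => ?_⟩
  · have : ∀ F, ext α (cst δ u * F * cst δ v) = cst δ u * ext α F * cst δ v := fun F => by
      ext m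
      simp only [cst_apply, coeff_ext, coeff_mul_C, coeff_C_mul, hα.eqv]
    simp only [LinearMap.comp_apply]
    rw [hte', this, hte]
  · simp only [LinearMap.comp_apply]
    rw [← map_nsmul]
    refine htL _ fun m => ?_
    rw [map_nsmul, coeff_ext]
    exact hα.mem _ (htO m y hy)
  · simp only [LinearMap.comp_apply]
    rw [ht0, coeff_ext, h3]

/-- Copy `exists_lift`; `liftT` preserves `Λ` by `RelFr.trB_mem`; `T'` and `liftQ` are bimodule
maps over `coefAlg B` (see the proof of `lift_hig`). -/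
theorem exists_liftR (hD : Deform V O s Λ g) {B : Subalgebra K A} {ι : Type} [Fintype ι]
    {f f' : ι → A} {α : A →ₗ[K] A} (hH : Hig s B f f' α) (hf : ∀ i, f i ∈ O)
    (hf' : ∀ i, f' i ∈ O) (hδ : ∀ u, δ u ∈ B) (hR : RelFr δ O s B.toSubmodule) (hα : RelA δ O α)
    {τ : A →ₗ[K] A⟦X⟧} (hτ : Split (Set.range δ) O Λ τ)
    (hl : ∀ b ∈ B, b ∈ O → ∃ F ∈ Λ, coeff 0 F = b ∧ F ∈ coefAlg B) :
    ∃ (F F' : ι → A⟦X⟧) (a : A⟦X⟧ →ₗ[K⟦X⟧] A⟦X⟧), (∀ i, F i ∈ Λ) ∧ (∀ i, F' i ∈ Λ) ∧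
      RelA (cst δ) Λ a ∧ (∀ i, coeff 0 (F i) = f i) ∧ (∀ i, coeff 0 (F' i) = f' i) ∧
      Hig (st s g) (coefAlg B) F F' a ∧ RelFr (cst δ) Λ (st s g) (coefAlg B).toSubmodule := by
  obtain ⟨F, F', hF, hF', h0, h0', hfr⟩ := exists_lift_frame hD hH.frame hf hf' hl
  have hR' := hR.lift hD hδ (fun u => hτ.C_mem _ ⟨u, rfl⟩) hl
  obtain ⟨a₀, ha, ha0⟩ := hτ.exists_lift_map hD hα
  have hQ : ∀ y ∈ Λ, liftQ (st s g) F F' y ∈ Λ := fun y hy =>
    Λ.sub_mem hy (lift_prB_mem hD hF hF' hy)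
  have hQ0 : ∀ y, coeff 0 (liftQ (st s g) F F' y) = liftQ s f f' (coeff 0 y) := fun y => by
    rw [liftQ_apply, liftQ_apply, map_sub, lift_coeff_prB hD h0 h0']
  have hR0 : ∀ y, coeff 0 (trB F F' a₀ y) = trB f f' α (coeff 0 y) := fun y => by
    simp only [trB, map_sum, coeff_zero_mul', ha0, h0, h0']
  obtain ⟨T', h1, h2, -, h4⟩ := exists_neumann (liftT (st s g) F F' a₀) fun y => by
    rw [liftT_apply, map_add, hQ0, hR0, hQ0, lift_coeff_prB hD h0 h0',
      hH.hig _ fun b hb => liftQ_perp hH.frame _ hb, liftQ_apply, lift_prB_liftQ hH.frame,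
      sub_zero, liftQ_apply, sub_add_cancel]
  have h5 := h4 Λ.toAddSubgroup hD.closed fun y hy => by
    rw [liftT_apply]
    exact Λ.add_mem (hQ _ (hR'.trB_mem hfr ha (hQ y hy))) (lift_prB_mem hD hF hF' hy)
  have hT : ∀ y b b', b ∈ coefAlg B → b' ∈ coefAlg B →
      liftT (st s g) F F' a₀ (b * y * b') = b * liftT (st s g) F F' a₀ y * b' := by
    intro y b b' hb hb'
    rw [liftT_apply, liftT_apply, liftQ_bimod hD.st_symm hfr y hb hb',
      lift_trB_bimod hfr a₀ _ hb hb', liftQ_bimod hD.st_symm hfr _ hb hb',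
      prB_bimod hD.st_symm hfr y hb hb', mul_add, add_mul]
  have hT' : ∀ y b b', b ∈ coefAlg B → b' ∈ coefAlg B → T' (b * y * b') = b * T' y * b' := by
    intro y b b' hb hb'
    conv_lhs => rw [← h1 y, ← hT _ b b' hb hb', h2]
  refine ⟨F, F', liftQ (st s g) F F' ∘ₗ a₀ ∘ₗ T' ∘ₗ liftQ (st s g) F F', hF, hF',
    ⟨fun u v y => ?_, fun y hy => ?_⟩, h0, h0', lift_hig hD.st_symm hfr a₀ T' h1 h2, hR'⟩
  · have hu := rllift_cst_mem hδ u
    have hv := rllift_cst_mem hδ v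
    simp only [LinearMap.comp_apply]
    rw [liftQ_bimod hD.st_symm hfr y hu hv, hT' _ _ _ hu hv, ha.eqv,
      liftQ_bimod hD.st_symm hfr _ hu hv]
  · simp only [LinearMap.comp_apply]
    rw [← map_nsmul]
    exact hQ _ (ha.mem _ (h5 _ (hQ y hy)))

end Pool.Agent.Lib.MP_b6945b_al.St
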