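import Pool.Agent.Lib.MP_b6945b_al.Rl.Defs
import Pool.Agent.Lib.MP_b6945b_al.St.Series
import Pool.Agent.Lib.MP_b6945b_al.St.Endgame

set_option autoImplicit false

/-!
The cyclic identity and the final count with bounded denominators.
-/

namespace Pool.Agent.Lib.MP_b6945b_al.St

open PowerSeries

variable {K : Type} [Field K] {V : ValuationSubring K} {A : Type} [Ring A] [Algebra K A]
  {O : Subring A} {s : A →ₗ[K] K} {Λ : Subring A⟦X⟧} {g : A⟦X⟧} {ι κ : Type} [Fintype ι]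
  [Fintype κ]

/-- Elements with a nonzero multiple in a given subring. -/
def rlseries_sat {T : Type} [Ring T] (S : Subring T) : Subring T where
  carrier := {r | ∃ M : ℕ, M ≠ 0 ∧ M • r ∈ S}
  one_mem' := ⟨1, one_ne_zero, by rw [one_smul]; exact S.one_mem⟩
  zero_mem' := ⟨1, one_ne_zero, by rw [one_smul]; exact S.zero_mem⟩
  mul_mem' := by
    rintro x y ⟨M, hM, hx⟩ ⟨N, hN, hy⟩
    refine ⟨M * N, mul_ne_zero hM hN, ?_⟩
    rw [← smul_mul_smul_comm]
    exact S.mul_mem hx hy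
  add_mem' := by
    rintro x y ⟨M, hM, hx⟩ ⟨N, hN, hy⟩
    refine ⟨M * N, mul_ne_zero hM hN, ?_⟩
    rw [smul_add]
    refine S.add_mem ?_ ?_
    · rw [mul_comm, mul_smul]
      exact nsmul_mem hx N
    · rw [mul_smul]
      exact nsmul_mem hy M
  neg_mem' := by
    rintro x ⟨M, hM, hx⟩
    refine ⟨M, hM, ?_⟩
    rw [smul_neg]
    exact S.neg_mem hx

lemma rlseries_le {T : Type} [Ring T] {S : Subring T} {x : T} (h : x ∈ S) :
    x ∈ rlseries_sat S := ⟨1, one_ne_zero, by rwa [one_smul]⟩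

/-- The properties of the pair of rings that the cyclic identity needs. -/
structure rlseries_Pair (s : A →ₗ[K] K) (g : A⟦X⟧) (W : Subring K⟦X⟧) (L : Subring A⟦X⟧) :
    Prop where
  th_mem : ∀ r ∈ W, th r ∈ W
  smul_mem : ∀ r ∈ W, ∀ F ∈ L, r • F ∈ L
  form_mem : ∀ F ∈ L, st s g F ∈ W
  st_symm : ∀ F G, st s g (F * G) = st s g (G * F)

lemma rlseries_pair (hD : Deform V O s Λ g) :
    rlseries_Pair s g (rlseries_sat (VX V)) (rlseries_sat Λ) where
  th_mem := by
    rintro r ⟨M, hM, h⟩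
    exact ⟨M, hM, by rw [← map_nsmul]; exact th_mem_coefSub h⟩
  smul_mem := by
    rintro r ⟨M, hM, h⟩ F ⟨N, hN, h'⟩
    refine ⟨M * N, mul_ne_zero hM hN, ?_⟩
    have e : (M * N) • r • F = (M • r) • N • F := by
      rw [smul_assoc, smul_comm r N F, mul_smul]
    rw [e]
    exact hD.smul_mem _ h _ h'
  form_mem := by
    rintro F ⟨M, hM, h⟩
    exact ⟨M, hM, by rw [← map_nsmul]; exact hD.form_mem _ h⟩
  st_symm := hD.st_symm

section pair

variable {W : Subring K⟦X⟧} {L : Subring A⟦X⟧}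

/-- The lattice as an algebra over `W`. -/
def rlseries_sub (hD : rlseries_Pair s g W L) : Subalgebra W A⟦X⟧ where
  toSubsemiring := L.toSubsemiring
  algebraMap_mem' r := by
    rw [Algebra.algebraMap_eq_smul_one]
    exact hD.smul_mem r r.2 1 L.one_mem

lemma rlseries_coe_smul (hD : rlseries_Pair s g W L) (r : W) (F : rlseries_sub hD) :
    ((r • F : rlseries_sub hD) : A⟦X⟧) = (r : K⟦X⟧) • (F : A⟦X⟧) := rfl

/-- The form restricted to the lattice. -/
noncomputable def rlseries_form (hD : rlseries_Pair s g W L) : rlseries_sub hD →ₗ[W] W where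
  toFun F := ⟨st s g F, hD.form_mem _ F.2⟩
  map_add' F G := Subtype.ext (map_add (st s g) (F : A⟦X⟧) G)
  map_smul' r F := Subtype.ext (map_smul (st s g) (r : K⟦X⟧) (F : A⟦X⟧))

variable (W) in
/-- `W` as a submodule over itself. -/
def rlseries_W : Submodule W K⟦X⟧ where
  carrier := W
  zero_mem' := W.zero_mem
  add_mem' := fun ha hb => W.add_mem ha hb
  smul_mem' := fun r _ h => W.mul_mem r.2 h

lemma rlseries_bilin (hD : rlseries_Pair s g W L) : IsBilin W
    (fun w x : rlseries_sub hD =>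
      (rlseries_W W).mkQ (st s g ((w : A⟦X⟧) * th (x : A⟦X⟧)))) := by
  constructor
  · intro x x' y
    rw [Subalgebra.coe_add, add_mul, map_add, map_add]
  · intro r x y
    rw [rlseries_coe_smul, smul_mul_assoc, map_smul]
    exact map_smul (rlseries_W W).mkQ r _
  · intro x y y'
    rw [Subalgebra.coe_add, map_add, mul_add, map_add, map_add]
  · intro r x y
    have h0 : (rlseries_W W).mkQ (th (r : K⟦X⟧) • st s g ((x : A⟦X⟧) * y)) = 0 := by
      rw [Submodule.mkQ_apply, Submodule.Quotient.mk_eq_zero]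
      exact W.mul_mem (hD.th_mem _ r.2) (hD.form_mem _ (L.mul_mem x.2 y.2))
    rw [rlseries_coe_smul, th_smul, mul_add, mul_smul_comm, mul_smul_comm, map_add, map_smul,
      map_smul, map_add, h0, zero_add]
    exact map_smul (rlseries_W W).mkQ r _

/-- The bilinear map `(w, x) ↦ st (w * th x)` modulo `W`. -/
noncomputable def rlseries_phi (hD : rlseries_Pair s g W L) :
    rlseries_sub hD →ₗ[W] rlseries_sub hD →ₗ[W] (K⟦X⟧ ⧸ rlseries_W W) := (rlseries_bilin hD).lin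

lemma rlseries_phi_apply (hD : rlseries_Pair s g W L) (w x : rlseries_sub hD) :
    rlseries_phi hD w x = (rlseries_W W).mkQ (st s g ((w : A⟦X⟧) * th (x : A⟦X⟧))) := rfl

lemma rlseries_phi_mul (hD : rlseries_Pair s g W L) (w x y : rlseries_sub hD) :
    rlseries_phi hD w (x * y) = rlseries_phi hD (y * w) x + rlseries_phi hD (w * x) y := by
  simp only [rlseries_phi_apply, Subalgebra.coe_mul]
  rw [th_mul, mul_add, map_add, map_add, ← mul_assoc, hD.st_symm, ← mul_assoc, ← mul_assoc]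

lemma rlseries_phi_zero (hD : rlseries_Pair s g W L) {w x : rlseries_sub hD}
    (h : rlseries_phi hD w x = 0) : st s g ((w : A⟦X⟧) * th (x : A⟦X⟧)) ∈ W := by
  rw [rlseries_phi_apply, Submodule.mkQ_apply, Submodule.Quotient.mk_eq_zero] at h
  exact h

lemma rlseries_frame (hD : rlseries_Pair s g W L) {U : Submodule K⟦X⟧ A⟦X⟧}
    (U' : Submodule W (rlseries_sub hD)) (hU : ∀ y, y ∈ U' ↔ (y : A⟦X⟧) ∈ U)
    {β β' : κ → rlseries_sub hD}
    (hβ : IsFrame (st s g) U (fun j => (β j : A⟦X⟧)) (fun j => (β' j : A⟦X⟧))) :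
    IsFrame (rlseries_form hD) U' β β' where
  mem j := (hU _).2 (hβ.mem j)
  mem' j := (hU _).2 (hβ.mem' j)
  symm x _ y _ := Subtype.ext (hD.st_symm x y)
  repro y hy := by
    apply Subtype.ext
    rw [← hβ.repro y ((hU _).1 hy), AddSubmonoidClass.coe_finsetSum]
    rfl

lemma rlseries_coe_trF (hD : rlseries_Pair s g W L) (β β' : κ → rlseries_sub hD)
    (y : rlseries_sub hD) :
    ((trF β β' y : rlseries_sub hD) : A⟦X⟧)
      = trF (fun j => (β j : A⟦X⟧)) (fun j => (β' j : A⟦X⟧)) y := by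
  simp only [trF, AddSubmonoidClass.coe_finsetSum, Subalgebra.coe_mul]

lemma rlseries_l1 (hD : rlseries_Pair s g W L) {B : Subalgebra K⟦X⟧ A⟦X⟧} {F F' : ι → A⟦X⟧}
    {a : A⟦X⟧ →ₗ[K⟦X⟧] A⟦X⟧} (hH : Hig (st s g) B F F' a) (hF : ∀ i, F i ∈ L)
    (hF' : ∀ i, F' i ∈ L) (ha : ∀ y ∈ L, a y ∈ L) {β β' : κ → A⟦X⟧}
    (hβ : IsFrame (st s g) ⊤ β β') (hb : ∀ j, β j ∈ L) (hb' : ∀ j, β' j ∈ L) :
    st s g (th (zA F F' β β' a + zB F F' β β' a)) ∈ W := by
  let B' : Subalgebra W (rlseries_sub hD) :=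
    { carrier := {y | (y : A⟦X⟧) ∈ B}
      mul_mem' := fun h1 h2 => B.mul_mem h1 h2
      add_mem' := fun h1 h2 => B.add_mem h1 h2
      algebraMap_mem' := fun r => by
        rw [Algebra.algebraMap_eq_smul_one]
        exact B.smul_mem B.one_mem (r : K⟦X⟧) }
  let a' : rlseries_sub hD →ₗ[W] rlseries_sub hD :=
    { toFun := fun y => ⟨a y, ha _ y.2⟩
      map_add' := fun x y => Subtype.ext (map_add a (x : A⟦X⟧) y)
      map_smul' := fun r x => Subtype.ext (map_smul a (r : K⟦X⟧) (x : A⟦X⟧)) }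
  have ha' : ∀ y, ((a' y : rlseries_sub hD) : A⟦X⟧) = a y := fun _ => rfl
  let f : ι → rlseries_sub hD := fun i => ⟨F i, hF i⟩
  let f' : ι → rlseries_sub hD := fun i => ⟨F' i, hF' i⟩
  let e : κ → rlseries_sub hD := fun j => ⟨β j, hb j⟩
  let e' : κ → rlseries_sub hD := fun j => ⟨β' j, hb' j⟩
  have hH' : Hig (rlseries_form hD) B' f f' a' :=
    { symm := fun x y => Subtype.ext (hD.st_symm x y)
      frame := rlseries_frame hD B'.toSubmodule (fun _ => Iff.rfl) hH.frame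
      perp := fun y b hb => Subtype.ext (hH.perp y b hb)
      zero := fun b hb => Subtype.ext (hH.zero b hb)
      hig := fun y hy => by
        apply Subtype.ext
        rw [← hH.hig y (fun b hb => ?_)]
        · simp only [trB, AddSubmonoidClass.coe_finsetSum, Subalgebra.coe_mul, ha']
          rfl
        · rw [← hH.frame.repro b hb, Finset.mul_sum, map_sum]
          refine Finset.sum_eq_zero (fun i _ => ?_)
          have h0 : st s g ((y : A⟦X⟧) * F i) = 0 :=
            congrArg Subtype.val (hy (f i) (hH.frame.mem i))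
          rw [mul_smul_comm, map_smul, h0, smul_zero] }
  have he : IsFrame (rlseries_form hD) ⊤ e e' :=
    rlseries_frame hD ⊤ (fun _ => Iff.rfl) hβ
  have key := rlseries_phi_zero hD
    (cyclic_identity hH' he (rlseries_phi hD) (rlseries_phi_mul hD))
  simp only [zA, zB, Subalgebra.coe_add, Subalgebra.coe_one, one_mul,
    AddSubmonoidClass.coe_finsetSum, Subalgebra.coe_mul, ha', rlseries_coe_trF] at key
  exact key

end pair

/-- Copy the first half of `St/Series.lean` with `VX V` replaced by the subring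
`W = {r | ∃ M ≠ 0, M • r ∈ VX V}` of `K⟦X⟧` and `Λ` by `{F | ∃ M ≠ 0, M • F ∈ Λ}`; only these
properties are used: `th` preserves `W`, `W` acts on the lattice, the form has values in `W`. -/
theorem l1_seriesR (hD : Deform V O s Λ g) {B : Subalgebra K⟦X⟧ A⟦X⟧} {F F' : ι → A⟦X⟧}
    {a : A⟦X⟧ →ₗ[K⟦X⟧] A⟦X⟧} (hH : Hig (st s g) B F F' a) (hF : ∀ i, F i ∈ Λ)
    (hF' : ∀ i, F' i ∈ Λ) {m : ℕ} (hm : m ≠ 0) (ha : ∀ y ∈ Λ, m • a y ∈ Λ) {β β' : κ → A⟦X⟧}
    (hβ : IsFrame (st s g) ⊤ β β') (hb : ∀ j, β j ∈ Λ) (hb' : ∀ j, β' j ∈ Λ) :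
    ∃ M : ℕ, M ≠ 0 ∧ M • st s g (th (zA F F' β β' a + zB F F' β β' a)) ∈ VX V := by
  refine rlseries_l1 (rlseries_pair hD) hH (fun i => rlseries_le (hF i))
    (fun i => rlseries_le (hF' i)) ?_ hβ (fun j => rlseries_le (hb j))
    (fun j => rlseries_le (hb' j))
  rintro y ⟨M, hM, h⟩
  refine ⟨m * M, mul_ne_zero hm hM, ?_⟩
  rw [mul_smul, ← map_nsmul]
  exact ha _ h

/-- Repeat every factor `M` times (`finProdFinEquiv`) and apply `endgame`. -/
theorem endgameR [CharZero K] {p : ℕ} (hp : p.Prime)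
    (hpV : (p : K) ∈ V.nonunits) {a b : ℕ} (γ δ : Fin a → K⟦X⟧) (γ' δ' : Fin b → K⟦X⟧)
    (h0 : ∀ i, coeff 0 (γ i) = 1) (h0' : ∀ j, coeff 0 (γ' j) = 1)
    (hδ : ∀ i, γ i * δ i = th (γ i)) (hδ' : ∀ j, γ' j * δ' j = th (γ' j))
    (v : ℕ → K) (hv : ∀ m, v m ∈ V) (hv1 : v 1 ∉ V.nonunits)
    (hγ : ∀ i m, (p : K) ^ m * coeff m (γ i) - v m ∈ V.nonunits)
    (hγ' : ∀ j m, (p : K) ^ m * coeff m (γ' j) - v m ∈ V.nonunits) {M : ℕ} (hM : M ≠ 0)
    (hint : M • (∑ i, δ i - ∑ j, δ' j) ∈ VX V) : a = b := by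
  have sum : ∀ {c : ℕ} (d : Fin c → K⟦X⟧),
      ∑ i : Fin (M * c), d (finProdFinEquiv.symm i).2 = M • ∑ i, d i := fun d => by
    rw [Equiv.sum_comp finProdFinEquiv.symm (fun t : Fin M × Fin _ => d t.2),
      Fintype.sum_prod_type]
    simp
  have key := endgame hp hpV (a := M * a) (b := M * b)
    (fun i => γ (finProdFinEquiv.symm i).2) (fun i => δ (finProdFinEquiv.symm i).2)
    (fun i => γ' (finProdFinEquiv.symm i).2) (fun i => δ' (finProdFinEquiv.symm i).2)
    (fun i => h0 _) (fun i => h0' _) (fun i => hδ _) (fun i => hδ' _) v hv hv1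
    (fun i m => hγ _ m) (fun i m => hγ' _ m) (by rw [sum, sum, ← smul_sub]; exact hint)
  exact Nat.eq_of_mul_eq_mul_left (Nat.pos_of_ne_zero hM) key

end Pool.Agent.Lib.MP_b6945b_al.St
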