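import Pool.Agent.Lib.MP_b6945b_al.Rl.Core1
import Pool.Agent.Lib.MP_b6945b_al.Rl.Renorm
import Pool.Agent.Lib.MP_b6945b_al.Rl.Conj2
import Pool.Agent.Lib.MP_b6945b_al.Rl.Lift
import Pool.Agent.Lib.MP_b6945b_al.Rl.Series

set_option autoImplicit false

/-!
The core theorem for a relatively projective complement.
-/

namespace Pool.Agent.Lib.MP_b6945b_al.St

open PowerSeries

variable {K : Type} [Field K] {V : ValuationSubring K} {A : Type} [Ring A] [Algebra K A]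
  {Γ : Type} [Group Γ] [Fintype Γ] {δ : Γ →* A}

lemma rlcore2_trF_nsmul {A' : Type} [Ring A'] {ι : Type} [Fintype ι] (f f' : ι → A') (n : ℕ)
    (y : A') : trF f f' (n • y) = n • trF f f' y := by
  simp only [trF, Finset.smul_sum, mul_smul_comm, smul_mul_assoc]

lemma rlcore2_z_mem {A' : Type} [Ring A'] {ι κ : Type} [Fintype ι] [Fintype κ] {S : Subring A'}
    {f f' : ι → A'} {β β' : κ → A'} {a : A' → A'} {m : ℕ} (hf : ∀ i, f i ∈ S)
    (hf' : ∀ i, f' i ∈ S) (hb : ∀ j, β j ∈ S) (hb' : ∀ j, β' j ∈ S)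
    (ha : ∀ y ∈ S, m • a y ∈ S) : m • (zA f f' β β' a + zB f f' β β' a) ∈ S := by
  rw [smul_add]
  refine S.add_mem ?_ ?_
  · simp only [zA, Finset.smul_sum]
    refine S.sum_mem fun j _ => S.sum_mem fun h _ => ?_
    rw [← smul_mul_assoc, ← smul_mul_assoc]
    exact S.mul_mem (S.mul_mem (ha _ (hb j)) (hf h))
      (core_trF_memS hb hb' (S.mul_mem (hf' h) (hb' j)))
  · simp only [zB, Finset.smul_sum]
    refine S.sum_mem fun j _ => S.sum_mem fun h _ => ?_
    rw [← smul_mul_assoc, ← smul_mul_assoc]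
    exact S.mul_mem (S.mul_mem (ha _ (hb j)) (hf h))
      (core_trF_memS hf hf' (S.mul_mem (hf' h) (hb' j)))

/-- Copy `core`: `LProj.relFr`, `renormR`, `exists_conjR`, `Split.conj`, `exists_liftR`,
`RelFr.lift_top`.  With `n = card Γ` and `c = ∑ a (β j) * β' j`: `n • c ∈ Λ` (`RelFr.cas_mem`),
`trF F F' c ∈ Λ` (`cas_comm`, `RelFr.trF_mem`); apply `core_A_err` to `U' * (n • c)`;
`n ^ 2 • (zA + zB) ∈ Λ` termwise; `l1_seriesR`; finish with `endgameR` for `M * n ^ 2`. -/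
theorem coreR [CharZero K] [IsAlgClosed K] {p : ℕ} (hp : p.Prime) (hpV : (p : K) ∈ V.nonunits)
    {O : Subring A} (hG : GoodR V p O (Set.range δ)) (hP : LProj K δ O) {B : Subalgebra K A}
    {sB : A →ₗ[K] K} {ι : Type} [Fintype ι] {f f' : ι → A}
    (hfr : IsFrame sB B.toSubmodule f f') (hf : ∀ i, f i ∈ O) (hf' : ∀ i, f' i ∈ O)
    (hsB : ∀ b ∈ B, b ∈ O → sB b ∈ V) (hδ : ∀ u, δ u ∈ B) (hR : RelFr δ O sB B.toSubmodule)
    (r α : A →ₗ[K] A) (hrO : ∀ a ∈ O, r a ∈ O) (hα : RelA δ O α) (hrB : ∀ y, r y ∈ B)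
    (hr : ∀ b ∈ B, ∀ b' ∈ B, ∀ y, r (b * y * b') = b * r y * b') (hr1 : r 1 = 1)
    (hig : ∀ y, r y + trB f f' α y = y) (hz : ∃ w ∈ B, w * trF f f' 1 = 1)
    (hnd : RelNd V δ O B f f') :
    Module.finrank K (Subalgebra.center K A) = Module.finrank K (Subalgebra.center K B) := by
  obtain ⟨s, Λ₀, g, τ₀, ⟨hD₀, hX₀, hgO, ⟨v₁, hv₁V, hv₁, hv₁n⟩, hloc⟩, hτ₀⟩ := hG
  have hO := hD₀.symOrder
  have := hO.finiteDimensional
  have hRA : RelFr δ O s ⊤ := by
    obtain ⟨k, e, e', he, he', hfe⟩ := hO.frame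
    exact hP.relFr hfe he he'
  obtain ⟨f'', α', hf'', hα', hH, hR', ⟨w, hw, hw1⟩, hnd'⟩ :=
    renormR hO hfr hf hf' hsB hδ hR r α hrO hα hrB hr hr1 hig hz hnd
  obtain ⟨U₀, hU₀, hUc, hl⟩ := exists_conjR hD₀ hH hf hf'' hδ hR' hα' hτ₀
  obtain ⟨τ, hτ⟩ := hτ₀.conj U₀ hU₀ (by rintro _ ⟨u, rfl⟩; exact hUc u)
  have hD := hD₀.conj U₀ hU₀
  have hX := XCond.conj hD₀ hX₀ U₀
  generalize conjSub U₀ Λ₀ = Λ at hl hD hX hτ
  obtain ⟨F, F', a, hF, hF', ha, hF0, hF'0, hHs, hRs⟩ :=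
    exists_liftR hD hH hf hf'' hδ hR' hα' hτ hl
  have hRt : RelFr (cst δ) Λ (st s g) ⊤ :=
    RelFr.lift_top hD (fun u => hτ.C_mem _ ⟨u, rfl⟩) hRA
  obtain ⟨n, β, β', hb, hb', hβ⟩ := hD.frame
  have hβ0 := hD.frame_zero hβ
  -- the inverse of the Casimir element of the subalgebra
  have hcas : coeff 0 (trF F F' 1) = trF f f'' 1 := by
    rw [core_coeff_zero_trF, funext hF0, funext hF'0, coeff_zero_one]
  obtain ⟨W, hW, hW1, -, hW0⟩ := exists_inv_coefAlg B
    (core_trF_memB hHs.frame (coefAlg B).one_mem) hw (by rw [hcas, hw1])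
    (by rw [hcas, ← trF_comm hH.frame 1 hw, hw1])
  -- the unit `U`
  obtain ⟨u', hu'O, hu1, hu2⟩ := exists_u_invR hO hloc hH hf hf'' hδ hR' hRA hα' hnd' hw hw1 hβ0
  have ha0 : Fintype.card Γ • ∑ j, a (β j) * β' j ∈ Λ := hRt.cas_mem hβ ha
  have hUΛ : trF β β' W ∈ Λ := by
    rw [eq_add_of_sub_eq (hHs.u_sub_one hβ hW hW1)]
    exact Λ.add_mem (hRs.trF_mem hHs.frame ha0 (cas_comm hβ ha)) Λ.one_mem
  have hU0 : coeff 0 (trF β β' W) =
      trF (fun j => coeff 0 (β j)) (fun j => coeff 0 (β' j)) w := by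
    rw [core_coeff_zero_trF, hW0]
  obtain ⟨U', hU'Λ, hU1, hU2⟩ := hD.exists_inv hUΛ hu'O (by rw [hU0, hu1]) (by rw [hU0, hu2])
  have hT : trF β β' W = 1 + trF β β' (U' * ∑ j, a (β j) * β' j) := by
    rw [core_trF_mul (fun j => core_inv_comm hU1 hU2 (trF_comm_top hβ W (β j)).symm),
      ← hHs.u_mul hβ hW hW1, ← mul_assoc, hU1, one_mul, add_sub_cancel]
  -- characters
  obtain ⟨lam, hlam, htr⟩ := exists_chars_top hβ0 ⟨u' * w, by
    rw [core_trF_mul (fun j => core_inv_comm hu1 hu2 (trF_comm_top hβ0 w _).symm), hu1]⟩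
  obtain ⟨lam', hlam'⟩ := exists_chars hH.frame ⟨w, hw, (sep_comm hH.frame hw hw1).2⟩
  obtain ⟨g', hg1, -, hg'⟩ := hD.exists_g_inv
  have hζ : ∀ G, g' * th g * G = G * (g' * th g) := fun G => by
    rw [mul_assoc, core_central_th hD.g_comm, ← mul_assoc, hg', mul_assoc]
  have hgc : ∀ m, BCent (⊤ : Subalgebra K A) (coeff m g) :=
    fun m => ⟨trivial, fun b _ => hD.central m b⟩
  have hζc : ∀ m, BCent (⊤ : Subalgebra K A) (coeff m (g' * th g)) :=
    fun m => ⟨trivial, fun b _ => central_coeff hζ m b⟩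
  have hγ : ∀ m, BCent B (coeff m (ext (prB s f f'') g)) := fun m => by
    rw [coeff_ext]
    exact core_bcent_pr hH fun b _ => hD.central m b
  have hγ0 : coeff 0 (ext (prB s f f'') g) = 1 := by
    rw [coeff_ext, hD.g_zero, prB_of_mem hH.frame B.one_mem]
  obtain ⟨γ', hγ', hγ1, hγ2, -⟩ := exists_inv_coefAlg B (mem_coefAlg.2 fun m => (hγ m).1)
    B.one_mem (by rw [hγ0, one_mul]) (by rw [hγ0, one_mul])
  have hγ'c : ∀ m, BCent B (coeff m (γ' * th (ext (prB s f f'') g))) :=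
    core_bcent_of_comm ((coefAlg B).mul_mem hγ' (mem_coefAlg.2 fun m => (core_bcent_th hγ m).1))
      (fun G hG => by
        rw [mul_assoc, core_comm_of_bcent (core_bcent_th hγ) hG, ← mul_assoc,
          core_inv_comm hγ1 hγ2 (core_comm_of_bcent hγ hG), mul_assoc])
  -- the two terms
  have eB := core_B_term hg1 hH.frame hlam' hγ hγ0 hγ' hγ1 hγ2 hHs.frame hW hW1
  have eA : st s g (g' * th g * W * handle β β') = ∑ i, extF (lam i) (g' * th g) +
      ∑ i, extF (lam i) (g' * th g * trF β β' (U' * ∑ j, a (β j) * β' j)) := by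
    have htop : (coefAlg (⊤ : Subalgebra K A)).toSubmodule = ⊤ :=
      eq_top_iff.2 fun y _ => mem_coefAlg.2 fun _ => trivial
    rw [series_handle (B := ⊤) (by rw [Algebra.top_toSubmodule]; exact hβ0) hlam hgc hD.g_zero
      (fun y _ => st_apply s g y) (by rw [htop]; exact hβ) (mem_coefAlg.2 fun _ => trivial),
      core_trF_mul (fun j => hζ (β j)), hT, mul_add, mul_one, ← Finset.sum_add_distrib]
    exact Finset.sum_congr rfl (fun i _ => map_add _ _ _)
  have hn0 : Fintype.card Γ ^ 2 ≠ 0 := pow_ne_zero 2 Fintype.card_ne_zero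
  have hZ : (Fintype.card Γ ^ 2) • (zA F F' β β' a + zB F F' β β' a) ∈ Λ :=
    rlcore2_z_mem hF hF' hb hb' ha.mem
  obtain ⟨M, hM, hL⟩ := l1_seriesR hD hHs hF hF' hn0 ha.mem hβ hb hb'
  have hint : (M * Fintype.card Γ ^ 2) • (∑ i, extF (lam i) (g' * th g) -
      ∑ j, extF (lam' j) (γ' * th (ext (prB s f f'') g))) ∈ VX V := by
    have h1 : (M * Fintype.card Γ ^ 2) •
        st s g (g' * th g * (zA F F' β β' a + zB F F' β β' a)) ∈ VX V := by
      rw [eq_sub_of_add_eq' (core_th_st s hg1 (zA F F' β β' a + zB F F' β β' a)), smul_sub]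
      refine (VX V).sub_mem ?_ ?_
      · have h3 := th_mem_coefSub (hD.form_mem _ hZ)
        rw [map_nsmul, map_nsmul] at h3
        rw [mul_smul]
        exact nsmul_mem h3 M
      · rw [mul_comm, mul_smul]
        exact nsmul_mem hL _
    rw [hHs.form_z hβ hW hW1 hζ, eA, eB] at h1
    have h2 : (M * Fintype.card Γ ^ 2) •
        ∑ i, extF (lam i) (g' * th g * trF β β' (U' * ∑ j, a (β j) * β' j)) ∈ VX V := by
      have h3 := core_A_err hD hX hg1 hg' hβ hb hb' (Λ.mul_mem hU'Λ ha0) htr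
      simp only [mul_smul_comm, rlcore2_trF_nsmul, map_nsmul] at h3
      rw [← Finset.smul_sum] at h3
      rw [pow_two, ← mul_assoc, mul_smul]
      exact nsmul_mem h3 _
    have h4 := (VX V).sub_mem h1 h2
    rw [← smul_sub] at h4
    have e : ∀ x y z : K⟦X⟧, x + y - z - y = x - z := fun x y z => by ring
    rwa [e] at h4
  -- the common residues
  have hgm : ∀ (m : ℕ) (b : A), (p : K) ^ m • coeff m g * b = b * (p : K) ^ m • coeff m g :=
    fun m b => by rw [smul_mul_assoc, mul_smul_comm, hD.central]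
  have hv : ∀ m : ℕ, ∃ v ∈ V, (m = 1 → v ∉ V.nonunits) ∧
      NilMod V O ((p : K) ^ m • coeff m g - algebraMap K A v) := fun m => by
    rcases eq_or_ne m 1 with rfl | hm
    · exact ⟨v₁, hv₁V, fun _ => hv₁, by rwa [pow_one]⟩
    · obtain ⟨v, hv, hn⟩ := hloc _ (hgO m) (hgm m)
      exact ⟨v, hv, fun h => absurd h hm, hn⟩
  choose v hvV hv1 hvn using hv
  have hcen : ∀ (m : ℕ) (b : A), ((p : K) ^ m • coeff m g - algebraMap K A (v m)) * b =
      b * ((p : K) ^ m • coeff m g - algebraMap K A (v m)) := fun m b => by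
    rw [sub_mul, mul_sub, hgm, Algebra.commutes]
  refine endgameR hp hpV (fun i => extF (lam i) g) (fun i => extF (lam i) (g' * th g))
    (fun j => extF (lam' j) (ext (prB s f f'') g))
    (fun j => extF (lam' j) (γ' * th (ext (prB s f f'') g))) (fun i => ?_) (fun j => ?_)
    (fun i => ?_) (fun j => ?_) v hvV (hv1 1 rfl) (fun i m => ?_) (fun j m => ?_)
    (mul_ne_zero hM hn0) hint
  · rw [coeff_extF, hD.g_zero, hlam.one]
  · rw [coeff_extF, hγ0, hlam'.one]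
  · rw [← extF_mul hlam i hgc hζc, ← mul_assoc, hg1, one_mul, extF_th]
  · rw [← extF_mul hlam' j hγ hγ'c, ← mul_assoc, hγ2, one_mul, extF_th]
  · have := hlam.nil hO i ⟨trivial, fun b _ => hcen m b⟩ (hvn m)
    rwa [map_sub, map_smul, core_lam_alg hlam, smul_eq_mul, ← coeff_extF] at this
  · have := chars_prB_nilR hO hH hf hf'' hδ hR' hα' hnd' hlam' j
      (O.sub_mem (hgO m) (hO.algebraMap_mem (hvV m))) (hcen m) (hvn m)
    rwa [map_sub, map_smul, prB_of_mem hH.frame (B.algebraMap_mem _), map_sub, map_smul,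
      core_lam_alg hlam', smul_eq_mul, ← coeff_ext, ← coeff_extF] at this

end Pool.Agent.Lib.MP_b6945b_al.St
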