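import Pool.Agent.Lib.MP_b6945b_al.St.DefD2

set_option autoImplicit false

/-!
A deformation of the group ring that is constant on an invariant subgroup.
-/

namespace Pool.Agent.Lib.MP_b6945b_al.St

open PowerSeries
open MonoidAlgebra (single)

variable {K : Type} [Field K] [CharZero K] {D E : Type} [CommGroup D] [Fintype D] [Group E]
  [Fintype E]

/-- `defd_char` for the image of `w₀` in `D ⧸ R₀`, composed with the projection; then copy
`exists_xfam`.  As `r l (u * v) = r l v` for `u ∈ R₀`, the last claim follows from `fix`. -/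
theorem exists_xfamR {p : ℕ} (hp : p.Prime) (φ : E →* MulAut D) {R₀ : Subgroup D}
    (hR : ∀ l, ∀ u ∈ R₀, φ l u ∈ R₀) {w₀ : D} (h1 : w₀ ∉ R₀) (hw : w₀ ^ p = 1) :
    ∃ (w : E → D) (r : E → D → ℚ) (Xs : D → (MonoidAlgebra K D)⟦X⟧), XFam p φ w r Xs ∧
      ∀ u ∈ R₀, ∀ v, Xs (u * v) = C (single u 1) * Xs v := by
  obtain ⟨r₀, h2, h3, h4, a, h5, h6⟩ := defd_char (D := D ⧸ R₀) hp
    (w₀ := QuotientGroup.mk' R₀ w₀) (fun h => h1 ((QuotientGroup.eq_one_iff w₀).1 h))
    (by rw [← map_pow, hw, map_one])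
  let w : E → D := fun l => φ l w₀
  let r : E → D → ℚ := fun l v => r₀ (QuotientGroup.mk' R₀ ((φ l)⁻¹ v))
  obtain ⟨Xs, -, hX⟩ := exists_fixed_family (A := MonoidAlgebra K D) (ι := D)
    (fun _ => Set.univ) (fun _ _ _ => trivial)
    (fun F v => C (single v 1) * ∏ l, bpow K (r l v) (X * (F (w l) - 1))) (fun _ => 1)
    (fun _ => trivial) (fun _ _ _ => trivial) (fun n F G _ _ h v => by
      rw [← mul_sub]
      refine (defd_ord_prod _ fun l => bpow_ord (by simp) (by simp) _ ?_).mul_left _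
      rw [← mul_sub, sub_sub_sub_cancel_right]
      exact (h (w l)).X_mul)
  have hfix : ∀ v, Xs v = C (single v 1) * ∏ l, bpow K (r l v) (X * (Xs (w l) - 1)) :=
    fun v => (congrFun hX v).symm
  refine ⟨w, r, Xs, ⟨fun l => ?_, fun l => ?_, fun l v v' => ?_, fun l v hv => ?_,
    ⟨a, h5, fun l => ?_⟩, fun l m => ?_, fun l m v => ?_, hfix⟩, fun u hu v => ?_⟩
  · simp only [w]
    rw [← map_pow, hw, map_one]
  · simp only [r]
    rw [map_one, map_one, h2]
  · simp only [r]
    rw [map_mul, map_mul]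
    exact h3 _ _
  · exact h4 _ (by rw [← map_pow, ← map_pow, hv, map_one, map_one])
  · simp only [r, w]
    rw [map_inv, map_inv, ← h6]
    simp
  · simp only [w]
    rw [map_mul, MulAut.mul_apply]
  · simp only [r]
    rw [map_mul, mul_inv_rev, MulAut.mul_apply]
    simp
  · have e : ∀ l, r l (u * v) = r l v := fun l => by
      have h7 : QuotientGroup.mk' R₀ ((φ l)⁻¹ u) = 1 := by
        rw [← map_inv]
        exact (QuotientGroup.eq_one_iff _).2 (hR _ u hu)
      simp only [r]
      rw [map_mul, map_mul, h7, one_mul]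
    rw [hfix (u * v)]
    conv_rhs => rw [hfix v]
    rw [← mul_assoc, ← map_mul, MonoidAlgebra.single_mul_single, mul_one]
    simp only [e]

/-- Copy `XFam.exists_deform` and add `hXL`. -/
theorem XFam.exists_deformR {p : ℕ} {φ : E →* MulAut D} {w : E → D} {r : E → D → ℚ}
    {Xs : D → (MonoidAlgebra K D)⟦X⟧} (h : XFam p φ w r Xs) (V : ValuationSubring K) :
    ∃ (Λ : Subring (MonoidAlgebra K D)⟦X⟧) (g : (MonoidAlgebra K D)⟦X⟧),
      Deform V (GO V D) (coef K (1 : D)) Λ g ∧
      (∀ l, ∀ F ∈ Λ, PowerSeries.map (act K φ l) F ∈ Λ) ∧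
      (∀ l m, act K φ l (coeff m g) = coeff m g) ∧
      extF (coef K (1 : D)) (g * Xs 1) = 1 ∧
      (∀ v, v ≠ 1 → extF (coef K (1 : D)) (g * Xs v) = 0) ∧ ∀ v, Xs v ∈ Λ := by
  classical
  have he := isFrame_group K D
  have hco : ∀ (a : MonoidAlgebra K D) (v : D), coef K (1 : D) (a * single v⁻¹ 1) = a.coeff v :=
    fun a v => by simp
  have ho : ∀ i j : D, coef K (1 : D) ((single i 1 : MonoidAlgebra K D) * single j⁻¹ 1) =
      if i = j then 1 else 0 := fun i j => by
    rw [hco, MonoidAlgebra.coeff_single, Finsupp.single_apply]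
  obtain ⟨c, hrep, hc, hc0, hconst⟩ := defd2_coord he ho (defd2_zero h)
  obtain ⟨g, hg0, hg, huniq⟩ := defd2_dual he ho (defd2_zero h) (1 : D)
  rw [inv_one, ← MonoidAlgebra.one_def] at hg0
  have hXL : ∀ v, Xs v ∈ defd2_lat V c := fun v u => by
    rw [hc]
    split_ifs
    · exact one_mem _
    · exact zero_mem _
  have h1L : (1 : (MonoidAlgebra K D)⟦X⟧) ∈ defd2_lat V c := defd2_one h ▸ hXL 1
  have hP : ∀ n, ∀ F ∈ defd2_lat V c, ∀ G ∈ defd2_lat V c,
      F * G ∈ defd2_near (defd2_lat V c) n := by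
    intro n
    induction n with
    | zero => exact fun F _ G _ => ⟨0, zero_mem _, ord_zero _⟩
    | succ n ih =>
      refine defd2_mul_basis hrep fun v v' => ?_
      obtain ⟨m, hm⟩ := defd2_mul h v v'
      let P : (MonoidAlgebra K D)⟦X⟧ → Prop :=
        fun F => ∃ Z ∈ defd2_near (defd2_lat V c) n, F = 1 + X * Z
      have P1 : P 1 := ⟨0, zero_mem _, by simp⟩
      have Pm : ∀ a b, P a → P b → P (a * b) := by
        rintro a b ⟨Z, hZ, rfl⟩ ⟨Z', hZ', rfl⟩
        exact ⟨Z + Z' + X * (Z * Z'), add_mem (add_mem hZ hZ')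
          (defd2_near_mono (defd2_near_X (defd2_near_mul ih hZ hZ'))), by ring⟩
      have Pp : ∀ a k, P a → P (a ^ k) := fun a k ha => by
        induction k with
        | zero => rwa [pow_zero]
        | succ k ik => rw [pow_succ]; exact Pm _ _ ik ha
      obtain ⟨Z, hZ, e⟩ : P (∏ l, (1 + X * (Xs (w l) - 1)) ^ m l) :=
        Finset.prod_induction _ P Pm P1 fun l _ => Pp _ _
          ⟨_, defd2_near_of_mem n (sub_mem (hXL _) h1L), rfl⟩
      rw [hm, e, show Xs (v * v') * (1 + X * Z) = Xs (v * v') + X * (Xs (v * v') * Z) by ring]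
      exact add_mem (defd2_near_of_mem _ (hXL _))
        (defd2_near_X (defd2_near_mul ih (defd2_near_of_mem n (hXL _)) hZ))
  have hmul : ∀ F ∈ defd2_lat V c, ∀ G ∈ defd2_lat V c, F * G ∈ defd2_lat V c :=
    fun F hF G hG => defd2_lat_closed _ fun n => hP n F hF G hG
  have hst : ∀ F, st (coef K (1 : D)) g F = c 1 F := fun F => by
    have := defd2_st_smul (coef K (1 : D)) g (fun v => c v F) Xs 1
    rw [hrep F, mul_one] at this
    rw [this, Finset.sum_eq_single 1]
    · rw [mul_one, st_apply, hg, if_pos rfl, mul_one]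
    · intro j _ hj
      rw [mul_one, st_apply, hg, if_neg hj, mul_zero]
    · simp
  have hform : ∀ F ∈ defd2_lat V c, st (coef K (1 : D)) g F ∈ VX V := fun F hF => by
    rw [hst]; exact hF 1
  obtain ⟨Y', hY', hfr⟩ := defd2_frame (V := V) (c := c) (fun x y => mul_comm x y) (Equiv.inv D)
    (fun i => inv_inv i) he (defd2_zero h) hg0 hXL hmul hform
  let Λ : Subring (MonoidAlgebra K D)⟦X⟧ :=
    { defd2_lat V c with
      one_mem' := h1L
      mul_mem' := fun {a b} ha hb => hmul a ha b hb }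
  have hΛ : ∀ F, F ∈ Λ ↔ F ∈ defd2_lat V c := fun _ => Iff.rfl
  refine ⟨Λ, g, ⟨fun r hr F hF => defd2_lat_smul hr hF, fun x y => by rw [mul_comm],
    fun m a => mul_comm _ _, hg0, hform, ?_, fun a => ⟨fun ha => ?_, ?_⟩⟩, fun l F hF => ?_,
    fun l m => ?_, by rw [hg, if_pos rfl], fun v hv => by rw [hg, if_neg hv], hXL⟩
  · let e := (Fintype.equivFin D).symm
    refine ⟨_, fun i => Xs (e i), fun i => Y' (e i), fun i => hXL _, fun i => hY' _,
      fun _ => trivial, fun _ => trivial, hfr.symm, fun y hy => ?_⟩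
    exact (Equiv.sum_comp e (fun x : D => st (coef K (1 : D)) g (y * Y' x) • Xs x)).trans
      (hfr.repro y hy)
  · obtain ⟨F, hF, hF'⟩ := hconst a
    refine ⟨F, fun v => ?_, hF⟩
    rw [hF', hco]
    exact C_mem_VX (ha v)
  · rintro ⟨F, hF, rfl⟩ v
    rw [← hco, ← hc0]
    exact hF v 0
  · rw [hΛ, ← hrep F, map_sum]
    refine sum_mem fun v _ => ?_
    rw [defd2_map_smul _ (defd2_act_alg l), defd2_equiv h]
    exact defd2_lat_smul (hF v) (hXL _)
  · have : PowerSeries.map (act K φ l) g = g := huniq _ fun v => by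
      have e1 : Xs v = PowerSeries.map (act K φ l) (Xs ((φ l).symm v)) := by
        rw [defd2_equiv h, MulEquiv.apply_symm_apply]
      have e2 : ∀ F : (MonoidAlgebra K D)⟦X⟧,
          extF (coef K (1 : D)) (PowerSeries.map (act K φ l) F) = extF (coef K (1 : D)) F :=
        fun F => by
          ext n
          rw [coeff_extF, coeff_extF, coeff_map, defd2_act_coef]
      rw [e1, ← map_mul, e2, hg]
      simp only [EmbeddingLike.map_eq_one_iff]
    rw [← coeff_map, this]

end Pool.Agent.Lib.MP_b6945b_al.St
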