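import Pool.Agent.Lib.MP_b6945b_al.Rl.Defs
import Pool.Agent.Lib.MP_b6945b_al.Rl.DefD
import Pool.Agent.Lib.MP_b6945b_al.St.Cross

set_option autoImplicit false

/-!
Crossed products have good deformations that are constant on an invariant subgroup.
-/

namespace Pool.Agent.Lib.MP_b6945b_al.St

open PowerSeries
open MonoidAlgebra (single)

variable {K : Type} [Field K] [CharZero K] {V : ValuationSubring K} {D E : Type} [CommGroup D]
  [Fintype D] [Group E] [Fintype E] {A : Type} [Ring A]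
  [Algebra K A] {φ : E →* MulAut D} {O : Subring A} {δ : MonoidAlgebra K D →ₐ[K] A} {u : E → A}
  {c : E → E → MonoidAlgebra K D}

/-- Copy `CrossData.exists_deform` and return `v`, `hΔm`, `crossSub_single`, `r2`. -/
theorem CrossData.exists_deformR (h : CrossData V φ O δ u c)
    (hE : ((Fintype.card E : K))⁻¹ ∈ V) {s : A →ₗ[K] K} (hs : IsCrossForm δ u s)
    {Λ : Subring (MonoidAlgebra K D)⟦X⟧}
    {g : (MonoidAlgebra K D)⟦X⟧} (hD : Deform V (GO V D) (coef K (1 : D)) Λ g)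
    (hΛ : ∀ l, ∀ F ∈ Λ, PowerSeries.map (act K φ l) F ∈ Λ)
    (hg : ∀ l m, act K φ l (coeff m g) = coeff m g) :
    ∃ (Λ' : Subring A⟦X⟧) (v : E → A⟦X⟧), Deform V O s Λ' (PowerSeries.map δ.toRingHom g) ∧
      (∀ F ∈ Λ, PowerSeries.map δ.toRingHom F ∈ Λ') ∧ (∀ l, v l ∈ Λ') ∧
      (∀ l, coeff 0 (v l) = u l) ∧
      ∀ l F, v l * PowerSeries.map δ.toRingHom F =
        PowerSeries.map δ.toRingHom (PowerSeries.map (act K φ l) F) * v l := by
  classical
  obtain ⟨a, a0, hF⟩ := h.exists_cochain hE hD hΛ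
  choose Fm hFm eFm using hF
  generalize hΔ : PowerSeries.map δ.toRingHom = Δ
  have cΔ : ∀ F n, coeff n (Δ F) = δ (coeff n F) := fun F n => by rw [← hΔ, coeff_map]; rfl
  have ΔC : ∀ x, Δ (C x) = C (δ x) := fun x => by rw [← hΔ, map_C]; rfl
  have Δs : ∀ (r : K⟦X⟧) F, Δ (r • F) = r • Δ F := by
    intro r F
    change Δ (PowerSeries.map (algebraMap K _) r * F) = _
    rw [ps_smul_def, map_mul]
    congr 1
    ext n
    rw [cΔ, coeff_map, coeff_map, δ.commutes]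
  have r1 : ∀ l F, C (u l) * Δ F = Δ (PowerSeries.map (act K φ l) F) * C (u l) := by
    intro l F
    ext n
    rw [coeff_C_mul, coeff_mul_C, cΔ, cΔ, coeff_map, h.comm]
  have au : ∀ l, ∃ b, b * a l = 1 := fun l => by
    obtain ⟨G, -, e, -⟩ := exists_inv_coefAlg (K := K) ⊤ (F := a l) (fun _ => trivial)
      (w := 1) trivial (by rw [a0, one_mul]) (by rw [a0, one_mul])
    exact ⟨G, e⟩
  choose ai hai using au
  obtain ⟨v, hv⟩ : ∃ v : E → A⟦X⟧, ∀ l, v l = Δ (a l) * C (u l) := ⟨_, fun _ => rfl⟩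
  have r2 : ∀ l F, v l * Δ F = Δ (PowerSeries.map (act K φ l) F) * v l := by
    intro l F
    rw [hv, mul_assoc, r1, ← mul_assoc, ← mul_assoc, ← map_mul, ← map_mul, mul_comm (a l)]
  have r3 : ∀ l m, v l * v m = Δ (Fm l m) * v (l * m) := by
    intro l m
    rw [hv m, ← mul_assoc, r2, hv l, hv, mul_assoc, mul_assoc, ← map_mul C, h.mul, map_mul C,
      ← ΔC, ← mul_assoc, ← mul_assoc, ← mul_assoc, ← map_mul, ← map_mul, ← map_mul, ← eFm,
      mul_comm (a l)]
  have v1 : v 1 = Δ (a 1) := by rw [hv, h.one, map_one, mul_one]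
  have F0 : ∀ l m, coeff 0 (Fm l m) = c l m := by
    intro l m
    have := congrArg (coeff 0) (eFm l m)
    rw [coeff_zero_mul', coeff_zero_mul', coeff_zero_mul', coeff_map,
      a0, a0, a0, map_one] at this
    simpa using this.symm
  have a1 : a 1 ∈ Λ := by
    have e1 : PowerSeries.map (act K φ 1) (a 1) = a 1 := by
      ext1 n
      have := h.comm 1 (coeff n (a 1))
      rw [coeff_map]
      refine h.inj 1 ?_
      rw [← this, h.one, one_mul, mul_one]
    have e2 := eFm 1 1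
    rw [e1, (h.c_one 1).1, map_one, mul_one, mul_one] at e2
    have e3 : a 1 = Fm 1 1 := by
      linear_combination (ai 1) * e2 - (a 1 - Fm 1 1) * hai 1
    rw [e3]; exact hFm 1 1
  have hJ : ∀ l, ∃ J ∈ Λ, Fm l l⁻¹ * a 1 * J = 1 := by
    intro l
    obtain ⟨w, hw, e⟩ := h.c_unit l l⁻¹
    have e0 : coeff 0 (Fm l l⁻¹ * a 1) = c l l⁻¹ := by
      rw [coeff_zero_mul', F0, a0, mul_one]
    obtain ⟨J, hJ, -, e'⟩ := hD.exists_inv (Λ.mul_mem (hFm l l⁻¹) a1) hw
      (by rw [e0, mul_comm, e]) (by rw [e0, e])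
    exact ⟨J, hJ, e'⟩
  choose J hJ eJ using hJ
  have hmul : ∀ {x y}, x ∈ crossSub Δ Λ v → y ∈ crossSub Δ Λ v → x * y ∈ crossSub Δ Λ v := by
    rintro _ _ ⟨F, hF, rfl⟩ ⟨G, hG, rfl⟩
    rw [Finset.sum_mul_sum]
    refine sum_mem fun l _ => sum_mem fun m _ => ?_
    have e : Δ (F l) * v l * (Δ (G m) * v m) =
        Δ (F l * PowerSeries.map (act K φ l) (G m) * Fm l m) * v (l * m) := by
      rw [mul_assoc, ← mul_assoc (v l), r2, mul_assoc, r3, map_mul, map_mul]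
      simp only [mul_assoc]
    rw [e]
    exact crossSub_single Δ v (Λ.mul_mem (Λ.mul_mem (hF l) (hΛ l _ (hG m))) (hFm l m)) _
  have hΔm : ∀ F ∈ Λ, Δ F ∈ crossSub Δ Λ v := by
    intro F hF
    have := crossSub_single Δ v (Λ.mul_mem hF (Λ.mul_mem (hFm 1 1⁻¹) (hJ 1))) 1
    have e : F * (Fm 1 1⁻¹ * J 1) * a 1 = F := by linear_combination F * eJ 1
    rwa [v1, ← map_mul, e] at this
  have hvm : ∀ l, v l ∈ crossSub Δ Λ v := fun l => by
    simpa using crossSub_single Δ v Λ.one_mem l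
  let Λ' : Subring A⟦X⟧ :=
    { crossSub Δ Λ v with
      one_mem' := by simpa using hΔm 1 Λ.one_mem
      mul_mem' := hmul }
  have mΛ : ∀ {x}, x ∈ Λ' ↔ x ∈ crossSub Δ Λ v := Iff.rfl
  have s1 : ∀ G, st s (Δ g) (Δ G) = st (coef K (1 : D)) g G := by
    intro G
    ext n
    rw [st_apply, st_apply, ← map_mul, coeff_extF, coeff_extF, cΔ, (h.cross_form hs _).1]
    rfl
  have s0 : ∀ G l, l ≠ 1 → st s (Δ g) (Δ G * v l) = 0 := by
    intro G l hl
    ext n
    rw [st_apply, hv, ← mul_assoc, ← mul_assoc, ← map_mul, ← map_mul, coeff_extF,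
      coeff_mul_C, cΔ, (h.cross_form hs _).2 l hl, map_zero]
  have cen : ∀ m x, coeff m (Δ g) * x = x * coeff m (Δ g) := by
    intro m x
    obtain ⟨b, rfl⟩ := h.bij.2 x
    rw [cΔ, Finset.mul_sum, Finset.sum_mul]
    refine Finset.sum_congr rfl fun l _ => ?_
    rw [mul_assoc, h.comm, hg, ← mul_assoc, ← mul_assoc, ← map_mul, ← map_mul, mul_comm (b l)]
  have c0 : ∀ F : E → (MonoidAlgebra K D)⟦X⟧,
      coeff 0 (∑ l, Δ (F l) * v l) = ∑ l, δ (coeff 0 (F l)) * u l := by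
    intro F
    rw [map_sum]
    refine Finset.sum_congr rfl fun l _ => ?_
    rw [hv, coeff_zero_mul', coeff_mul_C, cΔ, cΔ, a0, map_one, one_mul]
  refine ⟨Λ', v, ⟨?_, h.form_symm hs, cen, by rw [cΔ, hD.g_zero, map_one], ?_, ?_,
    fun x => ⟨?_, ?_⟩⟩, hΔm, hvm,
    fun l => by rw [hv, coeff_mul_C, cΔ, a0, map_one, one_mul], r2⟩
  · rintro r hr _ ⟨F, hF, rfl⟩
    refine ⟨fun l => r • F l, fun l => hD.smul_mem r hr _ (hF l), ?_⟩
    rw [Finset.smul_sum]
    exact Finset.sum_congr rfl fun l _ => by rw [Δs, smul_mul_assoc]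
  · rintro _ ⟨F, hF, rfl⟩
    rw [map_sum]
    refine sum_mem fun l _ => ?_
    by_cases e : l = 1
    · rw [e, v1, ← map_mul, s1]
      exact hD.form_mem _ (Λ.mul_mem (hF 1) a1)
    · rw [s0 _ l e]; exact zero_mem _
  · obtain ⟨n, β, β', hβ, hβ', hfr⟩ := hD.frame
    let e := (Fintype.equivFin (E × Fin n)).symm
    refine ⟨_, fun i => Δ (β (e i).2) * v (e i).1,
      fun i => v (e i).1⁻¹ * Δ (J (e i).1 * β' (e i).2),
      fun i => crossSub_single Δ v (hβ _) _,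
      fun i => hmul (hvm _) (hΔm _ (Λ.mul_mem (hJ _) (hβ' _))),
      fun _ => trivial, fun _ => trivial, fun x _ y _ => ?_, fun y _ => ?_⟩
    · rw [st_apply, st_apply, ← mul_assoc, cross_extF_symm (h.form_symm hs), ← mul_assoc,
        ← central_series cen y, mul_assoc]
    · refine (Equiv.sum_comp e fun q : E × Fin n =>
        st s (Δ g) (y * (v q.1⁻¹ * Δ (J q.1 * β' q.2))) • (Δ (β q.2) * v q.1)).trans ?_
      obtain ⟨G, rfl⟩ : ∃ G : E → (MonoidAlgebra K D)⟦X⟧, y = ∑ l, Δ (G l) * v l := by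
        choose b hb using fun k => h.bij.2 (coeff k y)
        refine ⟨fun l => (PowerSeries.mk fun k => b k l) * ai l, ?_⟩
        ext k
        rw [map_sum, ← hb k]
        refine Finset.sum_congr rfl fun l _ => ?_
        rw [hv, ← mul_assoc, ← map_mul, mul_assoc, hai, mul_one, coeff_mul_C, cΔ, coeff_mk]
      rw [Fintype.sum_prod_type]
      refine Finset.sum_congr rfl fun l _ => ?_
      have e1 : ∀ i, st s (Δ g) ((∑ m, Δ (G m) * v m) * (v l⁻¹ * Δ (J l * β' i))) =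
          st (coef K (1 : D)) g (G l * β' i) := by
        intro i
        rw [Finset.sum_mul, map_sum, Finset.sum_eq_single l _
          (fun c => absurd (Finset.mem_univ l) c)]
        · rw [mul_assoc, ← mul_assoc (v l), r3, mul_inv_cancel, v1, ← map_mul, ← map_mul,
            ← map_mul, s1, ← mul_assoc (Fm l l⁻¹ * a 1), eJ, one_mul]
        · intro m _ hm
          rw [mul_assoc, ← mul_assoc (v m), r3, mul_assoc, r2, ← mul_assoc, ← mul_assoc,
            ← map_mul, ← map_mul]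
          exact s0 _ _ fun c => hm (mul_inv_eq_one.1 c)
      simp only [e1]
      conv_rhs => rw [← hfr.repro (G l) trivial, map_sum, Finset.sum_mul]
      exact Finset.sum_congr rfl fun i _ => by rw [← smul_mul_assoc, ← Δs]
  · intro hx
    obtain ⟨b, rfl⟩ := h.bij.2 x
    choose F hF eF using fun l => (hD.const (b l)).1 ((h.mem_iff b).1 hx l)
    exact ⟨_, ⟨F, hF, rfl⟩, by simp only [c0, eF]⟩
  · rintro ⟨_, ⟨F, hF, rfl⟩, rfl⟩
    rw [c0]
    exact (h.mem_iff _).2 fun l => (hD.const _).2 ⟨_, hF l, rfl⟩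

omit [CharZero K] in
lemma rlcross_tau (h : CrossData V φ O δ u c)
    (σ : MonoidAlgebra K D →ₗ[K] (MonoidAlgebra K D)⟦X⟧) (v : E → A⟦X⟧) :
    ∃ τ : A →ₗ[K] A⟦X⟧, ∀ b : E → MonoidAlgebra K D,
      τ (∑ l, δ (b l) * u l) = ∑ l, PowerSeries.map δ.toRingHom (σ (b l)) * v l := by
  have Δs : ∀ (k : K) F, PowerSeries.map δ.toRingHom (k • F) =
      k • PowerSeries.map δ.toRingHom F := by
    intro k F
    ext n
    rw [coeff_map, LinearMap.map_smul_of_tower, LinearMap.map_smul_of_tower, coeff_map]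
    exact map_smul δ k _
  let L : (E → MonoidAlgebra K D) →ₗ[K] A :=
    { toFun := fun a => ∑ l, δ (a l) * u l
      map_add' := fun a b => by simp [add_mul, Finset.sum_add_distrib]
      map_smul' := fun k a => by simp [Finset.smul_sum] }
  let M : (E → MonoidAlgebra K D) →ₗ[K] A⟦X⟧ :=
    { toFun := fun b => ∑ l, PowerSeries.map δ.toRingHom (σ (b l)) * v l
      map_add' := fun a b => by
        simp only [Pi.add_apply, map_add, add_mul, Finset.sum_add_distrib]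
      map_smul' := fun k a => by
        simp only [Pi.smul_apply, map_smul, Δs, smul_mul_assoc, RingHom.id_apply,
          Finset.smul_sum] }
  let e := LinearEquiv.ofBijective L h.bij
  refine ⟨M ∘ₗ e.symm.toLinearMap, fun b => ?_⟩
  exact congrArg M (e.symm_apply_apply b)

lemma rlcross_sigma {p : ℕ} {w : E → D} {r : E → D → ℚ} {Xs : D → (MonoidAlgebra K D)⟦X⟧}
    (hX : XFam p φ w r Xs) {Λ : Subring (MonoidAlgebra K D)⟦X⟧} {g : (MonoidAlgebra K D)⟦X⟧}
    (hd : Deform V (GO V D) (coef K (1 : D)) Λ g) (hXL : ∀ v, Xs v ∈ Λ) {R₀ : Subgroup D}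
    (hXR : ∀ y ∈ R₀, ∀ v, Xs (y * v) = C (single y 1) * Xs v) :
    ∃ σ : MonoidAlgebra K D →ₗ[K] (MonoidAlgebra K D)⟦X⟧, (∀ b ∈ GO V D, σ b ∈ Λ) ∧
      (∀ b, coeff 0 (σ b) = b) ∧ ∀ y ∈ R₀, ∀ b, σ (single y 1 * b) = C (single y 1) * σ b := by
  obtain ⟨σ, hσ⟩ : ∃ σ : MonoidAlgebra K D →ₗ[K] (MonoidAlgebra K D)⟦X⟧,
      ∀ b, σ b = ∑ x, b.coeff x • Xs x :=
    ⟨∑ x, (coef K x).smulRight (Xs x), fun b => by rw [LinearMap.sum_apply]; rfl⟩
  refine ⟨σ, fun b hb => ?_, fun b => ?_, fun y hy b => ?_⟩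
  · rw [hσ]
    exact sum_mem fun x _ => hd.smul_mem' (hb x) (hXL x)
  · rw [hσ, map_sum]
    conv_rhs => rw [eq_sum_single b]
    exact Finset.sum_congr rfl fun x _ => by
      rw [LinearMap.map_smul_of_tower, defd2_zero hX]
  · rw [hσ, hσ, Finset.mul_sum, ← Equiv.sum_comp (Equiv.mulLeft y)]
    refine Finset.sum_congr rfl fun x _ => ?_
    rw [Equiv.coe_mulLeft, hXR y hy, mul_smul_comm, MonoidAlgebra.coeff_single_mul_apply,
      inv_mul_cancel_left, one_mul]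

/-- Copy `CrossData.good` with `exists_xfamR`.  Put `σ b = ∑ x, b.coeff x • Xs x` (so
`σ (single y 1 * b) = C (single y 1) * σ b` for `y ∈ R₀`, `coeff 0 (σ b) = b` by `defd2_zero`,
`Xs y = C (single y 1)` for `y ∈ R₀` by `defd2_one`) and
`τ (∑ δ (b l) * u l) = ∑ map δ (σ (b l)) * v l` (`LinearEquiv.ofBijective` for `h.bij`). -/
theorem CrossData.goodR {p : ℕ} (hp : p.Prime) (hpV : (p : K) ∈ V.nonunits)
    (hE : ¬ p ∣ Fintype.card E) (h : CrossData V φ O δ u c) (hloc : LocalCentre V O)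
    {R₀ : Subgroup D} (hR : ∀ l, ∀ y ∈ R₀, φ l y ∈ R₀) {w₀ : D} (h1 : w₀ ∉ R₀) (hw : w₀ ^ p = 1)
    {T : Set A} (hT : ∀ t ∈ T, ∃ y ∈ R₀, t = δ (single y 1)) : GoodR V p O T := by
  classical
  obtain ⟨w, r, Xs, hX, hXR⟩ := exists_xfamR (K := K) hp φ hR h1 hw
  obtain ⟨Λ, g, hd, hΛ, hg, h1, h0, hXL⟩ := hX.exists_deformR V
  have hE' := cross_inv_mem hp hpV hE
  obtain ⟨s, hs⟩ := h.exists_form
  obtain ⟨Λ', v, hd', hΔm, hvm, v0, r2⟩ := h.exists_deformR hE' hs hd hΛ hg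
  obtain ⟨k1, z, hz, hz', y, hy, e⟩ := hX.scale hp hpV hE h1 h0
  obtain ⟨σ, σm, σ0, σl⟩ := rlcross_sigma hX hd hXL hXR
  obtain ⟨τ, hτ⟩ := rlcross_tau h σ v
  have ΔC : ∀ x, PowerSeries.map δ.toRingHom (C x) = C (δ x) := fun x => by rw [map_C]; rfl
  refine ⟨s, Λ', _, τ, ⟨hd', xcond_of_pure hd'
    (h.pure hs hE' (Nat.cast_ne_zero.2 Fintype.card_ne_zero)), fun m => ?_,
    ⟨z, hz, hz', p, p, hpV, δ y, h.cross_mem hy, ?_⟩, hloc⟩,
    fun t ht => ?_, fun a ha => ?_, fun a => ?_, fun t ht a => ?_, fun t ht a => ?_⟩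
  · have := h.cross_mem (k1 m)
    rw [map_smul] at this
    rw [coeff_map]
    exact this
  · have := congrArg δ e
    rw [map_pow, map_sub, map_smul, map_smul, δ.commutes] at this
    rw [coeff_map]
    exact this
  · obtain ⟨x, hx, rfl⟩ := hT t ht
    have e1 := hXR x hx 1
    rw [mul_one, defd2_one hX, mul_one] at e1
    rw [← ΔC, ← e1]
    exact hΔm _ (hXL x)
  · obtain ⟨b, rfl⟩ := h.bij.2 a
    rw [hτ]
    exact sum_mem fun l _ => Λ'.mul_mem (hΔm _ (σm _ ((h.mem_iff b).1 ha l))) (hvm l)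
  · obtain ⟨b, rfl⟩ := h.bij.2 a
    rw [hτ, map_sum]
    refine Finset.sum_congr rfl fun l _ => ?_
    rw [coeff_zero_mul', v0, coeff_map, σ0]
    rfl
  · obtain ⟨x, hx, rfl⟩ := hT t ht
    obtain ⟨b, rfl⟩ := h.bij.2 a
    have e1 : δ (single x 1) * ∑ l, δ (b l) * u l = ∑ l, δ (single x 1 * b l) * u l := by
      rw [Finset.mul_sum]
      exact Finset.sum_congr rfl fun l _ => by rw [map_mul, mul_assoc]
    rw [e1, hτ, hτ, Finset.mul_sum]
    refine Finset.sum_congr rfl fun l _ => ?_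
    rw [σl x hx, map_mul, ΔC, mul_assoc]
  · obtain ⟨x, hx, rfl⟩ := hT t ht
    obtain ⟨b, rfl⟩ := h.bij.2 a
    have e1 : (∑ l, δ (b l) * u l) * δ (single x 1) =
        ∑ l, δ (single (φ l x) 1 * b l) * u l := by
      rw [Finset.sum_mul]
      refine Finset.sum_congr rfl fun l _ => ?_
      rw [mul_assoc, h.comm, defd2_act_single, ← mul_assoc, ← map_mul, mul_comm (b l)]
    rw [e1, hτ, hτ, Finset.sum_mul]
    refine Finset.sum_congr rfl fun l _ => ?_
    rw [σl _ (hR l x hx), mul_assoc, ← ΔC, r2, map_C, defd2_act_single, ← mul_assoc, ← map_mul,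
      mul_comm (σ (b l))]

end Pool.Agent.Lib.MP_b6945b_al.St
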