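import Pool.Agent.Lib.MP_b6945b_al.St.Defs

set_option autoImplicit false

/-!
Frames, Higman maps and deformations relative to a finite group of units.
-/

namespace Pool.Agent.Lib.MP_b6945b_al.St

open PowerSeries

section gen

variable {R A Γ : Type} [CommRing R] [Ring A] [Algebra R A] [Group Γ] [Fintype Γ]

/-- The first half of a product frame. -/
def pf (δ : Γ →* A) {ι : Type} (x : ι → A) : ι × Γ → A := fun t => x t.1 * δ t.2

/-- The second half of a product frame. -/
def pf' (δ : Γ →* A) {ι : Type} (x' : ι → A) : ι × Γ → A := fun t => δ t.2⁻¹ * x' t.1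

/-- `U` has a product frame with factors in `S`. -/
def RelFr (δ : Γ →* A) (S : Subring A) (s : A →ₗ[R] R) (U : Submodule R A) : Prop :=
  ∃ (n : ℕ) (x x' : Fin n → A), (∀ i, x i ∈ S) ∧ (∀ i, x' i ∈ S) ∧
    IsFrame s U (pf δ x) (pf' δ x')

/-- An equivariant map that is integral up to the square of the order of the group. -/
structure RelA (δ : Γ →* A) (S : Subring A) (α : A →ₗ[R] A) : Prop where
  eqv : ∀ u v y, α (δ u * y * δ v) = δ u * α y * δ v
  mem : ∀ y ∈ S, (Fintype.card Γ ^ 2) • α y ∈ S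

variable (R) in
/-- `S` is projective as a left module over the group. -/
def LProj (δ : Γ →* A) (S : Subring A) : Prop :=
  ∃ π : A →ₗ[R] A, (∀ a ∈ S, π a ∈ S) ∧ ∀ y, ∑ u, δ u * π (δ u⁻¹ * y) = y

/-- The group of constant series. -/
noncomputable def cst (δ : Γ →* A) : Γ →* A⟦X⟧ := (C : A →+* A⟦X⟧).toMonoidHom.comp δ

omit [Fintype Γ] in
lemma cst_apply (δ : Γ →* A) (u : Γ) : cst δ u = C (δ u) := rfl

end gen

variable {K : Type} [Field K] (V : ValuationSubring K) {A : Type} [Ring A] [Algebra K A]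

/-- A lift of the order to the lattice that is linear on both sides over the elements of `T`. -/
structure Split (T : Set A) (O : Subring A) (Λ : Subring A⟦X⟧) (τ : A →ₗ[K] A⟦X⟧) : Prop where
  C_mem : ∀ t ∈ T, (C t : A⟦X⟧) ∈ Λ
  mem : ∀ a ∈ O, τ a ∈ Λ
  zero : ∀ a, coeff 0 (τ a) = a
  left : ∀ t ∈ T, ∀ a, τ (t * a) = C t * τ a
  right : ∀ t ∈ T, ∀ a, τ (a * t) = τ a * C t

/-- The conditions of `Good` for given data. -/
structure GoodAt (p : ℕ) (O : Subring A) (s : A →ₗ[K] K) (Λ : Subring A⟦X⟧) (g : A⟦X⟧) :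
    Prop where
  dfm : Deform V O s Λ g
  xc : XCond s Λ g
  int : ∀ m, (p : K) ^ m • coeff m g ∈ O
  lin : ∃ v ∈ V, v ∉ V.nonunits ∧ NilMod V O ((p : K) • coeff 1 g - algebraMap K A v)
  loc : LocalCentre V O

/-- The order has a good deformation that is constant on `T`. -/
def GoodR (p : ℕ) (O : Subring A) (T : Set A) : Prop :=
  ∃ (s : A →ₗ[K] K) (Λ : Subring A⟦X⟧) (g : A⟦X⟧) (τ : A →ₗ[K] A⟦X⟧),
    GoodAt V p O s Λ g ∧ Split T O Λ τ

/-- Integral combinations of the elements of the group. -/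
def InSp {Γ : Type} [Group Γ] [Fintype Γ] (δ : Γ →* A) (t : A) : Prop :=
  ∃ c : Γ → K, (∀ v, c v ∈ V) ∧ t = ∑ v, c v • δ v

/-- Relative traces of elements commuting with the group are nilpotent. -/
def RelNd {Γ : Type} [Group Γ] [Fintype Γ] (δ : Γ →* A) (O : Subring A) (B : Subalgebra K A)
    {ι : Type} [Fintype ι] (f f' : ι → A) : Prop :=
  ∀ c ∈ B, Fintype.card Γ • c ∈ O → (∀ u, δ u * c = c * δ u) → NilMod V O (trF f f' c)

end Pool.Agent.Lib.MP_b6945b_al.St
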