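import Pool.Agent.Lib.MP_b6945b_al.Rl.Bal
import Pool.Agent.Lib.MP_b6945b_al.St.FrFlip1

set_option autoImplicit false

/-!
A subalgebra with relatively projective complement: the dual basis.
-/

namespace Pool.Agent.Lib.MP_b6945b_al.St

variable {K : Type} [Field K] {V : ValuationSubring K} {A : Type} [Ring A] [Algebra K A]
  {Γ : Type} [Group Γ] [Fintype Γ]

variable (V) in
/-- A symmetric order `O` in `A` and a symmetric subalgebra `L` whose complement is projective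
relative to the group `δ`. -/
structure FlipR (δ : Γ →* A) (O : Subring A) (s : A →ₗ[K] K) {ι : Type} [Fintype ι] (F F' : ι → A)
    (L : Subalgebra K A) (sL : A →ₗ[K] K) {κ : Type} [Fintype κ] (f f' : κ → A)
    (r α : A →ₗ[K] A) : Prop where
  smul_mem : ∀ v ∈ V, ∀ a ∈ O, v • a ∈ O
  frame : IsFrame s ⊤ F F'
  F_mem : ∀ i, F i ∈ O
  F'_mem : ∀ i, F' i ∈ O
  s_mem : ∀ a ∈ O, s a ∈ V
  frameL : IsFrame sL L.toSubmodule f f'
  f_mem : ∀ i, f i ∈ O
  f'_mem : ∀ i, f' i ∈ O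
  sL_mem : ∀ b ∈ L, b ∈ O → sL b ∈ V
  r_O : ∀ a ∈ O, r a ∈ O
  r_mem : ∀ y, r y ∈ L
  r_mul : ∀ b ∈ L, ∀ b' ∈ L, ∀ y, r (b * y * b') = b * r y * b'
  r_one : r 1 = 1
  hig : ∀ y, r y + trB f f' α y = y
  δ_L : ∀ u, δ u ∈ L
  δ_O : ∀ u, δ u ∈ O
  relA : RelA δ O α
  relF : RelFr δ O s ⊤
  relL : RelFr δ O sL L.toSubmodule

/-- The group acting by left multiplications. -/
def lamG (L : Subalgebra K A) (δ : Γ →* A) : Γ →* endR L :=
  (lam L).toRingHom.toMonoidHom.comp δ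

omit [Fintype Γ] in
lemma lamG_apply (L : Subalgebra K A) (δ : Γ →* A) (u : Γ) : lamG L δ u = lam L (δ u) := rfl

variable (V) in
/-- A dual basis of `A` over `L` that is compatible with the group. -/
structure DualR (δ : Γ →* A) (O : Subring A) (L : Subalgebra K A) {μ : Type} [Fintype μ]
    (a : μ → A) (τ : μ → endR L) (ρ : Γ → μ → μ → A) (k₀ : μ) : Prop where
  a_mem : ∀ k, a k ∈ O
  τ_mem : ∀ k, τ k ∈ endO L O
  τ_L : ∀ k x, (τ k).1 x ∈ L
  sum : ∀ x, ∑ k, a k * (τ k).1 x = x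
  ρ_sp : ∀ u k l, InSp V δ (ρ u k l)
  τ_δ : ∀ u k x, (τ k).1 (δ u * x) = ∑ l, ρ u k l * (τ l).1 x
  δ_a : ∀ u l, δ u * a l = ∑ k, a k * ρ u k l
  base : (τ k₀).1 (a k₀) = 1

variable {δ : Γ →* A} {O : Subring A} {s sL : A →ₗ[K] K} {ι κ : Type} [Fintype ι] [Fintype κ]
  {F F' : ι → A} {L : Subalgebra K A} {f f' : κ → A} {r α : A →ₗ[K] A}

lemma rlflip1_r_right (h : FlipR V δ O s F F' L sL f f' r α) : r ∈ endR L := by
  intro b hb x
  have := h.r_mul 1 L.one_mem b hb x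
  simpa using this

lemma rlflip1_r_left (h : FlipR V δ O s F F' L sL f f' r α) {b : A} (hb : b ∈ L) (x : A) :
    r (b * x) = b * r x := by
  have := h.r_mul b hb 1 L.one_mem x
  simpa using this

/-- The coefficient map `z ↦ ∑ u, s (z * δ u⁻¹) • δ u`. -/
def rlflip1_eps (δ : Γ →* A) (s : A →ₗ[K] K) : A →ₗ[K] A :=
  ∑ u, (s ∘ₗ LinearMap.mulRight K (δ u⁻¹)).smulRight (δ u)

lemma rlflip1_eps_apply (z : A) : rlflip1_eps δ s z = ∑ u, s (z * δ u⁻¹) • δ u := by
  simp [rlflip1_eps, LinearMap.sum_apply]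

lemma rlflip1_eps_δ (z : A) (v : Γ) :
    rlflip1_eps δ s (z * δ v) = rlflip1_eps δ s z * δ v := by
  rw [rlflip1_eps_apply, rlflip1_eps_apply, Finset.sum_mul,
    ← Equiv.sum_comp (Equiv.mulRight v)]
  refine Finset.sum_congr rfl fun u _ => ?_
  rw [Equiv.coe_mulRight, smul_mul_assoc, ← map_mul, mul_assoc, ← map_mul, mul_inv_rev,
    mul_inv_cancel_left]

lemma rlflip1_eps_eps (z z' : A) :
    rlflip1_eps δ s (z * rlflip1_eps δ s z') = rlflip1_eps δ s z * rlflip1_eps δ s z' := by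
  rw [rlflip1_eps_apply z', Finset.mul_sum, Finset.mul_sum, map_sum]
  exact Finset.sum_congr rfl fun u _ => by
    rw [mul_smul_comm, mul_smul_comm, map_smul, rlflip1_eps_δ]

lemma rlflip1_repro {n : ℕ} {Y Y' : Fin n → A} (hp : IsFrame s ⊤ (pf δ Y) (pf' δ Y')) (w : A) :
    ∑ c, Y c * rlflip1_eps δ s (Y' c * w) = w := by
  conv_rhs => rw [← hp.repro w trivial, Fintype.sum_prod_type]
  refine Finset.sum_congr rfl fun c _ => ?_
  rw [rlflip1_eps_apply, Finset.mul_sum]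
  refine Finset.sum_congr rfl fun u _ => ?_
  simp only [pf, pf']
  rw [mul_smul_comm, ← mul_assoc w, hp.symm _ trivial (Y' c) trivial, mul_assoc]

/-- Compare `FlipD.dual_basis`.  Let `(Y, Y')` be the factors of the product frame `relF`,
`ε z = ∑ u, s (z * δ u⁻¹) • δ u` (so `w = ∑ c, Y c * ε (Y' c * w)` and `ε (z * δ v) = ε z * δ v`,
hence `ε (z * t) = ε z * t` for `t = ε z'`), `γ y = ∑ i, f i * α (f' i * y)` (left `L`-linear by
`slideB_left`, `γ (y * δ u) = γ y * δ u`, `card Γ • γ y ∈ O` by `RelFr.mem1`).  Index set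
`Option (Fin n)`: `a none = 1`, `τ none = r`, `a c = Y c`,
`τ c y = ∑ i, ε (Y' c * γ (y * f i)) * f' i` (right `L`-linear by `slideB_left`, integral by
`RelFr.mem1` with `m = 1`; `∑ i, γ (y * f i) * f' i = trB f f' α y` by `IsFrame.sum_swap`),
`ρ u none none = δ u`, `ρ u c d = ε (Y' c * δ u * Y d)`, mixed entries `0`, `k₀ = none`. -/
lemma FlipR.dual_basis (h : FlipR V δ O s F F' L sL f f' r α) :
    ∃ (μ : Type) (_ : Fintype μ) (a : μ → A) (τ : μ → endR L) (ρ : Γ → μ → μ → A) (k₀ : μ),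
      DualR V δ O L a τ ρ k₀ := by
  classical
  obtain ⟨n, Y, Y', hY, hY', hp⟩ := h.relF
  obtain ⟨ε, hε⟩ : ∃ ε : A →ₗ[K] A, ε = rlflip1_eps δ s := ⟨_, rfl⟩
  have hεδ : ∀ z v, ε (z * δ v) = ε z * δ v := fun z v => by rw [hε, rlflip1_eps_δ]
  have hεε : ∀ z z', ε (z * ε z') = ε z * ε z' := fun z z' => by rw [hε, rlflip1_eps_eps]
  have hεY : ∀ w, ∑ c, Y c * ε (Y' c * w) = w := fun w => by rw [hε, rlflip1_repro hp]
  have hεS : ∀ z ∈ O, InSp V δ (ε z) := fun z hz =>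
    ⟨fun u => s (z * δ u⁻¹), fun u => h.s_mem _ (O.mul_mem hz (h.δ_O _)),
      by rw [hε, rlflip1_eps_apply]⟩
  have hεO : ∀ z ∈ O, ε z ∈ O := fun z hz => by
    obtain ⟨c, hc, e⟩ := hεS z hz
    rw [e]
    exact O.sum_mem fun u _ => h.smul_mem _ (hc u) _ (h.δ_O u)
  have hεL : ∀ z, ε z ∈ L := fun z => by
    rw [hε, rlflip1_eps_apply]
    exact L.sum_mem fun u _ => L.smul_mem (h.δ_L u) _
  obtain ⟨γ, hγ⟩ : ∃ γ : A →ₗ[K] A, ∀ y, γ y = ∑ i, f i * α (f' i * y) :=
    ⟨∑ i, LinearMap.mulLeft K (f i) ∘ₗ α ∘ₗ LinearMap.mulLeft K (f' i), fun y => by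
      simp [LinearMap.sum_apply]⟩
  have hγB : ∀ y, IsBilin K (fun u v : A => u * α (v * y)) := fun y => by
    constructor <;> intros <;> simp [mul_add, add_mul]
  have hγL : ∀ b ∈ L, ∀ y, γ (b * y) = b * γ y := fun b hb y => by
    have := h.frameL.slideB_left (hγB y) hb
    rw [hγ, hγ, Finset.mul_sum]
    simp only [mul_assoc] at this ⊢
    exact this.symm
  have hγδ : ∀ y u, γ (y * δ u) = γ y * δ u := fun y u => by
    rw [hγ, hγ, Finset.sum_mul]
    exact Finset.sum_congr rfl fun i _ => by rw [← mul_assoc, h.relA.right, mul_assoc]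
  have hγO : ∀ y ∈ O, Fintype.card Γ • γ y ∈ O := fun y hy => by
    rw [hγ]
    exact h.relL.mem1 h.frameL (hγB y)
      (fun u a _ b _ => by rw [mul_assoc, mul_assoc, h.relA.left]) O.toAddSubgroup _
      (fun a ha _ b hb _ => by
        rw [← pow_two, ← mul_smul_comm]
        exact O.mul_mem ha (h.relA.mem _ (O.mul_mem hb hy)))
  obtain ⟨T, hT⟩ : ∃ T : Fin n → A →ₗ[K] A,
      ∀ c x, T c x = ∑ i, ε (Y' c * γ (x * f i)) * f' i :=
    ⟨fun c => ∑ i, LinearMap.mulRight K (f' i) ∘ₗ ε ∘ₗ LinearMap.mulLeft K (Y' c) ∘ₗ γ ∘ₗ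
      LinearMap.mulRight K (f i), fun c x => by simp [LinearMap.sum_apply]⟩
  have hTB : ∀ c x, IsBilin K (fun u v : A => ε (Y' c * γ (x * u)) * v) := fun c x => by
    constructor <;> intros <;> simp [mul_add, add_mul]
  have hTR : ∀ c, T c ∈ endR L := fun c b hb x => by
    have := h.frameL.slideB_left (hTB c x) hb
    rw [hT, hT, Finset.sum_mul]
    simp only [mul_assoc] at this ⊢
    exact this
  refine ⟨Option (Fin n), inferInstance, fun k => k.elim 1 Y,
    fun k => k.elim ⟨r, rlflip1_r_right h⟩ (fun c => ⟨T c, hTR c⟩),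
    fun u k l => k.elim (l.elim (δ u) fun _ => 0)
      (fun c => l.elim 0 fun d => ε (Y' c * (δ u * Y d))), none, ?_, ?_, ?_, ?_, ?_, ?_, ?_, ?_⟩
  · rintro (_ | c)
    · exact O.one_mem
    · exact hY c
  · rintro (_ | c)
    · exact h.r_O
    · intro y hy
      change T c y ∈ O
      have := h.relL.mem1 h.frameL (hTB c y)
        (fun u a _ b _ => by rw [← mul_assoc y, hγδ, ← mul_assoc, hεδ, mul_assoc])
        O.toAddSubgroup 1
        (fun a ha _ b hb _ => by
          rw [one_mul, ← smul_mul_assoc, ← map_nsmul, ← mul_smul_comm]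
          exact O.mul_mem (hεO _ (O.mul_mem (hY' c) (hγO _ (O.mul_mem hy ha)))) hb)
      rw [one_smul] at this
      rw [hT]
      exact this
  · rintro (_ | c) x
    · exact h.r_mem x
    · change T c x ∈ L
      rw [hT]
      exact L.sum_mem fun i _ => L.mul_mem (hεL _) (h.frameL.mem' i)
  · intro x
    rw [Fintype.sum_option]
    change 1 * r x + ∑ c, Y c * T c x = x
    have hB : IsBilin K (fun u v : A => γ (x * u) * v) := by
      constructor <;> intros <;> simp [mul_add, add_mul]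
    have e : ∑ c, Y c * T c x = trB f f' α x := by
      calc ∑ c, Y c * T c x = ∑ i, (∑ c, Y c * ε (Y' c * γ (x * f i))) * f' i := by
            simp only [hT, Finset.mul_sum, Finset.sum_mul, mul_assoc]
            exact Finset.sum_comm
        _ = ∑ i, γ (x * f i) * f' i := Finset.sum_congr rfl fun i _ => by rw [hεY]
        _ = ∑ i, γ (x * f' i) * f i := h.frameL.sum_swap hB
        _ = trB f f' α x := by
            simp only [hγ, trB, Finset.sum_mul, mul_assoc]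
            exact Finset.sum_comm
    rw [one_mul, e, h.hig]
  · have h0 : InSp V δ 0 := ⟨fun _ => 0, fun _ => V.zero_mem, by simp⟩
    rintro u (_ | c) (_ | d)
    · refine ⟨fun v => if v = u then 1 else 0, fun v => ?_, by simp⟩
      beta_reduce
      split_ifs
      · exact V.one_mem
      · exact V.zero_mem
    · exact h0
    · exact h0
    · exact hεS _ (O.mul_mem (hY' c) (O.mul_mem (h.δ_O u) (hY d)))
  · rintro u (_ | c) x
    · rw [Fintype.sum_option]
      change r (δ u * x) = δ u * r x + ∑ d, 0 * T d x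
      simp [rlflip1_r_left h (h.δ_L u)]
    · rw [Fintype.sum_option]
      change T c (δ u * x) = 0 * r x + ∑ d, ε (Y' c * (δ u * Y d)) * T d x
      rw [zero_mul, zero_add, hT]
      simp only [hT, Finset.mul_sum]
      rw [Finset.sum_comm]
      refine Finset.sum_congr rfl fun i _ => ?_
      rw [mul_assoc (δ u), hγL _ (h.δ_L u)]
      conv_lhs => rw [← hεY (γ (x * f i)), Finset.mul_sum, Finset.mul_sum, map_sum,
        Finset.sum_mul]
      refine Finset.sum_congr rfl fun d _ => ?_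
      rw [← mul_assoc (δ u), ← mul_assoc (Y' c), hεε, mul_assoc]
  · rintro u (_ | d)
    · rw [Fintype.sum_option]
      change δ u * 1 = 1 * δ u + ∑ c, Y c * 0
      simp
    · rw [Fintype.sum_option]
      change δ u * Y d = 1 * 0 + ∑ c, Y c * ε (Y' c * (δ u * Y d))
      rw [mul_zero, zero_add, hεY]
  · exact h.r_one

/-- With `π` from `RelFr.lProj` for `relF` take `π' χ = ∑ k, lam (π (χ (a k))) * τ k`; compare
`FlipD.left_hig_end`. -/
lemma FlipR.lProj_end (h : FlipR V δ O s F F' L sL f f' r α) :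
    LProj K (lamG L δ) (endO L O) := by
  obtain ⟨μ, _, a, τ, ρ, k₀, hd⟩ := h.dual_basis
  obtain ⟨π, hπO, hπ⟩ := h.relF.lProj fun a ha b hb => h.smul_mem _ (h.s_mem a ha) b hb
  let π' : endR L →ₗ[K] endR L := ∑ k,
    LinearMap.mulRight K (τ k) ∘ₗ (lam L).toLinearMap ∘ₗ π ∘ₗ frflip1_ev L (a k)
  have hπ' : ∀ χ, π' χ = ∑ k, lam L (π (χ.1 (a k))) * τ k := fun χ => by
    simp only [π', LinearMap.sum_apply]
    rfl
  refine ⟨π', fun χ hχ => ?_, fun χ => frflip1_ext fun x => ?_⟩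
  · rw [hπ']
    exact Subring.sum_mem _ fun k _ =>
      Subring.mul_mem _ (frflip1_lam_mem (hπO _ (hχ _ (hd.a_mem k)))) (hd.τ_mem k)
  · calc (∑ u, lamG L δ u * π' (lamG L δ u⁻¹ * χ)).1 x
        = ∑ k, (∑ u, δ u * π (δ u⁻¹ * χ.1 (a k))) * (τ k).1 x := by
          simp only [frflip1_sum_apply, hπ', frflip1_mul_apply, lamG_apply, lam_apply,
            Finset.mul_sum, Finset.sum_mul, mul_assoc]
          exact Finset.sum_comm
      _ = ∑ k, χ.1 (a k * (τ k).1 x) :=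
          Finset.sum_congr rfl fun k _ => by rw [hπ, χ.2 _ (hd.τ_L k x)]
      _ = χ.1 x := by rw [← map_sum, hd.sum]

end Pool.Agent.Lib.MP_b6945b_al.St
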