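import Pool.Agent.Lib.MP_b6945b_al.Rl.Flip1

set_option autoImplicit false

/-!
Higman maps on the endomorphism algebra, relative version.
-/

namespace Pool.Agent.Lib.MP_b6945b_al.St

variable {K : Type} [Field K] {V : ValuationSubring K} {A : Type} [Ring A] [Algebra K A]
  {Γ : Type} [Group Γ] [Fintype Γ]
  {δ : Γ →* A} {O : Subring A} {s sL : A →ₗ[K] K} {ι κ : Type} [Fintype ι] [Fintype κ]
  {F F' : ι → A} {L : Subalgebra K A} {f f' : κ → A} {r α : A →ₗ[K] A}

lemma rlflip2_r_right (h : FlipR V δ O s F F' L sL f f' r α) : r ∈ endR L := by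
  intro b hb x
  have := h.r_mul 1 L.one_mem b hb x
  simpa using this

lemma rlflip2_r_left (h : FlipR V δ O s F F' L sL f f' r α) {b : A} (hb : b ∈ L) (x : A) :
    r (b * x) = b * r x := by
  have := h.r_mul b hb 1 L.one_mem x
  simpa using this

/-- Compare `FlipD.left_hig`: `π z = (card Γ)⁻¹ • ε (r z) + ∑ k, α (z * f' k) * f k` with
`ε b = ∑ u, sL (b * δ u⁻¹) • δ u`; `RelFr.half_mem`, `half_left`, `half_right`. -/
lemma FlipR.left_hig [CharZero K] (h : FlipR V δ O s F F' L sL f f' r α) :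
    ∃ π : A →ₗ[K] A, (∀ a ∈ O, Fintype.card Γ • π a ∈ O) ∧
      (∀ u v y, π (δ u * y * δ v) = δ u * π y * δ v) ∧ ∀ x, ∑ i, f i * π (f' i * x) = x := by
  have hn : (Fintype.card Γ : K) ≠ 0 := Nat.cast_ne_zero.2 Fintype.card_ne_zero
  let ε : A →ₗ[K] A := ∑ u, (sL ∘ₗ LinearMap.mulRight K (δ u⁻¹)).smulRight (δ u)
  have hε : ∀ b, ε b = ∑ u, sL (b * δ u⁻¹) • δ u := fun b => by
    simp [ε, LinearMap.sum_apply]
  let π : A →ₗ[K] A := (Fintype.card Γ : K)⁻¹ • (ε ∘ₗ r) +
    ∑ k, LinearMap.mulRight K (f k) ∘ₗ α ∘ₗ LinearMap.mulRight K (f' k)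
  have hπ : ∀ z, π z = (Fintype.card Γ : K)⁻¹ • ε (r z) + ∑ k, α (z * f' k) * f k := fun z => by
    simp [π, LinearMap.sum_apply]
  refine ⟨π, fun a ha => ?_, fun u v y => ?_, fun x => ?_⟩
  · rw [hπ, smul_add, ← Nat.cast_smul_eq_nsmul K, smul_smul, mul_inv_cancel₀ hn, one_smul, hε]
    exact O.add_mem (O.sum_mem fun u _ => h.smul_mem _
      (h.sL_mem _ (L.mul_mem (h.r_mem a) (h.δ_L _)) (O.mul_mem (h.r_O a ha) (h.δ_O _))) _
      (h.δ_O u)) (h.relL.half_mem h.frameL h.relA ha)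
  · have e1 : ε (δ u * r y * δ v) = δ u * ε (r y) * δ v := by
      rw [hε, hε, Finset.mul_sum, Finset.sum_mul,
        ← Equiv.sum_comp ((Equiv.mulLeft u).trans (Equiv.mulRight v))]
      refine Finset.sum_congr rfl fun w _ => ?_
      have e : δ v * δ (u * w * v)⁻¹ * δ u = δ w⁻¹ := by
        rw [← map_mul, ← map_mul]
        congr 1
        group
      have e2 := h.frameL.symm _ (h.δ_L u) _
        (L.mul_mem (h.r_mem y) (L.mul_mem (h.δ_L v) (h.δ_L (u * w * v)⁻¹)))
      change sL (δ u * r y * δ v * δ (u * w * v)⁻¹) • δ (u * w * v) = _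
      rw [mul_assoc (r y), e, ← mul_assoc, ← mul_assoc] at e2
      rw [e2, map_mul δ, map_mul δ, mul_smul_comm, smul_mul_assoc]
    have e2 : ∑ k, α (δ u * y * δ v * f' k) * f k = δ u * (∑ k, α (y * f' k) * f k) * δ v := by
      rw [half_right h.frameL α _ (h.δ_L v), half_left h.relA]
    rw [hπ, hπ, h.r_mul _ (h.δ_L u) _ (h.δ_L v), e1, e2, mul_add, add_mul, mul_smul_comm,
      smul_mul_assoc]
  · have e : ∑ i, f i * ε (r (f' i * x)) = (Fintype.card Γ : K) • r x := by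
      have e1 : ∀ u : Γ, ∑ i, sL (r (f' i * x) * δ u⁻¹) • (f i * δ u) = r x := fun u => by
        have hm := L.mul_mem (h.r_mem x) (h.δ_L u⁻¹)
        have e2 := congrArg (· * δ u) (h.frameL.repro _ hm)
        simp only [Finset.sum_mul, smul_mul_assoc] at e2
        rw [mul_assoc (r x), ← map_mul, inv_mul_cancel, map_one, mul_one] at e2
        rw [← e2]
        exact Finset.sum_congr rfl fun i _ => by
          rw [rlflip2_r_left h (h.frameL.mem' i), mul_assoc,
            h.frameL.symm _ (h.frameL.mem' i) _ hm]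
      simp only [hε, Finset.mul_sum, mul_smul_comm]
      rw [Finset.sum_comm]
      simp only [e1, Finset.sum_const, Finset.card_univ, Nat.cast_smul_eq_nsmul]
    simp only [hπ, mul_add, Finset.sum_add_distrib, mul_smul_comm]
    rw [← Finset.smul_sum, e, smul_smul, inv_mul_cancel₀ hn, one_smul]
    conv_rhs => rw [← h.hig x]
    simp only [trB, Finset.mul_sum, mul_assoc]

/-- Copy `FlipD.left_hig_end`.  For the right equivariance use `δ_a`, then
`π (y * t) = π y * t` for `InSp V δ t`, then `τ_δ`. -/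
lemma FlipR.left_hig_end [CharZero K] (h : FlipR V δ O s F F' L sL f f' r α) :
    ∃ π : endR L →ₗ[K] endR L, (∀ χ ∈ endO L O, Fintype.card Γ • π χ ∈ endO L O) ∧
      (∀ u v χ, π (lam L (δ u) * χ * lam L (δ v)) = lam L (δ u) * π χ * lam L (δ v)) ∧
      ∀ χ, ∑ i, lam L (f i) * π (lam L (f' i) * χ) = χ := by
  obtain ⟨μ, _, a, τ, ρ, k₀, hd⟩ := h.dual_basis
  obtain ⟨π, hπO, hπe, hπ⟩ := h.left_hig
  let π' : endR L →ₗ[K] endR L := ∑ k,
    LinearMap.mulRight K (τ k) ∘ₗ (lam L).toLinearMap ∘ₗ π ∘ₗ frflip1_ev L (a k)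
  have hπ' : ∀ χ, π' χ = ∑ k, lam L (π (χ.1 (a k))) * τ k := fun χ => by
    simp only [π', LinearMap.sum_apply]
    rfl
  have hL : ∀ t, InSp V δ t → t ∈ L := by
    rintro _ ⟨c, -, rfl⟩
    exact L.sum_mem fun v _ => L.smul_mem (h.δ_L v) _
  have hsp : ∀ t, InSp V δ t → ∀ u y, π (δ u * (y * t)) = δ u * π y * t := by
    rintro _ ⟨c, -, rfl⟩ u y
    simp only [Finset.mul_sum, map_sum, mul_smul_comm, map_smul, ← mul_assoc, hπe]
  refine ⟨π', fun χ hχ => ?_, fun u v χ => frflip1_ext fun x => ?_,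
    fun χ => frflip1_ext fun x => ?_⟩
  · rw [hπ', Finset.smul_sum]
    refine Subring.sum_mem _ fun k _ => ?_
    rw [← smul_mul_assoc, ← map_nsmul]
    exact Subring.mul_mem _ (frflip1_lam_mem (hπO _ (hχ _ (hd.a_mem k)))) (hd.τ_mem k)
  · have e : ∀ l, π (δ u * χ.1 (δ v * a l)) = ∑ k, δ u * π (χ.1 (a k)) * ρ v k l := fun l => by
      rw [hd.δ_a, map_sum, Finset.mul_sum, map_sum]
      exact Finset.sum_congr rfl fun k _ => by
        rw [χ.2 _ (hL _ (hd.ρ_sp v k l)), hsp _ (hd.ρ_sp v k l)]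
    simp only [hπ', frflip1_sum_apply, frflip1_mul_apply, lam_apply, e, hd.τ_δ, Finset.mul_sum,
      Finset.sum_mul, mul_assoc]
    exact Finset.sum_comm
  · calc (∑ i, lam L (f i) * π' (lam L (f' i) * χ)).1 x
        = ∑ k, (∑ i, f i * π (f' i * χ.1 (a k))) * (τ k).1 x := by
          simp only [frflip1_sum_apply, hπ', frflip1_mul_apply, lam_apply, Finset.mul_sum,
            Finset.sum_mul, mul_assoc]
          exact Finset.sum_comm
      _ = ∑ k, χ.1 (a k * (τ k).1 x) :=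
          Finset.sum_congr rfl fun k _ => by rw [hπ, χ.2 _ (hd.τ_L k x)]
      _ = χ.1 x := by rw [← map_sum, hd.sum]

/-- Copy `FlipD.hig_end`.  `R` and `Γ` commute with `lam (δ u)`; `card • Γ` is integral by
`RelFr.half_mem`. -/
theorem FlipR.hig_end [CharZero K] (h : FlipR V δ O s F F' L sL f f' r α) :
    ∃ β : endR L →ₗ[K] endR L, RelA (lamG L δ) (endO L O) β ∧
      ∀ χ : endR L, lam L (r (χ.1 1)) +
        trB (fun i => lam L (f i)) (fun i => lam L (f' i)) β χ = χ := by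
  obtain ⟨π, hπO, hπe, hπ⟩ := h.left_hig_end
  let R : endR L := ⟨r, rlflip2_r_right h⟩
  have hR : ∀ x, R.1 x = r x := fun _ => rfl
  let γ : A →ₗ[K] A := ∑ k, LinearMap.mulRight K (f k) ∘ₗ α ∘ₗ LinearMap.mulRight K (f' k)
  have hγ : ∀ z, γ z = ∑ k, α (z * f' k) * f k := fun z => by
    simp [γ, LinearMap.sum_apply]
  have hγR : γ ∈ endR L := fun b hb x => by
    have hB : IsBilin K (fun u v : A => α (x * u) * v) := by
      constructor <;> intros <;> simp [mul_add, add_mul]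
    have := h.frameL.swap.slideB_left hB hb
    rw [hγ, hγ, Finset.sum_mul]
    simp only [mul_assoc] at this ⊢
    exact this
  let G₀ : endR L := ⟨γ, hγR⟩
  have hG : ∀ x, G₀.1 x = γ x := fun _ => rfl
  have hGO : Fintype.card Γ • G₀ ∈ endO L O := fun a ha => by
    change Fintype.card Γ • γ a ∈ O
    rw [hγ]
    exact h.relL.half_mem h.frameL h.relA ha
  have hGδ : ∀ v, G₀ * lam L (δ v) = lam L (δ v) * G₀ := fun v => frflip1_ext fun x => by
    change γ (δ v * x) = δ v * γ x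
    rw [hγ, hγ, half_left h.relA]
  have hRδ : ∀ v, R * lam L (δ v) = lam L (δ v) * R := fun v => frflip1_ext fun x =>
    rlflip2_r_left h (h.δ_L v) x
  let Ψ : endR L →ₗ[K] endR L :=
    (LinearMap.id : endR L →ₗ[K] endR L) + (lam L).toLinearMap ∘ₗ (-r) ∘ₗ frflip1_ev L 1
  have hΨ : ∀ χ, Ψ χ = χ + lam L (-r (χ.1 1)) := fun χ => rfl
  have hΨm : ∀ b ∈ L, ∀ b' ∈ L, ∀ χ, Ψ (lam L b * χ * lam L b') = lam L b * Ψ χ * lam L b' := by
    intro b hb b' hb' χ
    rw [hΨ, hΨ, frflip1_mul_apply, frflip1_mul_apply, lam_apply, lam_apply, mul_one,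
      frflip1_apply_mem χ hb', ← mul_assoc, h.r_mul b hb b' hb', mul_add, add_mul, ← map_mul,
      ← map_mul, mul_neg, neg_mul]
  let α₁ : endR L →ₗ[K] endR L :=
    LinearMap.mulRight K R ∘ₗ (lam L).toLinearMap ∘ₗ α ∘ₗ frflip1_ev L 1
  have hα₁ : ∀ ψ, α₁ ψ = lam L (α (ψ.1 1)) * R := fun _ => rfl
  let α₂ : endR L →ₗ[K] endR L := LinearMap.mulRight K G₀ ∘ₗ π ∘ₗ Ψ
  have hα₂ : ∀ ψ, α₂ ψ = π (Ψ ψ) * G₀ := fun _ => rfl
  have h1R : R + ∑ k, lam L (f' k) * G₀ * lam L (f k) = 1 := by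
    refine frflip1_ext fun x => ?_
    have hB : IsBilin K (fun u v : A => u * γ (v * x)) := by
      constructor <;> intros <;> simp [mul_add, add_mul]
    have e := h.frameL.sum_swap hB
    change r x + (∑ k, lam L (f' k) * G₀ * lam L (f k)).1 x = x
    simp only [frflip1_sum_apply, frflip1_mul_apply, lam_apply, hG]
    rw [← e]
    conv_rhs => rw [← h.hig x]
    simp only [trB, hγ, Finset.mul_sum, mul_assoc]
  refine ⟨α₁ + α₂, ⟨fun u v χ => ?_, fun χ hχ => ?_⟩, fun χ => ?_⟩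
  · rw [LinearMap.add_apply, LinearMap.add_apply, hα₁, hα₁, hα₂, hα₂, lamG_apply, lamG_apply,
      hΨm _ (h.δ_L u) _ (h.δ_L v), hπe, frflip1_mul_apply, frflip1_mul_apply, lam_apply, lam_apply,
      mul_one, frflip1_apply_mem χ (h.δ_L v), ← mul_assoc, h.relA.eqv, map_mul, map_mul, mul_add,
      add_mul]
    simp only [mul_assoc, hGδ, hRδ]
  · rw [LinearMap.add_apply, hα₁, hα₂, hΨ, smul_add, ← smul_mul_assoc, ← map_nsmul, pow_two,
      ← smul_mul_smul_comm]
    exact Subring.add_mem _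
      (Subring.mul_mem _ (frflip1_lam_mem (pow_two (Fintype.card Γ) ▸
        h.relA.mem _ (hχ _ O.one_mem))) h.r_O)
      (Subring.mul_mem _ (hπO _ (Subring.add_mem _ hχ
        (frflip1_lam_mem (O.neg_mem (h.r_O _ (hχ _ O.one_mem)))))) hGO)
  · have e1 : trB (fun i => lam L (f i)) (fun i => lam L (f' i)) α₁ χ = Ψ χ * R := by
      refine frflip1_ext fun x => ?_
      have e : χ.1 1 - r (χ.1 1) = trB f f' α (χ.1 1) := by
        rw [sub_eq_iff_eq_add', h.hig]
      rw [frflip1_mul_apply, hR, frflip1_apply_mem _ (h.r_mem x), hΨ]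
      change _ = (χ.1 1 + -r (χ.1 1) * 1) * r x
      rw [mul_one, ← sub_eq_add_neg, e]
      simp only [trB, frflip1_sum_apply, hα₁, frflip1_mul_apply, lam_apply, hR, Finset.sum_mul,
        mul_one]
      refine Finset.sum_congr rfl fun i _ => Finset.sum_congr rfl fun j _ => ?_
      rw [rlflip2_r_left h (h.frameL.mem j), frflip1_apply_mem χ (h.frameL.mem' j)]
      simp only [mul_assoc]
    have e2 : trB (fun i => lam L (f i)) (fun i => lam L (f' i)) α₂ χ =
        Ψ χ * ∑ k, lam L (f' k) * G₀ * lam L (f k) := by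
      rw [Finset.mul_sum, trB, Finset.sum_comm]
      refine Finset.sum_congr rfl fun k _ => ?_
      have e := hπ (Ψ χ * lam L (f' k))
      rw [← mul_assoc, ← mul_assoc, ← e, Finset.sum_mul, Finset.sum_mul]
      refine Finset.sum_congr rfl fun i _ => ?_
      rw [hα₂, hΨm _ (h.frameL.mem' i) _ (h.frameL.mem' k)]
      simp only [mul_assoc]
    have e3 : trB (fun i => lam L (f i)) (fun i => lam L (f' i)) (α₁ + α₂ : endR L →ₗ[K] endR L) χ
        = trB (fun i => lam L (f i)) (fun i => lam L (f' i)) α₁ χ +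
          trB (fun i => lam L (f i)) (fun i => lam L (f' i)) α₂ χ := by
      simp only [trB, LinearMap.add_apply, mul_add, add_mul, Finset.sum_add_distrib]
    rw [e3, e1, e2, ← mul_add, h1R, mul_one, hΨ, add_left_comm, ← map_add, add_neg_cancel,
      map_zero, add_zero]

end Pool.Agent.Lib.MP_b6945b_al.St
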