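import Pool.Agent.Lib.MP_b6945b_al.Rl.Conj1
import Pool.Agent.Lib.MP_b6945b_al.St.Morita

set_option autoImplicit false

/-!
Relative good deformations pass to matrices and to full corners.
-/

namespace Pool.Agent.Lib.MP_b6945b_al.St

open PowerSeries

variable {K : Type} [Field K] {V : ValuationSubring K} {A A' : Type} [Ring A] [Algebra K A]
  [Ring A'] [Algebra K A']

lemma rlmorita_C_smul (c : K) (a : A) : (C (c • a) : A⟦X⟧) = c • (C a : A⟦X⟧) := by
  ext n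
  rw [coeff_smul, coeff_C, coeff_C]
  split_ifs
  · rfl
  · exact (smul_zero c).symm

/-- The same data; `Deform.smul_mem'`, linearity of `τ`. -/
lemma GoodR.inSp {Γ : Type} [Group Γ] [Fintype Γ] {δ : Γ →* A} {p : ℕ} {O : Subring A}
    (hG : GoodR V p O (Set.range δ)) : GoodR V p O {t | InSp V δ t} := by
  obtain ⟨s, Λ, g, τ, hA, hτ⟩ := hG
  refine ⟨s, Λ, g, τ, hA, ?_, hτ.mem, hτ.zero, ?_, ?_⟩
  · rintro _ ⟨c, hc, rfl⟩
    rw [map_sum]
    refine Λ.sum_mem fun v _ => ?_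
    rw [rlmorita_C_smul]
    exact hA.dfm.smul_mem' (hc v) (hτ.C_mem _ ⟨v, rfl⟩)
  · rintro _ ⟨c, -, rfl⟩ a
    rw [Finset.sum_mul, map_sum, map_sum, Finset.sum_mul]
    refine Finset.sum_congr rfl fun v _ => ?_
    rw [smul_mul_assoc, map_smul, hτ.left _ ⟨v, rfl⟩, rlmorita_C_smul, smul_mul_assoc]
  · rintro _ ⟨c, -, rfl⟩ a
    rw [Finset.mul_sum, map_sum, map_sum, Finset.mul_sum]
    refine Finset.sum_congr rfl fun v _ => ?_
    rw [mul_smul_comm, map_smul, hτ.right _ ⟨v, rfl⟩, rlmorita_C_smul, mul_smul_comm]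

lemma rlmorita_to_C {n : Type} [Fintype n] [DecidableEq n] (M : Matrix n n A) (i j : n) :
    moritaTo n A (C M) i j = C (M i j) := by
  ext m
  rw [coeff_moritaTo, coeff_C, coeff_C]
  split_ifs <;> rfl

/-- The entrywise lift. -/
noncomputable def rlmoritaLift (n : Type) [Fintype n] [DecidableEq n] (τ : A →ₗ[K] A⟦X⟧) :
    Matrix n n A →ₗ[K] (Matrix n n A)⟦X⟧ where
  toFun M := moritaOf (M.map τ)
  map_add' M N := by
    ext m i j
    simp [moritaOf]
  map_smul' c M := by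
    ext m i j
    simp [moritaOf]

lemma rlmorita_to_lift {n : Type} [Fintype n] [DecidableEq n] (τ : A →ₗ[K] A⟦X⟧)
    (M : Matrix n n A) (i j : n) : moritaTo n A (rlmoritaLift n τ M) i j = τ (M i j) := by
  change moritaTo n A (moritaOf (M.map τ)) i j = _
  rw [moritaTo_of, Matrix.map_apply]

/-- Copy `Good.matrix`; `τ' M = moritaOf (M.map τ)`, compare through `moritaTo_inj`. -/
theorem GoodR.matrix {p : ℕ} {O : Subring A} {T : Set A} (hG : GoodR V p O T) (n : Type)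
    [Fintype n] [DecidableEq n] [Nonempty n] :
    GoodR V p (O.matrix (n := n)) {M | ∀ i j, M i j ∈ T} := by
  obtain ⟨s, Λ, g, τ, ⟨hD, ⟨x, hx, hX⟩, hp, ⟨v, hv, hv', hn⟩, hl⟩, hτ⟩ := hG
  refine ⟨_, _, _, rlmoritaLift n τ, ⟨morita_deform (n := n) hD, ?_, fun m => ?_,
    ⟨v, hv, hv', ?_⟩, morita_localCentre_matrix hl⟩, fun M hM => ?_, fun M hM => ?_,
    fun M => ?_, fun M hM N => ?_, fun M hM N => ?_⟩
  · obtain ⟨i⟩ := ‹Nonempty n›
    obtain ⟨e, he⟩ := exists_center_matrix (K := K) (A := A) n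
    refine ⟨moritaOf (Matrix.single i i x), ?_, fun ζ' => ?_⟩
    · rw [Subring.mem_comap, moritaTo_of]
      exact morita_single_mem hx _ _
    · obtain ⟨ζ, rfl⟩ := e.surjective ζ'
      rw [Algebra.trace_eq_of_algEquiv, ← hX ζ, he, morita_st, map_mul, moritaTo_of,
        ← PowerSeries.map_C, moritaTo_map, Finset.sum_eq_single i]
      · rw [Matrix.mul_single_apply_same, Matrix.scalar_apply, Matrix.diagonal_apply_eq]
      · intro l _ hl
        rw [Matrix.mul_single_apply_of_ne _ _ _ _ _ hl, map_zero]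
      · intro hi
        exact absurd (Finset.mem_univ i) hi
  · rw [coeff_map, ← morita_scalar_smul]
    exact morita_scalar_mem (hp m)
  · have := morita_nilMod (n := n) hn
    rwa [map_sub, morita_scalar_algebraMap, morita_scalar_smul, ← coeff_map] at this
  · rw [Subring.mem_comap, morita_mem_matrix]
    intro i j
    rw [rlmorita_to_C]
    exact hτ.C_mem _ (hM i j)
  · rw [Subring.mem_comap, morita_mem_matrix]
    intro i j
    rw [rlmorita_to_lift]
    exact hτ.mem _ (morita_mem_matrix.1 hM i j)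
  · refine Matrix.ext fun i j => ?_
    rw [← coeff_moritaTo, rlmorita_to_lift, hτ.zero]
  · refine moritaTo_inj (Matrix.ext fun i j => ?_)
    rw [rlmorita_to_lift, map_mul, Matrix.mul_apply, Matrix.mul_apply, map_sum]
    refine Finset.sum_congr rfl fun k _ => ?_
    rw [rlmorita_to_C, rlmorita_to_lift, hτ.left _ (hM i k)]
  · refine moritaTo_inj (Matrix.ext fun i j => ?_)
    rw [rlmorita_to_lift, map_mul, Matrix.mul_apply, Matrix.mul_apply, map_sum]
    refine Finset.sum_congr rfl fun k _ => ?_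
    rw [rlmorita_to_C, rlmorita_to_lift, hτ.right _ (hM k j)]

/-- Copy `Deform.exists_conj_idem` with the lift `E = τ ε`, which commutes with the `C t`; apply
`corner_lift_idem` to the closed subring of elements of `Λ` commuting with all `C t`. -/
lemma Split.exists_conj_idem {O : Subring A} {s : A →ₗ[K] K} {Λ : Subring A⟦X⟧} {g : A⟦X⟧}
    (h : Deform V O s Λ g) {T : Set A} {τ : A →ₗ[K] A⟦X⟧} (hτ : Split T O Λ τ) {ε : A}
    (hε : IsIdempotentElem ε) (hO : ε ∈ O) (hc : ∀ t ∈ T, t * ε = ε * t) :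
    ∃ U : (A⟦X⟧)ˣ, coeff 0 (U : A⟦X⟧) = 1 ∧ (C ε : A⟦X⟧) ∈ conjSub U Λ ∧
      ∀ t ∈ T, (U : A⟦X⟧) * C t = C t * (U : A⟦X⟧) := by
  have hcl : Closed ((Λ ⊓ coefSub (Subring.centralizer T) : Subring A⟦X⟧) : Set A⟦X⟧) :=
    h.closed.inter (closed_coeff fun _ a => a ∈ Subring.centralizer T)
  have hE : τ ε ∈ Λ ⊓ coefSub (Subring.centralizer T) := by
    refine ⟨hτ.mem ε hO, fun n => Subring.mem_centralizer_iff.2 fun t ht => ?_⟩
    rw [← coeff_C_mul, ← coeff_mul_C, ← hτ.left t ht, ← hτ.right t ht, hc t ht]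
  have hE0 := hτ.zero ε
  obtain ⟨L, ⟨hL, hLc⟩, hLL, hL0⟩ := corner_lift_idem hcl hE
    (ord_one_iff.2 (by rw [map_sub, coeff_zero_mul', hE0, hε.eq, sub_self]))
  rw [hE0] at hL0
  have hCC : (C ε : A⟦X⟧) * C ε = C ε := by rw [← map_mul, hε.eq]
  have hU0 : coeff 0 (C ε * L + (1 - C ε) * (1 - L) : A⟦X⟧) = 1 := by
    rw [map_add, coeff_zero_mul', coeff_zero_mul', map_sub, map_sub, hL0, coeff_zero_C,
      coeff_zero_one, hε.eq, hε.one_sub.eq, add_sub_cancel]
  obtain ⟨G, -, hG1, hG2, -⟩ := exists_inv_coefAlg (⊤ : Subalgebra K A)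
    (F := C ε * L + (1 - C ε) * (1 - L)) (fun _ => trivial) (w := 1) trivial
    (by rw [hU0, one_mul]) (by rw [hU0, one_mul])
  refine ⟨⟨_, G, hG2, hG1⟩, hU0, mem_conjSub.2 ⟨L, hL, ?_⟩, fun t ht => ?_⟩
  · change (C ε * L + (1 - C ε) * (1 - L)) * L * G = C ε
    have e1 : (C ε * L + (1 - C ε) * (1 - L)) * L = C ε * L := by
      rw [add_mul, mul_assoc, hLL, mul_assoc, sub_mul 1 L, one_mul, hLL, sub_self, mul_zero,
        add_zero]
    have e2 : C ε * (C ε * L + (1 - C ε) * (1 - L)) = C ε * L := by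
      rw [mul_add, ← mul_assoc, hCC, ← mul_assoc, mul_sub (C ε), mul_one, hCC, sub_self, zero_mul,
        add_zero]
    rw [e1, ← e2, mul_assoc, hG2, mul_one]
  · have c1 : Commute L (C t : A⟦X⟧) := by
      change L * C t = C t * L
      ext n
      rw [coeff_C_mul, coeff_mul_C]
      exact (Subring.mem_centralizer_iff.1 (hLc n) t ht).symm
    have c2 : Commute (C ε : A⟦X⟧) (C t) := by
      change (C ε : A⟦X⟧) * C t = C t * C ε
      rw [← map_mul, ← map_mul, hc t ht]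
    exact ((c2.mul_left c1).add_left (((Commute.one_left _).sub_left c2).mul_left
      ((Commute.one_left _).sub_left c1))).eq

/-- The corner of a good deformation that contains the constant idempotent. -/
lemma rlmorita_corner {p : ℕ} {ι : A →ₗ[K] A'} {O : Subring A} {O' : Subring A'}
    (h : CornerEmb ι O O') (hf : InIdl O' (ι 1) 1) {s' : A' →ₗ[K] K} {Λ' : Subring A'⟦X⟧}
    {g' : A'⟦X⟧} (hG : GoodAt V p O' s' Λ' g') (hε : (C (ι 1) : A'⟦X⟧) ∈ Λ') {κ : A' →ₗ[K] A}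
    (hκ : ∀ y, ι (κ y) = ι 1 * y * ι 1) (hκι : ∀ a, κ (ι a) = a) (hκO : ∀ y ∈ O', κ y ∈ O) :
    GoodAt V p O (s' ∘ₗ ι) (cornerLat h.map_mul Λ' hε) (ext κ g') := by
  obtain ⟨D, ⟨x', hx', hX⟩, hp, ⟨v, hv, hv', hn⟩, hl⟩ := hG
  have hmul := corner_ext_mul h.map_mul
  have hικ : ∀ G, ext ι (ext κ G) = C (ι 1) * G * C (ι 1) := fun G => by
    ext n
    rw [coeff_ext, coeff_ext, hκ, coeff_mul_C, coeff_C_mul]
  have hκι' : ∀ F, ext κ (ext ι F) = F := fun F => by
    ext n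
    rw [coeff_ext, coeff_ext, hκι]
  have hl1 : ∀ F, C (ι 1) * ext ι F = ext ι F := fun F => by
    rw [← corner_ext_C, ← hmul, map_one, one_mul]
  have hr1 : ∀ F, ext ι F * C (ι 1) = ext ι F := fun F => by
    rw [← corner_ext_C, ← hmul, map_one, mul_one]
  have hCC : (C (ι 1) : A'⟦X⟧) * C (ι 1) = C (ι 1) := by
    rw [← _root_.map_mul, h.corner_one_mul]
  have hst : ∀ F, st (s' ∘ₗ ι) (ext κ g') F = st s' g' (ext ι F) := fun F => by
    have e : ext ι (ext κ g' * F) = g' * ext ι F := by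
      rw [hmul, hικ, mul_assoc, hl1, ← D.g_comm, mul_assoc, hl1]
    rw [st_apply, st_apply, ← e]
    ext n
    rw [coeff_extF, coeff_extF, coeff_ext, LinearMap.comp_apply]
  let Λ := cornerLat h.map_mul Λ' hε
  have hΛ : ∀ F, F ∈ Λ ↔ ext ι F ∈ Λ' := fun F => Iff.rfl
  have hκΛ : ∀ G ∈ Λ', ext κ G ∈ Λ := fun G hG => by
    rw [hΛ, hικ]
    exact Λ'.mul_mem (Λ'.mul_mem hε hG) hε
  change GoodAt V p O (s' ∘ₗ ι) Λ (ext κ g')
  refine ⟨⟨?_, ?_, ?_, ?_, ?_, ?_, ?_⟩, ?_, ?_, ⟨v, hv, hv', ?_⟩,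
    h.localCentre hf hl⟩
  · intro r hr F hF
    rw [hΛ, map_smul]
    exact D.smul_mem r hr _ hF
  · intro x y
    rw [LinearMap.comp_apply, LinearMap.comp_apply, h.map_mul, h.map_mul, D.symm]
  · intro m a
    rw [coeff_ext]
    exact h.corner_central (hκ _) (D.central m) a
  · rw [coeff_ext, D.g_zero]
    apply h.inj
    rw [hκ, mul_one, h.corner_one_mul]
  · intro F hF
    rw [hst]
    exact D.form_mem _ hF
  · obtain ⟨n, β, β', hβ, hβ', hF⟩ := D.frame
    refine ⟨n, fun i => ext κ (β i), fun i => ext κ (β' i), fun i => hκΛ _ (hβ i),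
      fun i => hκΛ _ (hβ' i), fun _ => trivial, fun _ => trivial, fun x _ y _ => ?_,
      fun y _ => ?_⟩
    · rw [hst, hst, hmul, hmul, D.st_symm]
    · have e : ∀ i, st (s' ∘ₗ ι) (ext κ g') (y * ext κ (β' i)) = st s' g' (ext ι y * β' i) := by
        intro i
        rw [hst, hmul, hικ, ← mul_assoc, D.st_symm, ← mul_assoc, ← mul_assoc, hl1, hr1]
      have e' := congrArg (ext κ) (hF.repro (ext ι y) trivial)
      rw [hκι', map_sum] at e'
      simpa only [e, map_smul] using e'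
  · intro a
    constructor
    · intro ha
      obtain ⟨G, hG, e⟩ := (D.const _).1 ((h.mem_iff a).1 ha)
      exact ⟨ext κ G, hκΛ G hG, by rw [coeff_ext, e, hκι]⟩
    · rintro ⟨F, hF, rfl⟩
      exact (h.mem_iff _).2 ((D.const _).2 ⟨_, hF, coeff_ext _ _ _⟩)
  · obtain ⟨e, he⟩ := h.exists_center hf
    obtain ⟨n, a, b, ha, hb, h1⟩ := hf
    choose a' ha' ha0 using fun i => (D.const _).1 (ha i)
    choose b' hb' hb0 using fun i => (D.const _).1 (hb i)
    have hS0 : coeff 0 (∑ i, a' i * C (ι 1) * b' i) = 1 := by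
      rw [map_sum, h1]
      exact Finset.sum_congr rfl fun i _ => by
        rw [coeff_zero_mul', coeff_zero_mul', ha0, hb0, coeff_zero_C]
    obtain ⟨S, hS, -, hS2⟩ := D.exists_inv (F := ∑ i, a' i * C (ι 1) * b' i)
      (Λ'.sum_mem fun i _ => Λ'.mul_mem (Λ'.mul_mem (ha' i) hε) (hb' i)) O'.one_mem
      (by rw [hS0, one_mul]) (by rw [hS0, one_mul])
    refine ⟨ext κ (∑ i, b' i * S * x' * a' i), hκΛ _ (Λ'.sum_mem fun i _ =>
      Λ'.mul_mem (Λ'.mul_mem (Λ'.mul_mem (hb' i) hS) hx') (ha' i)), fun ζ => ?_⟩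
    obtain ⟨ζ', rfl⟩ := e.surjective ζ
    have hc : ∀ F : A'⟦X⟧, C (ζ' : A') * F = F * C (ζ' : A') := fun F => by
      ext m
      rw [coeff_C_mul, coeff_mul_C]
      exact (Subalgebra.mem_center_iff.1 ζ'.2 _).symm
    rw [Algebra.trace_eq_of_algEquiv, ← hX, hst, hmul, hικ, corner_ext_C, (he ζ').1,
      _root_.map_mul (C : A' →+* A'⟦X⟧)]
    calc st s' g' (C (ζ' : A') * C (ι 1) * (C (ι 1) * (∑ i, b' i * S * x' * a' i) * C (ι 1)))
        = ∑ i, st s' g' ((C (ζ' : A') * C (ι 1) * b' i * S * x') * (a' i * C (ι 1))) := by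
          rw [← map_sum, ← mul_assoc, ← mul_assoc, mul_assoc _ (C (ι 1)) (C (ι 1)), hCC]
          simp only [Finset.mul_sum, Finset.sum_mul, mul_assoc]
      _ = ∑ i, st s' g' (C (ζ' : A') * ((a' i * C (ι 1) * b' i) * S) * x') := by
          refine Finset.sum_congr rfl fun i _ => ?_
          rw [D.st_symm]
          congr 1
          calc a' i * C (ι 1) * (C (ζ' : A') * C (ι 1) * b' i * S * x')
              = (a' i * C (ι 1) * C (ζ' : A')) * (C (ι 1) * b' i * S * x') := by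
                simp only [mul_assoc]
            _ = C (ζ' : A') * (a' i * (C (ι 1) * C (ι 1)) * b' i * S) * x' := by
                rw [← hc]
                simp only [mul_assoc]
            _ = _ := by rw [hCC]
      _ = st s' g' (C (ζ' : A') * x') := by
          rw [← map_sum, ← Finset.sum_mul, ← Finset.mul_sum, ← Finset.sum_mul, hS2, mul_one]
  · intro m
    rw [coeff_ext, ← map_smul]
    exact hκO _ (hp m)
  · refine h.nilMod ?_ ?_ hn
    · rw [coeff_ext, map_sub, map_smul, hκ, ← D.central, mul_assoc, h.corner_one_mul, sub_mul,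
        smul_mul_assoc, Algebra.algebraMap_eq_smul_one, map_smul, ← Algebra.smul_def]
    · rw [sub_mul, mul_sub, smul_mul_assoc, mul_smul_comm, D.central, Algebra.commutes]

/-- Copy `CornerEmb.good`.  Shrink `T'` to the elements commuting with `ι 1` (the `t'` in `hT` do:
`t' * ι 1 = ι t = ι 1 * t'`), use `Split.exists_conj_idem`, `Split.conj`, and
`τ a = ext κ (τ' (ι a))`. -/
theorem CornerEmb.goodR {p : ℕ} {ι : A →ₗ[K] A'} {O : Subring A} {O' : Subring A'}
    (h : CornerEmb ι O O') (hf : InIdl O' (ι 1) 1) {T : Set A} {T' : Set A'}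
    (hT : ∀ t ∈ T, ∃ t' ∈ T', (∀ a, ι (t * a) = t' * ι a) ∧ ∀ a, ι (a * t) = ι a * t')
    (hG : GoodR V p O' T') : GoodR V p O T := by
  obtain ⟨s', Λ₀, g', τ₀, ⟨D₀, X₀, hp, hv, hl⟩, hτ₀⟩ := hG
  have hτ₁ : Split {t' | t' ∈ T' ∧ t' * ι 1 = ι 1 * t'} O' Λ₀ τ₀ :=
    ⟨fun t ht => hτ₀.C_mem t ht.1, hτ₀.mem, hτ₀.zero, fun t ht => hτ₀.left t ht.1,
      fun t ht => hτ₀.right t ht.1⟩
  obtain ⟨U, hU, hε, hUc⟩ := Split.exists_conj_idem D₀ hτ₁ (ε := ι 1) (h.corner_one_mul 1)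
    h.corner_one_mem (fun t ht => ht.2)
  obtain ⟨τ', hτ'⟩ := hτ₁.conj U hU hUc
  obtain ⟨κ, hκ, hκι, hκO⟩ := h.exists_retr
  have hT' : ∀ t ∈ T, ∃ t', (t' ∈ T' ∧ t' * ι 1 = ι 1 * t') ∧ (∀ a, ι (t * a) = t' * ι a) ∧
      ∀ a, ι (a * t) = ι a * t' := fun t ht => by
    obtain ⟨t', h1, h2, h3⟩ := hT t ht
    refine ⟨t', ⟨h1, ?_⟩, h2, h3⟩
    rw [← h2, ← h3, mul_one, one_mul]
  let τ : A →ₗ[K] A⟦X⟧ :=
    { toFun := fun a => ext κ (τ' (ι a))
      map_add' := fun a b => by rw [map_add, map_add, map_add]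
      map_smul' := fun c a => by
        ext n
        rw [map_smul, map_smul, coeff_ext, coeff_smul, map_smul, RingHom.id_apply, coeff_smul,
          coeff_ext] }
  have hτ : ∀ a, τ a = ext κ (τ' (ι a)) := fun _ => rfl
  refine ⟨s' ∘ₗ ι, _, ext κ g', τ, rlmorita_corner h hf
    ⟨D₀.conj U hU, XCond.conj D₀ X₀ U, hp, hv, hl⟩ hε hκ hκι hκO, fun t ht => ?_, fun a ha => ?_,
    fun a => ?_, fun t ht a => ?_, fun t ht a => ?_⟩
  · obtain ⟨t', h1, h2, -⟩ := hT' t ht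
    change ext ι (C t) ∈ conjSub U Λ₀
    rw [corner_ext_C, ← mul_one t, h2, _root_.map_mul]
    exact Subring.mul_mem _ (hτ'.C_mem t' h1) hε
  · change ext ι (ext κ (τ' (ι a))) ∈ conjSub U Λ₀
    have e : ext ι (ext κ (τ' (ι a))) = C (ι 1) * τ' (ι a) * C (ι 1) := by
      ext n
      rw [coeff_ext, coeff_ext, hκ, coeff_mul_C, coeff_C_mul]
    rw [e]
    exact Subring.mul_mem _ (Subring.mul_mem _ hε (hτ'.mem _ ((h.mem_iff a).1 ha))) hε
  · rw [hτ, coeff_ext, hτ'.zero, hκι]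
  · obtain ⟨t', h1, h2, -⟩ := hT' t ht
    rw [hτ, hτ, h2, hτ'.left t' h1]
    ext n
    rw [coeff_ext, coeff_C_mul, coeff_C_mul, coeff_ext]
    apply h.inj
    rw [h2, hκ, hκ, ← mul_assoc, ← h1.2]
    simp only [mul_assoc]
  · obtain ⟨t', h1, -, h3⟩ := hT' t ht
    rw [hτ, hτ, h3, hτ'.right t' h1]
    ext n
    rw [coeff_ext, coeff_mul_C, coeff_mul_C, coeff_ext]
    apply h.inj
    rw [h3, hκ, hκ, mul_assoc _ (ι 1) t', ← h1.2]
    simp only [mul_assoc]

end Pool.Agent.Lib.MP_b6945b_al.St
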