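import Pool.Agent.Lib.MP_b6945b_al.Rl.Flip1
import Pool.Agent.Lib.MP_b6945b_al.Rl.Morita

set_option autoImplicit false

/-!
The endomorphism algebra has a relative good deformation.
-/

namespace Pool.Agent.Lib.MP_b6945b_al.St

variable {K : Type} [Field K] {V : ValuationSubring K} {A : Type} [Ring A] [Algebra K A]
  {Γ : Type} [Group Γ] [Fintype Γ]
  {δ : Γ →* A} {O : Subring A} {s sL : A →ₗ[K] K} {ι κ : Type} [Fintype ι] [Fintype κ]
  {F F' : ι → A} {L : Subalgebra K A} {f f' : κ → A} {r α : A →ₗ[K] A}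

/-- With `DualR`, `ι χ = Matrix.of fun k l => ⟨τ k (χ (a l)), _⟩` is a `CornerEmb` of `endR L` into
`Matrix μ μ L` (inverse: `χ x = ∑ k l, a k * Y k l * τ l x`); it is full because
`1 = ∑ i, single i k₀ 1 * ι 1 * single k₀ i 1` (`base`, `morita_inIdl`).  The matrix `ρ u` has
entries in `{t | InSp V δL t}` and `ι (lam (δ u) * χ) = ρ u * ι χ`, `ι (χ * lam (δ u)) = ι χ * ρ u`.
Use `GoodR.inSp`, `GoodR.matrix`, `CornerEmb.goodR`; for the ranks `CornerEmb.exists_center`,
`exists_center_matrix` as in `morita_finrank`. -/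
theorem FlipR.morita (h : FlipR V δ O s F F' L sL f f' r α) {p : ℕ} (δL : Γ →* L)
    (hδL : ∀ u, (δL u : A) = δ u) (hG : GoodR V p (O.comap L.val.toRingHom) (Set.range δL)) :
    GoodR V p (endO L O) (Set.range (lamG L δ)) ∧
      Module.finrank K (Subalgebra.center K (endR L)) =
        Module.finrank K (Subalgebra.center K L) := by
  classical
  obtain ⟨μ, _, a, τ, ρ, k₀, D⟩ := h.dual_basis
  have : Nonempty μ := ⟨k₀⟩
  have ex : ∀ (χ : endR L) (x : A), χ.1 x = ∑ m, χ.1 (a m) * (τ m).1 x := fun χ x => by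
    conv_lhs => rw [← D.sum x, map_sum]
    exact Finset.sum_congr rfl fun m _ => χ.2 _ (D.τ_L m x) _
  let j : endR L →ₗ[K] Matrix μ μ L :=
    { toFun := fun χ => Matrix.of fun k l => ⟨(τ k).1 (χ.1 (a l)), D.τ_L k _⟩
      map_add' := fun χ ψ => Matrix.ext fun k l => Subtype.ext (map_add (τ k).1 _ _)
      map_smul' := fun c χ => Matrix.ext fun k l => Subtype.ext (map_smul (τ k).1 _ _) }
  have hj : ∀ χ k l, (j χ k l : A) = (τ k).1 (χ.1 (a l)) := fun _ _ _ => rfl
  have mul : ∀ (M N : Matrix μ μ L) k l, ((M * N) k l : A) = ∑ m, (M k m : A) * N m l :=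
    fun M N k l => by
      rw [Matrix.mul_apply, AddSubmonoidClass.coe_finsetSum]
      rfl
  have back : ∀ (χ : endR L) (x : A),
      χ.1 x = ∑ l, (∑ k, a k * (j χ k l : A)) * (τ l).1 x := fun χ x => by
    rw [ex χ x]
    simp only [hj, D.sum]
  have hc : CornerEmb j (endO L O) (O.comap L.val.toRingHom).matrix := by
    refine ⟨fun χ ψ => Matrix.ext fun k l => Subtype.ext ?_, ?_, fun Y => ?_,
      fun χ => ⟨fun hχ k l => ?_, fun hχ x hx => ?_⟩⟩
    · rw [mul]
      exact ex (τ k * χ) (ψ.1 (a l))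
    · rw [injective_iff_map_eq_zero]
      intro χ hχ
      refine frflip1_ext fun x => ?_
      rw [back, hχ]
      simp
    · refine ⟨∑ l, lam L (∑ k, a k * (Y k l : A)) * τ l, Matrix.ext fun k l => Subtype.ext ?_⟩
      rw [hj, frflip1_sum_apply, map_sum, mul]
      refine Finset.sum_congr rfl fun m _ => ?_
      rw [frflip1_mul_apply, lam_apply, (τ k).2 _ (D.τ_L m _), map_sum, mul]
      refine congrArg₂ _ (Finset.sum_congr rfl fun i _ => ?_) rfl
      exact (τ k).2 _ (Y i m).2 _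
    · exact D.τ_mem k _ (hχ _ (D.a_mem l))
    · rw [back]
      exact O.sum_mem fun l _ => O.mul_mem
        (O.sum_mem fun k _ => O.mul_mem (D.a_mem k) (hχ k l)) (D.τ_mem l x hx)
  have hf : InIdl (O.comap L.val.toRingHom).matrix (j 1) 1 := by
    have e : j 1 k₀ k₀ = 1 := Subtype.ext D.base
    refine morita_inIdl (fun i => Matrix.single i k₀ 1) (fun i => Matrix.single k₀ i 1)
      (fun i => morita_single_mem (Subring.one_mem _) _ _)
      (fun i => morita_single_mem (Subring.one_mem _) _ _) ?_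
    simp only [Matrix.single_mul_mul_single, e, mul_one, Matrix.sum_single_one]
  have hρ : ∀ u k l, ρ u k l ∈ L := fun u k l => by
    obtain ⟨c, -, e⟩ := D.ρ_sp u k l
    rw [e]
    exact L.sum_mem fun v _ => L.smul_mem (h.δ_L v) _
  refine ⟨hc.goodR hf ?_ (hG.inSp.matrix μ), ?_⟩
  · rintro _ ⟨u, rfl⟩
    refine ⟨Matrix.of fun k l => ⟨ρ u k l, hρ u k l⟩, fun k l => ?_,
      fun χ => Matrix.ext fun k l => Subtype.ext ?_, fun χ => Matrix.ext fun k l => Subtype.ext ?_⟩
    · obtain ⟨c, hc, e⟩ := D.ρ_sp u k l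
      refine ⟨c, hc, Subtype.ext ?_⟩
      rw [AddSubmonoidClass.coe_finsetSum]
      simp only [SetLike.val_smul, hδL]
      exact e
    · rw [mul]
      exact D.τ_δ u k _
    · rw [mul]
      change (τ k * χ).1 (δ u * a l) = _
      rw [D.δ_a, map_sum]
      exact Finset.sum_congr rfl fun m _ => (τ k * χ).2 _ (hρ u m l) _
  · obtain ⟨e, -⟩ := hc.exists_center hf
    obtain ⟨e', -⟩ := exists_center_matrix (K := K) (A := L) μ
    exact (e'.trans e).toLinearEquiv.finrank_eq.symm

end Pool.Agent.Lib.MP_b6945b_al.St
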