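import Pool.Agent.Lib.MP_b6945b_al.Rl.Flip2
import Pool.Agent.Lib.MP_b6945b_al.Rl.Flip3
import Pool.Agent.Lib.MP_b6945b_al.Rl.Core2
import Pool.Agent.Lib.MP_b6945b_al.St.FrFlip2

set_option autoImplicit false

/-!
A separable extension with relatively projective complement has as many central characters as the
subalgebra.
-/

namespace Pool.Agent.Lib.MP_b6945b_al.St

variable {K : Type} [Field K] {V : ValuationSubring K} {A : Type} [Ring A] [Algebra K A]
  {Γ : Type} [Group Γ] [Fintype Γ]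

lemma rlflip4_w1 {s sL : A →ₗ[K] K} {ι κ μ : Type} [Fintype ι] [Fintype κ] [Fintype μ]
    {F F' : ι → A} {L : Subalgebra K A} {f f' : κ → A} (h : IsFrame s ⊤ F F')
    (hf : IsFrame sL L.toSubmodule f f') {x y : μ → A}
    (hsep : ∀ (N : Type) [AddCommGroup N] [Module K N] (β : A → A → N), IsBilin K β →
      (∀ b ∈ L, ∀ x y, β (x * b) y = β x (b * y)) →
      ∀ a, ∑ i, β (a * x i) (y i) = ∑ i, β (x i) (y i * a)) {b : A} (hb : b ∈ L) :
    b * ∑ t : μ × κ, s (f' t.2 * y t.1) • (x t.1 * f t.2) =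
      (∑ t : μ × κ, s (f' t.2 * y t.1) • (x t.1 * f t.2)) * b := by
  have e1 := frflip2_inv hf hsep A (fun u v => s v • u)
    (by constructor <;> intros <;> simp [add_smul, smul_smul, mul_comm]) b
  rw [Finset.mul_sum, Finset.sum_mul]
  simp only [mul_smul_comm, smul_mul_assoc]
  rw [e1, Fintype.sum_prod_type, Fintype.sum_prod_type]
  refine Finset.sum_congr rfl fun m _ => ?_
  have e2 := hf.slideB_right (F := fun c d => s (d * y m) • (x m * c)) (by
    constructor <;> intros <;>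
      simp [add_smul, smul_smul, mul_comm, mul_add, add_mul]) hb
  simp only [mul_assoc] at e2 ⊢
  rw [e2]
  refine Finset.sum_congr rfl fun i _ => ?_
  rw [h.symm b trivial _ trivial, mul_assoc]

lemma rlflip4_w2 {s sL : A →ₗ[K] K} {ι κ μ : Type} [Fintype ι] [Fintype κ] [Fintype μ]
    {F F' : ι → A} {L : Subalgebra K A} {f f' : κ → A} (h : IsFrame s ⊤ F F')
    (hf : IsFrame sL L.toSubmodule f f') {x y : μ → A}
    (hsep : ∀ (N : Type) [AddCommGroup N] [Module K N] (β : A → A → N), IsBilin K β →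
      (∀ b ∈ L, ∀ x y, β (x * b) y = β x (b * y)) →
      ∀ a, ∑ i, β (a * x i) (y i) = ∑ i, β (x i) (y i * a)) {b : A} (hb : b ∈ L) :
    b * ∑ t : μ × κ, s (x t.1 * f' t.2) • (f t.2 * y t.1) =
      (∑ t : μ × κ, s (x t.1 * f' t.2) • (f t.2 * y t.1)) * b := by
  have e1 := frflip2_inv hf.swap hsep A (fun u v => s u • v)
    (by constructor <;> intros <;> simp [add_smul, smul_smul, mul_comm]) b
  rw [Finset.mul_sum, Finset.sum_mul]
  simp only [mul_smul_comm, smul_mul_assoc]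
  rw [← e1, Fintype.sum_prod_type, Fintype.sum_prod_type]
  refine Finset.sum_congr rfl fun m _ => ?_
  have e2 := hf.slideB_left (F := fun c d => s (x m * d) • (c * y m)) (by
    constructor <;> intros <;>
      simp [add_smul, smul_smul, mul_comm, mul_add, add_mul]) hb
  simp only [mul_assoc] at e2 ⊢
  rw [e2]
  refine Finset.sum_congr rfl fun i _ => ?_
  rw [h.symm b trivial _ trivial, mul_assoc]

lemma rlflip4_core [CharZero K] [IsAlgClosed K] {p : ℕ} (hp : p.Prime)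
    (hpV : (p : K) ∈ V.nonunits) {δ : Γ →* A} {O : Subring A} {s sL : A →ₗ[K] K} {ι κ μ : Type}
    [Fintype ι] [Fintype κ] [Fintype μ] {F F' : ι → A} {L : Subalgebra K A} {f f' : κ → A}
    {r α : A →ₗ[K] A} (h : FlipR V δ O s F F' L sL f f' r α) {x y : μ → A}
    (hx : ∀ i, x i ∈ O) (hy : ∀ i, y i ∈ O)
    (hsep : ∀ (N : Type) [AddCommGroup N] [Module K N] (β : A → A → N), IsBilin K β →
      (∀ b ∈ L, ∀ x y, β (x * b) y = β x (b * y)) →
      ∀ a, ∑ i, β (a * x i) (y i) = ∑ i, β (x i) (y i * a))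
    (h1 : ∑ i, x i * y i = 1) (hz : ∃ w, w * trF F F' 1 = 1)
    (hnd : RelNd V δ O ⊤ F F') {E : Type} [Ring E] [Algebra K E] {OE : Subring E}
    {δE : Γ →* E} (hG : GoodR V p OE (Set.range δE)) (hP : LProj K δE OE) (l : A →ₐ[K] E)
    (hδE : ∀ u, δE u = l (δ u)) (ev : E →ₗ[K] A) (β ρ : E →ₗ[K] E)
    (l1 : ∀ a, ev (l a) = a) (lO : ∀ a ∈ O, l a ∈ OE) (evO : ∀ χ ∈ OE, ev χ ∈ O)
    (hβO : RelA δE OE β)
    (hβ : ∀ χ, l (r (ev χ)) + trB (fun i => l (f i)) (fun i => l (f' i)) β χ = χ)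
    (hρO : ∀ χ ∈ OE, ρ χ ∈ OE) (hρ : ∀ χ, ρ χ ∈ l.range)
    (r1 : ∀ a b χ, ρ (l a * χ * l b) = l a * ρ χ * l b) (r2 : ρ 1 = 1) :
    Module.finrank K (Subalgebra.center K E) = Module.finrank K (Subalgebra.center K A) := by
  have r3 : ∀ a b χ, (LinearMap.id - ρ : E →ₗ[K] E) (l a * χ * l b) =
      l a * (LinearMap.id - ρ : E →ₗ[K] E) χ * l b := fun a b χ => by
    simp only [LinearMap.sub_apply, LinearMap.id_apply, r1, mul_sub, sub_mul]
  have r4 := frflip2_hig h.frame h.frameL hsep h1 l (γ := (LinearMap.id - ρ) ∘ₗ β) r3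
    fun χ => by
      have e1 := r3 (r (ev χ)) 1 1
      rw [map_one, mul_one, mul_one, LinearMap.sub_apply _ _ 1, r2, LinearMap.id_apply, sub_self,
        mul_zero, zero_mul] at e1
      conv_lhs => rw [← hβ χ, map_add, e1, zero_add]
      simp only [trB, map_sum, r3, LinearMap.comp_apply]
  have hw₁ : ∑ t : μ × κ, s (f' t.2 * y t.1) • (x t.1 * f t.2) ∈ O := O.sum_mem fun t _ =>
    h.smul_mem _ (h.s_mem _ (O.mul_mem (h.f'_mem _) (hy _))) _ (O.mul_mem (hx _) (h.f_mem _))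
  have hw₂ : ∑ t : μ × κ, s (x t.1 * f' t.2) • (f t.2 * y t.1) ∈ O := O.sum_mem fun t _ =>
    h.smul_mem _ (h.s_mem _ (O.mul_mem (hx _) (h.f'_mem _))) _ (O.mul_mem (h.f_mem _) (hy _))
  have hc₁ := fun u => rlflip4_w1 h.frame h.frameL hsep (h.δ_L u)
  have hc₂ := fun u => rlflip4_w2 h.frame h.frameL hsep (h.δ_L u)
  generalize ∑ t : μ × κ, s (f' t.2 * y t.1) • (x t.1 * f t.2) = w₁ at r4 hw₁ hc₁
  generalize ∑ t : μ × κ, s (x t.1 * f' t.2) • (f t.2 * y t.1) = w₂ at r4 hw₂ hc₂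
  have ht : ∀ a, trF (fun i => l (F i)) (fun i => l (F' i)) (l a) = l (trF F F' a) := fun a => by
    simp only [trF, map_sum, map_mul]
  have linj : Function.Injective l := fun a b e => by rw [← l1 a, e, l1]
  have hfr : ∀ {ν : Type} [Fintype ν] {G G' : ν → A}, IsFrame s ⊤ G G' →
      IsFrame (s ∘ₗ ev) l.range.toSubmodule (fun i => l (G i)) (fun i => l (G' i)) := by
    intro ν _ G G' hg
    refine ⟨fun i => ⟨_, rfl⟩, fun i => ⟨_, rfl⟩, ?_, ?_⟩
    · rintro _ ⟨a, rfl⟩ _ ⟨b, rfl⟩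
      change s (ev (l a * l b)) = s (ev (l b * l a))
      rw [← map_mul, ← map_mul, l1, l1]
      exact hg.symm a trivial b trivial
    · rintro _ ⟨a, rfl⟩
      change ∑ i, s (ev (l a * l (G' i))) • l (G i) = l a
      simp only [← map_mul, l1, ← map_smul, ← map_sum, hg.repro a trivial]
  have hR : RelFr δE OE (s ∘ₗ ev) l.range.toSubmodule := by
    obtain ⟨n, X, X', hX, hX', hp⟩ := h.relF
    refine ⟨n, fun i => l (X i), fun i => l (X' i), fun i => lO _ (hX i), fun i => lO _ (hX' i),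
      ?_⟩
    have e1 : pf δE (fun i => l (X i)) = fun t => l (pf δ X t) := by
      funext t
      simp only [pf, hδE, map_mul]
    have e2 : pf' δE (fun i => l (X' i)) = fun t => l (pf' δ X' t) := by
      funext t
      simp only [pf', hδE, map_mul]
    rw [e1, e2]
    exact hfr hp
  rw [finrank_center_congr (AlgEquiv.ofInjective l linj)]
  refine coreR hp hpV hG hP (B := l.range) (sB := s ∘ₗ ev) (f := fun i => l (F i))
    (f' := fun i => l (F' i)) (hfr h.frame)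
    (fun i => lO _ (h.F_mem i)) (fun i => lO _ (h.F'_mem i))
    (fun b _ hb => h.s_mem _ (evO b hb)) (fun u => ⟨_, (hδE u).symm⟩) hR ρ
    (LinearMap.mulRight K (l w₂) ∘ₗ
      LinearMap.mulLeft K (l w₁) ∘ₗ (LinearMap.id - ρ) ∘ₗ β) hρO
    ⟨fun u v χ => ?_, fun χ hχ => ?_⟩ hρ ?_ r2
    (fun χ => add_eq_of_eq_sub' (r4 χ).symm) ?_ ?_
  · simp only [LinearMap.comp_apply, LinearMap.mulRight_apply, LinearMap.mulLeft_apply]
    rw [hβO.eqv, hδE, hδE, r3]
    have e1 : l w₁ * l (δ u) = l (δ u) * l w₁ := by rw [← map_mul, ← map_mul, hc₁]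
    have e2 : l (δ v) * l w₂ = l w₂ * l (δ v) := by rw [← map_mul, ← map_mul, hc₂]
    rw [← mul_assoc, ← mul_assoc, e1, mul_assoc _ (l (δ v)), e2]
    simp only [mul_assoc]
  · simp only [LinearMap.comp_apply, LinearMap.mulRight_apply, LinearMap.mulLeft_apply]
    rw [← smul_mul_assoc, ← mul_smul_comm, ← map_nsmul]
    exact OE.mul_mem (OE.mul_mem (lO _ hw₁)
      (OE.sub_mem (hβO.mem χ hχ) (hρO _ (hβO.mem χ hχ)))) (lO _ hw₂)
  · rintro _ ⟨a, rfl⟩ _ ⟨b, rfl⟩ χ
    exact r1 a b χ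
  · obtain ⟨w, hw⟩ := hz
    exact ⟨l w, ⟨w, rfl⟩, by rw [← map_one l, ht, ← map_mul, hw]⟩
  · rintro _ ⟨a, rfl⟩ ha hc
    have ha' : Fintype.card Γ • a ∈ O := by
      have := evO _ ha
      rwa [map_nsmul, show ev (l.toRingHom a) = a from l1 a] at this
    obtain ⟨n, m, hm, z, hz', e⟩ := hnd a trivial ha' fun u => linj (by
      rw [map_mul, map_mul, ← hδE]
      exact hc u)
    refine ⟨n, m, hm, l z, lO z hz', ?_⟩
    change trF _ _ (l a) ^ n = _
    rw [ht, ← map_pow, e, map_smul]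

/-- Copy `frflip2_core` and `FlipD.finrank` with `coreR`, `FlipR.hig_end`, `FlipR.morita`,
`FlipR.lProj_end`.  The elements `w₁`, `w₂` commute with `δ u`: move `δ u` through the frame of `L`
(`slideB_right`, `slideB_left`), use the symmetry of `s`, and `frflip2_inv` for
`β x y = s y • x` or `s x • y`.  The product frame for `l.range` is the image of `relF`
(`relFr_of`). -/
theorem FlipR.finrank [CharZero K] [IsAlgClosed K] {p : ℕ} (hp : p.Prime)
    (hpV : (p : K) ∈ V.nonunits) {δ : Γ →* A} {O : Subring A} {s sL : A →ₗ[K] K} {ι κ μ : Type}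
    [Fintype ι] [Fintype κ] [Fintype μ] {F F' : ι → A} {L : Subalgebra K A} {f f' : κ → A}
    {r α : A →ₗ[K] A} (h : FlipR V δ O s F F' L sL f f' r α) (δL : Γ →* L)
    (hδL : ∀ u, (δL u : A) = δ u) (hG : GoodR V p (O.comap L.val.toRingHom) (Set.range δL))
    {x y : μ → A} (hx : ∀ i, x i ∈ O) (hy : ∀ i, y i ∈ O)
    (hsep : ∀ (N : Type) [AddCommGroup N] [Module K N] (β : A → A → N), IsBilin K β →
      (∀ b ∈ L, ∀ x y, β (x * b) y = β x (b * y)) →
      ∀ a, ∑ i, β (a * x i) (y i) = ∑ i, β (x i) (y i * a))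
    (h1 : ∑ i, x i * y i = 1) (hz : ∃ w, w * trF F F' 1 = 1) (hnd : RelNd V δ O ⊤ F F') :
    Module.finrank K (Subalgebra.center K A) = Module.finrank K (Subalgebra.center K L) := by
  obtain ⟨hG', hfin⟩ := h.morita δL hδL hG
  obtain ⟨β, hβO, hβ⟩ := h.hig_end
  have lO : ∀ a ∈ O, lam L a ∈ endO L O := fun a ha b hb => O.mul_mem ha hb
  obtain ⟨ρ, hρ⟩ : ∃ ρ : endR L →ₗ[K] endR L, ∀ χ, ρ χ = lam L (∑ i, χ.1 (x i) * y i) :=
    ⟨(lam L).toLinearMap ∘ₗ ∑ i, LinearMap.mulRight K (y i) ∘ₗ LinearMap.applyₗ (x i) ∘ₗ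
      (endR L).val.toLinearMap, fun χ => by simp⟩
  have r1 : ∀ a b χ, ρ (lam L a * χ * lam L b) = lam L a * ρ χ * lam L b := fun a b χ => by
    have e1 := hsep A (fun u v => χ.1 u * v)
      (by constructor <;> intros <;> simp [add_mul, mul_add])
      (fun c hc u v => by rw [χ.2 c hc, mul_assoc]) b
    rw [hρ, hρ, ← map_mul, ← map_mul, mul_assoc a, Finset.sum_mul]
    simp only [mul_assoc _ _ b]
    rw [← e1, Finset.mul_sum]
    exact congrArg _ (Finset.sum_congr rfl fun i _ => mul_assoc _ _ _)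
  have r2 : ρ 1 = 1 := by
    have e1 : ∑ i, (1 : endR L).1 (x i) * y i = 1 := h1
    rw [hρ, e1, map_one]
  rw [← hfin]
  refine (rlflip4_core hp hpV h hx hy hsep h1 hz hnd (E := endR L) hG' h.lProj_end (lam L)
    (lamG_apply L δ) (LinearMap.applyₗ (1 : A) ∘ₗ (endR L).val.toLinearMap) β ρ
    (fun a => mul_one a) lO (fun χ hχ => hχ 1 O.one_mem) hβO hβ (fun χ hχ => ?_)
    (fun χ => ⟨_, (hρ χ).symm⟩) r1 r2).symm
  exact (hρ χ).symm ▸ lO _ (O.sum_mem fun i _ => O.mul_mem (hχ _ (hx i)) (hy i))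

end Pool.Agent.Lib.MP_b6945b_al.St
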