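import Pool.Agent.Lib.MP_b6945b_al.Rl.GDefs
import Pool.Agent.Lib.MP_b6945b_al.St.FrCenter

set_option autoImplicit false

/-!
The centre of a twisted group algebra whose cocycle is symmetric on commuting pairs.
-/

namespace Pool.Agent.Lib.MP_b6945b_al.St

open MonoidAlgebra (single)

variable {K : Type} [Field K]

lemma rlgcentre_repr {H A : Type} [Group H] [Fintype H] [Ring A] [Algebra K A]
    (b : Module.Basis H K A) (α : H → H → K) (hb : ∀ g h, b g * b h = α g h • b (g * h))
    (x : A) (m l : H) : b.repr (b m * x) (m * l) = b.repr x l * α m l ∧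
      b.repr (x * b m) (l * m) = b.repr x l * α l m := by
  classical
  constructor
  · conv_lhs => rw [← b.sum_repr x, Finset.mul_sum]
    simp [hb, smul_smul, Finsupp.single_apply]
  · conv_lhs => rw [← b.sum_repr x, Finset.sum_mul]
    simp [hb, smul_smul, Finsupp.single_apply]

lemma rlgcentre_omega {H A : Type} [Group H] [Ring A] [Algebra K A]
    (b : Module.Basis H K A) (α : H → H → K) (hb : ∀ g h, b g * b h = α g h • b (g * h))
    (h0 : ∀ g h, α g h ≠ 0) (hs : ∀ g h, g * h = h * g → α g h = α h g) :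
    ∃ ω : H → K, (∀ l, ω l ≠ 0) ∧ ∀ m l, ω (m * l * m⁻¹) * α (m * l * m⁻¹) m = ω l * α m l := by
  have hco : ∀ l m n, α l m * α (l * m) n = α m n * α l (m * n) := fun l m n => by
    have h1 := mul_assoc (b l) (b m) (b n)
    rw [hb, hb, smul_mul_assoc, mul_smul_comm, hb, hb, smul_smul, smul_smul, mul_assoc l] at h1
    exact smul_left_injective K (b.ne_zero _) h1
  have h1 : ∀ m m' l, α (m * m') l / α (m * m' * l * (m * m')⁻¹) (m * m') =
      α m (m' * l * m'⁻¹) / α (m * (m' * l * m'⁻¹) * m⁻¹) m *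
        (α m' l / α (m' * l * m'⁻¹) m') := by
    intro m m' l
    have e0 : m * m' * l * (m * m')⁻¹ = m * (m' * l * m'⁻¹) * m⁻¹ := by group
    have e1 := hco m m' l
    have e2 := hco m (m' * l * m'⁻¹) m'
    have e3 := hco (m * (m' * l * m'⁻¹) * m⁻¹) m m'
    rw [inv_mul_cancel_right] at e2 e3
    rw [e0, div_mul_div_comm, div_eq_div_iff (h0 _ _) (mul_ne_zero (h0 _ _) (h0 _ _))]
    apply mul_left_cancel₀ (h0 m m')
    linear_combination
      (α (m * (m' * l * m'⁻¹) * m⁻¹) m * α (m' * l * m'⁻¹) m') * e1 -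
        (α (m * (m' * l * m'⁻¹) * m⁻¹) m * α m' l) * e2 +
        (α m (m' * l * m'⁻¹) * α m' l) * e3
  have h2 : ∀ m l, m * l = l * m → α m l / α (m * l * m⁻¹) m = 1 := by
    intro m l hml
    rw [hml, mul_inv_cancel_right, hs _ _ hml, div_self (h0 _ _)]
  obtain ⟨ω, hω, e⟩ := exists_rescale (fun m l => α m l / α (m * l * m⁻¹) m)
    (fun m l => div_ne_zero (h0 _ _) (h0 _ _)) h1 h2
  refine ⟨ω, hω, fun m l => ?_⟩
  rw [e, mul_right_comm, div_mul_cancel₀ _ (h0 _ _), mul_comm]

/-- `b g * b h = γ g h • (b (g * h * g⁻¹) * b g)` with `γ g h = α g h / α (g * h * g⁻¹) g`, a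
cocycle of the conjugation action (compare `CrossData.exists_omega`); `exists_rescale` gives `ω`,
and `∑ (t h * ω h) • b h` is central iff `t` is constant on conjugacy classes. -/
theorem twisted_finrank {H A : Type} [Group H] [Fintype H] [Ring A] [Algebra K A]
    (b : Module.Basis H K A) (α : H → H → K) (hb : ∀ g h, b g * b h = α g h • b (g * h))
    (h0 : ∀ g h, α g h ≠ 0) (hs : ∀ g h, g * h = h * g → α g h = α h g) :
    Module.finrank K (Subalgebra.center K A) = Nat.card (ConjClasses H) := by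
  classical
  obtain ⟨ω, hω0, hω⟩ := rlgcentre_omega b α hb h0 hs
  have hr := rlgcentre_repr b α hb
  have key : ∀ x, x ∈ Subalgebra.center K A ↔
      ∀ m l, b.repr x (m * l * m⁻¹) / ω (m * l * m⁻¹) = b.repr x l / ω l := by
    intro x
    have h1 : ∀ m l, b.repr (b m * x) (m * l) = b.repr (x * b m) (m * l) ↔
        b.repr x (m * l * m⁻¹) / ω (m * l * m⁻¹) = b.repr x l / ω l := by
      intro m l
      have h2 := (hr x m (m * l * m⁻¹)).2
      rw [inv_mul_cancel_right] at h2
      rw [(hr x m l).1, h2, div_eq_div_iff (hω0 _) (hω0 _)]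
      constructor
      · intro h
        apply mul_right_cancel₀ (h0 (m * l * m⁻¹) m)
        linear_combination (-ω l) * h - b.repr x l * hω m l
      · intro h
        apply mul_right_cancel₀ (hω0 l)
        linear_combination (-α (m * l * m⁻¹) m) * h - b.repr x l * hω m l
    rw [Subalgebra.mem_center_iff]
    constructor
    · intro h m l
      rw [← h1, h]
    · intro h y
      have h3 : ∀ m, b m * x = x * b m := fun m => b.ext_elem fun g => by
        have := (h1 m (m⁻¹ * g)).2 (h _ _)
        rwa [mul_inv_cancel_left] at this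
      rw [← b.sum_repr y, Finset.sum_mul, Finset.mul_sum]
      exact Finset.sum_congr rfl fun m _ => by rw [smul_mul_assoc, mul_smul_comm, h3]
  let F : (ConjClasses H → K) →ₗ[K] A := b.equivFun.symm.toLinearMap ∘ₗ
    LinearMap.pi fun h => ω h • LinearMap.proj (ConjClasses.mk h)
  have hF : ∀ t h, b.repr (F t) h = ω h * t (ConjClasses.mk h) := fun t h => by
    simp [F, Finsupp.single_apply]
  have hmem : ∀ t, F t ∈ (Subalgebra.center K A).toSubmodule := fun t => (key _).2 fun m l => by
    rw [hF, hF, mul_div_cancel_left₀ _ (hω0 _), mul_div_cancel_left₀ _ (hω0 _),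
      ConjClasses.mk_eq_mk_iff_isConj.2 (isConj_iff.2 ⟨m, rfl⟩).symm]
  let _ := Fintype.ofFinite (ConjClasses H)
  rw [← Subalgebra.finrank_toSubmodule, Nat.card_eq_fintype_card,
    ← Module.finrank_fintype_fun_eq_card K]
  refine (LinearEquiv.ofBijective (LinearMap.codRestrict _ F hmem) ⟨?_, ?_⟩).finrank_eq.symm
  · rw [injective_iff_map_eq_zero]
    intro t ht
    funext c
    obtain ⟨h, rfl⟩ := ConjClasses.mk_surjective c
    have h1 := hF t h
    rw [show F t = 0 from congrArg Subtype.val ht, map_zero, Finsupp.zero_apply] at h1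
    exact (mul_eq_zero.1 h1.symm).resolve_left (hω0 h)
  · rintro ⟨z, hz⟩
    choose r hr' using fun x : ConjClasses H => ConjClasses.mk_surjective x
    refine ⟨fun c => b.repr z (r c) / ω (r c), Subtype.ext (b.ext_elem fun h => ?_)⟩
    obtain ⟨m, hm⟩ := isConj_iff.1 (ConjClasses.mk_eq_mk_iff_isConj.1 (hr' (ConjClasses.mk h)))
    change b.repr (F _) h = b.repr z h
    rw [hF, ← (key z).1 hz m, hm, mul_div_cancel₀ _ (hω0 h)]

variable {D E A : Type} [CommGroup D] [Fintype D] [Group E] [Fintype E] [Ring A] [Algebra K A]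
  {δ : D →* A} {φ : E →* MulAut D} {w w' : E → A} {a : E → E → K}

omit [Fintype D] [Fintype E] in
lemma rlgcentre_pow (h : CUnits δ φ w w' a) (g : E) (i : ℕ) :
    ∃ κ : K, w (g ^ i) = κ • w g ^ i := by
  induction i with
  | zero => exact ⟨1, by rw [pow_zero, pow_zero, h.one, one_smul]⟩
  | succ i ih =>
    obtain ⟨κ, e⟩ := ih
    refine ⟨(a (g ^ i) g)⁻¹ * κ, ?_⟩
    rw [mul_smul, pow_succ (w g), ← smul_mul_assoc κ, ← e, h.mul, smul_smul,
      inv_mul_cancel₀ (h.unit _ _).ne_zero, one_smul, pow_succ]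

/-- The elements `cfr δ w (h.right, h.left)` form a basis of `L` (`frfin_span`, `hinj`) that is
multiplied by `CUnits.cfr_mul`.  `w (g ^ n)` is a nonzero multiple of `w g ^ n`, so `w l` and `w m`
commute if `l` and `m` do. -/
theorem CUnits.finrank_centre (h : CUnits δ φ w w' a)
    (hc : ∀ l m : E, l * m = m * l → ∃ (g : E) (i k : ℕ), l = g ^ (i + 1) ∧ m = g ^ (k + 1))
    {L : Subalgebra K A}
    (hL : ∀ x, x ∈ L ↔ ∃ c : E → MonoidAlgebra K D, x = ∑ l, hatI K δ (c l) * w l)
    (hinj : ∀ c c' : E → MonoidAlgebra K D,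
      ∑ l, hatI K δ (c l) * w l = ∑ l, hatI K δ (c' l) * w l → c = c') :
    Module.finrank K (Subalgebra.center K L) =
      Nat.card (ConjClasses (SemidirectProduct D E φ)) := by
  classical
  let _ : Fintype (SemidirectProduct D E φ) :=
    Fintype.ofEquiv (D × E) SemidirectProduct.equivProd.symm
  have hm : ∀ i, cfr δ w i ∈ L := fun i =>
    (hL _).2 ((frfin_span δ w _).1 (Submodule.subset_span ⟨i, rfl⟩))
  let v : SemidirectProduct D E φ → L := fun g => ⟨cfr δ w (g.right, g.left), hm _⟩
  have hli : LinearIndependent K v := by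
    rw [Fintype.linearIndependent_iff]
    intro t ht g
    have h1 : ∑ l, hatI K δ (∑ u, single u (t ⟨u, l⟩)) * w l = ∑ l, hatI K δ 0 * w l := by
      have h2 := congrArg L.val ht
      rw [map_sum, map_zero, ← Equiv.sum_comp SemidirectProduct.equivProd.symm,
        Fintype.sum_prod_type_right] at h2
      simp only [map_zero, zero_mul, Finset.sum_const_zero, map_sum, hatI_single, Finset.sum_mul,
        smul_mul_assoc]
      exact h2
    have h3 := congrFun (hinj (fun l => ∑ u, single u (t ⟨u, l⟩)) (fun _ => 0) h1) g.right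
    simpa [Finsupp.single_apply] using
      congrArg (fun x : MonoidAlgebra K D => x.coeff g.left) h3
  have hsp : ⊤ ≤ Submodule.span K (Set.range v) := by
    rintro ⟨x, hx⟩ -
    have h1 := (frfin_span δ w x).2 ((hL x).1 hx)
    have h2 : Set.range (cfr δ w) = L.toSubmodule.subtype '' Set.range v := by
      rw [← Set.range_comp]
      ext y
      exact ⟨fun ⟨i, hi⟩ => ⟨⟨i.2, i.1⟩, hi⟩, fun ⟨g, hg⟩ => ⟨_, hg⟩⟩
    rw [h2, ← Submodule.map_span] at h1
    obtain ⟨y, hy, e⟩ := h1
    exact (Subtype.ext e : y = ⟨x, hx⟩) ▸ hy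
  refine twisted_finrank (Module.Basis.mk hli hsp) (fun g g' => a g.right g'.right)
    (fun g g' => ?_) (fun g g' => (h.unit _ _).ne_zero) fun g g' e => ?_
  · simp only [Module.Basis.mk_apply]
    exact Subtype.ext (h.cfr_mul _ _ _ _)
  · have e1 : g.right * g'.right = g'.right * g.right := congrArg SemidirectProduct.right e
    have h1 : w g.right * w g'.right = w g'.right * w g.right := by
      obtain ⟨x, i, k, h1, h2⟩ := hc _ _ e1
      obtain ⟨κ, h3⟩ := rlgcentre_pow h x (i + 1)
      obtain ⟨κ', h4⟩ := rlgcentre_pow h x (k + 1)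
      rw [h1, h2, h3, h4, smul_mul_smul_comm, smul_mul_smul_comm, mul_comm κ, pow_mul_comm]
    have h2 : w (g'.right * g.right) ≠ 0 := fun h0 =>
      hli.ne_zero ⟨1, g'.right * g.right⟩ (Subtype.ext (by
        change δ 1 * w (g'.right * g.right) = 0
        rw [h0, mul_zero]))
    rw [h.mul, h.mul, e1] at h1
    exact smul_left_injective K h2 h1

end Pool.Agent.Lib.MP_b6945b_al.St
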