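import Pool.Agent.Lib.MP_b6945b_al.Rl.GDefs
import Pool.Agent.Lib.MP_b6945b_al.Rl.Bal
import Pool.Agent.Lib.MP_b6945b_al.St.FrCor

set_option autoImplicit false

/-!
The final corner.
-/

namespace Pool.Agent.Lib.MP_b6945b_al.St

open IsLocalRing
open MonoidAlgebra (single)

section ring

variable {R D E A : Type} [CommRing R] [CommGroup D] [Fintype D] [Group E] [Fintype E] [Ring A]
  [Algebra R A] {δ : D →* A}

/-- Swap the frame and write `d⁻¹ = t * u` with `t` in a transversal of `R₀` and `u ∈ R₀`: the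
factors are `w' l * δ t` and `δ t⁻¹ * w l` (`relFr_of`, `Subgroup.groupEquivQuotientProdSubgroup`). -/
lemma relFr_cfr (R₀ : Subgroup D) [Fintype R₀] {w w' : E → A} {s : A →ₗ[R] R}
    {U : Submodule R A} (h : IsFrame s U (cfr δ w) (cfr' δ w')) {S : Subring A}
    (h1 : ∀ u, δ u ∈ S) (h2 : ∀ l, w l ∈ S) (h3 : ∀ l, w' l ∈ S) :
    RelFr (δ.comp R₀.subtype) S s U := by
  classical
  have := Fintype.ofFinite (D ⧸ R₀)
  let g : (E × (D ⧸ R₀)) × R₀ → E × D := fun t => (t.1.1, (t.1.2.out * t.2)⁻¹)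
  have hg : Function.Bijective g := by
    constructor
    · rintro ⟨⟨l, q⟩, u⟩ ⟨⟨l', q'⟩, u'⟩ e
      obtain ⟨e1, e2⟩ := Prod.ext_iff.1 e
      have e3 : q.out * u = q'.out * u' := inv_injective e2
      have e4 : q = q' := by
        have e5 := congrArg (QuotientGroup.mk : D → D ⧸ R₀) e3
        rwa [QuotientGroup.mk_mul_of_mem _ u.2, QuotientGroup.mk_mul_of_mem _ u'.2,
          QuotientGroup.out_eq', QuotientGroup.out_eq'] at e5
      subst e4
      have e6 : l = l' := e1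
      rw [e6, Subtype.ext (mul_left_cancel e3)]
    · rintro ⟨l, d⟩
      obtain ⟨u, hu⟩ := QuotientGroup.mk_out_eq_mul R₀ d⁻¹
      refine ⟨((l, QuotientGroup.mk d⁻¹), u⁻¹), Prod.ext rfl ?_⟩
      change ((QuotientGroup.mk d⁻¹ : D ⧸ R₀).out * ((u⁻¹ : R₀) : D))⁻¹ = d
      rw [hu, Subgroup.coe_inv, mul_inv_cancel_right, inv_inv]
  have e1 : ∀ t, pf (δ.comp R₀.subtype) (fun i : E × (D ⧸ R₀) => w' i.1 * δ i.2.out) t =
      cfr' δ w' (g t) := fun t => by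
    simp only [pf, cfr', g, inv_inv, map_mul, mul_assoc, MonoidHom.comp_apply,
      Subgroup.coe_subtype]
  have e2 : ∀ t, pf' (δ.comp R₀.subtype) (fun i : E × (D ⧸ R₀) => δ i.2.out⁻¹ * w i.1) t =
      cfr δ w (g t) := fun t => by
    simp only [pf', cfr, g, mul_inv_rev, map_mul, mul_assoc, MonoidHom.comp_apply,
      Subgroup.coe_subtype, Subgroup.coe_inv]
  refine relFr_of (x := fun i : E × (D ⧸ R₀) => w' i.1 * δ i.2.out)
    (x' := fun i : E × (D ⧸ R₀) => δ i.2.out⁻¹ * w i.1) (fun i => S.mul_mem (h3 _) (h1 _))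
    (fun i => S.mul_mem (h1 _) (h2 _)) ⟨fun t => ?_, fun t => ?_, h.symm, fun y hy => ?_⟩
  · rw [e1]
    exact h.mem' _
  · rw [e2]
    exact h.mem _
  · simp only [e1, e2]
    rw [← h.swap.repro y hy]
    conv_lhs => rw [h.swap.repro y hy]
    exact hg.sum_comp fun i => s (y * cfr δ w i) • cfr' δ w' i

omit [Fintype E] in
/-- Restrict to `R₀.prod ⊥` (`rk1span_res`, `rk1span_le_trSpan`): all stabilisers are trivial, so
the identity is `rtr ⊥ (R₀.prod ⊥) π`, and `rtr_eq_sum` expands this trace. -/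
lemma lProj_of_pl (R₀ : Subgroup D) [Fintype R₀] {φ : E →* MulAut D}
    (h : LinearMap.id ∈ rk1span (biI R δ) (PT φ) ⊤) :
    ∃ π : A →ₗ[R] A, ∀ y, ∑ u : R₀, δ u * π (δ (u : D)⁻¹ * y) = y := by
  have h1 := rk1span_le_trSpan (rk1span_res (T := R₀.prod ⊥) le_top h)
  have key : trSpan ((biI R δ).linHom (biI R δ)) (fun S' => ∃ S, PT φ S ∧ S' = R₀.prod ⊥ ⊓ S)
      (R₀.prod ⊥) ≤ LinearMap.range (rtr ((biI R δ).linHom (biI R δ)) ⊥ (R₀.prod ⊥)) := by
    refine Submodule.span_le.2 ?_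
    rintro _ ⟨_, m, ⟨_, ⟨l, S', rfl⟩, rfl⟩, -, -, rfl⟩
    have e : R₀.prod ⊥ ⊓ dg (φ l) S' = ⊥ := by
      refine eq_bot_iff.2 fun g hg => ?_
      have e2 : g.2 = 1 := Subgroup.mem_bot.1 (Subgroup.mem_prod.1 hg.1).2
      have e1 := (mem_dg.1 hg.2).2
      rw [e2, map_one] at e1
      exact Subgroup.mem_bot.2 (Prod.ext e1 e2)
    rw [e]
    exact ⟨m, rfl⟩
  obtain ⟨π, hπ⟩ := key h1
  refine ⟨π, fun y => ?_⟩
  rw [rtr_eq_sum bot_le (fun g hg => by
      rw [Subgroup.mem_bot.1 hg, map_one, Module.End.one_apply]) (fun u : R₀ => ((u : D), (1 : D)))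
    (fun u => Subgroup.mem_prod.2 ⟨u.2, Subgroup.one_mem _⟩) (fun g hg => by
      obtain ⟨g1, g2⟩ := Subgroup.mem_prod.1 hg
      have e2 : g.2 = 1 := Subgroup.mem_bot.1 g2
      refine ⟨⟨g.1, g1⟩, Subgroup.mem_bot.2 (Prod.ext (inv_mul_cancel _) ?_), fun u hu => ?_⟩
      · change (1 : D)⁻¹ * g.2 = 1
        rw [e2, inv_mul_cancel]
      · exact Subtype.ext (inv_mul_eq_one.1 (congrArg Prod.fst (Subgroup.mem_bot.1 hu))))] at hπ
  have h2 := LinearMap.congr_fun hπ y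
  rw [LinearMap.sum_apply, LinearMap.id_apply] at h2
  rw [← h2]
  conv_lhs => rw [h2]
  refine Finset.sum_congr rfl fun u _ => ?_
  change _ = δ u * (π (δ (u : D)⁻¹ * (y * δ 1⁻¹⁻¹)) * δ 1⁻¹)
  rw [inv_one, inv_one, map_one, mul_one, mul_one]

end ring

variable {R D E A : Type} [CommRing R] [IsDomain R] [ValuationRing R] [CommGroup D] [Fintype D]
  [Group E] [Ring A] [Algebra R A] [Module.Finite R A] [Module.IsTorsionFree R A] {δ : D →* A}
  {R₀ : Subgroup D} {J ε : A} {p : ℕ} {φ : E →* MulAut D}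

/-- Compare `MinI.ls`.  `nak_induct` with `B = ⊥` and
`P T = range hat ⊔ (bouc_fix ρ (T ⊓ R₀)).map (rtr ρ (T ⊓ R₀) T)`.  For `T ≤ R₀` use `rtr_self`,
otherwise `frcor_lg`.  In the second hypothesis
`rtr (T' ⊓ R₀) T m = rtr (T ⊓ R₀) T (rtr (T' ⊓ R₀) (T ⊓ R₀) m)` by `rtr_trans`. -/
theorem MinI.lsR (hs : Std p R D) (h : MinI R δ J ε) (hlg : ∀ S, ¬ S ≤ R₀ → LG R δ J S)
    (S : Subgroup D) (z : h.idem.Corner) (hz : FixedBy (cjI R h.cor) S z) :
    ∃ c m, FixedBy (cjI R h.cor) (S ⊓ R₀) m ∧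
      z = hatI R h.cor c + rtr (cjI R h.cor) (S ⊓ R₀) S m := by
  have key := nak_induct (ρ := cjI R h.cor) ⊥
    (fun T => LinearMap.range (hatI R h.cor).toLinearMap ⊔
      (bouc_fix (cjI R h.cor) (T ⊓ R₀)).map (rtr (cjI R h.cor) (T ⊓ R₀) T)) ?_ ?_ bot_le hz
  · obtain ⟨_, ⟨c, rfl⟩, _, ⟨m, hm, rfl⟩, e⟩ := Submodule.mem_sup.1 key
    exact ⟨c, m, hm, e.symm⟩
  · intro T _ a ha
    by_cases hT : T ≤ R₀
    · refine Submodule.mem_sup_left (Submodule.mem_sup_right ?_)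
      rw [inf_eq_left.2 hT]
      exact ⟨a, ha, rtr_self ha⟩
    · obtain ⟨c, hc'⟩ := frcor_lg hs h (hlg T hT) ha
      have h1 := brK_le_of_triv hs.prime hs.pR (hs.pD.to_subgroup T) bot_le (fun m g hg => by
        rw [Subgroup.mem_bot.1 hg, map_one, Module.End.one_apply]) hc'
      have e : a = hatI R h.cor c + (a - hatI R h.cor c) := by abel
      rw [e]
      exact Submodule.add_mem_sup (Submodule.mem_sup_left ⟨c, rfl⟩) h1
  · intro T' T _ hlt a ha _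
    obtain ⟨_, ⟨c, rfl⟩, _, ⟨m, hm, rfl⟩, rfl⟩ := Submodule.mem_sup.1 ha
    have hle : T' ⊓ R₀ ≤ T ⊓ R₀ := inf_le_inf_right _ hlt.le
    refine Submodule.mem_sup_left ?_
    rw [map_add, rtr_trans inf_le_left hlt.le hm, ← rtr_trans hle inf_le_left hm]
    refine Submodule.add_mem_sup ?_ ⟨_, rtr_fixed hle hm, rfl⟩
    rw [AlgHom.toLinearMap_apply, rtr_of_fixed hlt.le (hatI_fixed c T)]
    exact Submodule.smul_of_tower_mem _ _ ⟨c, rfl⟩

theorem MinI.corR (hs : Std p R D) (h : MinI R δ J ε) (hlg : ∀ S, ¬ S ≤ R₀ → LG R δ J S)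
    (hsp : SP R δ J) (hpl : PL R δ J (PT φ)) : CorR R h.cor φ R₀ := by
  refine ⟨fun z hz => ?_, fun z hz => ?_, ?_, h.lsR hs hlg, h.pl hs hpl, h.sep hs hsp⟩
  · obtain ⟨c, hc'⟩ := h.loc _ (frcor_fixed_val h hz)
    refine ⟨c, (nilR_corner h.idem).2 ?_⟩
    rw [corner_left, corner_right] at hc'
    exact hc'
  · have h1 := h.nt _ (brK_map h.cval_equiv.1 hz)
    rw [cval_apply, corner_left, corner_right] at h1
    exact (nilR_corner h.idem).2 h1
  · intro h1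
    exact h.ne ((inMax_corner h.idem).1 h1)

end Pool.Agent.Lib.MP_b6945b_al.St
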