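import Pool.Agent.Lib.MP_b6945b_al.St.FrFin

set_option autoImplicit false

/-!
Blocks whose inertial quotient acts freely outside an invariant subgroup: definitions.
-/

namespace Pool.Agent.Lib.MP_b6945b_al.St

open IsLocalRing
open MonoidAlgebra (single)

section group

variable {D E : Type} [CommGroup D] [Group E]

/-- The invariant subgroup `R₀` contains the fixed points of all nontrivial elements of `E` and
omits an element of order `p`. -/
structure RFree (p : ℕ) (φ : E →* MulAut D) (R₀ : Subgroup D) : Prop where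
  inv : ∀ l, ∀ u ∈ R₀, φ l u ∈ R₀
  fix : ∀ l u, φ l u = u → l = 1 ∨ u ∈ R₀
  ex : ∃ w, w ^ p = 1 ∧ w ∉ R₀
  cyc : ∀ l m : E, l * m = m * l → ∃ (g : E) (i k : ℕ), l = g ^ (i + 1) ∧ m = g ^ (k + 1)

variable {p : ℕ} {φ : E →* MulAut D} {R₀ : Subgroup D}

lemma RFree.ne_top (h : RFree p φ R₀) : R₀ ≠ ⊤ := by
  obtain ⟨w, -, hw⟩ := h.ex
  rintro rfl
  exact hw trivial

lemma RFree.faith (h : RFree p φ R₀) {l : E} (hl : ∀ u, φ l u = u) : l = 1 := by
  obtain ⟨w, -, hw⟩ := h.ex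
  exact (h.fix l w (hl w)).resolve_right hw

lemma RFree.mem_iff (h : RFree p φ R₀) (l : E) (u : D) : φ l u ∈ R₀ ↔ u ∈ R₀ := by
  refine ⟨fun h1 => ?_, h.inv l u⟩
  have h2 := h.inv l⁻¹ _ h1
  rwa [map_inv, MulAut.inv_apply_self] at h2

lemma RFree.map_le_iff (h : RFree p φ R₀) (l : E) (Q : Subgroup D) :
    Q.map (φ l).toMonoidHom ≤ R₀ ↔ Q ≤ R₀ := by
  rw [Subgroup.map_le_iff_le_comap]
  exact forall₂_congr fun u _ => h.mem_iff l u

/-- The stabilisers that occur at level `Q`. -/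
def PR (φ : E →* MulAut D) (R₀ Q : Subgroup D) (S : Subgroup (D × D)) : Prop :=
  ∃ l S', Q ≤ S' ∧ (¬ Q ≤ R₀ → l = 1) ∧ S = dg (φ l) S'

/-- Twisted diagonal subgroups. -/
def PT (φ : E →* MulAut D) (S : Subgroup (D × D)) : Prop := ∃ l S', S = dg (φ l) S'

end group

section ring

variable {R D E A : Type} [CommRing R] [IsLocalRing R] [CommGroup D] [Fintype D] [Group E]
  [Ring A] [Algebra R A]

variable (R) in
/-- The data available on the final corner. -/
structure CorR (δ : D →* A) (φ : E →* MulAut D) (R₀ : Subgroup D) : Prop where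
  loc : ∀ z, FixedBy (cjI R δ) ⊤ z → ∃ c : R, NilR R (z - c • 1)
  nt : ∀ z ∈ trM R δ ⊤, NilR R z
  ne : ¬ InMax R (1 : A)
  ls : ∀ S z, FixedBy (cjI R δ) S z → ∃ c m, FixedBy (cjI R δ) (S ⊓ R₀) m ∧
    z = hatI R δ c + rtr (cjI R δ) (S ⊓ R₀) S m
  pl : LinearMap.id ∈ rk1span (biI R δ) (PT φ) ⊤
  sep : ∃ (ι : Type) (_ : Fintype ι) (x y : ι → A), SepI R δ x y ∧ ∑ i, x i * y i = 1

variable [Fintype E]

/-- `A` is the crossed product `L` up to a bimodule that is projective relative to `R₀ × R₀`. -/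
structure FinR (δ : D →* A) (φ : E →* MulAut D) (R₀ : Subgroup D) (w w' : E → A) (a : E → E → R)
    (L : Subalgebra R A) (r α : A →ₗ[R] A) : Prop where
  cu : CUnits δ φ w w' a
  mem : ∀ x, x ∈ L ↔ ∃ c : E → MonoidAlgebra R D, x = ∑ l, hatI R δ (c l) * w l
  pure : ∀ c : E → MonoidAlgebra R D, InMax R (∑ l, hatI R δ (c l) * w l) → ∀ l, InMax R (c l)
  r_mem : ∀ y, r y ∈ L
  r_mul : ∀ b ∈ L, ∀ b' ∈ L, ∀ y, r (b * y * b') = b * r y * b'
  r_one : r 1 = 1
  eqv : ∀ u ∈ R₀, ∀ v ∈ R₀, ∀ y, α (δ u * y * δ v) = δ u * α y * δ v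
  hig : ∀ y, Nat.card R₀ ^ 2 • r y + trB (cfr δ w) (cfr' δ w') α y = Nat.card R₀ ^ 2 • y

end ring

section block

variable {R D G E : Type} [CommRing R] [IsLocalRing R] [CommGroup D] [Fintype D] [Group G]
  [Fintype G] [Group E] [Fintype E]

/-- A block with abelian defect group `D`, inertial quotient `E` acting freely outside `R₀`, and
source data for the Brauer correspondent. -/
structure RSet (p : ℕ) (ι : D →* G) (φ : E →* MulAut D) (R₀ : Subgroup D)
    (e j : MonoidAlgebra R G) (U U' : E → MonoidAlgebra R G) : Prop where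
  std : Std p R D
  inj : Function.Injective ι
  free : RFree p φ R₀
  cardE : ¬ p ∣ Fintype.card E
  blk : BlockE p (Nat.card D) e
  idem : j * j = j
  supp : SuppCent (Set.range ι) j
  ne : j ≠ 0
  br : InMax R (brT R (Set.range ι) (e * j - j))
  span : ∀ b, SuppCent (Set.range ι) b → ∃ c, j * b * j = inc R ι c * j
  cut : ∀ l, j * U l * j = U l
  cut' : ∀ l, j * U' l * j = U' l
  inv : ∀ l, U l * U' l = j
  inv' : ∀ l, U' l * U l = j
  deg : ∀ l g, (U l).coeff g ≠ 0 → ∀ u, g * ι u = ι (φ l u) * g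
  deg' : ∀ l g, (U' l).coeff g ≠ 0 → ∀ u, g * ι (φ l u) = ι u * g
  fus : ∀ g : G, (∀ u, ∃ v, g * ι u = ι v * g) → ∀ b, SuppCent (Set.range ι) b →
    ¬ InMax R (j * b * single g 1 * j) → ∃ l, ∀ u, g * ι u = ι (φ l u) * g

/-- The inertial quotient of `e` acts freely on a nontrivial invariant subgroup of `D`. -/
def RelB (e : MonoidAlgebra R G) (D : Subgroup G) : Prop :=
  ∀ j : MonoidAlgebra R G, j * j = j → j ≠ 0 → SuppCent (D : Set G) j →
    InMax R (brT R (D : Set G) (e * j - j)) →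
    ∃ T : Subgroup G, T ≤ D ∧ T ≠ ⊥ ∧ ∀ n ∈ Subgroup.normalizer (D : Set G),
      (∀ z, SuppCent (D : Set G) z → FixedBy (cjRep R G) (Subgroup.centralizer (D : Set G)) z →
        NilR R ((z - cjRep R G n z) * j)) →
      ∀ u ∈ T, n * u * n⁻¹ ∈ T ∧ (n * u = u * n → u = 1 ∨ ∀ d ∈ D, n * d = d * n)

end block

end Pool.Agent.Lib.MP_b6945b_al.St
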