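import Pool.Agent.Lib.MP_b6945b_al.Rl.GDefs

set_option autoImplicit false

/-!
Splitting off the crossed product from the final corner.
-/

namespace Pool.Agent.Lib.MP_b6945b_al.St

open IsLocalRing
open MonoidAlgebra (single)

variable {R D E A : Type} [CommRing R] [CommGroup D] [Fintype D] [Group E] [Fintype E] [Ring A]
  [Algebra R A] {δ : D →* A} {φ : E →* MulAut D} {R₀ : Subgroup D} {w w' : E → A}
  {a : E → E → R} {p : ℕ}

variable (R) in
/-- The trace of a map from `R₀ × R₀` to `D × D`. -/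
noncomputable def trRel (δ : D →* A) (R₀ : Subgroup D) (t : A →ₗ[R] A) : A →ₗ[R] A :=
  rtr ((biI R δ).linHom (biI R δ)) (R₀.prod R₀) ⊤ t

/-- `t` commutes with multiplication by elements of `R₀` on both sides. -/
def EqvR (δ : D →* A) (R₀ : Subgroup D) (t : A → A) : Prop :=
  ∀ u ∈ R₀, ∀ v ∈ R₀, ∀ y, t (δ u * y * δ v) = δ u * t y * δ v

omit [Fintype D] in
lemma rlgfin1_eqv {t : A →ₗ[R] A} :
    EqvR δ R₀ t ↔ EquivOn (biI R δ) (biI R δ) (R₀.prod R₀) t := by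
  refine ⟨fun h g hg m => ?_, fun h u hu v hv y => ?_⟩
  · rw [biI_apply, biI_apply, ← mul_assoc, h _ hg.1 _ (R₀.inv_mem hg.2), mul_assoc]
  · have := h (u, v⁻¹) ⟨hu, R₀.inv_mem hv⟩ y
    rwa [biI_apply, biI_apply, inv_inv, ← mul_assoc, ← mul_assoc] at this

/-- `rtr_trans` from `⊥`, `rtr_of_fixed`, `rtr_bot_top`. -/
lemma smul_trRel {t : A →ₗ[R] A} (ht : EqvR δ R₀ t) (x : A) :
    Nat.card R₀ ^ 2 • trRel R δ R₀ t x = ∑ u, ∑ v, δ u * t (δ u⁻¹ * x * δ v) * δ v⁻¹ := by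
  have h1 := rtr_trans (ρ := (biI R δ).linHom (biI R δ)) (T := R₀.prod R₀) bot_le le_top
    (tr_fixedBy_bot _ t)
  rw [rtr_of_fixed bot_le (fixedBy_linHom.2 (rlgfin1_eqv.1 ht)), map_nsmul,
    Subgroup.relIndex_bot_left, Nat.card_congr (Subgroup.prodEquiv R₀ R₀).toEquiv, Nat.card_prod,
    ← pow_two, rtr_bot_top, Fintype.sum_prod_type] at h1
  refine (LinearMap.congr_fun h1 x).trans ?_
  simp only [LinearMap.sum_apply, Representation.linHom_apply, LinearMap.comp_apply, biI_apply,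
    Prod.fst_inv, Prod.snd_inv, inv_inv, mul_assoc]

variable [IsLocalRing R]

/-- Let `π u = (χ u, ψ u)` and `Δ` its range; `x` is fixed by `Δ`.  By `trSpan_res` and
`trSpan_apply` the value `trRel t x` lies in the span of the traces from `Δ ⊓ R₀.prod R₀` to `Δ`.
The map `y ↦ b * y * b'` is equivariant from `(biI R δ).comp π` to `cjI R δ` (`rtr_comp_hom`,
`rtr_map`), and the preimage of `R₀.prod R₀` under `π` is a proper subgroup (`rtr_mem_brK`). -/
lemma trRel_mem (hR : R₀ ≠ ⊤) {t : A →ₗ[R] A} (ht : EqvR δ R₀ t) (χ ψ : MulAut D) {b x b' : A}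
    (hb : ∀ u, b * δ (χ u) = δ u * b) (hx : ∀ u, δ (χ u) * x = x * δ (ψ u))
    (hb' : ∀ u, δ (ψ u) * b' = b' * δ u) : b * trRel R δ R₀ t x * b' ∈ trM R δ ⊤ := by
  let π : D →* D × D := χ.toMonoidHom.prod ψ.toMonoidHom
  let μ : A →ₗ[R] A := LinearMap.mulRight R b' ∘ₗ LinearMap.mulLeft R b
  have hμ : ∀ y, μ y = b * y * b' := fun _ => rfl
  have hπ : ∀ u y, ((biI R δ).comp π) u y = δ (χ u) * (y * δ (ψ u⁻¹)) := fun u y => by
    rw [map_inv ψ]
    rfl
  have he : EquivOn ((biI R δ).comp π) (cjI R δ) ⊤ μ := fun u _ y => by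
    rw [hμ, hμ, hπ, cjI_apply, ← mul_assoc b, hb]
    simp only [mul_assoc, hb']
  have hf : FixedBy (biI R δ) π.range x := by
    rintro _ ⟨u, rfl⟩
    change δ (χ u) * (x * δ (ψ u)⁻¹) = x
    rw [← mul_assoc, hx, mul_assoc, delta_mul_inv, mul_one]
  have h1 := trSpan_apply (trSpan_res (T := π.range) le_top (rtr_mem_trSpan
    (Pr := (· = R₀.prod R₀)) rfl le_top (fixedBy_linHom.2 (rlgfin1_eqv.1 ht)))) hf
  have h2 : (R₀.prod R₀).comap π < ⊤ := lt_top_iff_ne_top.2 fun e => hR (eq_top_iff.2 fun u _ => by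
    have h3 : χ.symm u ∈ (R₀.prod R₀).comap π := e ▸ Subgroup.mem_top _
    have h4 : χ (χ.symm u) ∈ R₀ := h3.1
    rwa [MulEquiv.apply_symm_apply] at h4)
  refine (Submodule.span_le.2 ?_ : _ ≤ (trM R δ ⊤).comap μ) h1
  rintro _ ⟨_, m, ⟨_, rfl, rfl⟩, hS, hm, rfl⟩
  change μ _ ∈ trM R δ ⊤
  rw [← rtr_comp_hom π (S' := (R₀.prod R₀).comap π) (T' := ⊤) hS le_top (fun g _ => ⟨g, rfl⟩)
    (fun g _ => ⟨fun e => e.2, fun e => ⟨⟨g, rfl⟩, e⟩⟩) (by
      rintro _ ⟨g, rfl⟩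
      exact ⟨g, trivial, by rw [inv_mul_cancel]; exact Subgroup.one_mem _⟩) hm, rtr_map he]
  refine rtr_mem_brK h2 fun g hg => ?_
  rw [← he g trivial]
  exact congrArg μ (hm (π g) ⟨⟨g, rfl⟩, hg⟩)

/-- Compare `CorI.split`: `rk1span_split` with `B = R₀.prod R₀`, `S₀ = dg (φ l) (S ⊓ R₀)`.  If `x`
is fixed by `dg (φ l) S` then `w' l * x` commutes with `S`; use `CorR.ls`, and
`y ↦ w l * y` is equivariant from `cjI R δ` to `(biI R δ).comp (u ↦ (φ l u, u))` (`rtr_map`,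
`rtr_comp_hom`, `CUnits.mul_hat`). -/
lemma CorR.split (hR : ∀ l, ∀ u ∈ R₀, φ l u ∈ R₀) (h : CorR R δ φ R₀) (hw : CUnits δ φ w w' a) :
    ∃ (r : E → A →ₗ[R] MonoidAlgebra R D) (t : A →ₗ[R] A),
      (∀ l u x, r l (δ u * x) = single u 1 * r l x) ∧
      (∀ l u x, r l (x * δ u) = r l x * single (φ l u) 1) ∧ EqvR δ R₀ t ∧
      ∀ x, x = ∑ l, hatI R δ (r l x) * w l + trRel R δ R₀ t x := by
  let σ : E → Representation R (D × D) (MonoidAlgebra R D) := fun l =>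
    (biI R (MonoidAlgebra.of R D)).comp ((MonoidHom.id D).prodMap (φ l).toMonoidHom)
  have hσ : ∀ l g c, σ l g c = single g.1 1 * (c * single (φ l g.2)⁻¹ 1) := fun _ _ _ => rfl
  let ι : E → MonoidAlgebra R D →ₗ[R] A := fun l =>
    LinearMap.mulRight R (w l) ∘ₗ (hatI R δ).toLinearMap
  have hι : ∀ l c, ι l c = hatI R δ c * w l := fun _ _ => rfl
  obtain ⟨r, t, hr, ht, hx⟩ := rk1span_split (ρ := biI R δ) (Pr := PT φ) σ ι
    (fun l g _ c => by
      rw [hι, hι, hσ, biI_apply, map_mul, map_mul, hatI_single, hatI_single, one_smul, one_smul,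
        mul_assoc, mul_assoc, mul_assoc, hw.comm, map_inv (φ l)]) (R₀.prod R₀)
    (by
      rintro _ ⟨l, S, rfl⟩ x hx
      rw [fixedBy_biI_dg] at hx
      have hz : FixedBy (cjI R δ) S (w' l * x) := fixedBy_cjI_iff.2 fun u hu => by
        rw [← mul_assoc, hw.comm', mul_assoc, hx u hu, mul_assoc]
      obtain ⟨c, m, hm, e⟩ := h.ls _ _ hz
      have h1 : dg (φ l) (S ⊓ R₀) ≤ dg (φ l) S := Subgroup.map_mono inf_le_left
      have h2 : FixedBy (biI R δ) (dg (φ l) (S ⊓ R₀)) (w l * m) := fixedBy_biI_dg.2 fun u hu => by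
        rw [← mul_assoc, ← hw.comm, mul_assoc, fixedBy_cjI_iff.1 hm u hu, mul_assoc]
      refine ⟨l, inc R (φ l).toMonoidHom c, dg (φ l) (S ⊓ R₀), w l * m, fun g hg => ?_, h1, ?_,
        h2, ?_⟩
      · rw [hσ, (mem_dg.1 hg).2, mul_comm (inc R _ c), ← mul_assoc,
          MonoidAlgebra.single_mul_single, mul_inv_cancel, mul_one, ← MonoidAlgebra.one_def,
          one_mul]
      · rintro _ ⟨u, hu, rfl⟩
        exact ⟨hR l u hu.2, hu.2⟩
      · let π : D →* D × D := (φ l).toMonoidHom.prod (MonoidHom.id D)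
        have he : EquivOn (cjI R δ) ((biI R δ).comp π) S (LinearMap.mulLeft R (w l)) :=
          fun u _ y => by
            change w l * (δ u * (y * δ u⁻¹)) = δ (φ l u) * (w l * y * δ u⁻¹)
            rw [← mul_assoc, hw.comm]
            simp only [mul_assoc]
        have e1 : w l * rtr (cjI R δ) (S ⊓ R₀) S m =
            rtr ((biI R δ).comp π) (S ⊓ R₀) S (w l * m) := rtr_map he m
        rw [hι, ← hw.mul_hat, ← rtr_comp_hom π (S' := S ⊓ R₀) (T' := S) h1 inf_le_left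
          (fun g hg => ⟨g, hg, rfl⟩)
          (fun g _ => ⟨fun e => (mem_dg.1 e).1, fun e => ⟨g, e, rfl⟩⟩) (by
            rintro _ ⟨g, hg, rfl⟩
            exact ⟨g, hg, by rw [inv_mul_cancel]; exact Subgroup.one_mem _⟩) h2, ← e1, ← mul_add,
          ← e, ← mul_assoc, hw.inv, one_mul]) h.pl
  refine ⟨r, t, fun l u x => ?_, fun l u x => ?_, rlgfin1_eqv.2 ht, hx⟩
  · have := hr l (u, 1) trivial x
    rwa [hσ, biI_apply, inv_one, map_one, mul_one, map_one, inv_one, ← MonoidAlgebra.one_def,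
      mul_one] at this
  · have := hr l (1, u⁻¹) trivial x
    rwa [hσ, biI_apply, inv_inv, map_one, one_mul, map_inv, inv_inv, ← MonoidAlgebra.one_def,
      one_mul] at this

end Pool.Agent.Lib.MP_b6945b_al.St
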