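import Pool.Agent.Lib.MP_b6945b_al.Rl.GFin1

set_option autoImplicit false

/-!
The crossed product is a pure sublattice of the final corner.
-/

namespace Pool.Agent.Lib.MP_b6945b_al.St

open IsLocalRing
open MonoidAlgebra (single)

variable {R D E A : Type} [CommRing R] [IsDomain R] [ValuationRing R] [CommGroup D] [Fintype D]
  [Group E] [Fintype E] [Ring A] [Algebra R A] [Module.Finite R A] {δ : D →* A}
  {φ : E →* MulAut D} {R₀ : Subgroup D} {w w' : E → A} {a : E → E → R} {p : ℕ}

omit [Module.Finite R A] in
lemma rlgfin2_nil (hs : Std p R D) (δ : D →* A) {c : MonoidAlgebra R D}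
    (hc : augI R D c ∈ maximalIdeal R) : NilR R (hatI R δ c) := by
  have := (hs.nil_hat δ c).add_inMax (inMax_smul hc (1 : A))
  rwa [sub_add_cancel] at this

lemma rlgfin2_unit {z : A} {k : R} (hz : NilR R (z - k • 1)) (hk : k ∉ maximalIdeal R) :
    IsUnit z := by
  obtain ⟨b, hb⟩ := notMem_maximalIdeal.1 hk
  have h1 := ((hz.smul (↑b⁻¹ : R)).neg).isUnit_one_sub
  rw [smul_sub, smul_smul, ← hb, Units.inv_mul, one_smul, neg_sub, sub_sub_cancel,
    Algebra.smul_def] at h1
  have h2 : z = algebraMap R A ↑b * (algebraMap R A ↑b⁻¹ * z) := by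
    rw [← mul_assoc, ← map_mul, Units.mul_inv, map_one, one_mul]
  rw [h2]
  exact (b.isUnit.map (algebraMap R A)).mul h1

/-- Compare `CorI.pure`.  For `l ≠ m` the element `ρ = r l (w m)` satisfies `single g 1 * ρ = ρ`
for `g = φ m u * (φ l u)⁻¹`, and `g ≠ 1` for some `u` (`RFree.faith`), so `augI ρ ∈ 𝔪`.  In
`1 = ∑ l, hat (r l (w m)) * w l * w' m + trRel t (w m) * w' m` the last term is nilpotent
(`trRel_mem`, `CorR.nt`), and for `l ≠ m` the term `z` is fixed by `D`, so `z - c` is nilpotent
(`CorR.loc`); if `c` were a unit then `z`, so `hat ρ`, would be a unit, but `hat ρ` is nilpotent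
(`Std.nil_hat`).  So `augI (r m (w m))` is a unit.  The matrix `r l (w m)` over the commutative ring
`MonoidAlgebra R D` is diagonal with unit entries after augmentation and reduction, so its
determinant is a unit (`Std.isUnit_of_aug`), and it maps `c` into `𝔪`. -/
lemma CorR.pure (hs : Std p R D) (hR : RFree p φ R₀) (h : CorR R δ φ R₀)
    (hw : CUnits δ φ w w' a) (c : E → MonoidAlgebra R D)
    (hc : InMax R (∑ l, hatI R δ (c l) * w l)) (l : E) : InMax R (c l) := by
  classical
  obtain ⟨r, t, hl, hr, ht, hx⟩ := h.split hR.inv hw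
  have hsl : ∀ l m u, single (φ m u) 1 * r l (w m) = r l (w m) * single (φ l u) 1 :=
    fun l m u => by
      have e := hr l u (w m)
      rwa [hw.comm, hl] at e
  have hau : ∀ l m, l ≠ m → augI R D (r l (w m)) ∈ maximalIdeal R := fun l m hlm => by
    by_contra hn
    refine hlm (inv_mul_eq_one.1 (hR.faith fun u => ?_))
    have e := hsl l m u
    rw [mul_comm (r l (w m)), (hs.isUnit_of_aug hn).mul_left_inj] at e
    have e1 : φ m u = φ l u := by
      by_contra hg
      have := congrArg (fun z : MonoidAlgebra R D => z.coeff (φ l u)) e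
      simp [Finsupp.single_eq_of_ne (Ne.symm hg)] at this
    rw [map_mul, MulAut.mul_apply, e1, ← MulAut.mul_apply, ← map_mul, inv_mul_cancel, map_one,
      MulAut.one_apply]
  obtain ⟨W, hW⟩ := exists_nil_submodule hs.split (fixI R δ ⊤) (one_mul (1 : A)) (one_mem _)
    (fun z hz => by simpa only [one_mul, mul_one] using h.loc z hz)
  simp only [one_mul, mul_one, mem_fixI] at hW
  have hun : ∀ m, augI R D (r m (w m)) ∉ maximalIdeal R := fun m hm => by
    have h1 : (1 : A) ∈ W := by
      rw [← hw.inv m, hx (w m), add_mul, Finset.sum_mul]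
      refine W.add_mem (W.sum_mem fun l _ => ?_) ?_
      · by_cases e : l = m
        · subst e
          rw [mul_assoc, hw.inv, mul_one]
          exact (hW _).2 ⟨hatI_fixed _ _, rlgfin2_nil hs δ hm⟩
        · have a1 : FixedBy (cjI R δ) ⊤ (hatI R δ (r l (w m)) * w l * w' m) := by
            refine fixedBy_cjI_iff.2 fun g _ => ?_
            obtain ⟨g, rfl⟩ := (φ m).surjective g
            have a2 : δ (φ m g) * hatI R δ (r l (w m)) = hatI R δ (r l (w m)) * δ (φ l g) := by
              rw [← one_smul R (δ (φ m g)), ← one_smul R (δ (φ l g)), ← hatI_single, ← hatI_single,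
                ← map_mul, ← map_mul, hsl]
            rw [← mul_assoc, ← mul_assoc, a2, mul_assoc _ (δ _), ← hw.comm, ← mul_assoc,
              mul_assoc _ (δ g), hw.comm', ← mul_assoc]
          refine (hW _).2 ⟨a1, ?_⟩
          obtain ⟨k, hk⟩ := h.loc _ a1
          by_cases hkm : k ∈ maximalIdeal R
          · have := hk.add_inMax (inMax_smul hkm (1 : A))
            rwa [sub_add_cancel] at this
          · exfalso
            have a3 := rlgfin2_unit hk hkm
            have a4 : IsUnit (w m * w' l) :=
              (⟨w m * w' l, w l * w' m,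
                by rw [mul_assoc, ← mul_assoc (w' l), hw.inv', one_mul, hw.inv],
                by rw [mul_assoc, ← mul_assoc (w' m), hw.inv', one_mul, hw.inv]⟩ : Aˣ).isUnit
            have a5 := a3.mul a4
            rw [mul_assoc, ← mul_assoc (w' m), hw.inv', one_mul, mul_assoc, hw.inv, mul_one] at a5
            obtain ⟨n, hn⟩ := rlgfin2_nil hs δ (hau l m e)
            obtain ⟨y, hy⟩ := (a5.pow n).exists_right_inv
            exact h.ne (hy ▸ idem_inMax_mul_right y hn)
      · have := trRel_mem hR.ne_top ht 1 (φ m)⁻¹ (b := 1) (x := w m) (b' := w' m)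
          (fun u => by rw [one_mul, mul_one, MulAut.one_apply])
          (fun u => by rw [hw.comm, MulAut.one_apply, MulAut.apply_inv_self])
          (fun u => by rw [hw.comm', MulAut.apply_inv_self])
        rw [one_mul] at this
        exact (hW _).2 ⟨brK_fixed this, h.nt _ this⟩
    obtain ⟨n, hn⟩ := ((hW _).1 h1).2
    rw [one_pow] at hn
    exact h.ne hn
  let M : Matrix E E (MonoidAlgebra R D) := Matrix.of fun l m => r l (w m)
  have hc' : ∀ l, InMax R (M.mulVec c l) := fun l => by
    have := idem_inMax_map (r l) hc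
    rw [map_sum] at this
    simp only [frfin_hat_left (hl l)] at this
    simpa only [M, Matrix.mulVec, dotProduct, Matrix.of_apply, mul_comm] using this
  have hdet : IsUnit M.det := by
    refine hs.isUnit_of_aug fun hm => ?_
    let f : MonoidAlgebra R D →+* ResidueField R := (residue R).comp (augI R D).toRingHom
    have hf : ∀ x, f x = 0 ↔ augI R D x ∈ maximalIdeal R := fun x => residue_eq_zero_iff _
    have e : f.mapMatrix M = Matrix.diagonal fun l => f (r l (w l)) := by
      ext l m
      by_cases e : l = m
      · subst e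
        rw [Matrix.diagonal_apply_eq]
        rfl
      · rw [Matrix.diagonal_apply_ne _ e]
        exact (hf _).2 (hau l m e)
    have e1 := (hf _).2 hm
    rw [RingHom.map_det, e, Matrix.det_diagonal, Finset.prod_eq_zero_iff] at e1
    obtain ⟨l, -, e2⟩ := e1
    exact hun l ((hf _).1 e2)
  have h3 : InMax R (M.det * c l) := by
    have e : M.adjugate.mulVec (M.mulVec c) l = M.det * c l := by
      rw [Matrix.mulVec_mulVec, Matrix.adjugate_mul, Matrix.smul_mulVec, Matrix.one_mulVec,
        Pi.smul_apply, smul_eq_mul]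
    rw [← e]
    exact Submodule.sum_mem _ fun m _ => idem_inMax_mul_left _ (hc' m)
  obtain ⟨k, hk⟩ := hdet.exists_left_inv
  have := idem_inMax_mul_left k h3
  rwa [← mul_assoc, hk, one_mul] at this

end Pool.Agent.Lib.MP_b6945b_al.St
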