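import Pool.Agent.Lib.MP_b6945b_al.Rl.GFin2

set_option autoImplicit false

/-!
The crossed product inside the final corner.
-/

namespace Pool.Agent.Lib.MP_b6945b_al.St

open IsLocalRing
open MonoidAlgebra (single)

variable {R D E A : Type} [CommRing R] [IsDomain R] [ValuationRing R] [CommGroup D] [Fintype D]
  [Group E] [Fintype E] [Ring A] [Algebra R A] [Module.Finite R A] [Module.IsTorsionFree R A]
  {δ : D →* A} {φ : E →* MulAut D} {R₀ : Subgroup D} {p : ℕ}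

/-- Copy `CorI.exists_cUnits`. -/
lemma CorR.exists_cUnits (hs : Std p R D) (hE : ¬ p ∣ Fintype.card E) (h : CorR R δ φ R₀)
    (hu : ∀ l, ∃ x x' : A, x * x' = 1 ∧ x' * x = 1 ∧ ∀ u, x * δ u = δ (φ l u) * x) :
    ∃ (w w' : E → A) (a : E → E → R), CUnits δ φ w w' a := by
  let Gr : E → Submodule R A := fun l =>
    { carrier := {x | ∀ u, x * δ u = δ (φ l u) * x}
      add_mem' := fun ha hb u => by rw [add_mul, mul_add, ha u, hb u]
      zero_mem' := fun u => by rw [zero_mul, mul_zero]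
      smul_mem' := fun r x hx u => by rw [smul_mul_assoc, mul_smul_comm, hx u] }
  have hGr : ∀ l x, x ∈ Gr l ↔ ∀ u, x * δ u = δ (φ l u) * x := fun _ _ => Iff.rfl
  have h1 : ∀ x, x ∈ Gr 1 ↔ FixedBy (cjI R δ) ⊤ x := fun x => by
    rw [hGr, fixedBy_cjI_iff, map_one]
    exact ⟨fun h u _ => (h u).symm, fun h u => (h u trivial).symm⟩
  have h2 : Gr 1 = bouc_fix (cjI R δ) ⊤ := Submodule.ext h1
  obtain ⟨w, w', a, hw, i1, i2, o, m⟩ := exists_normal_units hs.split
    (bouc_unit hs.prime hs.pR hE) Gr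
    (fun l m x hx y hy u => by
      rw [mul_assoc, hy u, ← mul_assoc, hx, map_mul, MulAut.mul_apply, mul_assoc])
    (fun u => by rw [map_one, one_mul, mul_one]; rfl) (h2 ▸ fix_fg ⊤)
    (fun z hz => h.loc z ((h1 z).1 hz)) h.ne (fun l => by
      obtain ⟨x, x', e1, e2, hx⟩ := hu l
      refine ⟨x, hx, x', fun u => ?_, e1, e2⟩
      have e := hx (φ l⁻¹ u)
      rw [← MulAut.mul_apply, ← map_mul, mul_inv_cancel, map_one, MulAut.one_apply] at e
      calc x' * δ u = x' * (δ u * x) * x' := by rw [mul_assoc, mul_assoc, e1, mul_one]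
        _ = δ (φ l⁻¹ u) * x' := by rw [← e, ← mul_assoc, e2, one_mul])
  refine ⟨w, w', a, o, i1, i2, hw, m, fun l n => ?_⟩
  by_contra hn
  apply h.ne
  have : (1 : A) = w l * w n * (w' n * w' l) := by
    rw [mul_assoc, ← mul_assoc (w n), i1, one_mul, i1]
  rw [this, m, smul_mul_assoc]
  exact inMax_smul ((mem_maximalIdeal _).2 hn) _

/-- Compare `CorI.exists_finD`.  With `t` from `CorR.split`, `k * card E = 1`, `n = Nat.card R₀`
put `T y = (k * k) • ∑ l m, w l * trRel t (w' l * y * w' m) * w m`.  Then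
`n ^ 2 • T y = trB cfr cfr' ((k * k) • t) y` (`smul_trRel`, `CUnits.trB_eq`), so `T` is a bimodule
map over `L` (`CUnits.trB_mul`; cancel `n ^ 2`, the module is torsion free), `y - T y ∈ L`, and
`T 1 ∈ trM R δ ⊤` term by term (`trRel_mem`, `CUnits.comm`, `CUnits.comm'`).  As before
`r = ζ⁻¹ (id - T)` and `α = α₀ - α₀ ∘ r` with `α₀ = (k * k) • t`. -/
theorem CorR.exists_finR [CharZero R] (hs : Std p R D) (hE : ¬ p ∣ Fintype.card E)
    (hR : RFree p φ R₀) (h : CorR R δ φ R₀)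
    (hu : ∀ l, ∃ x x' : A, x * x' = 1 ∧ x' * x = 1 ∧ ∀ u, x * δ u = δ (φ l u) * x) :
    ∃ (w w' : E → A) (a : E → E → R) (L : Subalgebra R A) (r α : A →ₗ[R] A),
      FinR δ φ R₀ w w' a L r α := by
  obtain ⟨w, w', a, hw⟩ := h.exists_cUnits hs hE hu
  obtain ⟨L, hL⟩ := hw.exists_alg
  obtain ⟨m1, m2, m3, m4, m5⟩ := hw.mem hL
  obtain ⟨r, t, -, -, ht, hx⟩ := h.split hR.inv hw
  obtain ⟨k, hk⟩ := (bouc_unit hs.prime hs.pR hE).exists_left_inv
  obtain ⟨T, hT'⟩ : ∃ T : A →ₗ[R] A, ∀ y, T y =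
      (k * k) • ∑ l, ∑ m, w l * trRel R δ R₀ t (w' l * y * w' m) * w m :=
    ⟨(k * k) • ∑ l, ∑ m, LinearMap.mulRight R (w m) ∘ₗ LinearMap.mulLeft R (w l) ∘ₗ
      trRel R δ R₀ t ∘ₗ LinearMap.mulRight R (w' m) ∘ₗ LinearMap.mulLeft R (w' l), fun y => by
        simp only [LinearMap.smul_apply, LinearMap.sum_apply, LinearMap.comp_apply,
          LinearMap.mulLeft_apply, LinearMap.mulRight_apply]⟩
  have hTn : ∀ y, Nat.card R₀ ^ 2 • T y =
      trB (cfr δ w) (cfr' δ w') ((k * k) • t : A →ₗ[R] A) y := fun y => by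
    have e1 : trB (cfr δ w) (cfr' δ w') ((k * k) • t : A →ₗ[R] A) y =
        (k * k) • trB (cfr δ w) (cfr' δ w') t y := by
      simp only [trB, LinearMap.smul_apply, mul_smul_comm, smul_mul_assoc, Finset.smul_sum]
    rw [e1, hw.trB_eq, hT', smul_comm, Finset.smul_sum]
    congr 1
    refine Finset.sum_congr rfl fun l _ => ?_
    rw [Finset.smul_sum]
    refine Finset.sum_congr rfl fun m _ => ?_
    rw [← smul_trRel ht, mul_smul_comm, smul_mul_assoc]
  have hn0 : ((Nat.card R₀ ^ 2 : ℕ) : R) ≠ 0 :=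
    Nat.cast_ne_zero.2 (pow_ne_zero _ Nat.card_pos.ne')
  have hTm : ∀ b ∈ L, ∀ b' ∈ L, ∀ y, T (b * y * b') = b * T y * b' := fun b hb b' hb' y => by
    refine smul_right_injective A hn0 ?_
    change ((Nat.card R₀ ^ 2 : ℕ) : R) • _ = ((Nat.card R₀ ^ 2 : ℕ) : R) • _
    rw [Nat.cast_smul_eq_nsmul, Nat.cast_smul_eq_nsmul, hTn, hw.trB_mul hL _ hb hb' y, ← hTn,
      mul_smul_comm, smul_mul_assoc]
  have h0 : ∀ y, y - T y ∈ L := fun y => by
    have e2 : y = (k * k) • ∑ l : E, ∑ m : E, w l * (w' l * y * w' m) * w m := by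
      have : ∀ l m, w l * (w' l * y * w' m) * w m = y := fun l m => by
        rw [← mul_assoc, ← mul_assoc, hw.inv, one_mul, mul_assoc, hw.inv', mul_one]
      simp only [this, Finset.sum_const, Finset.card_univ, ← Nat.cast_smul_eq_nsmul R, smul_smul]
      rw [mul_mul_mul_comm, hk, one_mul, one_smul]
    rw [hT']
    nth_rw 1 [e2]
    rw [← smul_sub, ← Finset.sum_sub_distrib]
    refine L.smul_mem (L.sum_mem fun l _ => ?_) _
    rw [← Finset.sum_sub_distrib]
    refine L.sum_mem fun m _ => ?_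
    rw [← sub_mul, ← mul_sub]
    refine L.mul_mem (L.mul_mem (m2 l) ?_) (m2 m)
    rw [sub_eq_iff_eq_add.2 (hx (w' l * y * w' m))]
    exact (hL _).2 ⟨_, rfl⟩
  have hn : NilR R (T 1) := by
    refine h.nt _ ?_
    rw [hT']
    refine Submodule.smul_mem _ _ (Submodule.sum_mem _ fun l _ => Submodule.sum_mem _ fun m _ => ?_)
    have e : ∀ u, φ l ((φ l)⁻¹ u) = u := fun u => MulAut.apply_inv_self _ _ _
    refine trRel_mem hR.ne_top ht (φ l)⁻¹ (φ m) (fun u => ?_) (fun u => ?_)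
      fun u => (hw.comm m u).symm
    · rw [hw.comm, e]
    · rw [mul_one, ← mul_assoc, hw.comm', e, mul_assoc, hw.comm', mul_assoc]
  obtain ⟨z, hz, z1, z2⟩ := exists_inv_mem hs.split L (h0 1) hn.isUnit_one_sub
  have hc : ∀ b ∈ L, b * (1 - T 1) = (1 - T 1) * b := fun b hb => by
    have e1 := hTm b hb 1 L.one_mem 1
    have e2 := hTm 1 L.one_mem b hb 1
    simp only [mul_one, one_mul] at e1 e2
    rw [mul_sub, sub_mul, ← e1, ← e2, mul_one, one_mul]
  have hzc : ∀ b ∈ L, z * b = b * z := fun b hb => by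
    calc z * b = z * (b * (1 - T 1)) * z := by rw [mul_assoc, mul_assoc, z2, mul_one]
      _ = b * z := by rw [hc b hb, ← mul_assoc, z1, one_mul]
  set ρ : A →ₗ[R] A := LinearMap.mulLeft R z ∘ₗ (LinearMap.id - T) with hρ
  have hρ' : ∀ y, ρ y = z * (y - T y) := fun _ => rfl
  have hρm : ∀ b ∈ L, ∀ b' ∈ L, ∀ y, ρ (b * y * b') = b * ρ y * b' := fun b hb b' hb' y => by
    rw [hρ', hρ', hTm b hb b' hb', ← sub_mul, ← mul_sub, ← mul_assoc, ← mul_assoc, hzc b hb,
      mul_assoc b z]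
  have hρL : ∀ y, ρ y ∈ L := fun y => L.mul_mem hz (h0 y)
  refine ⟨w, w', a, L, ρ, (k * k) • t - ((k * k) • t) ∘ₗ ρ, hw, hL,
    h.pure hs hR hw, hρL, hρm, by rw [hρ', z1], fun u hu v hv y => ?_, fun y => ?_⟩
  · simp only [LinearMap.sub_apply, LinearMap.comp_apply, LinearMap.smul_apply,
      hρm _ (m1 _) _ (m1 _), ht u hu v hv, mul_sub, sub_mul, mul_smul_comm, smul_mul_assoc]
  have e1 : trB (cfr δ w) (cfr' δ w') ((k * k) • t - ((k * k) • t) ∘ₗ ρ : A →ₗ[R] A) y =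
      Nat.card R₀ ^ 2 • (T y - T (ρ y)) := by
    rw [smul_sub, hTn, hTn]
    simp only [trB, LinearMap.sub_apply, LinearMap.comp_apply, hρm _ (m5 _) _ (m5 _), mul_sub,
      sub_mul, Finset.sum_sub_distrib]
  have e2 := hTm 1 L.one_mem _ (hρL y) 1
  simp only [one_mul] at e2
  have e3 : (1 - T 1) * ρ y = y - T y := by rw [hρ', ← mul_assoc, z2, one_mul]
  rw [e1, ← smul_add, e2, ← add_sub_assoc, add_sub_right_comm, ← one_sub_mul, e3, sub_add_cancel]

end Pool.Agent.Lib.MP_b6945b_al.St
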