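import Pool.Agent.Lib.MP_b6945b_al.Rl.GDefs
import Pool.Agent.Lib.MP_b6945b_al.St.FrCenter

set_option autoImplicit false

/-!
From a free action on a subgroup to a free action on a quotient.
-/

namespace Pool.Agent.Lib.MP_b6945b_al.St

variable {D E : Type} [CommGroup D] [Fintype D] [Group E] [Fintype E] {p : ℕ}
  {φ : E →* MulAut D}

/-- Restrict the action to `T` and apply `exists_pow_of_commute`. -/
lemma cyc_of_free {T : Subgroup D} (hT : T ≠ ⊥) (hinv : ∀ l, ∀ u ∈ T, φ l u ∈ T)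
    (hfree : ∀ l, ∀ u ∈ T, φ l u = u → l = 1 ∨ u = 1) (l m : E) (h : l * m = m * l) :
    ∃ (g : E) (i k : ℕ), l = g ^ (i + 1) ∧ m = g ^ (k + 1) := by
  have : Nontrivial T := (Subgroup.nontrivial_iff_ne_bot T).2 hT
  let ψ : E →* MulAut T := MonoidHom.mk' (fun l =>
    { toFun := fun u => ⟨φ l u, hinv l u u.2⟩
      invFun := fun u => ⟨φ l⁻¹ u, hinv l⁻¹ u u.2⟩
      left_inv := fun u => Subtype.ext (by simp)
      right_inv := fun u => Subtype.ext (by simp)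
      map_mul' := fun u v => Subtype.ext (map_mul (φ l) (u : D) v) })
    fun l m => MulEquiv.ext fun u => Subtype.ext (by simp)
  exact exists_pow_of_commute (φ := ψ) (fun l u hu =>
    (hfree l u u.2 (congrArg Subtype.val hu)).imp_right fun e => Subtype.ext e) h

omit [Fintype D] in
/-- The last power of `c` outside `S`. -/
lemma rlggrp_pow (hD : IsPGroup p D) {S : Subgroup D} {c : D} (hc : c ∉ S) :
    ∃ j : ℕ, c ^ j ∉ S ∧ (c ^ j) ^ p ∈ S := by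
  obtain ⟨k, hk⟩ := hD c
  have h1 : c ^ p ^ k ∈ S := hk ▸ S.one_mem
  clear hk
  induction k with
  | zero => exact absurd (by simpa using h1) hc
  | succ k ih =>
    by_cases h2 : c ^ p ^ k ∈ S
    · exact ih h2
    · exact ⟨p ^ k, h2, by rwa [← pow_mul, ← pow_succ]⟩

/-- A projection of `Ω` to `T` that kills `R`. -/
lemma rlggrp_proj (hp : p.Prime) {R T Ω : Subgroup D} (hR : R ≤ Ω) (hΩ : ∀ x ∈ Ω, x ^ p ∈ R)
    (hd : Disjoint R T) : ∃ π : D → D, (∀ x ∈ Ω, π x ∈ T) ∧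
      (∀ x ∈ Ω, ∀ y ∈ Ω, π (x * y) = π x * π y) ∧ (∀ x ∈ R, π x = 1) ∧
      ∀ x ∈ Ω, x ∈ T → π x = x := by
  obtain ⟨R', ⟨h1, h2, h3⟩, hmax⟩ := (Set.toFinite
    {S : Subgroup D | R ≤ S ∧ S ≤ Ω ∧ Disjoint S T}).exists_maximal ⟨R, le_rfl, hR, hd⟩
  have key : ∀ x ∈ Ω, ∃ t ∈ T, x * t⁻¹ ∈ R' := by
    intro x hx
    by_cases h4 : Disjoint (R' ⊔ Subgroup.zpowers x) T
    · refine ⟨1, T.one_mem, ?_⟩
      rw [inv_one, mul_one]
      exact hmax ⟨h1.trans le_sup_left, sup_le h2 (Subgroup.zpowers_le_of_mem hx), h4⟩ le_sup_left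
        (Subgroup.mem_sup_right (Subgroup.mem_zpowers x))
    rw [Subgroup.disjoint_def] at h4
    push Not at h4
    obtain ⟨t, ht, htT, ht1⟩ := h4
    obtain ⟨r, hr, _, ⟨k, rfl⟩, rfl⟩ := Subgroup.mem_sup.1 ht
    have hxp : x ^ (p : ℤ) ∈ R' := by
      rw [zpow_natCast]
      exact h1 (hΩ x hx)
    have hk : ¬ (p : ℤ) ∣ k := by
      rintro ⟨a, rfl⟩
      refine ht1 (Subgroup.disjoint_def.1 h3 (R'.mul_mem hr ?_) htT)
      dsimp only
      rw [zpow_mul]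
      exact R'.zpow_mem hxp a
    obtain ⟨a, b, hab⟩ := (Nat.prime_iff_prime_int.1 hp).irreducible.coprime_iff_not_dvd.2 hk
    refine ⟨(r * x ^ k) ^ b, T.zpow_mem htT b, ?_⟩
    have e : x * ((r * x ^ k) ^ b)⁻¹ = (x ^ (p : ℤ)) ^ a * (r ^ b)⁻¹ := by
      have e1 : x = (x ^ (p : ℤ)) ^ a * (x ^ k) ^ b := by
        rw [← zpow_mul, ← zpow_mul, ← zpow_add, mul_comm _ a, mul_comm k, hab, zpow_one]
      rw [mul_zpow, mul_inv, mul_comm (r ^ b)⁻¹, ← mul_assoc]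
      congr 1
      exact mul_inv_eq_iff_eq_mul.2 e1
    rw [e]
    exact R'.mul_mem (R'.zpow_mem hxp a) (R'.inv_mem (R'.zpow_mem hr b))
  choose! π k1 k2 using key
  have uniq : ∀ x ∈ Ω, ∀ t ∈ T, x * t⁻¹ ∈ R' → π x = t := by
    intro x hx t ht h4
    have h5 := R'.mul_mem h4 (R'.inv_mem (k2 x hx))
    have e : x * t⁻¹ * (x * (π x)⁻¹)⁻¹ = π x * t⁻¹ := by
      rw [mul_inv, inv_inv, mul_mul_mul_comm, mul_inv_cancel, one_mul, mul_comm]
    rw [e] at h5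
    exact mul_inv_eq_one.1 (Subgroup.disjoint_def.1 h3 h5 (T.mul_mem (k1 x hx) (T.inv_mem ht)))
  refine ⟨π, k1, fun x hx y hy => uniq _ (Ω.mul_mem hx hy) _ (T.mul_mem (k1 x hx) (k1 y hy)) ?_,
    fun x hx => uniq x (hR hx) 1 T.one_mem ?_, fun x hx hx' => uniq x hx x hx' ?_⟩
  · rw [mul_inv, mul_mul_mul_comm]
    exact R'.mul_mem (k2 x hx) (k2 y hy)
  · rw [inv_one, mul_one]
    exact h1 hx
  · rw [mul_inv_cancel]
    exact R'.one_mem

/-- Take `R₀` maximal among the invariant subgroups that meet `T` trivially, and `w ∈ T` of order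
`p`.  Let `l ≠ 1` fix `c ∉ R₀`; replacing `c` by a power we may assume `c ^ p ∈ R₀`.  Let
`Ω = {x | x ^ p ∈ R₀}`.  Take `R'` maximal among all subgroups with `R₀ ≤ R' ≤ Ω` that meet `T`
trivially; then every `x ∈ Ω` is `r * t` with `r ∈ R'`, `t ∈ T ⊓ Ω` (otherwise adjoin `x` to `R'`),
which gives a homomorphism `π₀ : Ω → T` that kills `R₀` and fixes `T ⊓ Ω`.  The average
`π x = ∏ m, φ m⁻¹ (π₀ (φ m x))` is equivariant, kills `R₀` and is `t ↦ t ^ card E` on `T ⊓ Ω`, so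
its kernel is invariant, contains `R₀` and meets `T` trivially; so it is `R₀`.  But `π c ∈ T` is
fixed by `l`, so `π c = 1`. -/
theorem exists_rfree (hp : p.Prime) (hD : IsPGroup p D) (hE : ¬ p ∣ Fintype.card E)
    {T : Subgroup D} (hT : T ≠ ⊥) (hinv : ∀ l, ∀ u ∈ T, φ l u ∈ T)
    (hfree : ∀ l, ∀ u ∈ T, φ l u = u → l = 1 ∨ u = 1) : ∃ R₀, RFree p φ R₀ := by
  obtain ⟨R, ⟨h1, h2⟩, hmax⟩ := (Set.toFinite
    {S : Subgroup D | (∀ l, ∀ u ∈ S, φ l u ∈ S) ∧ Disjoint S T}).exists_maximal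
    ⟨⊥, fun l u hu => by rw [Subgroup.mem_bot.1 hu, map_one]; exact Subgroup.one_mem _,
      disjoint_bot_left⟩
  refine ⟨R, h1, fun l c hc => ?_, ?_, cyc_of_free hT hinv hfree⟩
  swap
  · obtain ⟨t, ht, ht1⟩ := (Subgroup.bot_or_exists_ne_one T).resolve_left hT
    obtain ⟨j, j1, j2⟩ := rlggrp_pow hD (S := ⊥) (c := t) fun h => ht1 (Subgroup.mem_bot.1 h)
    exact ⟨t ^ j, Subgroup.mem_bot.1 j2, fun h =>
      j1 (Subgroup.mem_bot.2 (Subgroup.disjoint_def.1 h2 h (T.pow_mem ht j)))⟩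
  by_contra h0
  obtain ⟨hl, hcR⟩ := not_or.1 h0
  obtain ⟨j, j1, j2⟩ := rlggrp_pow hD hcR
  let Ω : Subgroup D := R.comap (powMonoidHom p)
  have hΩ : ∀ x, x ∈ Ω ↔ x ^ p ∈ R := fun _ => Iff.rfl
  have hΩi : ∀ m, ∀ x ∈ Ω, φ m x ∈ Ω := fun m x hx => by
    rw [hΩ, ← map_pow]
    exact h1 m _ hx
  have hRΩ : R ≤ Ω := fun x hx => R.pow_mem hx p
  obtain ⟨π, p1, p2, p3, p4⟩ := rlggrp_proj hp hRΩ (fun x hx => (hΩ x).1 hx) h2
  obtain ⟨P, hP⟩ : ∃ P : D → D, ∀ x, P x = ∏ m, φ m⁻¹ (π (φ m x)) := ⟨_, fun _ => rfl⟩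
  have q1 : ∀ x ∈ Ω, P x ∈ T := fun x hx => by
    rw [hP]
    exact T.prod_mem fun m _ => hinv _ _ (p1 _ (hΩi m x hx))
  have q2 : ∀ x ∈ Ω, ∀ y ∈ Ω, P (x * y) = P x * P y := fun x hx y hy => by
    rw [hP, hP, hP, ← Finset.prod_mul_distrib]
    refine Finset.prod_congr rfl fun m _ => ?_
    rw [map_mul, p2 _ (hΩi m x hx) _ (hΩi m y hy), map_mul]
  have q3 : ∀ x ∈ R, P x = 1 := fun x hx => by
    rw [hP]
    exact Finset.prod_eq_one fun m _ => by rw [p3 _ (h1 m x hx), map_one]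
  have q4 : ∀ g x, P (φ g x) = φ g (P x) := fun g x => by
    rw [hP, hP, map_prod]
    refine Fintype.prod_equiv (Equiv.mulRight g) _ _ fun m => ?_
    simp [← MulAut.mul_apply, ← map_mul]
  let K : Subgroup D :=
    { carrier := {x | x ∈ Ω ∧ P x = 1}
      one_mem' := ⟨Ω.one_mem, q3 1 R.one_mem⟩
      mul_mem' := fun {x y} hx hy => ⟨Ω.mul_mem hx.1 hy.1, by
        rw [q2 x hx.1 y hy.1, hx.2, hy.2, mul_one]⟩
      inv_mem' := fun {x} hx => ⟨Ω.inv_mem hx.1, by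
        have h3 := q2 x hx.1 x⁻¹ (Ω.inv_mem hx.1)
        rw [mul_inv_cancel, q3 1 R.one_mem, hx.2, one_mul] at h3
        exact h3.symm⟩ }
  have hK : K ≤ R := by
    refine hmax (y := K) ⟨fun m x hx => ⟨hΩi m x hx.1, by rw [q4, hx.2, map_one]⟩,
      Subgroup.disjoint_def.2 fun {x} hx hxT => ?_⟩ fun x hx => ⟨hRΩ hx, q3 x hx⟩
    have h3 : x ^ Fintype.card E = 1 := by
      rw [← hx.2, hP, ← Finset.card_univ, ← Finset.prod_const]
      refine Finset.prod_congr rfl fun m _ => ?_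
      rw [p4 _ (hΩi m x hx.1) (hinv m x hxT), map_inv, MulAut.inv_apply_self]
    have h4 : x ^ p = 1 := Subgroup.disjoint_def.1 h2 ((hΩ x).1 hx.1) (T.pow_mem hxT p)
    have h5 := Nat.dvd_gcd (orderOf_dvd_of_pow_eq_one h4) (orderOf_dvd_of_pow_eq_one h3)
    rw [(hp.coprime_iff_not_dvd.2 hE).gcd_eq_one, Nat.dvd_one] at h5
    exact orderOf_eq_one_iff.1 h5
  refine j1 (hK ⟨j2, (hfree l _ (q1 _ j2) ?_).resolve_left hl⟩)
  rw [← q4, map_pow, hc]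

end Pool.Agent.Lib.MP_b6945b_al.St
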