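import Pool.Agent.Lib.MP_b6945b_al.Rl.GTower
import Pool.Agent.Lib.MP_b6945b_al.Rl.GFin3
import Pool.Agent.Lib.MP_b6945b_al.St.FrK

set_option autoImplicit false

/-!
The final corner of a block whose inertial quotient acts freely outside an invariant subgroup.
-/

namespace Pool.Agent.Lib.MP_b6945b_al.St

open IsLocalRing
open MonoidAlgebra (single)

variable {R D G E : Type} [CommRing R] [IsDomain R] [ValuationRing R] [CommGroup D] [Fintype D]
  [Group G] [Fintype G] [Group E] [Fintype E] {p : ℕ} {ι : D →* G} {φ : E →* MulAut D}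
  {R₀ : Subgroup D} {e j : MonoidAlgebra R G} {U U' : E → MonoidAlgebra R G}

/-- `z = j - e j` is fixed by `D`; `ca_sub_brT`, `RSet.br`, `inMax_mem_brK`. -/
lemma RSet.sub_mem_trM (h : RSet p ι φ R₀ e j U U') :
    caJ h.supp ⊥ - caB ι e * caJ h.supp ⊥ ∈ trM R (caD R ι ⊥) ⊤ := by
  have hz : FixedBy (cjI R (caD R ι ⊥)) ⊤ (caJ h.supp ⊥ - caB ι e * caJ h.supp ⊥) := by
    refine fixedBy_cjI_iff.2 fun u _ => ?_
    rw [mul_sub, sub_mul, h.caJ_comm, ← mul_assoc, ← frk_cent h.blk.cent, mul_assoc, h.caJ_comm,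
      mul_assoc]
  have h1 := ca_sub_brT hz
  have h2 := brK_fixed h1
  have h3 : FixedBy (cjI R (caD R ι ⊥)) ⊤ (caP R ι ⊥ (brT R (((⊤ : Subgroup D).map ι : Subgroup G) :
      Set G) (caJ h.supp ⊥ - caB ι e * caJ h.supp ⊥ : CA R ι ⊥))) := fun g hg => by
    have h4 := h2 g hg
    rw [map_sub, hz g hg] at h4
    exact sub_right_injective h4
  have h5 : InMax R (caP R ι ⊥ (brT R (((⊤ : Subgroup D).map ι : Subgroup G) :
      Set G) (caJ h.supp ⊥ - caB ι e * caJ h.supp ⊥ : CA R ι ⊥))) := by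
    refine idem_inMax_map _ ?_
    rw [← MonoidHom.range_eq_map]
    have h6 : InMax R (-brT R (Set.range ι) (e * j - j)) := Submodule.neg_mem _ h.br
    rw [← map_neg, neg_sub] at h6
    exact h6
  have h7 := Submodule.add_mem _ h1 (inMax_mem_brK h5 h3)
  rwa [sub_add_cancel] at h7

variable {h : RSet p ι φ R₀ e j U U'} {X : MRep R D} {ε : Matrix X.κ X.κ (CA R ι ⊥)}

/-- `MinI.mul_eq`, `scalar_mem_trM`. -/
lemma RLvl.block_mul (hε : MinI R (TD ι X ⊥) (RJ h X ⊥) ε) :
    Matrix.scalar X.κ (caB ι e) * ε = ε := by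
  refine hε.mul_eq ?_ (Matrix.scalar_commute _ (frk_cent h.blk.cent) ε) ?_
  · rw [← map_mul]
    exact congrArg _ (Subtype.ext h.blk.idem)
  · rw [← map_mul, ← map_sub]
    exact scalar_mem_trM h.sub_mem_trM

lemma RLvl.nonempty (hX : RLvl h ⊥ X) : Nonempty X.κ := by
  exact frtower_nonempty hX.np.card

/-- `MinI.exists_central` (with `SP.matrix`, `RSet.sp`) gives a central `z = ∑ x i * ε * y i` with
`z ε - c ε` nilpotent and `c` a unit.  `z` is a scalar matrix `z₀` with `z₀` central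
(`Matrix.center_eq_scalar_image` or compare entries), and `z₀ e - v e` is nilpotent (`IsBlock.loc`).
So `(c - v) ε` is nilpotent, `v` is a unit, and `w z₀ e = e` for some `w` (`exists_inv_corner`). -/
lemma RLvl.full (hX : RLvl h ⊥ X) (hε : MinI R (TD ι X ⊥) (RJ h X ⊥) ε) :
    InIdl ⊤ ε (Matrix.scalar X.κ (caB ι e)) := by
  obtain ⟨μ, _, x, y, c, hc, hz, hn⟩ := hε.exists_central
    (SP.matrix (bouc_unit h.std.prime h.std.pR hX.np.card) (h.sp ⊥))
  have h1 : caB ι e * caB ι e = caB ι e := Subtype.ext h.blk.idem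
  have h2 : ∀ z : CA R ι ⊥, (∀ b, z * b = b * z) → ∃ v : R, NilR R (z * caB ι e - v • caB ι e) := by
    intro z hz
    obtain ⟨v, hv⟩ := h.blk.loc z fun b => congrArg Subtype.val (hz (caB ι b))
    have h3 := hv.map (frkA ι)
    rw [map_sub, map_mul, map_smul, frkA_apply, frkA_apply] at h3
    exact ⟨v, h3⟩
  exact frk_full h.std.split h1 (frk_cent h.blk.cent) h2 hε.idem.eq hε.ne (RLvl.block_mul hε) x y
    hc hz hn

/-- The trace of `b` commutes with the image of `R₀` (`ptr_equiv` or a direct computation with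
`Matrix.trace`), so `∑ g b g⁻¹ = card R₀ • z` with `z = rtr (cjRep R G) (R₀.map ι) ⊤ (trace b)`
(`rtr_trans` from `⊥`, `rtr_of_fixed`, `rtr_bot_top`).  `z` is central, and by `mackey_mem` it is a
sum of traces to `ι.range` from subgroups of order at most `card R₀ < card D`, so
`caB ι z ∈ trM R (caD R ι ⊥) ⊤` (compare `frpb_mackey`, `ca_rtr`); `scalar_mem_trM`, `MinI.nt`. -/
lemma RLvl.trace_nil (hε : MinI R (TD ι X ⊥) (RJ h X ⊥) ε) (b : Matrix X.κ X.κ (CA R ι ⊥))
    (hb : ∀ u ∈ R₀, TD ι X ⊥ u * b = b * TD ι X ⊥ u) :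
    ∃ z : MonoidAlgebra R G, NilR R (Matrix.scalar X.κ (caB ι z) * ε) ∧
      Nat.card R₀ • z = ∑ g : G, single g 1 * ((b.trace : CA R ι ⊥) : MonoidAlgebra R G) *
        single g⁻¹ 1 := by
  have t1 : FixedBy (cjI R (caD R ι ⊥)) R₀ b.trace := by
    intro g hg
    have e1 : tenI X.s (caD R ι ⊥) g * (b * tenI X.s (caD R ι ⊥) g⁻¹) =
        Matrix.scalar X.κ (caD R ι ⊥ g) * (frmatM (CA R ι ⊥) (X.s g) *
          (b * frmatM (CA R ι ⊥) (X.s g⁻¹)) * Matrix.scalar X.κ (caD R ι ⊥ g⁻¹)) := by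
      rw [frmat_ten' g, frmat_ten g⁻¹]
      simp only [mul_assoc]
    have e2 := congrArg Matrix.trace ((fixedBy_cjI_iff (R := R)).2 hb g hg)
    rw [cjI_apply, e1, frmat_trace_scalar, frmat_trace_comm, mul_assoc, frmat_inv_mul,
      mul_one] at e2
    exact e2
  have t2 := ca_fixed_iff.1 t1
  generalize ((b.trace : CA R ι ⊥) : MonoidAlgebra R G) = t at t2 ⊢
  have hι := h.inj
  have hz := rtr_fixed (T := ⊤) le_top t2
  have hc : ∀ a : MonoidAlgebra R G, rtr (cjRep R G) (R₀.map ι) ⊤ t * a =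
      a * rtr (cjRep R G) (R₀.map ι) ⊤ t := by
    generalize rtr (cjRep R G) (R₀.map ι) ⊤ t = z at hz
    intro a
    induction a using MonoidAlgebra.induction_on with
    | of g =>
      have h1 := hz g trivial
      rw [cjRep_apply] at h1
      rw [MonoidAlgebra.of_apply]
      conv_lhs => rw [← h1]
      rw [mul_assoc, mul_assoc, MonoidAlgebra.single_mul_single, inv_mul_cancel, mul_one,
        ← MonoidAlgebra.one_def, mul_one]
    | add f g hf hg => rw [mul_add, add_mul, hf, hg]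
    | smul r f hf => rw [mul_smul_comm, smul_mul_assoc, hf]
  have h2 := mackey_mem (T := ι.range) (U := ⊤) le_top le_top t2
    ((trM R (caD R ι ⊥) ⊤).map (CA R ι ⊥).val.toLinearMap).toAddSubgroup (by
      intro g _
      set S₁ := ι.range ⊓ (R₀.map ι).map (MulAut.conj g).toMonoidHom with hS₁
      have h3 : (S₁.comap ι).map ι = S₁ := Subgroup.map_comap_eq_self inf_le_left
      have h4 : S₁.comap ι < ⊤ := by
        refine lt_top_iff_ne_top.2 fun e => h.free.ne_top (Subgroup.eq_top_of_le_card R₀ ?_)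
        have h5 : Nat.card (⊤ : Subgroup D) = Nat.card S₁ := by
          rw [← h3, e, Subgroup.card_map_of_injective hι]
        have h6 : Nat.card S₁ ≤ Nat.card R₀ := by
          rw [← Subgroup.card_map_of_injective (K := R₀) hι,
            ← Subgroup.card_map_of_injective (K := R₀.map ι) (f := (MulAut.conj g).toMonoidHom)
              (MulAut.conj g).injective]
          exact Subgroup.card_le_of_le inf_le_right
        rw [← Subgroup.card_top, h5]
        exact h6
      have h6 : FixedBy (cjI R (caD R ι ⊥)) (S₁.comap ι) (caB ι (cjRep R G g t)) := by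
        rw [ca_fixed_iff, h3, caB_val]
        exact fixedBy_conj t2 g
      refine ⟨_, rtr_mem_brK h4 h6, ?_⟩
      have h7 := ca_rtr hι le_top h6
      rw [h3, ← MonoidHom.range_eq_map, caB_val] at h7
      exact h7)
  obtain ⟨y, hy, hy'⟩ := h2
  have h3 : caB ι (rtr (cjRep R G) (R₀.map ι) ⊤ t) = y := Subtype.ext hy'.symm
  refine ⟨rtr (cjRep R G) (R₀.map ι) ⊤ t, ?_, ?_⟩
  · have h4 := hε.nt _ (scalar_mem_trM (s := X.s) (h3 ▸ hy))
    have h5 := nilR_swap (x := ε * Matrix.scalar X.κ (caB ι (rtr (cjRep R G) (R₀.map ι) ⊤ t)))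
      (y := ε) h4
    rw [← mul_assoc, hε.idem.eq] at h5
    exact nilR_swap h5
  · have h4 := rtr_trans (ρ := cjRep R G) (S := ⊥) (T := R₀.map ι) (U := ⊤) bot_le le_top
      (tr_fixedBy_bot _ t)
    rw [rtr_of_fixed bot_le t2, rtr_bot_top, Subgroup.relIndex_bot_left,
      Subgroup.card_map_of_injective hι, map_nsmul] at h4
    rw [h4]
    exact Finset.sum_congr rfl fun g _ => by rw [cjRep_apply, mul_assoc]

/-- `RSet.exists_units`, `MinI.exists_unit`, `RLvl.corR`, `CorR.exists_finR`. -/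
lemma RLvl.exists_finR [CharZero R] (hX : RLvl h ⊥ X) (hε : MinI R (TD ι X ⊥) (RJ h X ⊥) ε) :
    ∃ w w' a L r α, FinR (R := R) hε.cor φ R₀ w w' a L r α := by
  refine CorR.exists_finR h.std h.cardE h.free (hX.corR hε) fun l => ?_
  obtain ⟨W, W', hW, hW', h1, h2, hδ⟩ := h.exists_units (hX.tw rfl l)
  exact hε.exists_unit h.std (by rw [← map_mul, h.caJ_idem])
    (fun u => frtower_comm u (h.caJ_comm ⊥ u)) hW hW' h1 h2 hδ

end Pool.Agent.Lib.MP_b6945b_al.St
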