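import Pool.Agent.Lib.MP_b6945b_al.Rl.GLoca1
import Pool.Agent.Lib.MP_b6945b_al.Rl.GCor
import Pool.Agent.Lib.MP_b6945b_al.Rl.GCentre
import Pool.Agent.Lib.MP_b6945b_al.Rl.Flip4
import Pool.Agent.Lib.MP_b6945b_al.Rl.Cross

set_option autoImplicit false

/-!
The centre of the final corner over the fraction field.
-/

namespace Pool.Agent.Lib.MP_b6945b_al.St

open IsLocalRing
open MonoidAlgebra (single)

variable {K : Type} [Field K] {V : ValuationSubring K} {A A' : Type} [Ring A] [Algebra V A]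
  [Ring A'] [Algebra K A'] {τ : A →+* A'} {O : Subring A'}
  {D E : Type} [CommGroup D] [Fintype D] [Group E] [Fintype E] {δ : D →* A}
  {φ : E →* MulAut D} {R₀ : Subgroup D} {w w' : E → A} {a : E → E → V} {L : Subalgebra V A}
  {r α : A →ₗ[V] A}

theorem FinR.finrank [CharZero K] [IsAlgClosed K] [Module.Finite V A] [Module.IsTorsionFree V A]
    {p : ℕ} (hs : Std p V D) (hE : ¬ p ∣ Fintype.card E) (hR : RFree p φ R₀)
    (hc : CorR V δ φ R₀) (h : FinR δ φ R₀ w w' a L r α)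
    (hτ : Loca V τ O) {s : A' →ₗ[K] K} {ι : Type} [Fintype ι] {F F' : ι → A'}
    (hF : IsFrame s ⊤ F F') (hFO : ∀ i, F i ∈ O) (hFO' : ∀ i, F' i ∈ O) (hsO : ∀ y ∈ O, s y ∈ V)
    (hz : ∃ y, y * trF F F' 1 = 1)
    (hnd : ∀ b : A, (∀ u ∈ R₀, δ u * b = b * δ u) →
      ∃ z : A, NilR V z ∧ Nat.card R₀ • τ z = trF F F' (τ b)) :
    Module.finrank K (Subalgebra.center K A') =
      Nat.card (ConjClasses (SemidirectProduct D E φ)) := by
  classical
  let _ : Fintype R₀ := Fintype.ofFinite _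
  obtain ⟨L', r', α', hK⟩ := h.exists_finK hτ
  obtain ⟨δ', u, c, e1, e2, hX⟩ := hK.crossR h hτ
  obtain ⟨-, b2, b3, b4, b5⟩ := hK.basicR h hτ
  obtain ⟨s₀, hs₀⟩ := hX.exists_form
  have cu := hτ.cUnits h.cu
  have hpV : (p : K) ∈ V.nonunits := by simpa using mem_maximalIdeal_iff_nonunits.1 hs.pR
  let sL : A' →ₗ[K] K := s₀ ∘ₗ r'.codRestrict L'.toSubmodule b2
  have hsL : ∀ b : L', sL b = s₀ b := fun b => by
    have e := b3 _ b.2 1 L'.one_mem 1
    rw [b4, mul_one, mul_one] at e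
    exact congrArg s₀ (Subtype.ext e)
  have hsum : ∀ c : E → MonoidAlgebra K D, ((∑ l, δ' (c l) * u l : L') : A') =
      ∑ l, hatI K (τ.toMonoidHom.comp δ) (c l) * τ (w l) := fun c => by
    rw [AddSubmonoidClass.coe_finsetSum]
    exact Finset.sum_congr rfl fun l _ => by rw [MulMemClass.coe_mul, e1, e2]
  have hn : ((Nat.card R₀ : ℕ) : K) ≠ 0 := Nat.cast_ne_zero.2 Nat.card_pos.ne'
  have hfr : IsFrame sL L'.toSubmodule (cfr (τ.toMonoidHom.comp δ) fun l => τ (w l))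
      (cfr' (τ.toMonoidHom.comp δ) fun l => τ (w' l)) := by
    refine cu.isFrame hK.mem (fun c => ?_) fun x hx y hy => ?_
    · rw [← hsum, hsL, hs₀]
    · exact (hsL (⟨x, hx⟩ * ⟨y, hy⟩)).trans
        ((hX.form_symm hs₀ _ _).trans (hsL (⟨y, hy⟩ * ⟨x, hx⟩)).symm)
  have hD : FlipR V ((τ.toMonoidHom.comp δ).comp R₀.subtype) O s F F' L' sL
      (cfr (τ.toMonoidHom.comp δ) fun l => τ (w l))
      (cfr' (τ.toMonoidHom.comp δ) fun l => τ (w' l)) r'
      (((Nat.card R₀ : K) ^ 2)⁻¹ • α') := by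
    refine ⟨hτ.smul_mem, hF, hFO, hFO', hsO, hfr,
      fun i => O.mul_mem (frloca_mem hτ _) (frloca_mem hτ _),
      fun i => O.mul_mem (frloca_mem hτ _) (frloca_mem hτ _), fun b hb hbO => ?_,
      fun y hy => ?_, b2, b3, b4, fun y => ?_, fun v => (cu.mem hK.mem).1 v,
      fun v => frloca_mem hτ _, ⟨fun v v' y => ?_, fun y hy => ?_⟩, LProj.relFr ?_ hF hFO hFO',
      relFr_cfr R₀ hfr (fun v => frloca_mem hτ _) (fun l => frloca_mem hτ _)
        fun l => frloca_mem hτ _⟩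
    · obtain ⟨t, ht⟩ := hX.bij.2 ⟨b, hb⟩
      have ht' : ∑ l, δ' (t l) * u l = ⟨b, hb⟩ := ht
      rw [hsL ⟨b, hb⟩, ← ht', hs₀]
      exact (hX.mem_iff t).1 (ht' ▸ hbO) 1 1
    · obtain ⟨x, rfl⟩ := (hτ.mem y).1 hy
      rw [hK.r_eq]
      exact frloca_mem hτ _
    · have e := congrArg (((Nat.card R₀ : K) ^ 2)⁻¹ • ·) (b5 y)
      simp only [smul_add, ← Nat.cast_smul_eq_nsmul K, Nat.cast_pow,
        inv_smul_smul₀ (pow_ne_zero 2 hn)] at e
      refine Eq.trans ?_ e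
      simp only [trB, LinearMap.smul_apply, mul_smul_comm, smul_mul_assoc, Finset.smul_sum]
    · change (_ : K) • α' (τ (δ v) * y * τ (δ v')) = τ (δ v) * (_ : K) • α' y * τ (δ v')
      rw [mul_smul_comm, smul_mul_assoc]
      refine congrArg _ (hτ.induct
        (P := fun y => α' (τ (δ v) * y * τ (δ v')) = τ (δ v) * α' y * τ (δ v')) (fun z => ?_)
        (fun d z e => by simp only [mul_smul_comm, smul_mul_assoc, map_smul, e]) y)
      rw [← map_mul, ← map_mul, hK.α_eq, hK.α_eq, h.eqv _ v.2 _ v'.2, map_mul, map_mul]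
    · obtain ⟨x, rfl⟩ := (hτ.mem y).1 hy
      rw [LinearMap.smul_apply, ← Nat.card_eq_fintype_card, ← Nat.cast_smul_eq_nsmul K,
        Nat.cast_pow, smul_inv_smul₀ (pow_ne_zero 2 hn), hK.α_eq]
      exact frloca_mem hτ _
    · obtain ⟨π, hπ⟩ := lProj_of_pl R₀ hc.pl
      obtain ⟨π', h1, h2⟩ := hτ.extend_end π
      refine ⟨π', h2, hτ.induct (fun z => ?_) fun d z e => ?_⟩
      · conv_rhs => rw [← hπ z, map_sum]
        refine Finset.sum_congr rfl fun v _ => ?_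
        rw [map_mul τ, ← h1, map_mul τ]
        rfl
      · conv_rhs => rw [← e]
        simp only [mul_smul_comm, map_smul, Finset.smul_sum]
  obtain ⟨μ, _, x, y, hxy, h1⟩ := hc.sep
  obtain ⟨w₀, hw1, hw2⟩ := hR.ex
  let δL : R₀ →* L' := (δ'.toRingHom.toMonoidHom.comp (MonoidAlgebra.of K D)).comp R₀.subtype
  refine (hD.finrank hs.prime hpV δL (fun v => ?_)
    (hX.goodR hs.prime hpV hE (hK.localCentreR h hτ hc.loc) hR.inv hw2 hw1 ?_)
    (x := fun i => τ (x i)) (y := fun i => τ (y i)) (fun i => frloca_mem hτ _)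
    (fun i => frloca_mem hτ _) (fun N _ _ β hβ hb t => ?_)
    (by simp only [← map_mul, ← map_sum, h1, map_one]) hz fun b _ hb hbc => ?_).trans
    (cu.finrank_centre hR.cyc hK.mem fun _ _ e => rgloca_inj h hτ e)
  · change (δ' (single (v : D) 1) : A') = _
    rw [e1, hatI_single, one_smul]
    rfl
  · rintro _ ⟨v, rfl⟩
    exact ⟨v, v.2, rfl⟩
  · refine hτ.induct
      (P := fun t => ∑ i, β (t * τ (x i)) (τ (y i)) = ∑ i, β (τ (x i)) (τ (y i) * t))
      (fun z => ?_) (fun d z e => ?_) t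
    · have := hxy N (fun a b => β (τ a) (τ b)) ⟨fun _ _ _ => by rw [map_add, hβ.add_left],
        fun _ _ _ => by rw [map_add, hβ.add_right],
        fun _ _ v => by rw [map_mul, map_mul, hb (τ (δ v)) ((cu.mem hK.mem).1 v)],
        fun _ _ _ => by rw [hτ.smul, hτ.smul, hβ.smul_left, hβ.smul_right]⟩ z
      simpa only [map_mul] using this
    · simp only [smul_mul_assoc, mul_smul_comm, hβ.smul_left, hβ.smul_right, ← Finset.smul_sum, e]
  · obtain ⟨b', hb'⟩ := (hτ.mem _).1 hb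
    rw [← Nat.card_eq_fintype_card] at hb'
    obtain ⟨z, hz1, hz2⟩ := hnd b' fun v hv => hτ.inj (by
      rw [map_mul, map_mul, hb', mul_smul_comm, smul_mul_assoc]
      exact congrArg _ (hbc ⟨v, hv⟩))
    have e : trF F F' (Nat.card R₀ • b) = Nat.card R₀ • trF F F' b := by
      simp only [trF, mul_smul_comm, smul_mul_assoc, Finset.smul_sum]
    rw [hb', e, ← Nat.cast_smul_eq_nsmul K, ← Nat.cast_smul_eq_nsmul K] at hz2
    rw [← smul_right_injective A' hn hz2]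
    exact hτ.nilMod hz1

end Pool.Agent.Lib.MP_b6945b_al.St
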