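import Pool.Agent.Lib.MP_b6945b_al.Rl.GK1
import Pool.Agent.Lib.MP_b6945b_al.Rl.GLoca2

set_option autoImplicit false

/-!
The number of characters in a block whose inertial quotient acts freely outside an invariant
subgroup.
-/

namespace Pool.Agent.Lib.MP_b6945b_al.St

open IsLocalRing
open MonoidAlgebra (single)

variable {K : Type} [Field K] {V : ValuationSubring K}

lemma rgk_model [CharZero K] [IsAlgClosed K] {D E A A' μ : Type} [CommGroup D] [Fintype D]
    [Group E] [Fintype E] [Ring A] [Algebra V A] [Module.Finite V A]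
    [Module.IsTorsionFree V A] [Ring A'] [Algebra K A'] [Fintype μ] {p : ℕ} (hs : Std p V D)
    (hE : ¬ p ∣ Fintype.card E) {φ : E →* MulAut D} {R₀ : Subgroup D} (hR : RFree p φ R₀)
    {τ : A →+* A'} {O : Subring A'} (hτ : Loca V τ O) {s : A' →ₗ[K] K} {F F' : μ → A'}
    (hF : IsFrame s ⊤ F F') (hFO : ∀ i, F i ∈ O) (hFO' : ∀ i, F' i ∈ O) (hsO : ∀ y ∈ O, s y ∈ V)
    {c : K} (hc0 : c ≠ 0) (h1 : trF F F' 1 = c • 1) {ε : A} (hε : IsIdempotentElem ε)
    {δ : IntHom D hε.Corner} (hc : CorR V δ φ R₀)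
    {w w' : E → hε.Corner} {a : E → E → V} {L : Subalgebra V hε.Corner}
    {r α : hε.Corner →ₗ[V] hε.Corner} (h : FinR δ φ R₀ w w' a L r α)
    (hn : ∀ b : hε.Corner, (∀ u ∈ R₀, δ u * b = b * δ u) →
      ∃ z : A, NilR V (z * ε) ∧ Nat.card R₀ • τ z = trF F F' (τ b.1))
    (hε' : IsIdempotentElem (τ ε)) :
    Module.finrank K (Subalgebra.center K hε'.Corner) =
      Nat.card (ConjClasses (SemidirectProduct D E φ)) := by
  obtain ⟨he', hO, τ', hτv, hτ'⟩ := hτ.corner hε
  refine h.finrank hs hE hR hc hτ' (hF.corner he')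
    (fun i => O.mul_mem (O.mul_mem hO (hFO i)) hO) (fun i => O.mul_mem (O.mul_mem hO (hFO' i)) hO)
    (fun y hy => hsO y.1 hy) (exists_inv_trF_corner hF hc0 h1 he') fun b hb => ?_
  obtain ⟨z, hz1, hz2⟩ := hn b hb
  refine ⟨cmk hε z, ?_, Subtype.ext ?_⟩
  · rw [nilR_corner, cmk_val, mul_assoc]
    exact nilR_swap (x := z * ε) (y := ε) (by rwa [mul_assoc, hε.eq])
  · refine (map_nsmul (cval K he') _ _).trans ?_
    rw [cval_apply, hτv, trF_corner hF, cmk_val, map_mul, map_mul, ← smul_mul_assoc,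
      ← mul_smul_comm, hz2, hτv, trF_comm_top hF, mul_assoc, he'.eq]

lemma rgk_corner [CharZero K] [IsAlgClosed K] {D G E κ : Type} [CommGroup D] [Fintype D]
    [Group G] [Fintype G] [Group E] [Fintype E] [Fintype κ] [DecidableEq κ]
    [Nonempty κ] {p : ℕ} (hs : Std p V D) (hE : ¬ p ∣ Fintype.card E) {ι : D →* G}
    {φ : E →* MulAut D} {R₀ : Subgroup D} (hR : RFree p φ R₀)
    {ε : Matrix κ κ (CA V ι ⊥)} (hε : IsIdempotentElem ε) {δ : IntHom D hε.Corner}
    (hc : CorR V δ φ R₀) {w w' : E → hε.Corner} {a : E → E → V}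
    {L : Subalgebra V hε.Corner} {r α : hε.Corner →ₗ[V] hε.Corner}
    (h : FinR δ φ R₀ w w' a L r α)
    (hn : ∀ b : hε.Corner, (∀ u ∈ R₀, δ u * b = b * δ u) →
      ∃ z : MonoidAlgebra V G, NilR V (Matrix.scalar κ (caB ι z) * ε) ∧
        Nat.card R₀ • z = ∑ g : G, single g 1 * ((b.1.trace : CA V ι ⊥) : MonoidAlgebra V G) *
          single g⁻¹ 1)
    (hε' : IsIdempotentElem (ε.map (caK V ι))) :
    Module.finrank K (Subalgebra.center K hε'.Corner) =
      Nat.card (ConjClasses (SemidirectProduct D E φ)) := by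
  classical
  have hsg : ∀ y : G, (single y 1 : MonoidAlgebra K G) ∈ GO V G := fun y => by
    rw [← toK_single (V := V)]
    exact toK_mem _
  refine rgk_model hs hE hR ((loca_caK ι).matrix κ) ((isFrame_group K G).matrix κ)
    (fun t => morita_single_mem (hsg _) _ _) (fun t => morita_single_mem (hsg _) _ _)
    (fun y hy => ?_) (c := (Fintype.card G : K) * (Fintype.card κ : K))
    (mul_ne_zero (Nat.cast_ne_zero.2 Fintype.card_ne_zero) (Nat.cast_ne_zero.2 Fintype.card_ne_zero))
    ?_ hε hc h (fun b hb => ?_) hε'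
  · exact (sum_mem fun i _ => morita_mem_matrix.1 hy i i : ∑ i, y i i ∈ GO V G) 1
  · rw [trF_matrix (F := fun x : G => (single x 1 : MonoidAlgebra K G))
      (F' := fun x => single x⁻¹ 1), Matrix.trace_one, ← Algebra.algebraMap_eq_smul_one,
      ← morita_scalar_algebraMap]
    refine congrArg _ ?_
    have h1 : ∀ g : G, (single g 1 : MonoidAlgebra K G) * (Fintype.card κ : MonoidAlgebra K G) *
        single g⁻¹ 1 = (Fintype.card κ : MonoidAlgebra K G) := fun g => by
      rw [← Nat.cast_comm, mul_assoc, MonoidAlgebra.single_mul_single, mul_inv_cancel, mul_one,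
        ← MonoidAlgebra.one_def, mul_one]
    rw [trF, Finset.sum_congr rfl fun g _ => h1 g, Finset.sum_const, Finset.card_univ,
      nsmul_eq_mul, map_mul, map_natCast, map_natCast]
  · obtain ⟨z, hz1, hz2⟩ := hn b hb
    refine ⟨_, hz1, ?_⟩
    rw [trF_matrix (F := fun x : G => (single x 1 : MonoidAlgebra K G))
      (F' := fun x => single x⁻¹ 1), frk_map_scalar, RingHom.mapMatrix_apply,
      ← AddMonoidHom.map_trace, caK_apply, caK_apply, caB_val, trF, ← map_nsmul, ← map_nsmul, hz2,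
      map_sum]
    refine congrArg _ (Finset.sum_congr rfl fun g _ => ?_)
    rw [map_mul, map_mul, toK_single, toK_single]

theorem RSet.finrank [CharZero K] [IsAlgClosed K] {D G E : Type} [CommGroup D] [Fintype D]
    [Group G] [Fintype G] [Group E] [Fintype E] {p : ℕ} {ι : D →* G} {φ : E →* MulAut D}
    {R₀ : Subgroup D} {e j : MonoidAlgebra V G} {U U' : E → MonoidAlgebra V G}
    (h : RSet p ι φ R₀ e j U U') :
    Module.finrank K (Subalgebra.center K (idem_toK h.blk.idem).Corner) =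
      Nat.card (ConjClasses (SemidirectProduct D E φ)) := by
  obtain ⟨X, hX⟩ := h.tower
  obtain ⟨ε, hε⟩ := hX.exists_min fun h0 => h.free.ne_top (top_le_iff.1 (h0 ▸ bot_le))
  have := hX.nonempty
  obtain ⟨w, w', a, L, r, α, hD⟩ := hX.exists_finR hε
  have hε' : IsIdempotentElem (ε.map (caK V ι)) := hε.idem.map (caK V ι).mapMatrix
  have h1 := congrArg (caK V ι).mapMatrix (RLvl.block_mul hε)
  rw [map_mul, frk_map_scalar] at h1
  have h2 := frk_inIdl (caK V ι).mapMatrix (hX.full hε)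
  rw [frk_map_scalar] at h2
  refine (finrank_corner_matrix (idem_toK h.blk.idem) hε' h1 h2).trans
    (rgk_corner h.std h.cardE h.free hε.idem (hX.corR hε) hD
      (fun b hb => RLvl.trace_nil hε b.1 fun u hu => ?_) hε')
  have h3 : TD ι X ⊥ u * ε * b.1 = b.1 * (TD ι X ⊥ u * ε) := congrArg Subtype.val (hb u hu)
  rwa [mul_assoc, corner_left, hε.comm, ← mul_assoc, corner_right] at h3

end Pool.Agent.Lib.MP_b6945b_al.St
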