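import Pool.Agent.Lib.MP_b6945b_al.Rl.GPB
import Pool.Agent.Lib.MP_b6945b_al.St.FrLink

set_option autoImplicit false

/-!
Twisted matrix algebras over group algebras of centralisers, relative version.
-/

namespace Pool.Agent.Lib.MP_b6945b_al.St

open IsLocalRing
open MonoidAlgebra (single)

variable {R D G E : Type} [CommRing R] [IsDomain R] [ValuationRing R] [CommGroup D] [Fintype D]
  [Group G] [Fintype G] [Group E] [Fintype E] {p : ℕ} {ι : D →* G} {φ : E →* MulAut D}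
  {e j : MonoidAlgebra R G} {U U' : E → MonoidAlgebra R G} {R₀ Q S : Subgroup D}
  {κ μ : Type} [Fintype κ] [DecidableEq κ] [Fintype μ] [DecidableEq μ]

/-- `exists_tp` with `W = W' = j`, `Tp.lg`. -/
lemma RSet.lg_iso (h : RSet p ι φ R₀ e j U U') {s : D →* Matrix κ κ R} {s' : D →* Matrix μ μ R}
    (hs : TwIso 1 s s') (hl : LG R (tenI s (caD R ι Q)) (Matrix.scalar κ (caJ h.supp Q)) S) :
    LG R (tenI s' (caD R ι Q)) (Matrix.scalar μ (caJ h.supp Q)) S := by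
  have k1 : j * j * j = j := by rw [h.idem, h.idem]
  have k2 : ∀ g, j.coeff g ≠ 0 → ∀ u, g * ι u = ι u * g := fun g hg u => h.supp g hg _ ⟨u, rfl⟩
  obtain ⟨Φ, Ψ, hT⟩ := exists_tp (Q := Q) (Q' := Q) h.supp h.idem k1 k1 h.idem h.idem k2 k2 hs
    (Subgroup.map_id Q).symm
  exact (Subgroup.map_id S).subst (motive := LG R _ _) (hT.lg hl)

/-- `RSet.pb`, `NP.bi`, `rk1span_matrix`, `scalar_mem_trM`. -/
theorem RSet.pl (h : RSet p ι φ R₀ e j U U') {s : D →* Matrix κ κ R} (hs : NP p (Q ≤ ·) s)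
    (hQR : Q = ⊥ ∨ ¬ Q ≤ R₀) (htw : Q = ⊥ → ∀ l, TwIso (φ l) s s) :
    PL R (tenI s (caD R ι Q)) (Matrix.scalar κ (caJ h.supp Q)) (PR φ R₀ Q) := by
  obtain ⟨i, hi⟩ := h.exists_min Q
  refine ⟨Matrix.scalar κ i, fun u hu => ?_, ?_, rk1span_matrix ?_ (h.pb hi)⟩
  · exact (scalA_equiv u hu i).symm.trans (congrArg (Matrix.scalar κ) (hi.fixed ⊤ u hu))
  · rw [← map_sub]
    exact scalar_mem_trM hi.sub
  · rintro _ ⟨l, S', h1, h2, rfl⟩
    have h3 : Q ≠ ⊥ → φ l = 1 := fun hQ => by rw [h2 (hQR.resolve_left hQ), map_one]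
    have h4 : TwIso (φ l) s s := by
      by_cases hQ : Q = ⊥
      · exact htw hQ l
      · rw [h3 hQ]
        exact TwIso.refl s
    refine rk1span_mono ?_ (hs.bi h4 h3 h1)
    rintro _ - ⟨S'', h5, rfl⟩
    exact ⟨l, S'', h5, h2, rfl⟩

/-- The base of the tower: every element of `CA ⊤` is supported on the centraliser of `D`. -/
lemma RSet.lg_base (h : RSet p ι φ R₀ e j U U') :
    LG R (tenI (1 : D →* Matrix Unit Unit R) (caD R ι ⊤)) (Matrix.scalar Unit (caJ h.supp ⊤)) ⊤ :=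
  frlink_lg_unit (h.lg_top ⊤)

/-- For `Q = ⊥` the elements `v ⊗ U l` are units of the corner of `j`. -/
lemma RSet.exists_units (h : RSet p ι φ R₀ e j U U') {s : D →* Matrix κ κ R} {l : E}
    (hs : TwIso (φ l) s s) :
    ∃ W W' : Matrix κ κ (CA R ι ⊥),
      Matrix.scalar κ (caJ h.supp ⊥) * W * Matrix.scalar κ (caJ h.supp ⊥) = W ∧
      Matrix.scalar κ (caJ h.supp ⊥) * W' * Matrix.scalar κ (caJ h.supp ⊥) = W' ∧
      W * W' = Matrix.scalar κ (caJ h.supp ⊥) ∧ W' * W = Matrix.scalar κ (caJ h.supp ⊥) ∧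
      ∀ u, W * tenI s (caD R ι ⊥) u = tenI s (caD R ι ⊥) (φ l u) * W := by
  obtain ⟨v, v', h1, h2, h3⟩ := hs
  have k : ∀ b : MonoidAlgebra R G, b ∈ CA R ι ⊥ := by
    rintro b g - _ ⟨q, hq, rfl⟩
    rw [Subgroup.mem_bot.1 hq, map_one, mul_one, one_mul]
  refine ⟨frlinkP v ⟨U l, k _⟩, frlinkP v' ⟨U' l, k _⟩, ?_, ?_, ?_, ?_, fun u => ?_⟩ <;>
  simp only [frlinkP_one (R := R), frlinkP_ten, frlinkP_mul, one_mul, mul_one, h1, h2, h3] <;>
  refine congrArg _ (Subtype.ext ?_)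
  exacts [h.cut l, h.cut' l, h.inv l, h.inv' l, frlink_deg_single fun g hg => h.deg l g hg u]

end Pool.Agent.Lib.MP_b6945b_al.St
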