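import Pool.Agent.Lib.MP_b6945b_al.Rl.GDefs
import Pool.Agent.Lib.MP_b6945b_al.St.FrLoca

set_option autoImplicit false

/-!
Extension of scalars to the fraction field, relative version.
-/

namespace Pool.Agent.Lib.MP_b6945b_al.St

open IsLocalRing
open MonoidAlgebra (single)

variable {K : Type} [Field K] {V : ValuationSubring K} {A A' : Type} [Ring A] [Algebra V A]
  [Ring A'] [Algebra K A'] {τ : A →+* A'} {O : Subring A'}
  {D E : Type} [CommGroup D] [Fintype D] [Group E] [Fintype E] {δ : D →* A}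
  {φ : E →* MulAut D} {R₀ : Subgroup D} {w w' : E → A} {a : E → E → V} {L : Subalgebra V A}
  {r α : A →ₗ[V] A}

lemma FinR.exists_finK (h : FinR δ φ R₀ w w' a L r α) (hτ : Loca V τ O) :
    ∃ L' r' α', FinK τ δ w r α L' r' α' := by
  obtain ⟨L', hL⟩ := (hτ.cUnits h.cu).exists_alg
  obtain ⟨r', hr, -⟩ := hτ.extend_end r
  obtain ⟨α', hα, -⟩ := hτ.extend_end α
  exact ⟨L', r', α', hL, hr, hα⟩

variable {L' : Subalgebra K A'} {r' α' : A' →ₗ[K] A'}

lemma rgloca_memL (hK : FinK τ δ w r α L' r' α') (h : FinR δ φ R₀ w w' a L r α) (hτ : Loca V τ O)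
    {x : A} (hx : x ∈ L) : τ x ∈ L' := by
  obtain ⟨c, rfl⟩ := (h.mem x).1 hx
  exact (hK.mem _).2 ⟨_, frloca_sum hτ c⟩

lemma rgloca_indL (hK : FinK τ δ w r α L' r' α') (h : FinR δ φ R₀ w w' a L r α) (hτ : Loca V τ O)
    {P : A' → Prop} (h0 : ∀ x ∈ L, P (τ x)) (hs : ∀ (d : K) y, P y → P (d • y)) {y : A'}
    (hy : y ∈ L') : P y := by
  obtain ⟨c, rfl⟩ := (hK.mem y).1 hy
  obtain ⟨d, hd, c', hc⟩ := source4_common (V := V) c
  have h1 := hs d⁻¹ _ (h0 _ ((h.mem _).2 ⟨c', rfl⟩))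
  simpa only [frloca_sum hτ, hc, map_smul, smul_mul_assoc, ← Finset.smul_sum,
    inv_smul_smul₀ hd] using h1

lemma rgloca_r_self (h : FinR δ φ R₀ w w' a L r α) {b : A} (hb : b ∈ L) : r b = b := by
  have := h.r_mul b hb 1 L.one_mem 1
  rwa [h.r_one, mul_one, mul_one] at this

/-- Clear denominators with `source4_common`; `r'` is the identity on `L'`. -/
lemma FinK.basicR (hK : FinK τ δ w r α L' r' α') (h : FinR δ φ R₀ w w' a L r α) (hτ : Loca V τ O) :
    (∀ x, τ x ∈ L' ↔ x ∈ L) ∧ (∀ y, r' y ∈ L') ∧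
      (∀ b ∈ L', ∀ b' ∈ L', ∀ y, r' (b * y * b') = b * r' y * b') ∧ r' 1 = 1 ∧
      ∀ y, Nat.card R₀ ^ 2 • r' y + trB (cfr (τ.toMonoidHom.comp δ) fun l => τ (w l))
        (cfr' (τ.toMonoidHom.comp δ) fun l => τ (w' l)) α' y = Nat.card R₀ ^ 2 • y := by
  have h3 : ∀ b ∈ L', ∀ b' ∈ L', ∀ y, r' (b * y * b') = b * r' y * b' := by
    intro b hb b' hb' y
    refine rgloca_indL hK h hτ (P := fun b => r' (b * y * b') = b * r' y * b') (fun x hx => ?_)
      (fun d z e => by simp only [smul_mul_assoc, map_smul, e]) hb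
    refine rgloca_indL hK h hτ (P := fun b' => r' (τ x * y * b') = τ x * r' y * b')
      (fun x' hx' => ?_) (fun d z e => by simp only [mul_smul_comm, map_smul, e]) hb'
    refine hτ.induct (P := fun y => r' (τ x * y * τ x') = τ x * r' y * τ x') (fun z => ?_)
      (fun d z e => by simp only [mul_smul_comm, smul_mul_assoc, map_smul, e]) y
    rw [← map_mul, ← map_mul, hK.r_eq, hK.r_eq, h.r_mul x hx x' hx', map_mul, map_mul]
  have h4 : r' 1 = 1 := by rw [← map_one τ, hK.r_eq, h.r_one]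
  refine ⟨fun x => ⟨fun hx => ?_, rgloca_memL hK h hτ⟩, fun y => ?_, h3, h4, fun y => ?_⟩
  · have e := h3 _ hx 1 L'.one_mem 1
    rw [h4, mul_one, mul_one, hK.r_eq] at e
    exact hτ.inj e ▸ h.r_mem x
  · refine hτ.induct (P := fun y => r' y ∈ L') (fun z => ?_) (fun d z e => ?_) y
    · rw [hK.r_eq]
      exact rgloca_memL hK h hτ (h.r_mem z)
    · rw [map_smul]
      exact L'.smul_mem e d
  · refine hτ.induct (P := fun y => Nat.card R₀ ^ 2 • r' y +
      trB (cfr (τ.toMonoidHom.comp δ) fun l => τ (w l))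
        (cfr' (τ.toMonoidHom.comp δ) fun l => τ (w' l)) α' y = Nat.card R₀ ^ 2 • y)
      (fun z => ?_) (fun d z e => ?_) y
    · rw [← map_nsmul τ, ← h.hig z, map_add, hK.r_eq, map_nsmul]
      simp only [trB, map_sum, map_mul, ← hK.α_eq, cfr, cfr']
      rfl
    · rw [smul_comm _ d z, ← e, smul_add, map_smul, smul_comm _ d]
      simp only [trB, map_smul, mul_smul_comm, smul_mul_assoc, Finset.smul_sum]

lemma rgloca_inj [Module.IsTorsionFree V A] (h : FinR δ φ R₀ w w' a L r α) (hτ : Loca V τ O)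
    {c c' : E → MonoidAlgebra K D}
    (e : ∑ l, hatI K (τ.toMonoidHom.comp δ) (c l) * τ (w l) =
      ∑ l, hatI K (τ.toMonoidHom.comp δ) (c' l) * τ (w l)) : c = c' := by
  classical
  let f : (E → MonoidAlgebra V D) →ₗ[V] A :=
    { toFun := fun c => ∑ l, hatI V δ (c l) * w l
      map_add' := fun c c' => by simp [add_mul, Finset.sum_add_distrib]
      map_smul' := fun t c => by simp [Finset.smul_sum] }
  have hf : Function.Injective f := injective_of_inMax f fun c hc => by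
    rw [← Finset.univ_sum_single c]
    exact Submodule.sum_mem _ fun l _ =>
      idem_inMax_map (LinearMap.single V (fun _ : E => MonoidAlgebra V D) l) (h.pure c hc l)
  obtain ⟨d, hd, b, hb⟩ := source4_common (V := V) (c - c')
  have h0 : f b = f 0 := by
    refine hτ.inj ?_
    rw [map_zero, map_zero]
    refine (frloca_sum hτ b).trans ?_
    simp only [hb, Pi.sub_apply, map_smul, map_sub, smul_mul_assoc, sub_mul, ← Finset.smul_sum,
      Finset.sum_sub_distrib, e, sub_self, smul_zero]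
  funext l
  have h1 := hb l
  rw [hf h0, Pi.zero_apply, map_zero] at h1
  exact sub_eq_zero.1 ((smul_eq_zero.1 h1.symm).resolve_left hd)

/-- `δ'` is `hatI` with restricted codomain, `u l = τ (w l)`, `c l m = algebraMap (a l m)`.  For
injectivity use `FinR.pure`, `injective_of_inMax` and `source4_common`. -/
lemma FinK.crossR [Module.Finite V A] [Module.IsTorsionFree V A] (hK : FinK τ δ w r α L' r' α')
    (h : FinR δ φ R₀ w w' a L r α) (hτ : Loca V τ O) :
    ∃ (δ' : MonoidAlgebra K D →ₐ[K] L') (u : E → L') (c : E → E → MonoidAlgebra K D),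
      (∀ x, (δ' x : A') = hatI K (τ.toMonoidHom.comp δ) x) ∧ (∀ l, (u l : A') = τ (w l)) ∧
      CrossData V φ (O.comap L'.val.toRingHom) δ' u c := by
  have cu := hτ.cUnits h.cu
  obtain ⟨m1, m2, m3, -⟩ := cu.mem hK.mem
  have hhat : ∀ x, hatI K (τ.toMonoidHom.comp δ) x ∈ L' := fun x => by
    rw [eq_sum_single x, map_sum]
    refine L'.sum_mem fun u _ => ?_
    rw [map_smul, hatI_single, one_smul]
    exact L'.smul_mem (m1 u) _
  let δ' : MonoidAlgebra K D →ₐ[K] L' := (hatI K (τ.toMonoidHom.comp δ)).codRestrict L' hhat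
  let u : E → L' := fun l => ⟨τ (w l), m2 l⟩
  have hsum : ∀ c : E → MonoidAlgebra K D, ((∑ l, δ' (c l) * u l : L') : A') =
      ∑ l, hatI K (τ.toMonoidHom.comp δ) (c l) * τ (w l) := fun c =>
    AddSubmonoidClass.coe_finsetSum _ _
  refine ⟨δ', u, fun l m => algebraMap K _ (a l m : K), fun _ => rfl, fun _ => rfl,
    Subtype.ext cu.one, fun l => ⟨⟨τ (w' l), m3 l⟩, frloca_mem hτ _, Subtype.ext (cu.inv l),
      Subtype.ext (cu.inv' l)⟩, fun l c => Subtype.ext ?_, fun l m => ?_,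
    fun l m => crosspure_single_mem 1 (a l m).2, ⟨fun c c' e => ?_, fun y => ?_⟩,
    fun c => ⟨fun hc => ?_, fun hc => ?_⟩⟩
  · rw [frloca_act]
    exact cu.mul_hat l c
  · rw [AlgHom.commutes, ← Algebra.smul_def]
    exact Subtype.ext (cu.mul l m)
  · exact rgloca_inj h hτ ((hsum c).symm.trans ((congrArg Subtype.val e).trans (hsum c')))
  · obtain ⟨c, hc⟩ := (hK.mem _).1 y.2
    exact ⟨c, Subtype.ext ((hsum c).trans hc.symm)⟩
  · obtain ⟨x, hx⟩ := (hτ.mem _).1 hc
    have hx' : τ x = ((∑ l, δ' (c l) * u l : L') : A') := hx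
    obtain ⟨b, rfl⟩ := (h.mem x).1 (((hK.basicR h hτ).1 x).1 (hx' ▸ Subtype.prop _))
    rw [hsum, frloca_sum hτ] at hx'
    intro l
    rw [← rgloca_inj h hτ hx']
    exact toK_mem _
  · choose b hb using fun l => (mem_GO_iff_range V).1 (hc l)
    change ((∑ l, δ' (c l) * u l : L') : A') ∈ O
    rw [hsum]
    simp only [← hb, ← frloca_sum hτ]
    exact frloca_mem hτ _

/-- A central element of the order is `τ z` with `z ∈ L` commuting with `δ`; apply `r` to
`(z - c) ^ n = m • y`. -/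
lemma FinK.localCentreR (hK : FinK τ δ w r α L' r' α') (h : FinR δ φ R₀ w w' a L r α)
    (hτ : Loca V τ O) (hloc : ∀ z, FixedBy (cjI V δ) ⊤ z → ∃ c : V, NilR V (z - c • 1)) :
    LocalCentre V (O.comap L'.val.toRingHom) := by
  intro z hz hc
  obtain ⟨x, hx⟩ := (hτ.mem _).1 hz
  have hx' : τ x = (z : A') := hx
  have hxL : x ∈ L := ((hK.basicR h hτ).1 x).1 (hx' ▸ z.2)
  obtain ⟨c, n, hn⟩ := hloc x (fixedBy_cjI_iff.2 fun u _ => hτ.inj (by
    have := congrArg Subtype.val (hc ⟨τ (δ u), rgloca_memL hK h hτ ((h.cu.mem h.mem).1 u)⟩)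
    rw [map_mul, map_mul, hx']
    exact this.symm))
  obtain ⟨m, hm, y, e⟩ := inMax_iff_valuation.1 hn
  have e' := congrArg r e
  rw [rgloca_r_self h (L.pow_mem (L.sub_mem hxL (L.smul_mem L.one_mem c)) n), map_smul] at e'
  refine ⟨c, c.2, n, m, mem_maximalIdeal_iff_nonunits.1 hm,
    ⟨τ (r y), rgloca_memL hK h hτ (h.r_mem y)⟩, frloca_mem hτ _, Subtype.ext ?_⟩
  change ((z : A') - algebraMap K A' c) ^ n = (m : K) • τ (r y)
  rw [← hτ.smul, ← e', map_pow, map_sub, hτ.smul, map_one, hx', Algebra.algebraMap_eq_smul_one]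

end Pool.Agent.Lib.MP_b6945b_al.St
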