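import Pool.Agent.Lib.MP_b6945b_al.Rl.GSet
import Pool.Agent.Lib.MP_b6945b_al.St.FrPB

set_option autoImplicit false

/-!
The permutation structure and the separability of the source algebras, relative version.
-/

namespace Pool.Agent.Lib.MP_b6945b_al.St

open IsLocalRing
open MonoidAlgebra (single)

variable {R D G E : Type} [CommRing R] [IsDomain R] [ValuationRing R] [CommGroup D] [Fintype D]
  [Group G] [Fintype G] [Group E] [Fintype E] {p : ℕ} {ι : D →* G} {φ : E →* MulAut D}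
  {e j : MonoidAlgebra R G} {U U' : E → MonoidAlgebra R G} {R₀ Q : Subgroup D}

lemma rgpb_coeff_mem (h : RSet p ι φ R₀ e j U U') {i : CA R ι Q}
    (hi : MinI R (caD R ι Q) (caJ h.supp Q) i) {T : Subgroup (D × D)} (hT : dg 1 Q ≤ T)
    (hP : ¬ PR φ R₀ Q T) {y y' : G} (hy : T ≤ stabP (biAct ι) y) (hy' : T ≤ stabP (biAct ι) y') :
    ((i : MonoidAlgebra R G) * single y 1 * (i : MonoidAlgebra R G)).coeff y' ∈ maximalIdeal R := by
  by_contra hc
  have hq : ∀ q ∈ Q, (q, q) ∈ T := fun q hq => hT (mem_dg.2 ⟨hq, rfl⟩)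
  have hS : Q ≤ T.map (MonoidHom.snd D D) := fun q hq' => ⟨(q, q), hq q hq', rfl⟩
  obtain ⟨l, hl, hl'⟩ := h.fusion hi (g := y) (fun q hq' => frpb_stab.1 (hy (hq q hq'))) hS
    (by
      rintro _ ⟨g, hg, rfl⟩
      exact ⟨g.1, frpb_stab.1 (hy hg)⟩)
    (by
      intro hm
      have h1 := inMax_monoidAlgebra_iff.1 hm (y' * y⁻¹)
      rw [coeff_brT, if_pos, frpb_coeff] at h1
      · exact hc h1
      · rintro _ ⟨_, ⟨_, ⟨g, hg, rfl⟩, rfl⟩, rfl⟩
        have h2 := frpb_stab.1 (hy hg)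
        have h3 := frpb_stab.1 (hy' hg)
        change y' * y⁻¹ * (y * ι g.2 * y⁻¹) = y * ι g.2 * y⁻¹ * (y' * y⁻¹)
        calc y' * y⁻¹ * (y * ι g.2 * y⁻¹) = y' * ι g.2 * y⁻¹ := by group
          _ = ι g.1 * y * y⁻¹ * (y' * y⁻¹) := by rw [h3]; group
          _ = _ := by rw [h2])
  have key : ∀ g ∈ T, g.1 = φ l g.2 := by
    intro g hg
    have h1 := frpb_stab.1 (hy hg)
    rw [hl' g.2 ⟨g, hg, rfl⟩] at h1
    exact (h.inj (mul_right_cancel h1)).symm
  refine hP ⟨l, T.map (MonoidHom.snd D D), hS, hl, ?_⟩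
  ext g
  rw [mem_dg]
  refine ⟨fun hg => ⟨⟨g, hg, rfl⟩, key g hg⟩, ?_⟩
  rintro ⟨⟨g', hg', h1⟩, h2⟩
  have h3 : g' = g := Prod.ext (by rw [key g' hg', h2]; exact congrArg _ h1) h1
  exact h3 ▸ hg'

/-- Let `F x = cproj (caP x)`, equivariant, `F a = a`.  Apply `perm_fixed_mem` for `biAct` with
`W` the preimage under `F` of the target.  For `y` in the support (it centralises the image of
`Q`, so `dg 1 Q ≤ stabP y`) that is not fixed by `T` the term is a proper trace.  If `y` is fixed by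
`T` let `S = T.map snd`; if `RSet.fusion` applied, `T = dg (φ l) S` would satisfy `PR`.  So the
coefficients of `x = i y i` at the `T`-fixed `y'` lie in the maximal ideal (`y' y⁻¹` centralises
`y S y⁻¹`), and `perm_fixed_mem'` for `x` finishes. -/
theorem RSet.fixed_mem (h : RSet p ι φ R₀ e j U U') {i : CA R ι Q}
    (hi : MinI R (caD R ι Q) (caJ h.supp Q) i) {T : Subgroup (D × D)} (hT : dg 1 Q ≤ T)
    (hP : ¬ PR φ R₀ Q T) {a : hi.idem.Corner} (ha : FixBi R hi.cor T a) :
    a ∈ lowSpan R hi.cor (dg 1 Q) T := by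
  refine frpb_low_cor (biI R (gD R ι)) (biAct ι) frpb_biI_single hi (caP R ι Q)
    (CA R ι Q).val.toLinearMap caP_equiv.1 caVal_equiv.1 caP_coe hT
    (fun m y hy => frpb_dg_le (m.2 y hy)) (fun m y hy hTy y' hTy' => ?_) ha
  change ((i : MonoidAlgebra R G) * brT R _ (single y 1) * (i : MonoidAlgebra R G)).coeff y' ∈
    maximalIdeal R
  rw [brT_of_suppCent (frpb_suppCent_single (m.2 y hy))]
  exact rgpb_coeff_mem h hi hT hP hTy hTy'

/-- `perm_mem_rk1span` for the truncation, `rk1span_comp` into the corner, `nak_induct` with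
`P T = trSpan (PR φ R₀ Q) T`, `rk1span_le_of_fixed`, and `rk1span_comp` back. -/
theorem RSet.pb (h : RSet p ι φ R₀ e j U U') {i : CA R ι Q}
    (hi : MinI R (caD R ι Q) (caJ h.supp Q) i) :
    sandw R i i ∈ rk1span (biI R (caD R ι Q)) (PR φ R₀ Q) ⊤ := by
  classical
  have h1 := perm_mem_rk1span (biI R (gD R ι)) (biAct ι) frpb_biI_single
    (fun y => ∀ s ∈ ((Q.map ι : Subgroup G) : Set G), y * s = s * y)
    (by
      rintro g y hy _ ⟨q, hq, rfl⟩
      have h2 := hy _ ⟨q, hq, rfl⟩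
      have h3 : ∀ u, ι u * ι q = ι q * ι u := fun u => by rw [← map_mul, mul_comm, map_mul]
      rw [biAct_apply, mul_assoc, h3, ← mul_assoc, mul_assoc _ y, h2, ← mul_assoc, h3]
      simp only [mul_assoc])
    (brT R ((Q.map ι : Subgroup G) : Set G))
    (fun y hy => brT_of_suppCent (frpb_suppCent_single hy))
    (fun y hy => by
      ext x
      rw [coeff_brT]
      split_ifs with hx
      · rw [MonoidAlgebra.coeff_single]
        exact Finsupp.single_eq_of_ne fun e => hy (e ▸ hx)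
      · rfl)
  have h2 := rk1span_comp (caP_equiv (Q := Q)).1 caVal_equiv.1 h1
  have h3 : caP R ι Q ∘ₗ brT R ((Q.map ι : Subgroup G) : Set G) ∘ₗ (CA R ι Q).val.toLinearMap =
      LinearMap.id := by
    refine LinearMap.ext fun x => ?_
    change caP R ι Q (brT R _ (x : MonoidAlgebra R G)) = x
    rw [brT_of_suppCent x.2, caP_coe]
  rw [h3] at h2
  refine frpb_pb_cor hi (B := dg 1 Q) ?_ h2 fun T hT hP a ha => h.fixed_mem hi hT hP ha
  rintro _ ⟨y, hy, rfl⟩
  exact frpb_dg_le hy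

lemma rgpb_trace (h : RSet p ι φ R₀ e j U U') {i : CA R ι Q}
    (hi : MinI R (caD R ι Q) (caJ h.supp Q) i) :
    ∃ a a' : CA R ι Q, FixedBy (cjI R (caD R ι Q)) ⊤ a ∧ FixedBy (cjI R (caD R ι Q)) ⊤ a' ∧
      ¬ NilR R (rtr (cjRep R G) ι.range (Subgroup.centralizer ((Q.map ι : Subgroup G) : Set G))
        ((a * i * a' : CA R ι Q) : MonoidAlgebra R G) * (i : MonoidAlgebra R G)) := by
  have := h.std.split.isAlgClosed
  have hpk : (p : ResidueField R) = 0 := by
    rw [← map_natCast (residue R), residue_eq_zero_iff]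
    exact h.std.pR
  have h1 := (h.locPt hi).toRes
  have h2 := h.block_mul hi 1 (T := Q.map ι)
    (by
      rintro _ ⟨q, -, rfl⟩
      exact ⟨ι q, ⟨q, rfl⟩, by simp⟩)
    (fun q hq => ⟨q, hq, by simp⟩)
  rw [map_one, Module.End.one_apply, brT_of_suppCent h1.supp] at h2
  have h3 : ∀ b, toRes R G e * b = b * toRes R G e := by
    intro b
    obtain ⟨b, rfl⟩ := toRes_surjective b
    rw [← map_mul, h.blk.cent, map_mul]
  obtain ⟨b, b', hb, hb', hf, hf', hn⟩ := h1.exists_trace h.std.prime hpk (suppCent_brT _ _)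
    (fun b hb => by rw [← brT_mul_right hb, h3, brT_mul_left hb]) h2
    (by
      intro y hy T hT hTy
      have h4 : e.coeff y ∉ maximalIdeal R := by
        intro h5
        apply hy
        rw [coeff_brT, coeff_toRes, (residue_eq_zero_iff _).2 h5, ite_self]
      have h5 : Nat.card ι.range = Nat.card D := by
        rw [MonoidHom.range_eq_map, Subgroup.card_map_of_injective h.inj, Subgroup.card_top]
      rw [h5]
      exact Nat.le_of_dvd Nat.card_pos (h.blk.bound y h4 T hT hTy))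
  obtain ⟨a, rfl, ha, haf⟩ := exists_lift_fixed b
  obtain ⟨a', rfl, ha', haf'⟩ := exists_lift_fixed b'
  refine ⟨⟨a, ha _ hb⟩, ⟨a', ha' _ hb'⟩, ?_, ?_, fun hN => hn ?_⟩
  · rw [ca_fixed_iff, ← MonoidHom.range_eq_map]
    exact haf _ hf
  · rw [ca_fixed_iff, ← MonoidHom.range_eq_map]
    exact haf' _ hf'
  · have h4 := (red_toRes G).nilR_iff.1 hN
    rw [map_mul, toRes_rtr] at h4
    change IsNilpotent (rtr _ _ _ (toRes R G (a * (i : MonoidAlgebra R G) * a')) * _) at h4
    rwa [map_mul (toRes R G), map_mul (toRes R G)] at h4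

/-- Let `C` be the centraliser of the image of `Q`, `P` the image of `D`, `i` from
`RSet.exists_min`.  `LocPt.exists_trace` over the residue field (`RSet.block_mul` with `g = 1`)
and `exists_lift_fixed` give `a`, `a'` such that `z = rtr P C (a i a')` has `z i` not nilpotent, so
`(z - c) i` is nilpotent with `c` a unit (`MinI.loc`).  With a transversal `g t` of `P` in `C`
(`exists_transversal`) put `x t = g t * a`, `y t = a' * (g t)⁻¹`; `∑ x t * w * y t = rtr P C (a w a')`
for fixed `w` (`rtr_eq_sum`).  The Mackey property is `mackey_mem` with `ca_rtr`. -/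
theorem RSet.sp (h : RSet p ι φ R₀ e j U U') (Q : Subgroup D) :
    SP R (caD R ι Q) (caJ h.supp Q) := by
  obtain ⟨i, hi⟩ := h.exists_min Q
  obtain ⟨a, a', ha, ha', hn⟩ := rgpb_trace h hi
  obtain ⟨n, t, -, ht, hu⟩ := exists_transversal (frpb_range_le ι Q)
  refine frpb_sp_abs hi (fixedBy_cjI_iff.2 fun u _ => h.caJ_comm Q u) (frpb_sep ht hu ha ha')
    (fun w hw => frpb_mackey ht hu ha ha' h.inj hw) fun hN => hn ?_
  rw [← frpb_sum_eq ht hu ha ha' (hi.fixed ⊤)]
  exact hN.map (CA R ι Q).val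

end Pool.Agent.Lib.MP_b6945b_al.St
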