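import Pool.Agent.Lib.MP_b6945b_al.Rl.GDefs
import Pool.Agent.Lib.MP_b6945b_al.St.FrSet

set_option autoImplicit false

/-!
Source idempotents of centralisers and control of fusion, relative version.
-/

namespace Pool.Agent.Lib.MP_b6945b_al.St

open IsLocalRing
open MonoidAlgebra (single)

variable {R D G E : Type} [CommRing R] [IsDomain R] [ValuationRing R] [CommGroup D] [Fintype D]
  [Group G] [Fintype G] [Group E] [Fintype E] {p : ℕ} {ι : D →* G} {φ : E →* MulAut D}
  {e j : MonoidAlgebra R G} {U U' : E → MonoidAlgebra R G} {R₀ Q : Subgroup D}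

lemma RSet.caJ_idem (h : RSet p ι φ R₀ e j U U') (Q : Subgroup D) :
    caJ h.supp Q * caJ h.supp Q = caJ h.supp Q := by
  exact Subtype.ext h.idem

lemma RSet.caJ_comm (h : RSet p ι φ R₀ e j U U') (Q : Subgroup D) (u : D) :
    caD R ι Q u * caJ h.supp Q = caJ h.supp Q * caD R ι Q u := by
  refine fixedBy_cjI_iff.1 (ca_fixed_iff.2 ?_) u (Subgroup.mem_top u)
  rw [← MonoidHom.range_eq_map]
  exact SuppCent.fixedBy h.supp

/-- `η = j`, `ca_sub_brT`, `RSet.span`. -/
lemma RSet.lg_top (h : RSet p ι φ R₀ e j U U') (Q : Subgroup D) :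
    LG R (caD R ι Q) (caJ h.supp Q) ⊤ := by
  have hJ : FixedBy (cjI R (caD R ι Q)) ⊤ (caJ h.supp Q) :=
    fixedBy_cjI_iff.2 fun u _ => h.caJ_comm Q u
  refine ⟨caJ h.supp Q, hJ, by rw [h.caJ_idem, h.caJ_idem], by rw [sub_self]; exact zero_mem _,
    fun z hz => ?_⟩
  have h1 := trM_mul_right hJ (trM_mul_left hJ (ca_sub_brT hz))
  rw [← MonoidHom.range_eq_map] at h1
  have hb : SuppCent (Set.range ι) (brT R (ι.range : Set G) (z : MonoidAlgebra R G)) :=
    suppCent_brT _ _
  obtain ⟨c, hc⟩ := h.span _ hb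
  refine ⟨c, ?_⟩
  have h2 : hatI R (caD R ι Q) c * caJ h.supp Q =
      caJ h.supp Q * caP R ι Q (brT R (ι.range : Set G) z) * caJ h.supp Q := by
    refine Subtype.ext ?_
    rw [MulMemClass.coe_mul, MulMemClass.coe_mul, MulMemClass.coe_mul, hatI_caD, caP_val, caJ_val,
      brT_of_suppCent (b := brT R (ι.range : Set G) z) (caJ hb Q).2, hc]
  rwa [h2, ← sub_mul, ← mul_sub]

lemma RSet.not_mem_trM (h : RSet p ι φ R₀ e j U U') (Q : Subgroup D) :
    caJ h.supp Q ∉ trM R (caD R ι Q) ⊤ := by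
  intro h1
  have h2 := inMax_brT_of_trM h.std h1
  rw [← MonoidHom.range_eq_map, caJ_val, brT_of_suppCent (S := (ι.range : Set G)) h.supp] at h2
  exact not_inMax_of_idem h.idem h.ne h2

lemma RSet.exists_min (h : RSet p ι φ R₀ e j U U') (Q : Subgroup D) :
    ∃ i, MinI R (caD R ι Q) (caJ h.supp Q) i := by
  exact exists_minI h.std (h.caJ_idem Q) (h.caJ_comm Q) (h.lg_top Q) (h.not_mem_trM Q)

lemma RSet.locPt (h : RSet p ι φ R₀ e j U U') {i : CA R ι Q}
    (hi : MinI R (caD R ι Q) (caJ h.supp Q) i) :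
    LocPt ((Q.map ι : Subgroup G) : Set G) ι.range (i : MonoidAlgebra R G) := by
  refine ⟨?_, i.2, congrArg Subtype.val hi.idem.eq, ?_, fun z hz hf => ?_,
    fun P' hP' z hz hf => ?_, fun h1 => hi.ne ?_⟩
  · rintro _ ⟨u, rfl⟩ _ ⟨q, -, rfl⟩
    rw [← map_mul, mul_comm, map_mul]
  · rw [MonoidHom.range_eq_map]
    exact ca_fixed_iff.1 (hi.fixed ⊤)
  · rw [MonoidHom.range_eq_map] at hf
    obtain ⟨c, hc⟩ := hi.loc ⟨z, hz⟩ (ca_fixed_iff.2 hf)
    exact ⟨c, hc.map (CA R ι Q).val⟩
  · have e1 : (P'.comap ι).map ι = P' := Subgroup.map_comap_eq_self hP'.le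
    have h1 : P'.comap ι < ⊤ := lt_top_iff_ne_top.2 fun h2 => hP'.ne (by
      rw [← e1, h2, MonoidHom.range_eq_map])
    have h2 : FixedBy (cjI R (caD R ι Q)) (P'.comap ι) ⟨z, hz⟩ := ca_fixed_iff.2 (by rwa [e1])
    have h3 := (hi.nt _ (rtr_mem_brK h1 h2)).map (CA R ι Q).val
    rw [map_mul, map_mul, Subalgebra.val_apply, Subalgebra.val_apply, ca_rtr h.inj le_top h2, e1,
      ← MonoidHom.range_eq_map] at h3
    exact h3
  · have h2 := idem_inMax_map (caP R ι Q) h1
    rwa [caP_coe] at h2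

lemma RSet.brT_min (h : RSet p ι φ R₀ e j U U') {i : CA R ι Q}
    (hi : MinI R (caD R ι Q) (caJ h.supp Q) i) :
    brT (ResidueField R) ι.range (toRes R G i) = toRes R G j := by
  have h1 := toRes_eq_zero_iff.2 (inMax_brT_of_trM h.std hi.sub)
  rw [← MonoidHom.range_eq_map, AddSubgroupClass.coe_sub, map_sub, caJ_val,
    brT_of_suppCent (S := (ι.range : Set G)) h.supp, map_sub, toRes_brT, sub_eq_zero] at h1
  exact h1.symm

lemma RSet.frset_pgroup (h : RSet p ι φ R₀ e j U U') (g : G) :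
    IsPGroup p (ι.range.map (MulAut.conj g).toMonoidHom) := by
  rw [MonoidHom.range_eq_map]
  exact ((h.std.pD.to_subgroup ⊤).map ι).map _

lemma RSet.frset_comm (h : RSet p ι φ R₀ e j U U') (b : MonoidAlgebra (ResidueField R) G) :
    toRes R G e * b = b * toRes R G e := by
  obtain ⟨w, rfl⟩ := toRes_surjective b
  rw [← map_mul, h.blk.cent, map_mul]

lemma RSet.frset_fixed (h : RSet p ι φ R₀ e j U U') (P : Subgroup G) :
    FixedBy (cjRep (ResidueField R) G) P (toRes R G e) :=
  fun g _ => fixedBy_top_iff.2 h.frset_comm g trivial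

lemma RSet.frset_cent (h : RSet p ι φ R₀ e j U U') {T : Set G}
    (b : MonoidAlgebra (ResidueField R) G) (hb : SuppCent T b) :
    brT (ResidueField R) T (toRes R G e) * b = b * brT (ResidueField R) T (toRes R G e) := by
  rw [← brT_mul_right hb, h.frset_comm, brT_mul_left hb]

lemma RSet.frset_locPt (h : RSet p ι φ R₀ e j U U') {i : CA R ι Q}
    (hi : MinI R (caD R ι Q) (caJ h.supp Q) i) (g : G) {T : Subgroup G}
    (hT : T ≤ ι.range.map (MulAut.conj g).toMonoidHom)
    (hQ : ∀ q ∈ Q, g * ι q * g⁻¹ ∈ T) :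
    LocPt (T : Set G) (ι.range.map (MulAut.conj g).toMonoidHom)
      (brT (ResidueField R) T (cjRep (ResidueField R) G g (toRes R G i))) := by
  have := h.std.split.isAlgClosed
  have h1 := ((h.locPt hi).toRes.conj g).brauer h.std.prime (frset_char h.std) (h.frset_pgroup g)
    hT (by
      rintro _ ⟨_, ⟨u, rfl⟩, rfl⟩ t ht
      obtain ⟨_, ⟨v, rfl⟩, rfl⟩ := hT ht
      rw [← map_mul, ← map_mul, mul_comm, map_mul, map_mul])
  rwa [Set.union_eq_self_of_subset_left] at h1
  rintro _ ⟨_, ⟨q, hq, rfl⟩, rfl⟩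
  exact hQ q hq

/-- If `T ≤ g D g⁻¹` then the truncation `f` of the block idempotent fixes the truncation of
`g i g⁻¹`: by `LocPt.central_idem` the product is `0` or everything, and its truncation to the
centraliser of `g D g⁻¹` is the conjugate of `j` (`RSet.br`). -/
lemma RSet.block_mul (h : RSet p ι φ R₀ e j U U') {i : CA R ι Q}
    (hi : MinI R (caD R ι Q) (caJ h.supp Q) i) (g : G) {T : Subgroup G}
    (hT : T ≤ ι.range.map (MulAut.conj g).toMonoidHom)
    (hQ : ∀ q ∈ Q, g * ι q * g⁻¹ ∈ T) :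
    brT (ResidueField R) T (toRes R G e) *
        brT (ResidueField R) T (cjRep (ResidueField R) G g (toRes R G i)) =
      brT (ResidueField R) T (cjRep (ResidueField R) G g (toRes R G i)) := by
  have := h.std.split.isAlgClosed
  have hP := h.frset_pgroup g
  have he := h.frset_fixed
  have h₂ := h.frset_locPt hi g hT hQ
  have hf : brT (ResidueField R) T (toRes R G e) * brT (ResidueField R) T (toRes R G e) =
      brT (ResidueField R) T (toRes R G e) := by
    rw [← frset_brT_mul h.std (hP.to_le hT) (he T) (he T), ← map_mul, h.blk.idem]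
  refine (h₂.central_idem hf (suppCent_brT _ _) h.frset_cent).resolve_left fun h0 => ?_
  have h1 := congrArg (brT (ResidueField R) (ι.range.map (MulAut.conj g).toMonoidHom)) h0
  rw [frset_brT_mul h.std hP (brT_fixed h₂.le (he _)) h₂.fix, brT_brT hT, brT_brT hT, map_zero,
    ← he ⊤ g trivial, frset_coe_conj, brT_cjRep, brT_cjRep, ← cjRep_mul, h.brT_min hi] at h1
  have hj : SuppCent (ι.range : Set G) (toRes R G j) := by
    rw [← h.brT_min hi]
    exact suppCent_brT _ _
  have h2 := toRes_eq_zero_iff.2 h.br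
  rw [toRes_brT, map_sub, map_mul, map_sub, ← MonoidHom.coe_range, brT_mul_right hj,
    brT_of_suppCent hj, sub_eq_zero] at h2
  rw [h2] at h1
  have h3 := congrArg (cjRep (ResidueField R) G g⁻¹) h1
  rw [Representation.inv_self_apply, map_zero] at h3
  exact not_inMax_of_idem h.idem h.ne (toRes_eq_zero_iff.1 h3)

/-- Let `P` be the image of `D`, `i₁`, `i₂` the truncations of `i`, `g i g⁻¹` (over the residue
field) to the centraliser of `T`; they are local points of `P` and `g P g⁻¹` (`LocPt.toRes`,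
`LocPt.conj`, `LocPt.brauer`; the image of `Q` lies in `T`) with `i₁ i₂ ≠ 0` (`brT_mul`).
`LocPt.exists_trace` (with `RSet.block_mul` and `BlockE.bound`) and `LocPt.exists_conj` give `h`
centralising `T` such that `n = h g` normalises `P` and `i₁ c (h i₂ h⁻¹) c' = i₁`.  Truncate to the
centraliser of `P`: `j c n j ≠ 0` (`RSet.brT_min`, `brT_cjRep`), lift `c` (`exists_lift_fixed`)
and use `RSet.fus`, `RSet.free`. -/
theorem RSet.fusion (h : RSet p ι φ R₀ e j U U') {i : CA R ι Q}
    (hi : MinI R (caD R ι Q) (caJ h.supp Q) i) {g : G} (hg : ∀ q ∈ Q, g * ι q = ι q * g)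
    {S : Subgroup D} (hS : Q ≤ S) (hgS : ∀ v ∈ S, ∃ u, g * ι v = ι u * g)
    (hn : ¬ InMax R (brT R (((S.map ι).map (MulAut.conj g).toMonoidHom : Subgroup G) : Set G)
      (i * cjRep R G g i))) :
    ∃ l, (¬ Q ≤ R₀ → l = 1) ∧ ∀ v ∈ S, g * ι v = ι (φ l v) * g := by
  have := h.std.split.isAlgClosed
  set T : Subgroup G := (S.map ι).map (MulAut.conj g).toMonoidHom with hTdef
  have hmem : ∀ v ∈ S, g * ι v * g⁻¹ ∈ T := fun v hv => ⟨_, ⟨v, hv, rfl⟩, rfl⟩
  have hT : T ≤ ι.range.map (MulAut.conj g).toMonoidHom :=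
    Subgroup.map_mono (Subgroup.map_le_range ι S)
  have hT' : T ≤ ι.range := by
    rintro _ ⟨_, ⟨v, hv, rfl⟩, rfl⟩
    obtain ⟨u, hu⟩ := hgS v hv
    exact ⟨u, (mul_inv_eq_iff_eq_mul.2 hu).symm⟩
  have hP := h.frset_pgroup g
  have hP₁ : IsPGroup p ι.range := by
    rw [MonoidHom.range_eq_map]
    exact (h.std.pD.to_subgroup ⊤).map ι
  have hl := (h.locPt hi).toRes
  have h₂ := h.frset_locPt hi g hT fun q hq => hmem q (hS hq)
  have h₁ : LocPt (T : Set G) ι.range (brT (ResidueField R) T (toRes R G i)) := by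
    have h1 := hl.brauer h.std.prime (frset_char h.std) hP₁ hT' (by
      rintro _ ⟨u, rfl⟩ t ht
      obtain ⟨v, rfl⟩ := hT' ht
      rw [← map_mul, mul_comm, map_mul])
    rwa [Set.union_eq_self_of_subset_left] at h1
    rintro _ ⟨q, hq, rfl⟩
    have h2 := hmem q (hS hq)
    rwa [hg q hq, mul_inv_cancel_right] at h2
  have h0 : brT (ResidueField R) T (toRes R G i) * 1 *
      brT (ResidueField R) T (cjRep (ResidueField R) G g (toRes R G i)) ≠ 0 := by
    intro h1
    refine hn (toRes_eq_zero_iff.1 ?_)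
    rw [toRes_brT, map_mul, frset_toRes_cj, frset_brT_mul h.std (hP.to_le hT)
      (fun u hu => hl.fix u (hT' hu)) (fun u hu => (hl.conj g).fix u (hT hu)), ← h1, mul_one]
  have hcard : ∀ x : G, Nat.card (ι.range.map (MulAut.conj x).toMonoidHom) = Nat.card ι.range :=
    fun x => Subgroup.card_map_of_injective (MulAut.conj x).injective
  obtain ⟨a, a', ha, ha', hf, hf', hnil⟩ := h₂.exists_trace h.std.prime (frset_char h.std)
    (suppCent_brT _ _) h.frset_cent (h.block_mul hi g hT fun q hq => hmem q (hS hq))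
    fun y hy T' hT₁ hT₂ => by
      have h1 : e.coeff y ∉ maximalIdeal R := fun h2 => hy (by
        rw [coeff_brT, coeff_toRes, (residue_eq_zero_iff _).2 h2, ite_self])
      rw [hcard, ← Nat.card_congr (MonoidHom.ofInjective h.inj).toEquiv]
      exact Nat.le_of_dvd Nat.card_pos (h.blk.bound y h1 T' hT₁ hT₂)
  obtain ⟨x, hx, hle, c, c', hc, hc', heq⟩ := h₁.exists_conj h₂ (centAlg _ _).one_mem h0 ha ha'
    hf hf' hnil
  have hfix : FixedBy (cjRep (ResidueField R) G) ι.range (cjRep (ResidueField R) G x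
      (brT (ResidueField R) T (cjRep (ResidueField R) G g (toRes R G i)))) :=
    fun u hu => (h₂.conj x).fix u (hle hu)
  have e1 : (ι.range.map (MulAut.conj g).toMonoidHom).map (MulAut.conj x).toMonoidHom =
      ι.range.map (MulAut.conj (x * g)).toMonoidHom := by
    rw [Subgroup.map_map, map_mul]
    rfl
  have e2 : ι.range = ι.range.map (MulAut.conj (x * g)).toMonoidHom :=
    Subgroup.eq_of_le_of_card_ge (e1 ▸ hle) (hcard _).le
  have hxT : ∀ t ∈ T, x * t * x⁻¹ = t := fun t ht => by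
    rw [← hx t ht, mul_inv_cancel_right]
  have e3 : (fun y => x * y * x⁻¹) '' (T : Set G) = T :=
    (Set.image_congr hxT).trans (Set.image_id' _)
  have e4 : brT (ResidueField R) ι.range (cjRep (ResidueField R) G x
      (brT (ResidueField R) T (cjRep (ResidueField R) G g (toRes R G i)))) =
      cjRep (ResidueField R) G (x * g) (toRes R G j) := by
    rw [← brT_cjRep, e3, brT_brT hT', ← Module.End.mul_apply (cjRep _ G x), ← map_mul,
      ← h.brT_min hi,
      ← brT_cjRep, ← frset_coe_conj, ← e2]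
  have hm : ∀ {b b' : MonoidAlgebra (ResidueField R) G},
      FixedBy (cjRep (ResidueField R) G) ι.range b → FixedBy (cjRep (ResidueField R) G) ι.range b' →
      FixedBy (cjRep (ResidueField R) G) ι.range (b * b') := fun hb hb' u hu => by
    rw [cjRep_mul, hb u hu, hb' u hu]
  have h1 := congrArg (brT (ResidueField R) ι.range) heq
  rw [frset_brT_mul h.std hP₁ (hm (hm h₁.fix hc) hfix) hc',
    frset_brT_mul h.std hP₁ (hm h₁.fix hc) hfix, frset_brT_mul h.std hP₁ h₁.fix hc, e4,
    brT_brT hT', h.brT_min hi] at h1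
  obtain ⟨w, hw, hw', -⟩ := exists_lift_fixed (brT (ResidueField R) ι.range c)
  obtain ⟨l, hl'⟩ := h.fus (x * g) (fun u => by
      obtain ⟨v, hv⟩ : (x * g) * ι u * (x * g)⁻¹ ∈ ι.range := by
        rw [e2]
        exact ⟨_, ⟨u, rfl⟩, rfl⟩
      exact ⟨v, by rw [hv, inv_mul_cancel_right]⟩) w (hw' _ (suppCent_brT _ _)) fun h2 => by
    have h3 := toRes_eq_zero_iff.2 h2
    rw [map_mul, map_mul, map_mul, hw, frset_toRes_single] at h3
    rw [cjRep_apply, ← mul_assoc, ← mul_assoc, h3, zero_mul, zero_mul] at h1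
    exact not_inMax_of_idem h.idem h.ne (toRes_eq_zero_iff.1 h1.symm)
  have key : ∀ v ∈ S, g * ι v = ι (φ l v) * g := fun v hv => by
    rw [← mul_inv_eq_iff_eq_mul, ← hxT _ (hmem v hv), ← mul_assoc, ← mul_assoc, hl' v]
    group
  refine ⟨l, fun hQ => ?_, key⟩
  by_contra hl
  refine hQ fun q hq => ?_
  have h2 := key q (hS hq)
  rw [hg q hq, mul_left_inj] at h2
  exact (h.free.fix l q (h.inj h2).symm).resolve_left hl

end Pool.Agent.Lib.MP_b6945b_al.St
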