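import Pool.Agent.Lib.MP_b6945b_al.Rl.GK2
import Pool.Agent.Lib.MP_b6945b_al.Rl.GGrp
import Pool.Agent.Lib.MP_b6945b_al.St.FrSrc

set_option autoImplicit false

/-!
A block whose inertial quotient acts freely on a nontrivial invariant subgroup of the defect group
has as many characters as its Brauer correspondent.
-/

namespace Pool.Agent.Lib.MP_b6945b_al.St

open IsLocalRing
open MonoidAlgebra (single)

section loc

variable {R G : Type} [CommRing R] [IsLocalRing R] [Group G] [Fintype G] {p : ℕ}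
  {H : Subgroup G} [Fintype H] {A E : Type} [CommGroup A] [Fintype A] [Group E] [Fintype E]
  {ι : A →* H} {φ : E →* MulAut A} {e : MonoidAlgebra R G} {f j : MonoidAlgebra R H}
  {U U' : E → MonoidAlgebra R H}

/-- Compare `SrcA.free`: apply `exists_rfree` to `T.comap (H.subtype.comp ι)`. -/
lemma SrcA.rfree (h : SrcA p ι φ f j U U') (hs : Std p R A)
    (hC : Subgroup.centralizer (Set.range (H.subtype.comp ι)) ≤ H)
    (hb : ∀ x : H, (∀ u, x * ι u = ι u * x) → e.coeff x - f.coeff x ∈ maximalIdeal R)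
    (hF : RelB e (H.subtype.comp ι).range) : ∃ R₀, RFree p φ R₀ := by
  obtain ⟨T, hTD, hT0, hT⟩ := hF (inc R H.subtype j) (by rw [← map_mul, h.idem])
    (fun h0 => h.ne (frsrc_inc_inj (h0.trans (map_zero _).symm))) (suppCent_inc.2 h.supp)
    (h.below hC hb)
  have key : ∀ l, ∀ u ∈ T.comap (H.subtype.comp ι),
      φ l u ∈ T.comap (H.subtype.comp ι) ∧ (φ l u = u → l = 1 ∨ u = 1) := by
    intro l u hu
    obtain ⟨n, hn, hz⟩ := h.stab l
    have hn' : ∀ v, (n : G) * (H.subtype.comp ι) v * (n : G)⁻¹ = (H.subtype.comp ι) (φ l v) :=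
      fun v => by
        rw [mul_inv_eq_iff_eq_mul]
        exact congrArg Subtype.val (hn v)
    have h1 := hT n (Subgroup.mem_normalizer_fintype (by
        rintro _ ⟨v, rfl⟩
        exact ⟨φ l v, (hn' v).symm⟩)) (fun z z1 z2 => ?_) _ hu
    · refine ⟨Subgroup.mem_comap.2 (hn' u ▸ h1.1), fun hl => ?_⟩
      rcases h1.2 (by
        have h2 := hn u
        rw [hl] at h2
        exact congrArg Subtype.val h2) with h1 | h1
      · exact Or.inr (h.inj ((Subtype.ext h1 : ι u = 1).trans (map_one ι).symm))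
      · refine Or.inl (h.faith l fun v => h.inj (mul_right_cancel (b := n) ?_))
        rw [← hn v]
        exact Subtype.ext (h1 _ ⟨v, rfl⟩)
    · have e1 := frsrc_pull hC z1
      have h2 := (hz (pull R H.subtype z) (suppCent_inc.1 (e1.symm ▸ z1)) fun g hg => by
        rw [← pull_cjRep, z2]
        refine Subgroup.mem_centralizer_iff.2 ?_
        rintro _ ⟨v, rfl⟩
        exact congrArg Subtype.val (Subgroup.mem_centralizer_iff.1 hg _ ⟨v, rfl⟩)).map
          (inc R H.subtype)
      rw [map_mul, map_sub, cjRep_apply, map_mul, map_mul, inc_single, inc_single, e1] at h2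
      exact h2
  refine exists_rfree hs.prime hs.pD h.card (T := T.comap (H.subtype.comp ι)) (fun h0 => hT0 ?_)
    (fun l u hu => (key l u hu).1) fun l u hu => (key l u hu).2
  refine (Subgroup.eq_bot_iff_forall T).2 fun x hx => ?_
  obtain ⟨u, rfl⟩ := hTD hx
  have hu : u ∈ T.comap (H.subtype.comp ι) := hx
  rw [h0, Subgroup.mem_bot] at hu
  rw [hu, map_one]

/-- Copy `SrcA.frSet`. -/
lemma SrcA.rSet (h : SrcA p ι φ f j U U') (hs : Std p R A)
    (hH : Subgroup.normalizer (Set.range (H.subtype.comp ι)) ≤ H)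
    (hb : ∀ x : H, (∀ u, x * ι u = ι u * x) → e.coeff x - f.coeff x ∈ maximalIdeal R)
    (hE : BlockE p (Nat.card A) e) {R₀ : Subgroup A} (hF : RFree p φ R₀) :
    RSet p (H.subtype.comp ι) φ R₀ e (inc R H.subtype j) (fun l => inc R H.subtype (U l))
      fun l => inc R H.subtype (U' l) := by
  have hC : Subgroup.centralizer (Set.range (H.subtype.comp ι)) ≤ H :=
    (Subgroup.centralizer_le_normalizer _).trans hH
  refine ⟨hs, H.subtype_injective.comp h.inj, hF, h.card, hE,
    by rw [← map_mul, h.idem], suppCent_inc.2 h.supp,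
    fun h0 => h.ne (frsrc_inc_inj (h0.trans (map_zero _).symm)), h.below hC hb, fun b hb' => ?_,
    fun l => by rw [← map_mul, ← map_mul, h.cut], fun l => by rw [← map_mul, ← map_mul, h.cut'],
    fun l => by rw [← map_mul, h.inv], fun l => by rw [← map_mul, h.inv'], fun l g hg u => ?_,
    fun l g hg u => ?_, fun g hg b hb' h0 => ?_⟩
  · have e1 := frsrc_pull hC hb'
    obtain ⟨c, hc⟩ := h.spanC (pull R H.subtype b) (suppCent_inc.1 (e1.symm ▸ hb'))
    exact ⟨c, by rw [← e1, ← map_mul, ← map_mul, hc, map_mul, frsrc_inc_inc]⟩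
  · obtain ⟨y, rfl, hy⟩ := frsrc_coeff hg
    exact congrArg Subtype.val (h.deg l y hy u)
  · obtain ⟨y, rfl, hy⟩ := frsrc_coeff hg
    exact congrArg Subtype.val (h.deg' l y hy u)
  · have hgH : g ∈ H := hH (Subgroup.mem_normalizer_fintype (by
      rintro _ ⟨v, rfl⟩
      obtain ⟨w, hw⟩ := hg v
      exact ⟨w, by rw [hw, mul_inv_cancel_right]⟩))
    have e1 := frsrc_pull hC hb'
    obtain ⟨l, hl⟩ := h.fus ⟨g, hgH⟩ (pull R H.subtype b) (suppCent_inc.1 (e1.symm ▸ hb'))
      fun h1 => h0 (by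
        have h2 := congrArg (inc R H.subtype) h1
        rw [map_mul, map_mul, map_mul, inc_single, e1, map_zero] at h2
        exact (show _ = _ from h2) ▸ Submodule.zero_mem _)
    exact ⟨l, fun u => congrArg Subtype.val (hl u)⟩

/-- The local block itself; `f * j - j = 0`. -/
lemma SrcA.rSet_self (h : SrcA p ι φ f j U U') (hs : Std p R A) (hE : BlockE p (Nat.card A) f)
    {R₀ : Subgroup A} (hF : RFree p φ R₀) : RSet p ι φ R₀ f j U U' := by
  refine ⟨hs, h.inj, hF, h.card, hE, h.idem, h.supp, h.ne, ?_, h.spanC, h.cut, h.cut', h.inv,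
    h.inv', h.deg, h.deg', fun g _ b hb h0 => h.fus g b hb fun h1 => h0 ?_⟩
  · rw [h.le, sub_self, map_zero]
    exact Submodule.zero_mem _
  · rw [h1]
    exact Submodule.zero_mem _

end loc

variable {K : Type} [Field K] {V : ValuationSubring K} {G : Type} [Group G] [Fintype G] {p : ℕ}

/-- Copy `finrank_eq_free`; both sides are computed by `RSet.finrank`. -/
theorem finrank_eq_rel [CharZero K] [IsAlgClosed K] (hp : p.Prime) (hpV : (p : K) ∈ V.nonunits)
    {D H : Subgroup G} [Fintype H] (hH : H = Subgroup.normalizer (D : Set G))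
    (hD : IsPGroup p D) (hc : ∀ x ∈ D, ∀ y ∈ D, x * y = y * x)
    {e : MonoidAlgebra V G} {f a : MonoidAlgebra V H} (hE : BlockE p (Nat.card D) e)
    (hE' : BlockE p (Nat.card D) f) (hF : BlockF (D.subgroupOf H) f a)
    (hb : ∀ h : H, (∀ δ ∈ D.subgroupOf H, h * δ = δ * h) → e.coeff h - f.coeff h ∈ maximalIdeal V)
    (hrel : RelB e D) :
    Module.finrank K (Subalgebra.center K (idem_toK hE.idem).Corner) =
      Module.finrank K (Subalgebra.center K (idem_toK hF.idem).Corner) := by
  have hpR := natCast_mem_maximalIdeal hpV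
  have hR := monicSplit_valuationSubring V
  have hDH : D ≤ H := hH ▸ Subgroup.le_normalizer
  have hN : (D.subgroupOf H).Normal := (Subgroup.normal_subgroupOf_iff_le_normalizer hDH).2 hH.le
  obtain ⟨A, _, _, E, _, _, ι, φ, j, U, U', hι, h⟩ := exists_srcA hR hp hpR
    (D := D.subgroupOf H) hD.comap_subtype (fun x hx y hy => Subtype.ext (hc _ hx _ hy)) hF
  have hr : (H.subtype.comp ι).range = D := by
    rw [MonoidHom.range_comp, hι, Subgroup.subgroupOf_map_subtype, inf_eq_left.2 hDH]
  subst hr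
  have hi : Function.Injective (H.subtype.comp ι) := H.subtype_injective.comp h.inj
  have eA := MonoidHom.ofInjective hi
  have hs : Std p V A := ⟨hR, hp, hpR, hD.of_equiv eA.symm⟩
  have hb' : ∀ x : H, (∀ u, x * ι u = ι u * x) → e.coeff x - f.coeff x ∈ maximalIdeal V :=
    fun x hx => hb x (by
      rw [← hι]
      rintro _ ⟨u, rfl⟩
      exact hx u)
  obtain ⟨R₀, hR₀⟩ := h.rfree hs ((Subgroup.centralizer_le_normalizer _).trans hH.ge) hb' hrel
  have hS := h.rSet hs hH.ge hb' (Nat.card_congr eA.toEquiv ▸ hE) hR₀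
  have hS' := h.rSet_self hs (Nat.card_congr eA.toEquiv ▸ hE') hR₀
  exact hS.finrank.trans hS'.finrank.symm

end Pool.Agent.Lib.MP_b6945b_al.St
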