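import Pool.Agent.Lib.MP_b6945b_al.Kx.ZCy

set_option autoImplicit false

/-!
Groups with an abelian Sylow subgroup whose automizer acts freely or is cyclic of prime power
order: every block of positive defect satisfies `RelInertia`.
-/

namespace Pool.Agent.Lib.MP_b6945b_al.Kx

open Subgroup

variable {G : Type} [Group G] {p : ℕ}

lemma gsyl_mem (S : Sylow p G) (g x : G) :
    x ∈ ((g • S : Sylow p G) : Subgroup G) ↔ g⁻¹ * x * g ∈ (S : Subgroup G) := by
  rw [Sylow.coe_subgroup_smul, Subgroup.mem_pointwise_smul_iff_inv_smul_mem, ← map_inv,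
    MulAut.smul_def, MulAut.conj_apply, inv_inv]

lemma gsyl_norm (S : Sylow p G) (g n : G) :
    n ∈ normalizer (((g • S : Sylow p G) : Subgroup G) : Set G) ↔
      g⁻¹ * n * g ∈ normalizer ((S : Subgroup G) : Set G) := by
  rw [Sylow.coe_coe, Sylow.coe_coe, ← Sylow.smul_eq_iff_mem_normalizer,
    ← Sylow.smul_eq_iff_mem_normalizer, mul_smul, mul_smul, inv_smul_eq_iff]

lemma gsyl_cent (S : Sylow p G) (g n : G) :
    n ∈ centralizer (((g • S : Sylow p G) : Subgroup G) : Set G) ↔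
      g⁻¹ * n * g ∈ centralizer ((S : Subgroup G) : Set G) := by
  simp only [mem_centralizer_iff, SetLike.mem_coe, gsyl_mem]
  constructor
  · intro h x hx
    have h1 := h (g * x * g⁻¹) (by simpa [mul_assoc] using hx)
    calc x * (g⁻¹ * n * g) = g⁻¹ * (g * x * g⁻¹ * n) * g := by group
      _ = g⁻¹ * n * g * x := by rw [h1]; group
  · intro h x hx
    calc x * n = g * (g⁻¹ * x * g * (g⁻¹ * n * g)) * g⁻¹ := by group
      _ = n * x := by rw [h _ hx]; group

/-- Fusion of a subgroup of an abelian Sylow subgroup is controlled by the normaliser. -/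
lemma gsyl_frattini [Finite G] [Fact p.Prime] (Q : Sylow p G) {D : Subgroup G}
    (hQ : D ≤ Q) (hc : ∀ x ∈ (Q : Subgroup G), ∀ y ∈ (Q : Subgroup G), x * y = y * x) {n : G}
    (hn : n ∈ normalizer (D : Set G)) :
    ∃ c ∈ centralizer (D : Set G), c * n ∈ normalizer ((Q : Subgroup G) : Set G) := by
  have h1 : (Q : Subgroup G) ≤ centralizer (D : Set G) := fun x hx d hd => hc d (hQ hd) x hx
  have h2 : ((n • Q : Sylow p G) : Subgroup G) ≤ centralizer (D : Set G) := fun x hx d hd => by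
    have h3 := hc _ (hQ ((mem_normalizer_iff''.1 hn d).1 hd)) _ ((gsyl_mem Q n x).1 hx)
    calc d * x = n * (n⁻¹ * d * n * (n⁻¹ * x * n)) * n⁻¹ := by group
      _ = x * d := by rw [h3]; group
  obtain ⟨h, hh⟩ :=
    MulAction.exists_smul_eq (centralizer (D : Set G)) ((n • Q).subtype h2) (Q.subtype h1)
  simp_rw [Sylow.smul_subtype, Subgroup.smul_def, smul_smul] at hh
  exact ⟨h, h.2, Sylow.smul_eq_iff_mem_normalizer.mp (Sylow.subtype_injective hh)⟩

lemma gsyl_cn {D : Subgroup G} [Finite G] {c : G} (hc : c ∈ centralizer (D : Set G)) :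
    c ∈ normalizer (D : Set G) :=
  mem_normalizer_fintype fun u hu => by rwa [← hc u hu, mul_inv_cancel_right]

theorem relInertia_of_sylow [Finite G] (hp : p.Prime) (S : Sylow p G)
    (hc : ∀ x ∈ (S : Subgroup G), ∀ y ∈ (S : Subgroup G), x * y = y * x)
    (h : (∀ n ∈ normalizer ((S : Subgroup G) : Set G), ∀ u ∈ (S : Subgroup G), n * u = u * n →
        u = 1 ∨ n ∈ centralizer ((S : Subgroup G) : Set G)) ∨
      ∃ (s : G) (q k : ℕ), q.Prime ∧ q ≠ p ∧ s ∈ normalizer ((S : Subgroup G) : Set G) ∧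
        s ^ q ^ k ∈ centralizer ((S : Subgroup G) : Set G) ∧
        ∀ t ∈ normalizer ((S : Subgroup G) : Set G),
          ∃ i : ℕ, (s ^ i)⁻¹ * t ∈ centralizer ((S : Subgroup G) : Set G))
    {M : Ideal (integralClosure ℤ ℂ)} {χ : G → ℂ} {D : Subgroup G} (hD : IsPGroup p D)
    (h0 : D ≠ ⊥) : (∀ x ∈ D, ∀ y ∈ D, x * y = y * x) ∧ RelInertia M χ D := by
  have : Fact p.Prime := ⟨hp⟩
  obtain ⟨Q, hQ⟩ := hD.exists_le_sylow
  obtain ⟨g, rfl⟩ := MulAction.exists_smul_eq G S Q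
  have hc' : ∀ x ∈ ((g • S : Sylow p G) : Subgroup G), ∀ y ∈ ((g • S : Sylow p G) : Subgroup G),
      x * y = y * x := fun x hx y hy => by
    have h3 := hc _ ((gsyl_mem S g x).1 hx) _ ((gsyl_mem S g y).1 hy)
    calc x * y = g * (g⁻¹ * x * g * (g⁻¹ * y * g)) * g⁻¹ := by group
      _ = y * x := by rw [h3]; group
  have hCC : centralizer (((g • S : Sylow p G) : Subgroup G) : Set G) ≤ centralizer (D : Set G) :=
    centralizer_le hQ
  have hcD : ∀ x ∈ D, ∀ y ∈ D, x * y = y * x := fun x hx y hy => hc' x (hQ hx) y (hQ hy)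
  refine ⟨hcD, ?_⟩
  rcases h with h | ⟨s, q, k, hq, hne, hs, h1, h2⟩
  · refine fun ψ _ _ => ⟨D, le_rfl, h0, fun n hn _ u hu =>
      ⟨(mem_normalizer_iff.1 hn u).1 hu, fun e => ?_⟩⟩
    obtain ⟨c, hcc, hm⟩ := gsyl_frattini (g • S) hQ hc' hn
    have e1 : g⁻¹ * (c * n) * g * (g⁻¹ * u * g) = g⁻¹ * u * g * (g⁻¹ * (c * n) * g) := by
      calc g⁻¹ * (c * n) * g * (g⁻¹ * u * g) = g⁻¹ * (c * (n * u)) * g := by group
        _ = g⁻¹ * (u * c * n) * g := by rw [e, ← mul_assoc c, hcc u hu]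
        _ = _ := by group
    rcases h _ ((gsyl_norm S g _).1 hm) _ ((gsyl_mem S g u).1 (hQ hu)) e1 with h3 | h3
    · left
      calc u = g * (g⁻¹ * u * g) * g⁻¹ := by group
        _ = 1 := by rw [h3]; group
    · right
      exact (Subgroup.mul_mem_cancel_left _ hcc).1 (hCC ((gsyl_cent S g _).2 h3))
  · set s' := g * s * g⁻¹ with hs'
    have hpw : ∀ i : ℕ, g⁻¹ * s' ^ i * g = s ^ i := fun i => by
      rw [hs', conj_pow]
      group
    have hcy : IsCyclic (zpowers s' ⊓ normalizer (D : Set G) : Subgroup G) :=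
      isCyclic_of_injective (inclusion inf_le_left) (inclusion_injective _)
    obtain ⟨s0, hs0⟩ := hcy.exists_monoid_generator
    obtain ⟨j, hj⟩ := (mem_powers_iff_mem_zpowers.2 s0.2.1 : (s0 : G) ∈ Submonoid.powers s')
    refine relInertia_of_cyclic hp hD h0 hcD fun ψ _ _ => ⟨s0, q, k, hq, hne, s0.2.2, ?_, ?_⟩
    · rw [← hj, ← pow_mul, mul_comm j, pow_mul]
      exact pow_mem (hCC ((gsyl_cent S g _).2 (by rwa [hpw]))) j
    · intro t ht
      obtain ⟨c, hcc, hm⟩ := gsyl_frattini (g • S) hQ hc' ht.1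
      obtain ⟨i, hi⟩ := h2 _ ((gsyl_norm S g _).1 hm)
      have h3 : (s' ^ i)⁻¹ * (c * t) ∈ centralizer (D : Set G) :=
        hCC ((gsyl_cent S g _).2 (by
          have e : g⁻¹ * ((s' ^ i)⁻¹ * (c * t)) * g =
              (g⁻¹ * s' ^ i * g)⁻¹ * (g⁻¹ * (c * t) * g) := by group
          rwa [e, hpw]))
      have h4 : s' ^ i ∈ normalizer (D : Set G) :=
        inv_mem_iff.1 ((Subgroup.mul_mem_cancel_right _
          (mul_mem (gsyl_cn hcc) ht.1)).1 (gsyl_cn h3))
      obtain ⟨l, hl⟩ := hs0 ⟨s' ^ i, pow_mem (mem_zpowers s') i, h4⟩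
      have hl' : (s0 : G) ^ l = s' ^ i := congrArg Subtype.val hl
      refine ⟨l, ?_⟩
      have h5 : t⁻¹ * c * t ∈ centralizer (D : Set G) := fun d hd => by
        have h6 := hcc _ ((mem_normalizer_iff.1 ht.1 d).1 hd)
        calc d * (t⁻¹ * c * t) = t⁻¹ * (t * d * t⁻¹ * c) * t := by group
          _ = t⁻¹ * c * t * d := by rw [h6]; group
      have e : (s' ^ i)⁻¹ * (c * t) = (s' ^ i)⁻¹ * t * (t⁻¹ * c * t) := by group
      rw [hl']
      rw [e] at h3
      exact (Subgroup.mul_mem_cancel_right _ h5).1 h3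

end Pool.Agent.Lib.MP_b6945b_al.Kx
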