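import Pool.Agent.Lib.MP_b6945b_al.Rl.GLink
import Pool.Agent.Lib.MP_b6945b_al.Rl.GCor
import Pool.Agent.Lib.MP_b6945b_al.St.FrTower

set_option autoImplicit false

/-!
The tower of endotrivial twists over the subgroups that do not lie in `R₀`.
-/

namespace Pool.Agent.Lib.MP_b6945b_al.St

open IsLocalRing
open MonoidAlgebra (single)

variable {R D G E : Type} [CommRing R] [IsDomain R] [ValuationRing R] [CommGroup D] [Fintype D]
  [Group G] [Fintype G] [Group E] [Fintype E] {p : ℕ} {ι : D →* G} {φ : E →* MulAut D}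
  {e j : MonoidAlgebra R G} {U U' : E → MonoidAlgebra R G} {R₀ Q : Subgroup D}

/-- The source idempotent at level `Q`. -/
noncomputable abbrev RJ (h : RSet p ι φ R₀ e j U U') (X : MRep R D) (Q : Subgroup D) :
    Matrix X.κ X.κ (CA R ι Q) := Matrix.scalar X.κ (caJ h.supp Q)

/-- `X` trivialises all levels above `Q` that do not lie in `R₀`. -/
structure RLvl (h : RSet p ι φ R₀ e j U U') (Q : Subgroup D) (X : MRep R D) : Prop where
  np : NP p (Q ≤ ·) X.s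
  triv : ∀ q ∈ Q, X.s q = 1
  lg : ∀ S, Q < S → ¬ S ≤ R₀ → LG R (TD ι X Q) (RJ h X Q) S
  tw : Q = ⊥ → ∀ l, TwIso (φ l) X.s X.s

/-- `W` trivialises level `Q`, in the canonical way. -/
structure RStep (h : RSet p ι φ R₀ e j U U') (Q : Subgroup D) (X W : MRep R D) : Prop where
  endo : Endo p Q W.s
  lg : LG R (TD ι (W.kron X) Q) (RJ h (W.kron X) Q) Q
  canon : ∃ (ε : Matrix X.κ X.κ (CA R ι Q)) (hε : MinI R (TD ι X Q) (RJ h X Q) ε),
    Canon hε.cor (dualS W.s)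

open Classical in
/-- The subgroups above `Q` that do not lie in `R₀`. -/
noncomputable def upSet (R₀ Q : Subgroup D) : Finset (Subgroup D) :=
  Finset.univ.filter fun S => Q < S ∧ ¬ S ≤ R₀

lemma mem_upSet {S : Subgroup D} : S ∈ upSet R₀ Q ↔ Q < S ∧ ¬ S ≤ R₀ := by
  simp only [upSet, Finset.mem_filter, Finset.mem_univ, true_and]

omit [IsDomain R] [ValuationRing R] [Fintype E] in
lemma rgtower_tw (hR : RFree p φ R₀) (l : E) {W : Subgroup D → MRep R D}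
    (hW : ∀ S ∈ upSet R₀ Q, TwIso (φ l) (W S).s (W (S.map (φ l).toMonoidHom)).s)
    {X X' : MRep R D} (hX : MCl.mk X = ∏ Q' ∈ upSet R₀ Q, MCl.mk (W Q'))
    (hX' : MCl.mk X' = ∏ Q' ∈ upSet R₀ (Q.map (φ l).toMonoidHom), MCl.mk (W Q')) :
    TwIso (φ l) X.s X'.s :=
  MCl.twIso_prod _ _ W (MulEquiv.mapSubgroup (φ l)).toEquiv
    (fun S => by
      rw [mem_upSet, mem_upSet]
      exact and_congr (frtower_lt (φ l) Q S).symm (hR.map_le_iff l S).symm.not)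
    hW hX hX'

variable {h : RSet p ι φ R₀ e j U U'} {X : MRep R D}

lemma RLvl.cent (hX : RLvl h Q X) : ∀ q ∈ Q, ∀ a, TD ι X Q q * a = a * TD ι X Q q := by
  intro q hq a
  exact frtower_cent (s := X.s) (δ := caD R ι Q) (hX.triv q hq) (caD_cent q hq) a

lemma RLvl.exists_min (hX : RLvl h Q X) (hQ : Q ≠ ⊤) : ∃ ε, MinI R (TD ι X Q) (RJ h X Q) ε := by
  have hn := bouc_unit h.std.prime h.std.pR hX.np.card
  refine exists_minI h.std ?_ (fun u => frtower_comm u (h.caJ_comm Q u))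
    (hX.lg ⊤ (lt_top_iff_ne_top.mpr hQ) fun h1 => h.free.ne_top (top_le_iff.1 h1))
    fun hm => h.not_mem_trM Q (mem_trM_of_scalar hn hm)
  rw [← map_mul, h.caJ_idem]

lemma RLvl.nilI (hX : RLvl h Q X) (hQ : Q ≠ ⊤) (hQ0 : ¬ Q ≤ R₀) {ε : Matrix X.κ X.κ (CA R ι Q)}
    (hε : MinI R (TD ι X Q) (RJ h X Q) ε) : NilI R hε.cor Q := by
  refine (hε.corI h.std hX.cent (fun S hS => hX.lg S hS fun h1 => hQ0 (hS.le.trans h1))
    (SP.matrix (bouc_unit h.std.prime h.std.pR hX.np.card) (h.sp Q))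
    (h.pl hX.np (Or.inr hQ0) hX.tw)).nilI hQ ?_
  rintro S ⟨l, S', h1, h2, h3⟩
  exact ⟨S', h1, by rw [h3, h2 hQ0, map_one]⟩

lemma RLvl.corR {X : MRep R D} (hX : RLvl h ⊥ X) {ε : Matrix X.κ X.κ (CA R ι ⊥)}
    (hε : MinI R (TD ι X ⊥) (RJ h X ⊥) ε) : CorR R hε.cor φ R₀ := by
  obtain ⟨I, h1, h2, h3⟩ := h.pl hX.np (Or.inl rfl) hX.tw
  refine hε.corR h.std (fun S hS => hX.lg S (bot_lt_iff_ne_bot.2 fun h0 => hS (h0 ▸ bot_le)) hS)
    (SP.matrix (bouc_unit h.std.prime h.std.pR hX.np.card) (h.sp ⊥))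
    ⟨I, h1, h2, rk1span_mono ?_ h3⟩
  rintro S - ⟨l, S', -, -, h4⟩
  exact ⟨l, S', h4⟩

theorem RLvl.exists_step (hX : RLvl h Q X) (hQ : Q ≠ ⊤) (hQ0 : ¬ Q ≤ R₀) :
    ∃ W, RStep h Q X W := by
  obtain ⟨ε, hε⟩ := hX.exists_min hQ
  have hnil := hX.nilI hQ hQ0 hε
  obtain ⟨n, s, hn, hc⟩ := hnil.exists_canon h.std
  obtain ⟨hE, j', hj, h1, h2⟩ := hnil.twist h.std (by rwa [Fintype.card_fin]) hc
  have hl := (hε.lg_of_twist hX.cent hE.triv hj h1 h2).map_equiv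
    (Matrix.compAlgEquiv (Fin n) X.κ (CA R ι Q) R) (comp_tenI (dualS s) X.s (caD R ι Q))
  rw [comp_scalar] at hl
  refine ⟨{ κ := Fin n, s := dualS s }, hE, hl, ε, hε, ?_⟩
  change Canon hε.cor (dualS (dualS s))
  rw [dualS_dualS]
  exact hc

theorem RStep.twIso (hX : RLvl h Q X) (hQ : Q ≠ ⊤) (hQ0 : ¬ Q ≤ R₀) {l : E} {Q' : Subgroup D}
    (hQ' : Q' = Q.map (φ l).toMonoidHom) {X' W W' : MRep R D} (hXX : TwIso (φ l) X.s X'.s)
    (hW : RStep h Q X W) (hW' : RStep h Q' X' W') : TwIso (φ l) W.s W'.s := by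
  obtain ⟨Φ, Ψ, htp⟩ := exists_tp h.supp h.idem (h.cut l) (h.cut' l) (h.inv l) (h.inv' l)
    (h.deg l) (h.deg' l) hXX hQ'
  obtain ⟨ε, hε, hc⟩ := hW.canon
  obtain ⟨ε', hε', hc'⟩ := hW'.canon
  obtain ⟨σ, hσ⟩ := htp.exists_equiv h.std hε hε'
  have := frtower_nonempty hW.endo.card
  have := frtower_nonempty hW'.endo.card
  have h1 := (twIso_comp_iff.mp
    ((hX.nilI hQ hQ0 hε).canon_unique h.std hc (Canon.equiv σ hσ hc'))).dual
  rwa [dualS_dualS, dualS_dualS] at h1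

open Classical in
/-- The family `W` is good at all subgroups of index at most `m` that do not lie in `R₀`. -/
def RGood (h : RSet p ι φ R₀ e j U U') (m : ℕ) (W : Subgroup D → MRep R D) : Prop :=
  ∀ Q : Subgroup D, ¬ Q ≤ R₀ → Q.index ≤ m → Endo p Q (W Q).s ∧
    (∀ l, TwIso (φ l) (W Q).s (W (Q.map (φ l).toMonoidHom)).s) ∧
    ∀ X : MRep R D, MCl.mk X = ∏ Q' ∈ Finset.univ.filter (Q ≤ ·), MCl.mk (W Q') →
      LG R (TD ι X Q) (RJ h X Q) Q

open Classical in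
theorem RGood.lvl {m : ℕ} {W : Subgroup D → MRep R D} (hW : RGood h m W)
    (hQ : ∀ S, Q < S → S.index ≤ m)
    (hX : MCl.mk X = ∏ Q' ∈ upSet R₀ Q, MCl.mk (W Q')) : RLvl h Q X := by
  have hg := fun S (hS : S ∈ upSet R₀ Q) => hW S (mem_upSet.1 hS).2 (hQ S (mem_upSet.1 hS).1)
  refine ⟨frtower_np h.std (fun _ _ => le_inf) _ W (fun S hS => ?_) hX,
    frtower_triv Q _ W (fun S hS q hq => ?_) hX, fun S hS hSR => ?_, fun hQ0 l => ?_⟩
  · exact (hg S hS).1.np (mem_upSet.1 hS).1.le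
  · exact (hg S hS).1.triv q ((mem_upSet.1 hS).1.le hq)
  · obtain ⟨X', hX'⟩ := MCl.exists_rep (∏ Q' ∈ Finset.univ.filter (S ≤ ·), MCl.mk (W Q'))
    obtain ⟨Y, hY⟩ := MCl.exists_rep
      (∏ Q' ∈ (upSet R₀ Q).filter (fun Q' => ¬ S ≤ Q'), MCl.mk (W Q'))
    have hup : ∀ T, S ≤ T → T ∈ upSet R₀ Q := fun T hT =>
      mem_upSet.2 ⟨hS.trans_le hT, fun h1 => hSR (hT.trans h1)⟩
    have h1 : ∀ q ∈ S, X'.s q = 1 := frtower_triv S _ W (fun T hT q hq => by
      have hT' := (Finset.mem_filter.mp hT).2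
      exact (hg T (hup T hT')).1.triv q (hT' hq)) hX'
    have h2 : NP p (fun S' => ¬ S ≤ S') Y.s := frtower_np h.std
      (fun _ _ h1 _ h3 => h1 (h3.trans inf_le_left)) _ W (fun T hT => by
        obtain ⟨hT1, hT2⟩ := Finset.mem_filter.mp hT
        exact (hg T hT1).1.np hT2) hY
    have h3 : MCl.mk (Y.kron X') = MCl.mk X := by
      rw [MCl.mk_kron, hX, hY, hX', mul_comm,
        ← Finset.prod_filter_mul_prod_filter_not (upSet R₀ Q) (S ≤ ·)]
      congr 2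
      ext T
      simp only [Finset.mem_filter, Finset.mem_univ, true_and]
      exact ⟨fun hT => ⟨hup T hT, hT⟩, fun hT => hT.2⟩
    exact h.lg_iso (MCl.mk_eq.mp h3)
      (lg_kron h.std h.supp hS.le h1 h2 ((hg S (hup S le_rfl)).2.2 X' hX'))
  · refine rgtower_tw h.free l (fun S hS => (hg S hS).2.1 l) hX ?_
    rw [hX, hQ0, Subgroup.map_bot]

lemma rGood_one (h : RSet p ι φ R₀ e j U U') : RGood h 1 fun _ => MRep.one R D := by
  intro Q _ hQ
  obtain rfl : Q = ⊤ := by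
    rw [← Subgroup.index_eq_one]
    have := Q.index_ne_zero_of_finite
    omega
  refine ⟨⟨fun _ _ => rfl, (np_one (R := R) (D := D) (Pr := fun _ => True) h.std.prime).card,
    0, fun m => ?_⟩, fun l => ⟨1, 1, mul_one _, mul_one _, fun _ => rfl⟩, fun X hX => ?_⟩
  · rw [map_zero, LinearMap.zero_apply, add_zero, ntr_apply]
    exact frtower_unit m
  · have h1 : MCl.mk (MRep.one R D) = MCl.mk X :=
      MCl.mk_one.trans (hX.trans (Finset.prod_eq_one fun _ _ => MCl.mk_one)).symm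
    exact h.lg_iso (MCl.mk_eq.mp h1) h.lg_base

theorem RGood.succ {m : ℕ} (hm : 1 ≤ m) {W : Subgroup D → MRep R D} (hW : RGood h m W) :
    ∃ W', RGood h (m + 1) W' := by
  classical
  choose X hX using fun Q : Subgroup D => MCl.exists_rep (∏ Q' ∈ upSet R₀ Q, MCl.mk (W Q'))
  have hlt : ∀ Q S : Subgroup D, Q.index = m + 1 → Q < S → S.index ≤ m := fun Q S h1 h2 => by
    have := Subgroup.index_strictAnti h2
    omega
  have hL : ∀ Q : Subgroup D, Q.index = m + 1 → RLvl h Q (X Q) := fun Q hQ =>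
    hW.lvl (fun S => hlt Q S hQ) (hX Q)
  have htop : ∀ Q : Subgroup D, Q.index = m + 1 → Q ≠ ⊤ := fun Q hQ h1 => by
    rw [h1, Subgroup.index_top] at hQ
    omega
  have hex : ∀ Q : Subgroup D, ∃ W' : MRep R D, (Q.index ≤ m → W' = W Q) ∧
      (¬ Q ≤ R₀ → Q.index = m + 1 → RStep h Q (X Q) W') := fun Q => by
    by_cases hc : ¬ Q ≤ R₀ ∧ Q.index = m + 1
    · obtain ⟨W', hW'⟩ := (hL Q hc.2).exists_step (htop Q hc.2) hc.1
      exact ⟨W', fun h1 => by omega, fun _ _ => hW'⟩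
    · exact ⟨W Q, fun _ => rfl, fun h1 h2 => absurd ⟨h1, h2⟩ hc⟩
  choose W' hW1 hW2 using hex
  refine ⟨W', fun Q hQ0 hQ => ?_⟩
  rcases Nat.lt_or_eq_of_le hQ with hQ1 | hQ1
  · have hQm : Q.index ≤ m := by omega
    obtain ⟨g1, g2, g3⟩ := hW Q hQ0 hQm
    refine ⟨by rw [hW1 Q hQm]; exact g1, fun l => ?_, fun Y hY => g3 Y (hY.trans ?_)⟩
    · rw [hW1 Q hQm, hW1 _ ((frtower_index (φ l) Q).trans_le hQm)]
      exact g2 l
    · refine Finset.prod_congr rfl fun S hS => ?_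
      rw [hW1 S ((Subgroup.index_antitone (Finset.mem_filter.mp hS).2).trans hQm)]
  · have hS := hW2 Q hQ0 hQ1
    refine ⟨hS.endo, fun l => ?_, fun Y hY => h.lg_iso (MCl.mk_eq.mp ?_) hS.lg⟩
    · exact RStep.twIso (hL Q hQ1) (htop Q hQ1) hQ0 rfl
        (rgtower_tw h.free l (fun S hS => (hW S (mem_upSet.1 hS).2
          (hlt Q S hQ1 (mem_upSet.1 hS).1)).2.1 l) (hX Q) (hX _))
        hS (hW2 _ (fun h1 => hQ0 ((h.free.map_le_iff l Q).1 h1))
          ((frtower_index (φ l) Q).trans hQ1))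
    · have e1 : Finset.univ.filter (Q ≤ ·) = insert Q (upSet R₀ Q) := by
        ext T
        simp only [Finset.mem_filter, Finset.mem_univ, true_and, Finset.mem_insert, mem_upSet]
        rw [le_iff_eq_or_lt, eq_comm]
        exact or_congr_right ⟨fun h1 => ⟨h1, fun h2 => hQ0 (h1.le.trans h2)⟩, fun h1 => h1.1⟩
      rw [MCl.mk_kron, hY, hX, e1, Finset.prod_insert fun h1 => (mem_upSet.1 h1).1.ne rfl]
      congr 1
      refine Finset.prod_congr rfl fun S hS => ?_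
      rw [hW1 S (hlt Q S hQ1 (mem_upSet.1 hS).1)]

theorem RSet.tower (h : RSet p ι φ R₀ e j U U') : ∃ X, RLvl h ⊥ X := by
  classical
  have hall : ∀ m, ∃ W, RGood h (m + 1) W := fun m => by
    induction m with
    | zero => exact ⟨_, rGood_one h⟩
    | succ m ih =>
      obtain ⟨W, hW⟩ := ih
      exact hW.succ (by omega)
  obtain ⟨W, hW⟩ := hall (⊥ : Subgroup D).index
  obtain ⟨X, hX⟩ := MCl.exists_rep (∏ Q' ∈ upSet R₀ ⊥, MCl.mk (W Q'))
  exact ⟨X, hW.lvl (fun S hS => (Subgroup.index_antitone hS.le).trans (Nat.le_succ _)) hX⟩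

end Pool.Agent.Lib.MP_b6945b_al.St
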